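import Mathlib

set_option autoImplicit false
open Finset

namespace IM

/-- ℓ⁴ norm on functions `ZMod N → ℂ`. -/
noncomputable def N4 {N : ℕ} [NeZero N] (f : ZMod N → ℂ) : ℝ :=
  ‖(WithLp.toLp 4 f : PiLp 4 (fun _ : ZMod N => ℂ))‖

/-- ℓ² norm on functions `ZMod N → ℂ`. -/
noncomputable def N2 {N : ℕ} [NeZero N] (f : ZMod N → ℂ) : ℝ :=
  ‖(WithLp.toLp 2 f : PiLp 2 (fun _ : ZMod N => ℂ))‖

/-- the character `exp(2π i x / N)` -/
noncomputable def E {N : ℕ} [NeZero N] (x : ZMod N) : ℂ := ZMod.stdAddChar x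

/-- Fourier multiplier with symbol `m`. -/
noncomputable def T {N : ℕ} [NeZero N] (m : ZMod N → ℂ) (f : ZMod N → ℂ) : ZMod N → ℂ :=
  fun n => (1 / (N : ℂ)) * ∑ j : ZMod N, ∑ l : ZMod N, m j * f l * E (j * (l - n))

/-- `m` is an ℓ⁴ multiplier on `ZMod N` with norm at most `C`. -/
def MB {N : ℕ} [NeZero N] (C : ℝ) (m : ZMod N → ℂ) : Prop :=
  ∀ f : ZMod N → ℂ, N4 (T m f) ≤ C * N4 f

variable {N : ℕ} [NeZero N]

instance fact4 : Fact ((1 : ENNReal) ≤ 4) := ⟨by norm_num⟩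

lemma N4_nonneg (f : ZMod N → ℂ) : 0 ≤ N4 f := by unfold N4; exact norm_nonneg _
lemma N2_nonneg (f : ZMod N → ℂ) : 0 ≤ N2 f := by unfold N2; exact norm_nonneg _

lemma N4_pow (f : ZMod N → ℂ) : N4 f ^ 4 = ∑ n, ‖f n‖ ^ 4 := by
  unfold N4
  have h4 : (4 : ENNReal).toReal = 4 := by simp
  rw [PiLp.norm_eq_sum (by rw [h4]; norm_num)]
  simp only [h4]
  rw [← Real.rpow_natCast, ← Real.rpow_mul (by positivity)]
  norm_num
  
lemma N2_sq (f : ZMod N → ℂ) : N2 f ^ 2 = ∑ n, ‖f n‖ ^ 2 := by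
  unfold N2
  rw [EuclideanSpace.norm_sq_eq]

lemma N4_add_le (f g : ZMod N → ℂ) : N4 (f + g) ≤ N4 f + N4 g := by
  unfold N4
  rw [WithLp.toLp_add]
  exact norm_add_le _ _

lemma N4_sub_le (f g : ZMod N → ℂ) : N4 (f - g) ≤ N4 f + N4 g := by
  unfold N4
  rw [WithLp.toLp_sub]
  exact norm_sub_le _ _

lemma N4_smul (c : ℂ) (f : ZMod N → ℂ) : N4 (c • f) = ‖c‖ * N4 f := by
  unfold N4
  rw [WithLp.toLp_smul]
  exact norm_smul _ _

lemma N4_zero : N4 (0 : ZMod N → ℂ) = 0 := by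
  unfold N4
  rw [WithLp.toLp_zero]
  exact norm_zero

lemma N4_neg (f : ZMod N → ℂ) : N4 (-f) = N4 f := by
  have := N4_smul (-1) f
  simpa using this

lemma N4_sum_le {ι : Type*} (s : Finset ι) (f : ι → ZMod N → ℂ) :
    N4 (∑ i ∈ s, f i) ≤ ∑ i ∈ s, N4 (f i) := by
  classical
  induction s using Finset.induction_on with
  | empty => simp [N4_zero]
  | insert a s ha ih =>
    rw [Finset.sum_insert ha, Finset.sum_insert ha]
    exact (N4_add_le _ _).trans (by linarith)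

lemma N4_le_of_pow {f : ZMod N → ℂ} {c : ℝ} (hc : 0 ≤ c) (h : ∑ n, ‖f n‖ ^ 4 ≤ c ^ 4) : N4 f ≤ c := by
  rw [← N4_pow] at h
  exact le_of_pow_le_pow_left₀ (by norm_num) hc h

lemma N4_mono {f g : ZMod N → ℂ} (h : ∀ n, ‖f n‖ ≤ ‖g n‖) : N4 f ≤ N4 g := by
  apply N4_le_of_pow (N4_nonneg _)
  rw [N4_pow]
  exact Finset.sum_le_sum fun n _ => pow_le_pow_left₀ (norm_nonneg _) (h n) 4

lemma N4_congr_norm {f g : ZMod N → ℂ} (h : ∀ n, ‖f n‖ = ‖g n‖) : N4 f = N4 g :=
  le_antisymm (N4_mono fun n => (h n).le) (N4_mono fun n => (h n).ge)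

lemma N4_translate (f : ZMod N → ℂ) (a : ZMod N) : N4 (fun n => f (n - a)) = N4 f := by
  have h : N4 (fun n => f (n - a)) ^ 4 = N4 f ^ 4 := by
    rw [N4_pow, N4_pow]
    exact (Equiv.subRight a).sum_comp (fun n => ‖f n‖ ^ 4)
  exact (pow_left_inj₀ (N4_nonneg _) (N4_nonneg _) (by norm_num)).1 h

/-! ### characters -/

lemma E_add (x y : ZMod N) : E (x + y) = E x * E y := AddChar.map_add_eq_mul _ _ _
lemma E_zero : E (0 : ZMod N) = 1 := AddChar.map_zero_eq_one _
lemma E_norm (x : ZMod N) : ‖E x‖ = 1 := by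
  unfold E
  exact AddChar.norm_apply _ _
lemma E_neg (x : ZMod N) : E (-x) = (starRingEnd ℂ) (E x) := by
  unfold E
  rw [AddChar.map_neg_eq_conj]

lemma E_natCast (k : ℕ) : E ((k : ZMod N)) = Complex.exp (2 * Real.pi * Complex.I * k / N) := by
  unfold E
  have := ZMod.stdAddChar_coe (N := N) (k : ℤ)
  push_cast at this
  rw [this]

lemma sum_E (a : ZMod N) : ∑ j : ZMod N, E (j * a) = if a = 0 then (N : ℂ) else 0 := by
  unfold E
  have h := AddChar.sum_mulShift (R := ZMod N) (R' := ℂ) a (ψ := ZMod.stdAddChar)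
    (ZMod.isPrimitive_stdAddChar N)
  rw [ZMod.card] at h
  simpa using h

lemma sum_E' (a : ZMod N) : ∑ j : ZMod N, E (a * j) = if a = 0 then (N : ℂ) else 0 := by
  rw [← sum_E a]; simp [mul_comm]

lemma Nne : (N : ℂ) ≠ 0 := by exact_mod_cast NeZero.ne N

/-- Fourier coefficient -/
noncomputable def F (f : ZMod N → ℂ) (j : ZMod N) : ℂ := ∑ l, f l * E (j * l)

lemma T_eq (m f : ZMod N → ℂ) (n : ZMod N) :
    T m f n = (1 / (N : ℂ)) * ∑ j, m j * F f j * E (-(j * n)) := by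
  unfold T F
  congr 1
  apply Finset.sum_congr rfl; intro j _
  rw [Finset.mul_sum, Finset.sum_mul]
  apply Finset.sum_congr rfl; intro l _
  rw [mul_sub, sub_eq_add_neg, E_add]; ring

lemma F_T (m f : ZMod N → ℂ) (j : ZMod N) : F (T m f) j = m j * F f j := by
  have : F (T m f) j = ∑ l, (1 / (N : ℂ)) * (∑ i, m i * F f i * E (-(i * l))) * E (j * l) := by
    unfold F
    apply Finset.sum_congr rfl; intro l _
    rw [T_eq]; rfl
  rw [this]
  have h2 : ∀ l, (1 / (N : ℂ)) * (∑ i, m i * F f i * E (-(i * l))) * E (j * l)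
      = ∑ i, (1 / (N : ℂ)) * (m i * F f i) * E ((j - i) * l) := by
    intro l
    rw [Finset.mul_sum, Finset.sum_mul]
    apply Finset.sum_congr rfl; intro i _
    rw [sub_mul, sub_eq_add_neg, E_add]; ring
  simp_rw [h2]
  rw [Finset.sum_comm]
  simp_rw [← Finset.mul_sum, sum_E']
  rw [Finset.sum_eq_single j]
  · simp only [sub_self, if_true]
    field_simp [Nne (N := N)]
  · intro b _ hb
    rw [if_neg (sub_ne_zero.2 (Ne.symm hb))]; simp
  · simp

lemma F_inv (f : ZMod N → ℂ) (n : ZMod N) : f n = (1 / (N : ℂ)) * ∑ j, F f j * E (-(j * n)) := by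
  have h : ∑ j, F f j * E (-(j * n)) = ∑ l, f l * ∑ j, E (j * (l - n)) := by
    unfold F
    simp_rw [Finset.sum_mul, Finset.mul_sum]
    rw [Finset.sum_comm]
    apply Finset.sum_congr rfl; intro l _
    apply Finset.sum_congr rfl; intro j _
    rw [mul_sub, sub_eq_add_neg, E_add]; ring
  rw [h]
  simp_rw [sum_E]
  rw [Finset.sum_eq_single n]
  · simp only [sub_self, if_true]; field_simp [Nne (N := N)]
  · intro b _ hb
    rw [if_neg (sub_ne_zero.2 hb)]; simp
  · simp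

lemma F_inj {f g : ZMod N → ℂ} (h : ∀ j, F f j = F g j) : f = g := by
  funext n
  rw [F_inv f n, F_inv g n]
  simp [h]

lemma T_mul (m m' f : ZMod N → ℂ) : T (fun j => m j * m' j) f = T m (T m' f) := by
  apply F_inj; intro j
  rw [F_T, F_T, F_T]; ring

lemma T_one (f : ZMod N → ℂ) : T (fun _ => 1) f = f := by
  apply F_inj; intro j
  rw [F_T]; ring

lemma F_add (f g : ZMod N → ℂ) (j : ZMod N) : F (f + g) j = F f j + F g j := by
  unfold F; simp [add_mul, Finset.sum_add_distrib]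

lemma F_smul (c : ℂ) (f : ZMod N → ℂ) (j : ZMod N) : F (c • f) j = c * F f j := by
  unfold F; simp [Finset.mul_sum, mul_assoc]

lemma T_add_symb (m m' f : ZMod N → ℂ) : T (fun j => m j + m' j) f = T m f + T m' f := by
  apply F_inj; intro j
  rw [F_add, F_T, F_T, F_T]; ring

lemma T_smul_symb (c : ℂ) (m f : ZMod N → ℂ) : T (fun j => c * m j) f = c • T m f := by
  apply F_inj; intro j
  rw [F_smul, F_T, F_T]; ring

lemma T_add (m f g : ZMod N → ℂ) : T m (f + g) = T m f + T m g := by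
  apply F_inj; intro j
  rw [F_add, F_T, F_T, F_T, F_add]; ring

lemma T_smul (c : ℂ) (m f : ZMod N → ℂ) : T m (c • f) = c • T m f := by
  apply F_inj; intro j
  rw [F_smul, F_T, F_T, F_smul]; ring

lemma T_sub (m f g : ZMod N → ℂ) : T m (f - g) = T m f - T m g := by
  have := T_add m f ((-1 : ℂ) • g)
  rw [T_smul] at this
  simpa [sub_eq_add_neg] using this

lemma T_trans (a : ZMod N) (f : ZMod N → ℂ) : T (fun j => E (j * a)) f = fun n => f (n - a) := by
  apply F_inj; intro j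
  rw [F_T]
  unfold F
  rw [Finset.mul_sum]
  symm
  rw [← Equiv.sum_comp (Equiv.addRight a) (fun l => f (l - a) * E (j * l))]
  apply Finset.sum_congr rfl; intro l _
  simp only [Equiv.coe_addRight, add_sub_cancel_right]
  rw [mul_add, E_add]; ring

/-- Parseval -/
lemma parseval (f : ZMod N → ℂ) : ∑ j, ‖F f j‖ ^ 2 = N * ∑ n, ‖f n‖ ^ 2 := by
  have h : (∑ j, (starRingEnd ℂ) (F f j) * F f j) = N * ∑ n, (starRingEnd ℂ) (f n) * f n := by
    have h1 : ∀ j, (starRingEnd ℂ) (F f j) * F f j =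
        ∑ n, (starRingEnd ℂ) (f n) * (F f j * E (-(j * n))) := by
      intro j
      conv_lhs => rw [F]
      rw [map_sum, Finset.sum_mul]
      apply Finset.sum_congr rfl; intro n _
      rw [map_mul, E_neg]; change _ * F f j = _; ring
    simp_rw [h1]
    rw [Finset.sum_comm, Finset.mul_sum]
    apply Finset.sum_congr rfl; intro n _
    rw [← Finset.mul_sum]
    have h2 := F_inv f n
    have : ∑ j, F f j * E (-(j * n)) = N * f n := by
      conv_rhs => rw [h2]
      field_simp [Nne (N := N)]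
    rw [this]; ring
  have h3 : ∀ z : ℂ, (starRingEnd ℂ) z * z = ((‖z‖ ^ 2 : ℝ) : ℂ) := by
    intro z; rw [mul_comm, Complex.mul_conj, Complex.normSq_eq_norm_sq]
  simp_rw [h3] at h
  exact_mod_cast h

lemma T_N2 {m : ZMod N → ℂ} {c : ℝ} (hc : 0 ≤ c) (hm : ∀ j, ‖m j‖ ≤ c) (f : ZMod N → ℂ) :
    N2 (T m f) ≤ c * N2 f := by
  have hN : (0:ℝ) < N := by exact_mod_cast Nat.pos_of_ne_zero (NeZero.ne N)
  apply le_of_pow_le_pow_left₀ (two_ne_zero) (by have := N2_nonneg f; positivity)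
  rw [mul_pow, N2_sq, N2_sq]
  have h1 := parseval (T m f)
  have h2 := parseval f
  have h3 : ∑ j, ‖F (T m f) j‖ ^ 2 ≤ c ^ 2 * ∑ j, ‖F f j‖ ^ 2 := by
    rw [Finset.mul_sum]
    apply Finset.sum_le_sum; intro j _
    rw [F_T, norm_mul, mul_pow]
    have := hm j
    gcongr
  rw [h1, h2] at h3
  have h4 : (N:ℝ) * ∑ n, ‖T m f n‖ ^ 2 ≤ N * (c ^ 2 * ∑ n, ‖f n‖ ^ 2) := by
    calc _ ≤ _ := h3
      _ = _ := by ring
  exact le_of_mul_le_mul_left h4 hN

/-! ### calculus of `MB` -/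

lemma MB.mul {C C' : ℝ} {m m' : ZMod N → ℂ} (hC : 0 ≤ C) (h : MB C m) (h' : MB C' m') :
    MB (C * C') (fun j => m j * m' j) := by
  intro f
  rw [T_mul]
  calc _ ≤ C * N4 (T m' f) := h _
    _ ≤ C * (C' * N4 f) := by gcongr; exact h' f
    _ = _ := by ring

lemma MB.add {C C' : ℝ} {m m' : ZMod N → ℂ} (h : MB C m) (h' : MB C' m') :
    MB (C + C') (fun j => m j + m' j) := by
  intro f
  rw [T_add_symb]
  calc _ ≤ N4 (T m f) + N4 (T m' f) := N4_add_le _ _
    _ ≤ C * N4 f + C' * N4 f := add_le_add (h f) (h' f)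
    _ = _ := by ring

lemma MB.smul {C : ℝ} {m : ZMod N → ℂ} (c : ℂ) (h : MB C m) :
    MB (‖c‖ * C) (fun j => c * m j) := by
  intro f
  rw [T_smul_symb, N4_smul, mul_assoc]
  gcongr
  exact h f

lemma MB.mono {C C' : ℝ} {m : ZMod N → ℂ} (h : MB C m) (hC : C ≤ C') : MB C' m := by
  intro f
  exact (h f).trans (by gcongr; exact N4_nonneg f)

lemma MB.congr {C : ℝ} {m m' : ZMod N → ℂ} (h : MB C m) (hm : ∀ j, m j = m' j) : MB C m' := by
  have : m = m' := funext hm
  rwa [← this]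

lemma MB.one : MB 1 (fun _ : ZMod N => (1:ℂ)) := by
  intro f; rw [T_one]; simp

lemma MB.const (c : ℂ) : MB ‖c‖ (fun _ : ZMod N => c) := by
  have := (MB.one (N := N)).smul c
  simpa using this

lemma MB.trans (a : ZMod N) : MB 1 (fun j : ZMod N => E (j * a)) := by
  intro f; rw [T_trans, N4_translate]; simp

lemma MB.sum {ι : Type*} (s : Finset ι) (C : ι → ℝ) (m : ι → ZMod N → ℂ)
    (h : ∀ i ∈ s, MB (C i) (m i)) : MB (∑ i ∈ s, C i) (fun j => ∑ i ∈ s, m i j) := by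
  classical
  induction s using Finset.induction_on with
  | empty =>
    intro f
    have : T (fun _ : ZMod N => (0:ℂ)) f = 0 := by
      have := T_smul_symb 0 (fun _ => (1:ℂ)) f
      simpa using this
    simp [this, N4_zero]
  | insert a s ha ih =>
    have h1 := h a (Finset.mem_insert_self _ _)
    have h2 := ih fun i hi => h i (Finset.mem_insert_of_mem hi)
    rw [Finset.sum_insert ha]
    exact (h1.add h2).congr fun j => by rw [Finset.sum_insert ha]

/-- limits of symbols -/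
lemma MB.lim {C : ℝ} {m : ℕ → ZMod N → ℂ} {m' : ZMod N → ℂ} (h : ∀ k, MB C (m k))
    (hl : ∀ j, Filter.Tendsto (fun k => m k j) Filter.atTop (nhds (m' j))) : MB C m' := by
  intro f
  have h1 : Filter.Tendsto (fun k => N4 (T (m k) f)) Filter.atTop (nhds (N4 (T m' f))) := by
    have h2 : ∀ n, Filter.Tendsto (fun k => T (m k) f n) Filter.atTop (nhds (T m' f n)) := by
      intro n
      unfold T
      apply Filter.Tendsto.const_mul
      apply tendsto_finsetSum; intro j _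
      apply tendsto_finsetSum; intro l _
      exact ((hl j).mul_const _).mul_const _
    unfold N4
    apply Filter.Tendsto.norm
    have : Continuous (WithLp.toLp 4 : (ZMod N → ℂ) → PiLp 4 (fun _ : ZMod N => ℂ)) :=
      PiLp.continuous_toLp 4 _
    exact (this.tendsto _).comp (tendsto_pi_nhds.2 h2)
  exact le_of_tendsto' h1 fun k => h k f

end IM
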