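import Pool.Agent.MP58366f.Defs

set_option autoImplicit false
open Finset

namespace W702

theorem AN_summable {k : ℕ → ℂ} (hk : Summable (fun m => ‖k m‖)) {z : ℂ} (hz : ‖z‖ ≤ 1) :
    Summable (fun m => ‖k m * z ^ m‖) := by
  refine Summable.of_nonneg_of_le (fun _ => norm_nonneg _) (fun m => ?_) hk
  rw [norm_mul, norm_pow]
  exact mul_le_of_le_one_right (norm_nonneg _) (pow_le_one₀ (norm_nonneg _) hz)

/-- TARGET 1 -/
theorem AN_mul {c c' : ℝ} {f g : ℂ → ℂ} (hf : AN c f) (hg : AN c' g) : AN (c * c') (fun z => f z * g z) := by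
  obtain ⟨k, hk, hkc, hkf⟩ := hf
  obtain ⟨l, hl, hlc, hlg⟩ := hg
  refine ⟨fun m => ∑ p ∈ antidiagonal m, k p.1 * l p.2, ?_, ?_, ?_⟩
  · exact summable_norm_sum_mul_antidiagonal_of_summable_norm hk hl
  · have hk' : Summable (fun m => ‖(‖k m‖)‖) := by simpa using hk
    have hl' : Summable (fun m => ‖(‖l m‖)‖) := by simpa using hl
    have hprod := tsum_mul_tsum_eq_tsum_sum_antidiagonal_of_summable_norm hk' hl'
    have hs : Summable (fun m => ∑ p ∈ antidiagonal m, ‖k p.1‖ * ‖l p.2‖) := by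
      have := summable_norm_sum_mul_antidiagonal_of_summable_norm hk' hl'
      exact this.of_norm
    calc ∑' m, ‖∑ p ∈ antidiagonal m, k p.1 * l p.2‖
        ≤ ∑' m, ∑ p ∈ antidiagonal m, ‖k p.1‖ * ‖l p.2‖ := by
          apply Summable.tsum_le_tsum _
            (summable_norm_sum_mul_antidiagonal_of_summable_norm hk hl) hs
          intro m
          refine (norm_sum_le _ _).trans (Finset.sum_le_sum (fun p _ => ?_))
          rw [norm_mul]
      _ = (∑' m, ‖k m‖) * ∑' m, ‖l m‖ := hprod.symm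
      _ ≤ c * c' := by
          apply mul_le_mul hkc hlc (tsum_nonneg (fun _ => norm_nonneg _))
          exact (tsum_nonneg (fun _ => norm_nonneg _)).trans hkc
  · intro z hz
    show f z * g z = _
    rw [hkf z hz, hlg z hz,
      tsum_mul_tsum_eq_tsum_sum_antidiagonal_of_summable_norm (AN_summable hk hz) (AN_summable hl hz)]
    congr 1
    funext m
    rw [Finset.sum_mul]
    apply Finset.sum_congr rfl
    intro p hp
    rw [← mem_antidiagonal.mp hp, pow_add]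
    ring

/-- TARGET 2 -/
theorem AN_add {c c' : ℝ} {f g : ℂ → ℂ} (hf : AN c f) (hg : AN c' g) : AN (c + c') (fun z => f z + g z) := by
  obtain ⟨k, hk, hkc, hkf⟩ := hf
  obtain ⟨l, hl, hlc, hlg⟩ := hg
  have hs : Summable (fun m => ‖k m + l m‖) :=
    Summable.of_nonneg_of_le (fun _ => norm_nonneg _) (fun m => norm_add_le _ _) (hk.add hl)
  refine ⟨fun m => k m + l m, hs, ?_, ?_⟩
  · calc ∑' m, ‖k m + l m‖ ≤ ∑' m, (‖k m‖ + ‖l m‖) :=
          Summable.tsum_le_tsum (fun m => norm_add_le _ _) hs (hk.add hl)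
      _ = (∑' m, ‖k m‖) + ∑' m, ‖l m‖ := hk.tsum_add hl
      _ ≤ _ := add_le_add hkc hlc
  · intro z hz
    show f z + g z = _
    rw [hkf z hz, hlg z hz, ← (AN_summable hk hz).of_norm.tsum_add (AN_summable hl hz).of_norm]
    congr 1
    funext m
    ring

/-- TARGET 3: functions analytic in a disc of radius `> 1` -/
theorem AN_of_analytic {R : ℝ} (hR : 1 < R) {f : ℂ → ℂ} (hf : DifferentiableOn ℂ f (Metric.ball 0 R)) :
    ∃ c, AN c f := by
  obtain ⟨R', h1, h2⟩ := exists_between hR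
  have hR'0 : 0 ≤ R' := by linarith
  lift R' to NNReal using hR'0
  have hsub : Metric.closedBall (0 : ℂ) R' ⊆ Metric.ball 0 R := Metric.closedBall_subset_ball h2
  have hR'pos : 0 < R' := lt_trans zero_lt_one (by exact_mod_cast h1)
  have hp := (hf.mono hsub).hasFPowerSeriesOnBall hR'pos
  set p := cauchyPowerSeries f 0 R' with hpdef
  have hrad : ((1 : NNReal) : ENNReal) < p.radius := by
    refine lt_of_lt_of_le ?_ hp.r_le
    exact_mod_cast h1
  have hsum : Summable (fun m => ‖p.coeff m‖) := by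
    have := p.summable_norm_mul_pow hrad
    simpa using this
  refine ⟨∑' m, ‖p.coeff m‖, fun m => p.coeff m, hsum, le_rfl, ?_⟩
  intro z hz
  have hz' : z ∈ Metric.eball (0 : ℂ) (R' : ENNReal) := by
    rw [mem_eball_zero_iff]
    have : ‖z‖₊ < R' := by
      rw [← NNReal.coe_lt_coe, coe_nnnorm]
      exact lt_of_le_of_lt hz h1
    exact_mod_cast this
  have h3 := hp.hasSum hz'
  rw [zero_add] at h3
  rw [← h3.tsum_eq]
  congr 1
  funext m
  rw [FormalMultilinearSeries.apply_eq_pow_smul_coeff, smul_eq_mul, mul_comm]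

/-! ### the parameters -/

theorem vB_r (η : ℝ) (hη : 0 < η) (L : ℝ) (hL : Real.pi * η < L) :
    0 < (1 - Real.pi * η / L) / (1 + Real.pi * η / L) ∧
    (1 - Real.pi * η / L) / (1 + Real.pi * η / L) < 1 ∧
    1 - (1 - Real.pi * η / L) / (1 + Real.pi * η / L) ≤ 2 * (Real.pi * η / L) ∧
    Real.pi * η / L ≤ 1 - (1 - Real.pi * η / L) / (1 + Real.pi * η / L) := by
  have hπ := Real.pi_pos
  have h0 : 0 < Real.pi * η := by positivity
  have hL0 : 0 < L := lt_trans h0 hL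
  have h1 : 0 < Real.pi * η / L := by positivity
  have h2 : Real.pi * η / L < 1 := (div_lt_one hL0).mpr hL
  set x := Real.pi * η / L with hx
  have e : 1 - (1 - x) / (1 + x) = 2 * x / (1 + x) := by field_simp; ring
  refine ⟨div_pos (by linarith) (by linarith), ?_, ?_, ?_⟩
  · rw [div_lt_one (by linarith)]; linarith
  · rw [e, div_le_iff₀ (by linarith)]; nlinarith
  · rw [e, le_div_iff₀ (by linarith)]; nlinarith

theorem vB_w_norm (n : ℕ) (L : ℝ) (k : ℕ) :
    ‖Complex.exp (-(2 * Real.pi * Complex.I * ((k : ℂ) - n + 1 / 2) / L))‖ = 1 := by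
  have h : -(2 * Real.pi * Complex.I * ((k : ℂ) - n + 1 / 2) / L)
      = ((-(2 * Real.pi * ((k : ℝ) - n + 1 / 2) / L) : ℝ) : ℂ) * Complex.I := by
    push_cast
    ring
  rw [h, Complex.norm_exp_ofReal_mul_I]

theorem fac_denom {r : ℝ} (hr : 0 < r) {w z : ℂ} (hw : ‖w‖ = 1) (hz : ‖z‖ < 1 / r) :
    1 - (r : ℂ) * w * z ≠ 0 := by
  intro h
  have h1 : (r : ℂ) * w * z = 1 := (sub_eq_zero.mp h).symm
  have h2 : ‖(r : ℂ) * w * z‖ = 1 := by rw [h1]; simp
  rw [norm_mul, norm_mul, hw, mul_one, Complex.norm_real, Real.norm_of_nonneg hr.le] at h2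
  rw [lt_div_iff₀ hr] at hz
  nlinarith

theorem fac_sq (r : ℝ) (u : ℂ) :
    ‖1 - (r : ℂ) * u‖ ^ 2 - ‖(r : ℂ) - u‖ ^ 2 = (1 - r ^ 2) * (1 - ‖u‖ ^ 2) := by
  rw [← Complex.normSq_eq_norm_sq, ← Complex.normSq_eq_norm_sq, ← Complex.normSq_eq_norm_sq]
  simp only [Complex.normSq_apply, Complex.sub_re, Complex.sub_im, Complex.mul_re, Complex.mul_im,
    Complex.ofReal_re, Complex.ofReal_im, Complex.one_re, Complex.one_im]
  ring

theorem fac_norm_le {r : ℝ} (hr : 0 < r) (hr1 : r < 1) {w z : ℂ} (hw : ‖w‖ = 1) (hz : ‖z‖ ≤ 1) :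
    ‖((r : ℂ) - w * z) / (1 - (r : ℂ) * w * z)‖ ≤ 1 := by
  have hd := fac_denom hr hw (lt_of_le_of_lt hz (by rw [lt_div_iff₀ hr]; linarith))
  rw [norm_div]
  rw [div_le_one (norm_pos_iff.mpr hd)]
  have h := fac_sq r (w * z)
  have hu : ‖w * z‖ ≤ 1 := by rw [norm_mul, hw, one_mul]; exact hz
  have hu2 : ‖w * z‖ ^ 2 ≤ 1 := pow_le_one₀ (norm_nonneg _) hu
  have h3 : 0 ≤ (1 - r ^ 2) * (1 - ‖w * z‖ ^ 2) := mul_nonneg (by nlinarith) (by linarith)
  rw [← mul_assoc] at h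
  apply le_of_sq_le_sq _ (norm_nonneg _)
  linarith

theorem fac_norm_eq {r : ℝ} (hr : 0 < r) (hr1 : r < 1) {w z : ℂ} (hw : ‖w‖ = 1) (hz : ‖z‖ = 1) :
    ‖((r : ℂ) - w * z) / (1 - (r : ℂ) * w * z)‖ = 1 := by
  have hd := fac_denom hr hw (lt_of_le_of_lt hz.le (by rw [lt_div_iff₀ hr]; linarith))
  rw [norm_div, div_eq_one_iff_eq (norm_pos_iff.mpr hd).ne']
  have h := fac_sq r (w * z)
  have hu : ‖w * z‖ = 1 := by rw [norm_mul, hw, one_mul]; exact hz
  rw [hu, ← mul_assoc] at h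
  have h2 : ‖(r : ℂ) - w * z‖ ^ 2 = ‖1 - (r : ℂ) * w * z‖ ^ 2 := by
    have : (1 - r ^ 2) * (1 - (1 : ℝ) ^ 2) = 0 := by ring
    linarith
  exact (pow_left_inj₀ (norm_nonneg _) (norm_nonneg _) (by norm_num)).mp h2

/-- TARGET 4: basic properties of `vB` for `L > πη` -/
theorem vB_basic (η : ℝ) (hη : 0 < η) (n : ℕ) (L : ℝ) (hL : Real.pi * η < L) :
    (∃ R : ℝ, 1 < R ∧ DifferentiableOn ℂ (vB η n L) (Metric.ball 0 R)) ∧
    (∀ z : ℂ, ‖z‖ ≤ 1 → ‖vB η n L z‖ ≤ 1) ∧ (∀ z : ℂ, ‖z‖ = 1 → ‖vB η n L z‖ = 1) ∧ vB η n L 1 = 1 := by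
  obtain ⟨hr, hr1, -, -⟩ := vB_r η hη L hL
  unfold vB
  generalize (1 - Real.pi * η / L) / (1 + Real.pi * η / L) = r at hr hr1 ⊢
  refine ⟨⟨1 / r, by rw [lt_div_iff₀ hr]; linarith, ?_⟩, ?_, ?_, ?_⟩
  · apply DifferentiableOn.fun_finsetProd
    intro k _
    apply DifferentiableOn.div
    · fun_prop
    · fun_prop
    · intro z hz
      rw [mem_ball_zero_iff] at hz
      exact fac_denom hr (vB_w_norm n L k) hz
  · intro z hz
    rw [norm_prod]
    apply Finset.prod_le_one (fun _ _ => norm_nonneg _)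
    intro k _
    exact fac_norm_le hr hr1 (vB_w_norm n L k) hz
  · intro z hz
    rw [norm_prod]
    apply Finset.prod_eq_one
    intro k _
    exact fac_norm_eq hr hr1 (vB_w_norm n L k) hz
  · rw [two_mul, Finset.prod_range_add, ← Finset.prod_range_reflect (fun k => _) n,
      ← Finset.prod_mul_distrib]
    apply Finset.prod_eq_one
    intro k hk
    rw [mem_range] at hk
    set w : ℂ := Complex.exp (-(2 * Real.pi * Complex.I * (((n - 1 - k : ℕ) : ℂ) - n + 1 / 2) / L))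
      with hw
    set w' : ℂ := Complex.exp (-(2 * Real.pi * Complex.I * (((n + k : ℕ) : ℂ) - n + 1 / 2) / L))
      with hw'
    have hww : w * w' = 1 := by
      rw [hw, hw', ← Complex.exp_add]
      have h1 : ((n - 1 - k : ℕ) : ℂ) = (n : ℂ) - 1 - k := by
        have : ((n - 1 - k : ℕ) : ℂ) + 1 + k = n := by exact_mod_cast (by omega : n - 1 - k + 1 + k = n)
        linear_combination this
      rw [h1]
      push_cast
      have h2 : -(2 * (Real.pi : ℂ) * Complex.I * ((n : ℂ) - 1 - k - n + 1 / 2) / L) +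
          -(2 * Real.pi * Complex.I * ((n : ℂ) + k - n + 1 / 2) / L) = 0 := by ring
      rw [h2, Complex.exp_zero]
    have hwn : ‖w‖ = 1 := vB_w_norm n L (n - 1 - k)
    have hwn' : ‖w'‖ = 1 := vB_w_norm n L (n + k)
    have hz1 : ‖(1 : ℂ)‖ < 1 / r := by rw [norm_one, lt_div_iff₀ hr]; linarith
    have hd := fac_denom hr hwn hz1
    have hd' := fac_denom hr hwn' hz1
    rw [mul_one] at hd hd'
    simp only [mul_one]
    rw [div_mul_div_comm, div_eq_one_iff_eq (mul_ne_zero hd hd')]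
    linear_combination (1 - (r : ℂ) ^ 2) * hww

/-! ### Wiener algebra building blocks -/

theorem AN_mono {c c' : ℝ} {f : ℂ → ℂ} (hf : AN c f) (h : c ≤ c') : AN c' f := by
  obtain ⟨k, hk, hkc, hkf⟩ := hf
  exact ⟨k, hk, hkc.trans h, hkf⟩

theorem AN_congr {c : ℝ} {f g : ℂ → ℂ} (hf : AN c f) (h : ∀ z : ℂ, ‖z‖ ≤ 1 → g z = f z) : AN c g := by
  obtain ⟨k, hk, hkc, hkf⟩ := hf
  exact ⟨k, hk, hkc, fun z hz => (h z hz).trans (hkf z hz)⟩

theorem AN_monomial (a : ℂ) (j : ℕ) : AN ‖a‖ (fun z => a * z ^ j) := by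
  have hs : (fun m => ‖(if m = j then a else 0 : ℂ)‖) = fun m => if m = j then ‖a‖ else 0 := by
    funext m
    split_ifs <;> simp
  refine ⟨fun m => if m = j then a else 0, ?_, ?_, ?_⟩
  · rw [hs]
    exact (hasSum_ite_eq j ‖a‖).summable
  · rw [hs, tsum_ite_eq]
  · intro z _
    have : (fun m => (if m = j then a else 0) * z ^ m) = fun m => if m = j then a * z ^ j else 0 := by
      funext m
      split_ifs with h
      · rw [h]
      · simp
    rw [this, tsum_ite_eq]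

theorem AN_const (a : ℂ) : AN ‖a‖ (fun _ => a) :=
  AN_congr (AN_monomial a 0) (fun z _ => by simp)

theorem AN_geom {q : ℂ} {r : ℝ} (hq : ‖q‖ = r) (hr : r < 1) : AN (1 / (1 - r)) (fun z => 1 / (1 - q * z)) := by
  have hr0 : 0 ≤ r := by rw [← hq]; exact norm_nonneg _
  have hs : (fun m => ‖q ^ m‖) = fun m => r ^ m := by
    funext m
    rw [norm_pow, hq]
  refine ⟨fun m => q ^ m, ?_, ?_, ?_⟩
  · rw [hs]; exact summable_geometric_of_lt_one hr0 hr
  · rw [hs, tsum_geometric_of_lt_one hr0 hr, one_div]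
  · intro z hz
    have h1 : ‖q * z‖ < 1 := by
      rw [norm_mul, hq]
      exact lt_of_le_of_lt (mul_le_of_le_one_right hr0 hz) hr
    have h2 : (fun m => q ^ m * z ^ m) = fun m => (q * z) ^ m := by
      funext m
      rw [mul_pow]
    show 1 / (1 - q * z) = _
    rw [h2, tsum_geometric_of_norm_lt_one h1, one_div]

/-- a Blaschke factor has norm at most 3 -/
theorem AN_fac {r : ℝ} (hr : 0 < r) (hr1 : r < 1) {w : ℂ} (hw : ‖w‖ = 1) :
    AN 3 (fun z => ((r : ℂ) - w * z) / (1 - (r : ℂ) * w * z)) := by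
  have hq : ‖(r : ℂ) * w‖ = r := by
    rw [norm_mul, hw, mul_one, Complex.norm_real, Real.norm_of_nonneg hr.le]
  have h1 := AN_add (AN_const (r : ℂ)) (AN_mul (AN_monomial (-(1 - (r : ℂ) ^ 2) * w) 1) (AN_geom hq hr1))
  have hn1 : ‖(r : ℂ)‖ = r := by rw [Complex.norm_real, Real.norm_of_nonneg hr.le]
  have hn2 : ‖-(1 - (r : ℂ) ^ 2) * w‖ = 1 - r ^ 2 := by
    rw [norm_mul, hw, mul_one, norm_neg]
    have : (1 - (r : ℂ) ^ 2) = ((1 - r ^ 2 : ℝ) : ℂ) := by push_cast; ring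
    rw [this, Complex.norm_real, Real.norm_of_nonneg (by nlinarith)]
  rw [hn1, hn2] at h1
  refine AN_congr (AN_mono h1 ?_) ?_
  · have h2 : (1 - r ^ 2) * (1 / (1 - r)) = 1 + r := by
      have : 1 - r ≠ 0 := by linarith
      field_simp
      ring
    rw [h2]; linarith
  · intro z hz
    have hd := fac_denom hr hw (lt_of_le_of_lt hz (by rw [lt_div_iff₀ hr]; linarith))
    field_simp
    ring

/-- the difference of a Blaschke factor from 1, times `1 - z` -/
theorem AN_fac_sub {r : ℝ} (hr : 0 < r) (hr1 : r < 1) {w : ℂ} (hw : ‖w‖ = 1) {B : ℝ}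
    (hB : ‖1 - w‖ ≤ B * (1 - r)) :
    AN ((1 - r) * (2 * (2 + B))) (fun z => (1 - z) * (((r : ℂ) - w * z) / (1 - (r : ℂ) * w * z) - 1)) := by
  have hq : ‖(r : ℂ) * w‖ = r := by
    rw [norm_mul, hw, mul_one, Complex.norm_real, Real.norm_of_nonneg hr.le]
  have h1 := AN_mul (AN_const (-(1 - (r : ℂ)))) (AN_mul (AN_add (AN_const 1) (AN_monomial w 1))
    (AN_add (AN_const 1) (AN_mul (AN_monomial ((r : ℂ) * w - 1) 1) (AN_geom hq hr1))))
  have hn1 : ‖-(1 - (r : ℂ))‖ = 1 - r := by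
    rw [norm_neg]
    have : (1 - (r : ℂ)) = ((1 - r : ℝ) : ℂ) := by push_cast; ring
    rw [this, Complex.norm_real, Real.norm_of_nonneg (by linarith)]
  have hn2 : ‖(r : ℂ) * w - 1‖ ≤ (1 + B) * (1 - r) := by
    have e : (r : ℂ) * w - 1 = -(1 - (r : ℂ)) * w + -(1 - w) := by ring
    rw [e]
    refine (norm_add_le _ _).trans ?_
    rw [norm_mul, hn1, hw, norm_neg]
    linarith
  rw [hn1, norm_one, hw] at h1
  refine AN_congr (AN_mono h1 ?_) ?_
  · apply mul_le_mul_of_nonneg_left _ (by linarith)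
    have h3 : ‖(r : ℂ) * w - 1‖ * (1 / (1 - r)) ≤ 1 + B := by
      rw [mul_one_div, div_le_iff₀ (by linarith)]
      exact hn2
    linarith
  · intro z hz
    have hd := fac_denom hr hw (lt_of_le_of_lt hz (by rw [lt_div_iff₀ hr]; linarith))
    have hi := mul_inv_cancel₀ hd
    rw [div_eq_mul_inv, one_div]
    linear_combination ((1 - z) - (1 - (r : ℂ)) * (1 + w * z)) * hi

/-- TARGET 5: `(1-z)(vB-1)` tends to `0` in the Wiener algebra as `L → ∞` -/
theorem vB_small (η : ℝ) (hη : 0 < η) (n : ℕ) (μ : ℝ) (hμ : 0 < μ) :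
    ∃ L0 : ℝ, ∀ L : ℝ, L0 ≤ L → AN μ (fun z => (1 - z) * (vB η n L z - 1)) := by
  have hπ := Real.pi_pos
  set B : ℝ := 2 * n / η with hB
  have hB0 : 0 ≤ B := by positivity
  set K : ℝ := (2 * (Real.pi * η)) * (2 * (2 + B)) * 3 ^ (2 * n) with hK
  have hK0 : 0 < K := by positivity
  refine ⟨max (Real.pi * η + 1) (K / μ), ?_⟩
  intro L hL
  have hL1 : Real.pi * η < L := by linarith [le_max_left (Real.pi * η + 1) (K / μ)]
  have hL2 : K / μ ≤ L := (le_max_right _ _).trans hL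
  have hL0 : 0 < L := lt_trans (by positivity) hL1
  obtain ⟨hr, hr1, hr2, hr3⟩ := vB_r η hη L hL1
  unfold vB
  generalize (1 - Real.pi * η / L) / (1 + Real.pi * η / L) = r at hr hr1 hr2 hr3 ⊢
  set δ : ℝ := (1 - r) * (2 * (2 + B)) with hδ
  have hδ0 : 0 ≤ δ := mul_nonneg (by linarith) (by positivity)
  have hw1 : ∀ k : ℕ, k < 2 * n →
      ‖1 - Complex.exp (-(2 * Real.pi * Complex.I * ((k : ℂ) - n + 1 / 2) / L))‖ ≤ B * (1 - r) := by
    intro k hk
    have h1 : -(2 * Real.pi * Complex.I * ((k : ℂ) - n + 1 / 2) / L)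
        = Complex.I * ((-(2 * Real.pi * ((k : ℝ) - n + 1 / 2) / L) : ℝ) : ℂ) := by
      push_cast
      ring
    rw [h1, norm_sub_rev]
    refine (Real.norm_exp_I_mul_ofReal_sub_one_le).trans ?_
    rw [norm_neg, Real.norm_eq_abs, abs_div, abs_mul, abs_of_pos (by positivity : 0 < 2 * Real.pi),
      abs_of_pos hL0]
    have h2 : |(k : ℝ) - n + 1 / 2| ≤ n := by
      have hk' : (k : ℝ) + 1 ≤ 2 * n := by exact_mod_cast hk
      have hk0 : (0 : ℝ) ≤ k := by positivity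
      rw [abs_le]
      constructor <;> linarith
    calc 2 * Real.pi * |(k : ℝ) - n + 1 / 2| / L ≤ 2 * Real.pi * n / L := by gcongr
      _ = B * (Real.pi * η / L) := by
          rw [hB]; field_simp
      _ ≤ B * (1 - r) := mul_le_mul_of_nonneg_left hr3 hB0
  have key : ∀ m : ℕ, m ≤ 2 * n → AN (δ * ((3 ^ m - 1) / 2)) (fun z => (1 - z) *
      (∏ k ∈ range m, (((r : ℂ) - Complex.exp (-(2 * Real.pi * Complex.I * ((k : ℂ) - n + 1 / 2) / L)) * z)
    / (1 - (r : ℂ) * Complex.exp (-(2 * Real.pi * Complex.I * ((k : ℂ) - n + 1 / 2) / L)) * z)) - 1)) := by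
    intro m
    induction m with
    | zero =>
      intro _
      refine AN_congr (AN_mono (AN_const 0) (by simp)) ?_
      intro z _
      simp
    | succ m ih =>
      intro hm
      have h1 := ih (by omega)
      have h2 := AN_fac hr hr1 (vB_w_norm n L m)
      have h3 := AN_fac_sub hr hr1 (vB_w_norm n L m) (hw1 m (by omega))
      have h4 := AN_add (AN_mul h1 h2) h3
      refine AN_congr (AN_mono h4 (le_of_eq ?_)) ?_
      · rw [← hδ, pow_succ]; ring
      · intro z _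
        rw [Finset.prod_range_succ]
        ring
  refine AN_mono (key (2 * n) le_rfl) ?_
  have h5 : δ ≤ (2 * (Real.pi * η / L)) * (2 * (2 + B)) :=
    mul_le_mul_of_nonneg_right hr2 (by positivity)
  have h6 : ((3 : ℝ) ^ (2 * n) - 1) / 2 ≤ 3 ^ (2 * n) := by
    have : (0 : ℝ) < 3 ^ (2 * n) := by positivity
    linarith
  calc δ * (((3 : ℝ) ^ (2 * n) - 1) / 2) ≤ δ * 3 ^ (2 * n) := mul_le_mul_of_nonneg_left h6 hδ0
    _ ≤ ((2 * (Real.pi * η / L)) * (2 * (2 + B))) * 3 ^ (2 * n) :=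
        mul_le_mul_of_nonneg_right h5 (by positivity)
    _ = K / L := by rw [hK]; field_simp
    _ ≤ μ := by
        rw [div_le_iff₀ hL0]
        rw [div_le_iff₀ hμ] at hL2
        linarith

end W702
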