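import Mathlib

set_option autoImplicit false
open Finset

namespace ArcMult

variable {N : ℕ} [NeZero N]

/-- the standard character -/
noncomputable abbrev ch (a : ZMod N) : ℂ := ZMod.stdAddChar a

theorem norm_ch (a : ZMod N) : ‖ch a‖ = 1 := by
  exact AddChar.norm_apply _ _

theorem ch_add (a b : ZMod N) : ch (a + b) = ch a * ch b := AddChar.map_add_eq_mul _ _ _

theorem ch_zero : ch (0 : ZMod N) = 1 := AddChar.map_zero_eq_one _

theorem ch_neg_conj (a : ZMod N) : ch (-a) = (starRingEnd ℂ) (ch a) := by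
  exact AddChar.map_neg_eq_conj _ _

theorem sum_ch (b : ZMod N) : ∑ x : ZMod N, ch (x * b) = if b = 0 then (N : ℂ) else 0 := by
  have := AddChar.sum_mulShift (R := ZMod N) b (ZMod.isPrimitive_stdAddChar N)
  rw [ZMod.card] at this
  show ∑ x : ZMod N, ZMod.stdAddChar (x * b) = _
  rw [this]
  split_ifs <;> simp

/-- Parseval, plus sign -/
theorem parseval (g : ZMod N → ℂ) :
    ∑ n : ZMod N, ‖∑ j : ZMod N, g j * ch (j * n)‖ ^ 2 = N * ∑ j : ZMod N, ‖g j‖ ^ 2 := by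
  have key : (∑ n : ZMod N, (∑ j : ZMod N, g j * ch (j * n)) *
      (starRingEnd ℂ) (∑ j : ZMod N, g j * ch (j * n))) =
      (N : ℂ) * ∑ j : ZMod N, g j * (starRingEnd ℂ) (g j) := by
    have h1 : ∀ n : ZMod N, (∑ j : ZMod N, g j * ch (j * n)) *
        (starRingEnd ℂ) (∑ j : ZMod N, g j * ch (j * n)) =
        ∑ j : ZMod N, ∑ i : ZMod N, g j * (starRingEnd ℂ) (g i) * ch (n * (j - i)) := by
      intro n
      rw [map_sum, Finset.sum_mul_sum]
      refine Finset.sum_congr rfl fun j _ => Finset.sum_congr rfl fun i _ => ?_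
      rw [map_mul, ← ch_neg_conj]
      have : n * (j - i) = j * n + -(i * n) := by ring
      rw [this, ch_add]
      ring
    rw [Finset.sum_congr rfl fun n _ => h1 n, Finset.sum_comm]
    rw [Finset.mul_sum]
    refine Finset.sum_congr rfl fun j _ => ?_
    rw [Finset.sum_comm]
    rw [Finset.sum_eq_single j]
    · rw [← Finset.mul_sum]
      have := sum_ch (N := N) (j - j)
      rw [sub_self] at this
      simp only [sub_self]
      rw [this]
      simp
      ring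
    · intro i _ hij
      rw [← Finset.mul_sum, sum_ch, if_neg (sub_ne_zero.2 hij.symm), mul_zero]
    · intro h; exact absurd (Finset.mem_univ _) h
  have h2 : ∀ z : ℂ, z * (starRingEnd ℂ) z = ((‖z‖ ^ 2 : ℝ) : ℂ) := by
    intro z
    rw [Complex.mul_conj, Complex.normSq_eq_norm_sq]
  simp only [h2] at key
  exact_mod_cast key

theorem parseval' (g : ZMod N → ℂ) :
    ∑ n : ZMod N, ‖∑ j : ZMod N, g j * ch (-(j * n))‖ ^ 2 = N * ∑ j : ZMod N, ‖g j‖ ^ 2 := by
  rw [← parseval g]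
  apply Fintype.sum_equiv (Equiv.neg (ZMod N))
  intro n
  simp [mul_neg]

/-- multiplier operator -/
noncomputable def M (σ : ZMod N → ℂ) (f : ZMod N → ℂ) (n : ZMod N) : ℂ :=
  (1 / (N : ℂ)) * ∑ j : ZMod N, ∑ l : ZMod N, σ j * f l * ch (j * (l - n))

/-- kernel of the multiplier -/
noncomputable def ker (σ : ZMod N → ℂ) (m : ZMod N) : ℂ :=
  (1 / (N : ℂ)) * ∑ j : ZMod N, σ j * ch (-(j * m))

theorem M_eq_ker (σ f : ZMod N → ℂ) (n : ZMod N) :
    M σ f n = ∑ l : ZMod N, ker σ (n - l) * f l := by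
  unfold M ker
  rw [Finset.sum_comm, Finset.mul_sum]
  refine Finset.sum_congr rfl fun l _ => ?_
  rw [mul_assoc, Finset.sum_mul]
  congr 1
  refine Finset.sum_congr rfl fun j _ => ?_
  have : j * (l - n) = -(j * (n - l)) := by ring
  rw [this]
  ring

theorem M_eq_hat (σ f : ZMod N → ℂ) (n : ZMod N) :
    M σ f n = (1 / (N : ℂ)) * ∑ j : ZMod N, (σ j * ∑ l : ZMod N, f l * ch (l * j)) *
      ch (-(j * n)) := by
  unfold M
  congr 1
  refine Finset.sum_congr rfl fun j _ => ?_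
  rw [Finset.mul_sum, Finset.sum_mul]
  refine Finset.sum_congr rfl fun l _ => ?_
  have : j * (l - n) = l * j + -(j * n) := by ring
  rw [this, ch_add]
  ring

theorem M_l2 (σ f : ZMod N → ℂ) (hσ : ∀ j, ‖σ j‖ ≤ 1) :
    ∑ n : ZMod N, ‖M σ f n‖ ^ 2 ≤ ∑ n : ZMod N, ‖f n‖ ^ 2 := by
  have hN : (0 : ℝ) < N := by exact_mod_cast Nat.pos_of_ne_zero (NeZero.ne N)
  have h1 : ∑ n : ZMod N, ‖M σ f n‖ ^ 2 = (1 / (N : ℝ)) *
      ∑ j : ZMod N, ‖σ j * ∑ l : ZMod N, f l * ch (l * j)‖ ^ 2 := by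
    simp only [M_eq_hat]
    have : ∀ n : ZMod N, ‖(1 / (N : ℂ)) * ∑ j : ZMod N, (σ j * ∑ l : ZMod N, f l * ch (l * j)) *
        ch (-(j * n))‖ ^ 2 = (1 / (N : ℝ)) ^ 2 * ‖∑ j : ZMod N, (σ j * ∑ l : ZMod N, f l *
          ch (l * j)) * ch (-(j * n))‖ ^ 2 := by
      intro n
      rw [norm_mul, mul_pow]
      congr 2
      simp
    rw [Finset.sum_congr rfl fun n _ => this n, ← Finset.mul_sum, parseval']
    field_simp
  rw [h1]
  have h2 : ∑ j : ZMod N, ‖σ j * ∑ l : ZMod N, f l * ch (l * j)‖ ^ 2 ≤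
      ∑ j : ZMod N, ‖∑ l : ZMod N, f l * ch (l * j)‖ ^ 2 := by
    refine Finset.sum_le_sum fun j _ => ?_
    rw [norm_mul]
    have := hσ j
    gcongr
    calc ‖σ j‖ * ‖∑ l : ZMod N, f l * ch (l * j)‖ ≤ 1 * ‖∑ l : ZMod N, f l * ch (l * j)‖ := by
          gcongr
      _ = _ := one_mul _
  rw [parseval] at h2
  calc (1 / (N : ℝ)) * ∑ j : ZMod N, ‖σ j * ∑ l : ZMod N, f l * ch (l * j)‖ ^ 2
      ≤ (1 / (N : ℝ)) * (N * ∑ j : ZMod N, ‖f j‖ ^ 2) := by gcongr
    _ = ∑ n : ZMod N, ‖f n‖ ^ 2 := by field_simp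


theorem N_pos : (0 : ℝ) < N := by exact_mod_cast Nat.pos_of_ne_zero (NeZero.ne N)

theorem N_ne : (N : ℂ) ≠ 0 := by exact_mod_cast NeZero.ne N

theorem ker_sq (σ : ZMod N → ℂ) (hσ : ∀ j, ‖σ j‖ ≤ 1) : ∑ m : ZMod N, ‖ker σ m‖ ^ 2 ≤ 1 := by
  have hN : (0 : ℝ) < N := N_pos
  have h1 : ∑ m : ZMod N, ‖ker σ m‖ ^ 2 = (1 / (N : ℝ)) * ∑ j : ZMod N, ‖σ j‖ ^ 2 := by
    unfold ker
    have : ∀ n : ZMod N, ‖(1 / (N : ℂ)) * ∑ j : ZMod N, σ j * ch (-(j * n))‖ ^ 2 =
        (1 / (N : ℝ)) ^ 2 * ‖∑ j : ZMod N, σ j * ch (-(j * n))‖ ^ 2 := by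
      intro n
      rw [norm_mul, mul_pow]
      congr 2
      simp
    rw [Finset.sum_congr rfl fun n _ => this n, ← Finset.mul_sum, parseval']
    field_simp
  rw [h1]
  have h2 : ∑ j : ZMod N, ‖σ j‖ ^ 2 ≤ ∑ _j : ZMod N, (1 : ℝ) := by
    refine Finset.sum_le_sum fun j _ => ?_
    have := hσ j
    have h0 := norm_nonneg (σ j)
    nlinarith
  rw [Finset.sum_const, Finset.card_univ, ZMod.card] at h2
  calc (1 / (N : ℝ)) * ∑ j : ZMod N, ‖σ j‖ ^ 2 ≤ (1 / (N : ℝ)) * (N • (1 : ℝ)) := by gcongr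
    _ = 1 := by rw [nsmul_eq_mul]; field_simp

/-- the sawtooth symbol (real) -/
noncomputable def hr (j : ZMod N) : ℝ := if j = 0 then 0 else 1 - 2 * (j.val : ℝ) / N

noncomputable def h (j : ZMod N) : ℂ := (hr j : ℂ)

theorem hr_neg (j : ZMod N) : hr (-j) = - hr j := by
  have hN : (0 : ℝ) < N := N_pos
  unfold hr
  by_cases hj : j = 0
  · simp [hj]
  · rw [if_neg hj, if_neg (neg_ne_zero.2 hj), ZMod.neg_val, if_neg hj]
    rw [Nat.cast_sub (ZMod.val_lt j).le]
    field_simp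
    ring

theorem hr_abs (j : ZMod N) : |hr j| ≤ 1 := by
  have hN : (0 : ℝ) < N := N_pos
  unfold hr
  by_cases hj : j = 0
  · simp [hj]
  · rw [if_neg hj]
    have h1 : (j.val : ℝ) ≤ N := by exact_mod_cast (ZMod.val_lt j).le
    have h0 : (0 : ℝ) ≤ j.val := Nat.cast_nonneg _
    have h2 : 2 * (j.val : ℝ) / N ≤ 2 := by
      rw [div_le_iff₀ hN]; linarith
    have h3 : 0 ≤ 2 * (j.val : ℝ) / N := by positivity
    rw [abs_le]; constructor <;> linarith

theorem norm_h (j : ZMod N) : ‖h j‖ ≤ 1 := by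
  unfold h
  rw [Complex.norm_real, Real.norm_eq_abs]
  exact hr_abs j

/-- first difference of the sawtooth -/
theorem hr_diff (j : ZMod N) :
    hr j - hr (j - 1) = -(2 / N) + (if j = 0 then 1 else 0) + (if j = 1 then 1 else 0) := by
  have hN : (0 : ℝ) < N := N_pos
  by_cases hN1 : N = 1
  · subst hN1
    have hj : j = 0 := Subsingleton.elim _ _
    have hj1 : j = 1 := Subsingleton.elim _ _
    have hj2 : j - 1 = 0 := Subsingleton.elim _ _
    rw [if_pos hj, if_pos hj1, hj2, hj]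
    simp [hr]
    norm_num
  have hN2 : 1 < N := by
    have := NeZero.pos N
    omega
  have : Fact (1 < N) := ⟨hN2⟩
  have : Nontrivial (ZMod N) := ZMod.nontrivial N
  by_cases hj : j = 0
  · subst hj
    have h10 : (0 : ZMod N) ≠ 1 := zero_ne_one
    rw [if_pos rfl, if_neg h10]
    have : hr (0 - 1 : ZMod N) = - hr (1 : ZMod N) := by rw [zero_sub, hr_neg]
    rw [this]
    unfold hr
    rw [if_pos rfl, if_neg h10.symm, ZMod.val_one]
    push_cast
    ring
  by_cases hj1 : j = 1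
  · subst hj1
    rw [if_neg hj, if_pos rfl, sub_self]
    unfold hr
    rw [if_pos rfl, if_neg hj, ZMod.val_one]
    push_cast
    ring
  · have hj2 : j - 1 ≠ 0 := sub_ne_zero.2 hj1
    rw [if_neg hj, if_neg hj1]
    unfold hr
    rw [if_neg hj, if_neg hj2]
    have hv : 1 ≤ j.val := by
      have : j.val ≠ 0 := by rwa [Ne, ZMod.val_eq_zero]
      omega
    have : (j - 1).val = j.val - 1 := by
      have h1 : (1 : ZMod N).val ≤ j.val := by rw [ZMod.val_one]; exact hv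
      rw [ZMod.val_sub h1, ZMod.val_one]
    rw [this, Nat.cast_sub hv]
    push_cast
    ring

/-- relation for the kernel -/
theorem ker_rel (m : ZMod N) (hm : m ≠ 0) :
    (1 - ch (-m)) * (N * ker h m) = 1 + ch (-m) := by
  have hN : (N : ℂ) ≠ 0 := N_ne
  have h1 : (N : ℂ) * ker h m = ∑ j : ZMod N, h j * ch (-(j * m)) := by
    unfold ker; field_simp
  rw [h1, sub_mul, one_mul]
  have h2 : ch (-m) * ∑ j : ZMod N, h j * ch (-(j * m)) =
      ∑ j : ZMod N, h (j - 1) * ch (-(j * m)) := by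
    rw [Finset.mul_sum]
    apply Fintype.sum_equiv (Equiv.addRight (1 : ZMod N))
    intro j
    simp only [Equiv.coe_addRight, add_sub_cancel_right]
    have : -((j + 1) * m) = -m + -(j * m) := by ring
    rw [this, ch_add]
    ring
  rw [h2, ← Finset.sum_sub_distrib]
  have h3 : ∀ j : ZMod N, h j * ch (-(j * m)) - h (j - 1) * ch (-(j * m)) =
      -(2 / N) * ch (j * (-m)) + (if j = 0 then ch (j * (-m)) else 0) +
        (if j = 1 then ch (j * (-m)) else 0) := by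
    intro j
    have e : -(j * m) = j * (-m) := by ring
    rw [e, ← sub_mul]
    have h4 : h j - h (j - 1) = ((hr j - hr (j - 1) : ℝ) : ℂ) := by
      unfold h; push_cast; ring
    rw [h4, hr_diff]
    split_ifs <;> push_cast <;> ring
  rw [Finset.sum_congr rfl fun j _ => h3 j, Finset.sum_add_distrib, Finset.sum_add_distrib,
    ← Finset.mul_sum, sum_ch, if_neg (neg_ne_zero.2 hm)]
  simp

theorem ch_ne_one (m : ZMod N) (hm : m ≠ 0) : ch m ≠ 1 := by
  intro h1
  apply hm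
  apply ZMod.injective_stdAddChar
  rw [AddChar.map_zero_eq_one]
  exact h1

theorem h_neg (j : ZMod N) : h (-j) = - h j := by
  unfold h; rw [hr_neg]; push_cast; ring

theorem ker_neg (m : ZMod N) : ker h (-m) = - ker h m := by
  unfold ker
  rw [← mul_neg, ← Finset.sum_neg_distrib]
  congr 1
  apply Fintype.sum_equiv (Equiv.neg (ZMod N))
  intro j
  rw [Equiv.neg_apply, h_neg]
  have : -(-j * m) = -(j * -m) := by ring
  rw [this]
  ring

theorem ker_zero : ker h (0 : ZMod N) = 0 := by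
  have h1 := ker_neg (N := N) 0
  rw [neg_zero] at h1
  have h2 : (2 : ℂ) * ker h (0 : ZMod N) = 0 := by
    linear_combination h1
  rcases mul_eq_zero.1 h2 with h3 | h3
  · norm_num at h3
  · exact h3

theorem ker_conj (m : ZMod N) : (starRingEnd ℂ) (ker h m) = - ker h m := by
  rw [← ker_neg]
  unfold ker
  rw [map_mul, map_sum]
  have h1 : (starRingEnd ℂ) (1 / (N : ℂ)) = 1 / (N : ℂ) := by simp
  rw [h1]
  congr 1
  refine Finset.sum_congr rfl fun j _ => ?_
  rw [map_mul, ← ch_neg_conj]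
  have h2 : (starRingEnd ℂ) (h j) = h j := by unfold h; exact Complex.conj_ofReal _
  rw [h2]
  congr 2
  ring

theorem norm_ker_neg (m : ZMod N) : ‖ker h (-m)‖ = ‖ker h m‖ := by
  rw [ker_neg, norm_neg]

theorem cotlar (a b : ZMod N) (ha : a ≠ 0) (hb : b ≠ 0) (hab : a + b ≠ 0) :
    ker h a * ker h b = ker h (a + b) * (ker h a + ker h b) - 1 / (N : ℂ) ^ 2 := by
  have hN : (N : ℂ) ≠ 0 := N_ne
  have h1 := ker_rel a ha
  have h2 := ker_rel b hb
  have h3 := ker_rel (a + b) hab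
  have e : ch (-(a + b)) = ch (-a) * ch (-b) := by rw [neg_add, ch_add]
  rw [e] at h3
  have n1 : 1 - ch (-a) ≠ 0 := sub_ne_zero.2 (ch_ne_one _ (neg_ne_zero.2 ha)).symm
  have n2 : 1 - ch (-b) ≠ 0 := sub_ne_zero.2 (ch_ne_one _ (neg_ne_zero.2 hb)).symm
  have n3 : 1 - ch (-a) * ch (-b) ≠ 0 := by
    rw [← e]; exact sub_ne_zero.2 (ch_ne_one _ (neg_ne_zero.2 hab)).symm
  set x := ch (-a)
  set y := ch (-b)
  have k1 : ker h a = (1 + x) / (1 - x) / N := by
    field_simp; linear_combination h1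
  have k2 : ker h b = (1 + y) / (1 - y) / N := by
    field_simp; linear_combination h2
  have k3 : ker h (a + b) = (1 + x * y) / (1 - x * y) / N := by
    field_simp; linear_combination h3
  rw [k1, k2, k3]
  field_simp
  ring

/-- the defect of the Cotlar identity -/
noncomputable def Dl (n m l : ZMod N) : ℂ :=
  ker h (n - m) * ker h (n - l) - ker h (n - m) * ker h (m - l) - ker h (n - l) * ker h (l - m)

theorem norm_Dl (n m l : ZMod N) : ‖Dl n m l‖ ≤
    (if m = n then ‖ker h (n - l)‖ ^ 2 else 0) + (if l = n then ‖ker h (n - m)‖ ^ 2 else 0) +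
      (if m = l then ‖ker h (n - m)‖ ^ 2 else 0) + 1 / (N : ℝ) ^ 2 := by
  have hN : (0 : ℝ) < N := N_pos
  have p0 : 0 ≤ 1 / (N : ℝ) ^ 2 := by positivity
  have pc : ∀ (c : Prop) [Decidable c] (z : ℂ), 0 ≤ (if c then ‖z‖ ^ 2 else 0) := by
    intro c _ z
    split_ifs <;> positivity
  by_cases h1 : m = n
  · subst h1
    have e : Dl m m l = ker h (m - l) * ker h (m - l) := by
      unfold Dl
      have e1 : l - m = -(m - l) := by ring
      rw [sub_self, e1, ker_neg]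
      ring
    rw [e, norm_mul, if_pos rfl]
    have := pc (l = m) (ker h (m - m))
    have := pc (m = l) (ker h (m - m))
    nlinarith
  by_cases h2 : l = n
  · subst h2
    have e : Dl l m l = ker h (l - m) * ker h (l - m) := by
      unfold Dl
      have e1 : m - l = -(l - m) := by ring
      rw [sub_self, ker_zero, e1, ker_neg]
      ring
    rw [e, norm_mul, if_pos rfl]
    have := pc (m = l) (ker h (l - l))
    have := pc (m = l) (ker h (l - m))
    nlinarith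
  by_cases h3 : m = l
  · subst h3
    have e : Dl n m m = ker h (n - m) * ker h (n - m) := by
      unfold Dl
      rw [sub_self, ker_zero]
      ring
    rw [e, norm_mul, if_pos rfl, if_neg h1]
    nlinarith
  · rw [if_neg h1, if_neg h2, if_neg h3]
    have ha : n - m ≠ 0 := sub_ne_zero.2 (Ne.symm h1)
    have hb : l - n ≠ 0 := sub_ne_zero.2 h2
    have hab : (n - m) + (l - n) ≠ 0 := by
      have : (n - m) + (l - n) = l - m := by ring
      rw [this]; exact sub_ne_zero.2 (Ne.symm h3)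
    have hc := cotlar _ _ ha hb hab
    have e : Dl n m l = 1 / (N : ℂ) ^ 2 := by
      unfold Dl
      have e1 : n - l = -(l - n) := by ring
      have e2 : m - l = -((n - m) + (l - n)) := by ring
      have e3 : l - m = (n - m) + (l - n) := by ring
      rw [e1, e2, e3, ker_neg, ker_neg]
      linear_combination -hc
    rw [e]
    simp

/-! ### l2 norms -/

noncomputable def nn (v : ZMod N → ℝ) : ℝ := Real.sqrt (∑ n, v n ^ 2)

theorem nn_eq (v : ZMod N → ℝ) : nn v = ‖(WithLp.toLp 2 v : EuclideanSpace ℝ (ZMod N))‖ := by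
  rw [EuclideanSpace.norm_eq]
  unfold nn
  simp

theorem nn_add (u v : ZMod N → ℝ) : nn (fun n => u n + v n) ≤ nn u + nn v := by
  rw [nn_eq, nn_eq, nn_eq]
  exact norm_add_le (WithLp.toLp 2 u : EuclideanSpace ℝ (ZMod N)) (WithLp.toLp 2 v)

theorem nn_mono (u v : ZMod N → ℝ) (h0 : ∀ n, 0 ≤ u n) (h1 : ∀ n, u n ≤ v n) :
    nn u ≤ nn v := by
  unfold nn
  apply Real.sqrt_le_sqrt
  refine Finset.sum_le_sum fun n _ => ?_
  exact pow_le_pow_left₀ (h0 n) (h1 n) 2

theorem nn_le (u v : ZMod N → ℝ) (h1 : ∑ n, u n ^ 2 ≤ ∑ n, v n ^ 2) : nn u ≤ nn v :=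
  Real.sqrt_le_sqrt h1

theorem nn_two (u : ZMod N → ℝ) : nn (fun n => 2 * u n) = 2 * nn u := by
  unfold nn
  have : ∑ n : ZMod N, (2 * u n) ^ 2 = 2 ^ 2 * ∑ n, u n ^ 2 := by
    rw [Finset.mul_sum]
    refine Finset.sum_congr rfl fun n _ => ?_
    ring
  rw [this, Real.sqrt_mul (by positivity), Real.sqrt_sq (by norm_num)]

/-- convolution with a probability-like kernel is a contraction -/
theorem conv_le (κ A : ZMod N → ℝ) (h0 : ∀ m, 0 ≤ κ m) (h1 : ∑ m, κ m ≤ 1) :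
    ∑ n : ZMod N, (∑ m : ZMod N, κ (n - m) * A m) ^ 2 ≤ ∑ n : ZMod N, A n ^ 2 := by
  have hs : ∀ n : ZMod N, ∑ m : ZMod N, κ (n - m) = ∑ m : ZMod N, κ m := by
    intro n
    apply Fintype.sum_equiv (Equiv.subLeft n)
    intro m
    rfl
  have hs' : ∀ m : ZMod N, ∑ n : ZMod N, κ (n - m) = ∑ n : ZMod N, κ n := by
    intro m
    apply Fintype.sum_equiv (Equiv.subRight m)
    intro n
    rfl
  have h2 : ∀ n : ZMod N, (∑ m : ZMod N, κ (n - m) * A m) ^ 2 ≤
      ∑ m : ZMod N, κ (n - m) * A m ^ 2 := by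
    intro n
    have := Finset.sum_sq_le_sum_mul_sum_of_sq_le_mul (Finset.univ : Finset (ZMod N))
      (r := fun m => κ (n - m) * A m) (f := fun m => κ (n - m))
      (g := fun m => κ (n - m) * A m ^ 2) (fun m _ => h0 _)
      (fun m _ => mul_nonneg (h0 _) (sq_nonneg _)) (fun m _ => le_of_eq (by ring))
    have hp : 0 ≤ ∑ m : ZMod N, κ (n - m) * A m ^ 2 :=
      Finset.sum_nonneg fun m _ => mul_nonneg (h0 _) (sq_nonneg _)
    calc (∑ m : ZMod N, κ (n - m) * A m) ^ 2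
        ≤ (∑ m : ZMod N, κ (n - m)) * ∑ m : ZMod N, κ (n - m) * A m ^ 2 := this
      _ ≤ 1 * ∑ m : ZMod N, κ (n - m) * A m ^ 2 := by
          apply mul_le_mul_of_nonneg_right _ hp
          rw [hs]; exact h1
      _ = _ := one_mul _
  calc ∑ n : ZMod N, (∑ m : ZMod N, κ (n - m) * A m) ^ 2
      ≤ ∑ n : ZMod N, ∑ m : ZMod N, κ (n - m) * A m ^ 2 := Finset.sum_le_sum fun n _ => h2 n
    _ = ∑ m : ZMod N, (∑ n : ZMod N, κ (n - m)) * A m ^ 2 := by
        rw [Finset.sum_comm]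
        refine Finset.sum_congr rfl fun m _ => ?_
        rw [Finset.sum_mul]
    _ ≤ ∑ m : ZMod N, 1 * A m ^ 2 := by
        refine Finset.sum_le_sum fun m _ => ?_
        apply mul_le_mul_of_nonneg_right _ (sq_nonneg _)
        rw [hs']; exact h1
    _ = ∑ n : ZMod N, A n ^ 2 := by simp

/-! ### the pointwise inequality -/

theorem M_conj (f : ZMod N → ℂ) (n : ZMod N) :
    (starRingEnd ℂ) (M h f n) = - M h (fun l => (starRingEnd ℂ) (f l)) n := by
  rw [M_eq_ker, M_eq_ker, map_sum, ← Finset.sum_neg_distrib]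
  refine Finset.sum_congr rfl fun l _ => ?_
  rw [map_mul, ker_conj]
  ring

theorem cotlar_sum (f g : ZMod N → ℂ) (n : ZMod N) :
    M h f n * M h g n - M h (fun m => f m * M h g m) n - M h (fun l => g l * M h f l) n =
      ∑ m : ZMod N, ∑ l : ZMod N, Dl n m l * (f m * g l) := by
  have h1 : M h f n * M h g n = ∑ m : ZMod N, ∑ l : ZMod N,
      ker h (n - m) * ker h (n - l) * (f m * g l) := by
    rw [M_eq_ker, M_eq_ker, Finset.sum_mul_sum]
    refine Finset.sum_congr rfl fun m _ => Finset.sum_congr rfl fun l _ => ?_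
    ring
  have h2 : M h (fun m => f m * M h g m) n = ∑ m : ZMod N, ∑ l : ZMod N,
      ker h (n - m) * ker h (m - l) * (f m * g l) := by
    rw [M_eq_ker]
    refine Finset.sum_congr rfl fun m _ => ?_
    rw [M_eq_ker, Finset.mul_sum, Finset.mul_sum]
    refine Finset.sum_congr rfl fun l _ => ?_
    ring
  have h3 : M h (fun l => g l * M h f l) n = ∑ m : ZMod N, ∑ l : ZMod N,
      ker h (n - l) * ker h (l - m) * (f m * g l) := by
    rw [M_eq_ker, Finset.sum_comm]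
    refine Finset.sum_congr rfl fun l _ => ?_
    rw [M_eq_ker, Finset.mul_sum, Finset.mul_sum]
    refine Finset.sum_congr rfl fun m _ => ?_
    ring
  rw [h1, h2, h3, ← Finset.sum_sub_distrib, ← Finset.sum_sub_distrib]
  refine Finset.sum_congr rfl fun m _ => ?_
  rw [← Finset.sum_sub_distrib, ← Finset.sum_sub_distrib]
  refine Finset.sum_congr rfl fun l _ => ?_
  unfold Dl
  ring

theorem M_add_right (σ f g : ZMod N → ℂ) (n : ZMod N) :
    M σ (fun m => f m + g m) n = M σ f n + M σ g n := by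
  rw [M_eq_ker, M_eq_ker, M_eq_ker, ← Finset.sum_add_distrib]
  refine Finset.sum_congr rfl fun l _ => ?_
  ring

/-- the error bound -/
theorem error_bound (a : ZMod N → ℝ) (ha : ∀ m, 0 ≤ a m) (n : ZMod N) :
    ∑ m : ZMod N, ∑ l : ZMod N, ‖Dl n m l‖ * (a m * a l) ≤
      (a n ^ 2 + 2 * (∑ m : ZMod N, ‖ker h (n - m)‖ ^ 2 * a m ^ 2)) +
        (1 / (N : ℝ)) * ∑ m : ZMod N, a m ^ 2 := by
  have hN : (0 : ℝ) < N := N_pos
  have h1 : ∑ m : ZMod N, ∑ l : ZMod N, ‖Dl n m l‖ * (a m * a l) ≤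
      ∑ m : ZMod N, ∑ l : ZMod N,
        ((if m = n then ‖ker h (n - l)‖ ^ 2 else 0) + (if l = n then ‖ker h (n - m)‖ ^ 2 else 0) +
      (if m = l then ‖ker h (n - m)‖ ^ 2 else 0) + 1 / (N : ℝ) ^ 2) * (a m * a l) := by
    refine Finset.sum_le_sum fun m _ => Finset.sum_le_sum fun l _ => ?_
    exact mul_le_mul_of_nonneg_right (norm_Dl n m l) (mul_nonneg (ha m) (ha l))
  have h2 : ∑ m : ZMod N, ∑ l : ZMod N,
        ((if m = n then ‖ker h (n - l)‖ ^ 2 else 0) + (if l = n then ‖ker h (n - m)‖ ^ 2 else 0) +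
      (if m = l then ‖ker h (n - m)‖ ^ 2 else 0) + 1 / (N : ℝ) ^ 2) * (a m * a l) =
      ((∑ l : ZMod N, ‖ker h (n - l)‖ ^ 2 * (a n * a l)) +
        (∑ m : ZMod N, ‖ker h (n - m)‖ ^ 2 * (a m * a n)) +
        (∑ m : ZMod N, ‖ker h (n - m)‖ ^ 2 * (a m * a m))) +
        (1 / (N : ℝ) ^ 2) * (∑ m : ZMod N, a m) ^ 2 := by
    simp only [add_mul, Finset.sum_add_distrib]
    congr 1
    · congr 1
      · congr 1
        · rw [Finset.sum_eq_single n]
          · simp
          · intro m _ hm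
            simp [hm]
          · intro h; exact absurd (Finset.mem_univ _) h
        · refine Finset.sum_congr rfl fun m _ => ?_
          rw [Finset.sum_eq_single n]
          · simp
          · intro l _ hl
            simp [hl]
          · intro h; exact absurd (Finset.mem_univ _) h
      · refine Finset.sum_congr rfl fun m _ => ?_
        rw [Finset.sum_eq_single m]
        · simp
        · intro l _ hl
          simp [hl.symm]
        · intro h; exact absurd (Finset.mem_univ _) h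
    · have hsq : (∑ m : ZMod N, a m) ^ 2 = ∑ m : ZMod N, ∑ l : ZMod N, a m * a l := by
        rw [pow_two, Finset.sum_mul_sum]
      rw [hsq, Finset.mul_sum]
      refine Finset.sum_congr rfl fun m _ => ?_
      rw [Finset.mul_sum]
  rw [h2] at h1
  have h3 : ∑ l : ZMod N, ‖ker h (n - l)‖ ^ 2 ≤ 1 := by
    have e : ∑ l : ZMod N, ‖ker h (n - l)‖ ^ 2 = ∑ l : ZMod N, ‖ker h l‖ ^ 2 := by
      apply Fintype.sum_equiv (Equiv.subLeft n)
      intro m
      rfl
    rw [e]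
    exact ker_sq h norm_h
  have h4 : (∑ l : ZMod N, ‖ker h (n - l)‖ ^ 2 * (a n * a l)) +
        (∑ m : ZMod N, ‖ker h (n - m)‖ ^ 2 * (a m * a n)) ≤
        a n ^ 2 + ∑ m : ZMod N, ‖ker h (n - m)‖ ^ 2 * a m ^ 2 := by
    rw [← Finset.sum_add_distrib]
    calc ∑ m : ZMod N, (‖ker h (n - m)‖ ^ 2 * (a n * a m) + ‖ker h (n - m)‖ ^ 2 * (a m * a n))
        ≤ ∑ m : ZMod N, (‖ker h (n - m)‖ ^ 2 * a n ^ 2 + ‖ker h (n - m)‖ ^ 2 * a m ^ 2) := by
          refine Finset.sum_le_sum fun m _ => ?_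
          have := mul_nonneg (sq_nonneg ‖ker h (n - m)‖) (sq_nonneg (a n - a m))
          nlinarith
      _ = (∑ m : ZMod N, ‖ker h (n - m)‖ ^ 2) * a n ^ 2 +
            ∑ m : ZMod N, ‖ker h (n - m)‖ ^ 2 * a m ^ 2 := by
          rw [Finset.sum_add_distrib, Finset.sum_mul]
      _ ≤ 1 * a n ^ 2 + ∑ m : ZMod N, ‖ker h (n - m)‖ ^ 2 * a m ^ 2 := by
          have := mul_le_mul_of_nonneg_right h3 (sq_nonneg (a n))
          linarith
      _ = _ := by rw [one_mul]
  have h5 : ∑ m : ZMod N, ‖ker h (n - m)‖ ^ 2 * (a m * a m) =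
      ∑ m : ZMod N, ‖ker h (n - m)‖ ^ 2 * a m ^ 2 := by
    refine Finset.sum_congr rfl fun m _ => ?_
    ring
  have h6 : (1 / (N : ℝ) ^ 2) * (∑ m : ZMod N, a m) ^ 2 ≤
      (1 / (N : ℝ)) * ∑ m : ZMod N, a m ^ 2 := by
    have h7 := sq_sum_le_card_mul_sum_sq (s := (Finset.univ : Finset (ZMod N))) (f := a)
    rw [Finset.card_univ, ZMod.card] at h7
    calc (1 / (N : ℝ) ^ 2) * (∑ m : ZMod N, a m) ^ 2
        ≤ (1 / (N : ℝ) ^ 2) * (N * ∑ m : ZMod N, a m ^ 2) := by gcongr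
      _ = _ := by field_simp
  linarith

/-- the Hilbert transform on `ZMod N` is bounded on `l4` -/
theorem hilbert_l4 (f : ZMod N → ℂ) :
    ∑ n : ZMod N, ‖M h f n‖ ^ 4 ≤ 4 ^ 4 * ∑ n : ZMod N, ‖f n‖ ^ 4 := by
  have hN : (0 : ℝ) < N := N_pos
  let g : ZMod N → ℂ := fun l => (starRingEnd ℂ) (f l)
  let u : ZMod N → ℝ := fun n => ‖M h f n‖ ^ 2
  let A : ZMod N → ℝ := fun n => ‖f n‖ ^ 2
  let Φ : ZMod N → ℂ := fun m => f m * M h g m + g m * M h f m
  let κ : ZMod N → ℝ := fun m => ‖ker h m‖ ^ 2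
  have hΦ : ∀ m, ‖Φ m‖ ≤ 2 * (‖f m‖ * ‖M h f m‖) := by
    intro m
    have e1 : ‖M h g m‖ = ‖M h f m‖ := by
      have := M_conj f m
      have h2 : M h g m = -(starRingEnd ℂ) (M h f m) := by rw [this]; simp [g]
      rw [h2, norm_neg, RCLike.norm_conj]
    have e2 : ‖g m‖ = ‖f m‖ := RCLike.norm_conj _
    calc ‖Φ m‖ ≤ ‖f m * M h g m‖ + ‖g m * M h f m‖ := norm_add_le _ _
      _ = 2 * (‖f m‖ * ‖M h f m‖) := by rw [norm_mul, norm_mul, e1, e2]; ring
  have hpt : ∀ n, u n ≤ ((‖M h Φ n‖ + (A n + 2 * ∑ m : ZMod N, κ (n - m) * A m)) +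
      (1 / (N : ℝ)) * ∑ m : ZMod N, A m) := by
    intro n
    have e1 : ((u n : ℝ) : ℂ) = -(M h f n * M h g n) := by
      have h2 : M h g n = -(starRingEnd ℂ) (M h f n) := by rw [M_conj f n]; simp [g]
      rw [h2]
      simp only [u]
      rw [mul_neg, neg_neg, Complex.mul_conj, Complex.normSq_eq_norm_sq]
    have e2 : M h f n * M h g n = M h Φ n + ∑ m : ZMod N, ∑ l : ZMod N, Dl n m l * (f m * g l) := by
      have := cotlar_sum f g n
      have e3 : M h Φ n = M h (fun m => f m * M h g m) n + M h (fun l => g l * M h f l) n :=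
        M_add_right _ _ _ _
      rw [e3]
      linear_combination this
    have e4 : u n = ‖M h f n * M h g n‖ := by
      have : ‖((u n : ℝ) : ℂ)‖ = u n := by
        rw [Complex.norm_real, Real.norm_eq_abs, abs_of_nonneg (sq_nonneg _)]
      rw [← this, e1, norm_neg]
    have e5 : ‖∑ m : ZMod N, ∑ l : ZMod N, Dl n m l * (f m * g l)‖ ≤
        ∑ m : ZMod N, ∑ l : ZMod N, ‖Dl n m l‖ * (‖f m‖ * ‖f l‖) := by
      refine (norm_sum_le _ _).trans (Finset.sum_le_sum fun m _ => ?_)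
      refine (norm_sum_le _ _).trans (Finset.sum_le_sum fun l _ => ?_)
      rw [norm_mul, norm_mul]
      have : ‖g l‖ = ‖f l‖ := RCLike.norm_conj _
      rw [this]
    have e6 := error_bound (fun m => ‖f m‖) (fun m => norm_nonneg _) n
    rw [e4, e2]
    have e7 := norm_add_le (M h Φ n) (∑ m : ZMod N, ∑ l : ZMod N, Dl n m l * (f m * g l))
    simp only [A, κ]
    linarith
  have hW0 : 0 ≤ nn A := Real.sqrt_nonneg _
  have hU0 : 0 ≤ nn u := Real.sqrt_nonneg _
  -- norms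
  have hA0 : ∀ n, 0 ≤ A n := fun n => sq_nonneg _
  have hk1 : ∑ m, κ m ≤ 1 := ker_sq h norm_h
  have n1 : nn (fun n => ∑ m : ZMod N, κ (n - m) * A m) ≤ nn A :=
    nn_le _ _ (conv_le κ A (fun m => sq_nonneg _) hk1)
  have n2 : nn (fun _ : ZMod N => (1 / (N : ℝ)) * ∑ m : ZMod N, A m) ≤ nn A := by
    apply nn_le
    rw [Finset.sum_const, Finset.card_univ, ZMod.card, nsmul_eq_mul]
    have h7 := sq_sum_le_card_mul_sum_sq (s := (Finset.univ : Finset (ZMod N))) (f := A)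
    rw [Finset.card_univ, ZMod.card] at h7
    calc (N : ℝ) * ((1 / (N : ℝ)) * ∑ m : ZMod N, A m) ^ 2
        = (1 / (N : ℝ)) * (∑ m : ZMod N, A m) ^ 2 := by field_simp
      _ ≤ (1 / (N : ℝ)) * (N * ∑ m : ZMod N, A m ^ 2) := by gcongr
      _ = _ := by field_simp
  have n3 : nn (fun n => ‖M h Φ n‖) ≤ 2 * Real.sqrt (nn u * nn A) := by
    have h1 : nn (fun n => ‖M h Φ n‖) ≤ nn (fun n => ‖Φ n‖) := nn_le _ _ (M_l2 h Φ norm_h)
    have h2 : nn (fun n => ‖Φ n‖) ≤ nn (fun n => 2 * (‖f n‖ * ‖M h f n‖)) :=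
      nn_mono _ _ (fun n => norm_nonneg _) hΦ
    rw [nn_two] at h2
    have h3 : nn (fun n => ‖f n‖ * ‖M h f n‖) ≤ Real.sqrt (nn u * nn A) := by
      unfold nn
      apply Real.sqrt_le_sqrt
      have h4 := Real.sum_mul_le_sqrt_mul_sqrt (Finset.univ : Finset (ZMod N)) u A
      refine le_trans (le_of_eq ?_) h4
      refine Finset.sum_congr rfl fun n _ => ?_
      simp only [u, A]
      ring
    linarith
  have hmain : nn u ≤ 2 * Real.sqrt (nn u * nn A) + 4 * nn A := by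
    have h1 : nn u ≤ nn (fun n => ((‖M h Φ n‖ + (A n + 2 * ∑ m : ZMod N, κ (n - m) * A m)) +
      (1 / (N : ℝ)) * ∑ m : ZMod N, A m)) := nn_mono _ _ (fun n => sq_nonneg _) hpt
    have h2 := nn_add (fun n => ‖M h Φ n‖ + (A n + 2 * ∑ m : ZMod N, κ (n - m) * A m))
      (fun _ : ZMod N => (1 / (N : ℝ)) * ∑ m : ZMod N, A m)
    have h3 := nn_add (fun n => ‖M h Φ n‖) (fun n => A n + 2 * ∑ m : ZMod N, κ (n - m) * A m)
    have h4 := nn_add A (fun n => 2 * ∑ m : ZMod N, κ (n - m) * A m)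
    have h5 := nn_two (fun n : ZMod N => ∑ m : ZMod N, κ (n - m) * A m)
    linarith
  -- solve the quadratic inequality
  set s := Real.sqrt (nn u) with hs
  set t := Real.sqrt (nn A) with ht
  have hs0 : 0 ≤ s := Real.sqrt_nonneg _
  have ht0 : 0 ≤ t := Real.sqrt_nonneg _
  have hs2 : s ^ 2 = nn u := Real.sq_sqrt hU0
  have ht2 : t ^ 2 = nn A := Real.sq_sqrt hW0
  have hst : Real.sqrt (nn u * nn A) = s * t := Real.sqrt_mul hU0 _
  rw [hst, ← hs2, ← ht2] at hmain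
  have h4 : s ≤ 4 * t := by
    by_contra hcon
    push Not at hcon
    nlinarith
  have hU2 : nn u ^ 2 = ∑ n : ZMod N, ‖M h f n‖ ^ 4 := by
    unfold nn
    rw [Real.sq_sqrt (Finset.sum_nonneg fun n _ => sq_nonneg _)]
    refine Finset.sum_congr rfl fun n _ => ?_
    simp only [u]; ring
  have hA2 : nn A ^ 2 = ∑ n : ZMod N, ‖f n‖ ^ 4 := by
    unfold nn
    rw [Real.sq_sqrt (Finset.sum_nonneg fun n _ => sq_nonneg _)]
    refine Finset.sum_congr rfl fun n _ => ?_
    simp only [A]; ring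
  rw [← hU2, ← hA2, ← hs2, ← ht2]
  have h5 : s ^ 4 ≤ (4 * t) ^ 4 := pow_le_pow_left₀ hs0 h4 4
  calc (s ^ 2) ^ 2 = s ^ 4 := by ring
    _ ≤ (4 * t) ^ 4 := h5
    _ = 4 ^ 4 * (t ^ 2) ^ 2 := by ring

/-! ### l4 norm and assembly -/

instance fact_one_le_four : Fact ((1 : ENNReal) ≤ 4) := ⟨by norm_num⟩

noncomputable def n4 (f : ZMod N → ℂ) : ℝ := ‖(WithLp.toLp 4 f : PiLp 4 fun _ : ZMod N => ℂ)‖

theorem n4_pow (f : ZMod N → ℂ) : n4 f ^ 4 = ∑ n : ZMod N, ‖f n‖ ^ 4 := by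
  unfold n4
  rw [PiLp.norm_eq_of_nat 4 (by norm_cast)]
  have h0 : 0 ≤ ∑ n : ZMod N, ‖f n‖ ^ 4 := Finset.sum_nonneg fun n _ => by positivity
  rw [← Real.rpow_natCast, ← Real.rpow_mul h0]
  norm_num

theorem n4_nonneg (f : ZMod N → ℂ) : 0 ≤ n4 f := norm_nonneg _

theorem n4_add (f g : ZMod N → ℂ) : n4 (fun n => f n + g n) ≤ n4 f + n4 g :=
  norm_add_le (WithLp.toLp 4 f : PiLp 4 fun _ : ZMod N => ℂ) (WithLp.toLp 4 g)

theorem n4_smul (c : ℂ) (f : ZMod N → ℂ) : n4 (fun n => c * f n) = ‖c‖ * n4 f :=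
  norm_smul c (WithLp.toLp 4 f : PiLp 4 fun _ : ZMod N => ℂ)

theorem n4_le (f g : ZMod N → ℂ) (c : ℝ) (hc : 0 ≤ c)
    (h : ∑ n : ZMod N, ‖f n‖ ^ 4 ≤ c ^ 4 * ∑ n : ZMod N, ‖g n‖ ^ 4) : n4 f ≤ c * n4 g := by
  have h1 : n4 f ^ 4 ≤ (c * n4 g) ^ 4 := by
    rw [mul_pow, n4_pow, n4_pow]; exact h
  exact le_of_pow_le_pow_left₀ (by norm_num) (mul_nonneg hc (n4_nonneg g)) h1

theorem n4_hilbert (f : ZMod N → ℂ) : n4 (M h f) ≤ 4 * n4 f :=
  n4_le _ _ 4 (by norm_num) (hilbert_l4 f)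

theorem M_shift (σ f : ZMod N → ℂ) (a n : ZMod N) :
    M (fun j => σ (j - a)) f n = ch (-(a * n)) * M σ (fun l => f l * ch (a * l)) n := by
  unfold M
  rw [← mul_assoc, mul_comm (ch (-(a * n))), mul_assoc]
  congr 1
  rw [Finset.mul_sum]
  apply Fintype.sum_equiv (Equiv.subRight a)
  intro j
  rw [Equiv.subRight_apply, Finset.mul_sum]
  refine Finset.sum_congr rfl fun l _ => ?_
  have : j * (l - n) = -(a * n) + a * l + (j - a) * (l - n) := by ring
  rw [this, ch_add, ch_add]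
  ring

theorem n4_shift (f : ZMod N → ℂ) (a : ZMod N) : n4 (M (fun j => h (j - a)) f) ≤ 4 * n4 f := by
  have h1 := n4_hilbert (fun l => f l * ch (a * l))
  have h2 : n4 (fun l => f l * ch (a * l)) ≤ 1 * n4 f := by
    apply n4_le _ _ 1 (by norm_num)
    rw [one_pow, one_mul]
    refine Finset.sum_le_sum fun l _ => ?_
    rw [norm_mul, norm_ch, mul_one]
  have h3 : n4 (M (fun j => h (j - a)) f) ≤ 1 * n4 (M h (fun l => f l * ch (a * l))) := by
    apply n4_le _ _ 1 (by norm_num)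
    rw [one_pow, one_mul]
    refine Finset.sum_le_sum fun l _ => ?_
    rw [M_shift, norm_mul, norm_ch, one_mul]
  linarith

theorem M_one (f : ZMod N → ℂ) (n : ZMod N) : M (fun _ => 1) f n = f n := by
  unfold M
  rw [Finset.sum_comm, Finset.sum_eq_single n]
  · simp
    field_simp [N_ne (N := N)]
  · intro l _ hl
    simp only [one_mul]
    rw [← Finset.mul_sum, sum_ch, if_neg (sub_ne_zero.2 hl), mul_zero]
  · intro h; exact absurd (Finset.mem_univ _) h

theorem n4_delta (f : ZMod N → ℂ) (a : ZMod N) :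
    n4 (M (fun j => if j = a then 1 else 0) f) ≤ n4 f := by
  have hN : (0 : ℝ) < N := N_pos
  have h1 : n4 (M (fun j => if j = a then 1 else 0) f) ≤ 1 * n4 f := by
    apply n4_le _ _ 1 (by norm_num)
    rw [one_pow, one_mul]
    have h2 : ∀ n, ‖M (fun j => if j = a then 1 else 0) f n‖ ≤
        (1 / (N : ℝ)) * ∑ l : ZMod N, ‖f l‖ := by
      intro n
      unfold M
      rw [Finset.sum_eq_single a]
      · rw [norm_mul]
        have e : ‖1 / (N : ℂ)‖ = 1 / (N : ℝ) := by simp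
        rw [e]
        gcongr
        refine (norm_sum_le _ _).trans (Finset.sum_le_sum fun l _ => ?_)
        simp [norm_ch]
      · intro j _ hj
        simp [hj]
      · intro h; exact absurd (Finset.mem_univ _) h
    have h3 : (∑ l : ZMod N, ‖f l‖) ^ 4 ≤ (N : ℝ) ^ 3 * ∑ l : ZMod N, ‖f l‖ ^ 4 := by
      have h4 := sq_sum_le_card_mul_sum_sq (s := (Finset.univ : Finset (ZMod N)))
        (f := fun l => ‖f l‖)
      have h5 := sq_sum_le_card_mul_sum_sq (s := (Finset.univ : Finset (ZMod N)))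
        (f := fun l => ‖f l‖ ^ 2)
      rw [Finset.card_univ, ZMod.card] at h4 h5
      have h6 : ∑ l : ZMod N, (‖f l‖ ^ 2) ^ 2 = ∑ l : ZMod N, ‖f l‖ ^ 4 :=
        Finset.sum_congr rfl fun l _ => by ring
      rw [h6] at h5
      calc (∑ l : ZMod N, ‖f l‖) ^ 4 = ((∑ l : ZMod N, ‖f l‖) ^ 2) ^ 2 := by ring
        _ ≤ (N * ∑ l : ZMod N, ‖f l‖ ^ 2) ^ 2 :=
            pow_le_pow_left₀ (sq_nonneg _) h4 2
        _ = (N : ℝ) ^ 2 * (∑ l : ZMod N, ‖f l‖ ^ 2) ^ 2 := by ring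
        _ ≤ (N : ℝ) ^ 2 * (N * ∑ l : ZMod N, ‖f l‖ ^ 4) := by gcongr
        _ = _ := by ring
    calc ∑ n : ZMod N, ‖M (fun j => if j = a then 1 else 0) f n‖ ^ 4
        ≤ ∑ _n : ZMod N, ((1 / (N : ℝ)) * ∑ l : ZMod N, ‖f l‖) ^ 4 := by
          refine Finset.sum_le_sum fun n _ => ?_
          exact pow_le_pow_left₀ (norm_nonneg _) (h2 n) 4
      _ = (1 / (N : ℝ) ^ 3) * (∑ l : ZMod N, ‖f l‖) ^ 4 := by
          rw [Finset.sum_const, Finset.card_univ, ZMod.card, nsmul_eq_mul]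
          field_simp
      _ ≤ (1 / (N : ℝ) ^ 3) * ((N : ℝ) ^ 3 * ∑ l : ZMod N, ‖f l‖ ^ 4) := by gcongr
      _ = _ := by field_simp
  linarith

theorem M_add_left (σ τ f : ZMod N → ℂ) (n : ZMod N) :
    M (fun j => σ j + τ j) f n = M σ f n + M τ f n := by
  unfold M
  simp only [add_mul, Finset.sum_add_distrib, mul_add]

theorem M_smul_left (c : ℂ) (σ f : ZMod N → ℂ) (n : ZMod N) :
    M (fun j => c * σ j) f n = c * M σ f n := by
  unfold M
  simp only [mul_assoc, ← Finset.mul_sum]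
  ring

theorem symbol_eq (K : ℕ) (hK : 1 ≤ K) (hKN : K < N) (j : ZMod N) :
    (if j.val < K then (1 : ℂ) else 0) =
      (((1 / 2 : ℂ) * h j + (-1 / 2 : ℂ) * h (j - (K : ZMod N))) +
        ((K : ℂ) / N) * 1) + ((1 / 2 : ℂ) * (if j = 0 then 1 else 0) +
          (-1 / 2 : ℂ) * (if j = (K : ZMod N) then 1 else 0)) := by
  have hNc : (N : ℂ) ≠ 0 := N_ne
  have hN : (N : ℝ) ≠ 0 := N_pos.ne'
  have hKv : (K : ZMod N).val = K := ZMod.val_cast_of_lt hKN
  have hK0 : (K : ZMod N) ≠ 0 := by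
    intro h0
    have := congrArg ZMod.val h0
    rw [hKv, ZMod.val_zero] at this
    omega
  have hreal : (if j.val < K then (1 : ℝ) else 0) =
      (((1 / 2 : ℝ) * hr j + (-1 / 2 : ℝ) * hr (j - (K : ZMod N))) +
        ((K : ℝ) / N) * 1) + ((1 / 2 : ℝ) * (if j = 0 then 1 else 0) +
          (-1 / 2 : ℝ) * (if j = (K : ZMod N) then 1 else 0)) := by
    by_cases h0 : j = 0
    · subst h0
      rw [if_pos rfl, if_neg hK0.symm, ZMod.val_zero, if_pos (by omega)]
      have e1 : hr (0 - (K : ZMod N)) = - hr (K : ZMod N) := by rw [zero_sub, hr_neg]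
      rw [e1]
      unfold hr
      rw [if_pos rfl, if_neg hK0, hKv]
      ring
    by_cases h1 : j = (K : ZMod N)
    · subst h1
      rw [if_neg h0, if_pos rfl, hKv, if_neg (lt_irrefl K), sub_self]
      unfold hr
      rw [if_neg hK0, if_pos rfl, hKv]
      ring
    rw [if_neg h0, if_neg h1]
    have hjk : j - (K : ZMod N) ≠ 0 := sub_ne_zero.2 h1
    by_cases h2 : j.val < K
    · rw [if_pos h2]
      have e1 : hr (j - (K : ZMod N)) = - hr ((K : ZMod N) - j) := by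
        rw [← hr_neg, neg_sub]
      have e2 : ((K : ZMod N) - j).val = K - j.val := by
        rw [ZMod.val_sub (by rw [hKv]; exact h2.le), hKv]
      rw [e1]
      unfold hr
      rw [if_neg h0, if_neg (sub_ne_zero.2 (Ne.symm h1)), e2, Nat.cast_sub h2.le]
      field_simp
      ring
    · rw [if_neg h2]
      have e2 : (j - (K : ZMod N)).val = j.val - K := by
        rw [ZMod.val_sub (by rw [hKv]; omega), hKv]
      unfold hr
      rw [if_neg h0, if_neg hjk, e2, Nat.cast_sub (by omega)]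
      field_simp
      ring
  have := congrArg (fun r : ℝ => (r : ℂ)) hreal
  simp only [h]
  push_cast at this ⊢
  split_ifs at this ⊢ <;> simpa using this

end ArcMult

/-- Arcs are uniformly bounded Fourier multipliers on `ℓ⁴(ZMod N)` (discrete M. Riesz theorem). -/
theorem arc_multiplier (N : ℕ) [NeZero N] (K : ℕ) (f : ZMod N → ℂ) :
    ∑ n : ZMod N, ‖(1 / (N : ℂ)) * ∑ j : ZMod N, ∑ l : ZMod N,
        (if j.val < K then (1 : ℂ) else 0) * f l * ZMod.stdAddChar (j * (l - n))‖ ^ 4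
      ≤ 6 ^ 4 * ∑ n : ZMod N, ‖f n‖ ^ 4 := by
  have hnn : 0 ≤ ∑ n : ZMod N, ‖f n‖ ^ 4 := Finset.sum_nonneg fun n _ => by positivity
  show ∑ n : ZMod N, ‖ArcMult.M (fun j => if j.val < K then (1 : ℂ) else 0) f n‖ ^ 4 ≤ _
  rcases Nat.eq_zero_or_pos K with hK0 | hK1
  · subst hK0
    have : ∀ n : ZMod N, ArcMult.M (fun j => if j.val < 0 then (1 : ℂ) else 0) f n = 0 := by
      intro n
      unfold ArcMult.M
      simp
    rw [Finset.sum_congr rfl fun n _ => by rw [this n]]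
    simp
    positivity
  rcases lt_or_ge K N with hKN | hKN
  · rw [← ArcMult.n4_pow, ← ArcMult.n4_pow, ← mul_pow]
    apply pow_le_pow_left₀ (ArcMult.n4_nonneg _)
    have e : (ArcMult.M (fun j => if j.val < K then (1 : ℂ) else 0) f) = fun n =>
        (((1 / 2 : ℂ) * ArcMult.M ArcMult.h f n +
          (-1 / 2 : ℂ) * ArcMult.M (fun j => ArcMult.h (j - (K : ZMod N))) f n) +
        ((K : ℂ) / N) * f n) + ((1 / 2 : ℂ) * ArcMult.M (fun j => if j = 0 then 1 else 0) f n +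
          (-1 / 2 : ℂ) * ArcMult.M (fun j => if j = (K : ZMod N) then 1 else 0) f n) := by
      funext n
      have e1 : (fun j : ZMod N => if j.val < K then (1 : ℂ) else 0) = _ :=
        funext fun j => ArcMult.symbol_eq K hK1 hKN j
      rw [e1, ArcMult.M_add_left, ArcMult.M_add_left, ArcMult.M_add_left, ArcMult.M_add_left,
        ArcMult.M_smul_left, ArcMult.M_smul_left, ArcMult.M_smul_left, ArcMult.M_smul_left,
        ArcMult.M_smul_left, ArcMult.M_one]
    rw [e]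
    have a1 := ArcMult.n4_add (fun n => ((1 / 2 : ℂ) * ArcMult.M ArcMult.h f n +
          (-1 / 2 : ℂ) * ArcMult.M (fun j => ArcMult.h (j - (K : ZMod N))) f n) +
        ((K : ℂ) / N) * f n) (fun n => (1 / 2 : ℂ) * ArcMult.M (fun j => if j = 0 then 1 else 0) f n +
          (-1 / 2 : ℂ) * ArcMult.M (fun j => if j = (K : ZMod N) then 1 else 0) f n)
    have a2 := ArcMult.n4_add (fun n => (1 / 2 : ℂ) * ArcMult.M ArcMult.h f n +
          (-1 / 2 : ℂ) * ArcMult.M (fun j => ArcMult.h (j - (K : ZMod N))) f n)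
        (fun n => ((K : ℂ) / N) * f n)
    have a3 := ArcMult.n4_add (fun n => (1 / 2 : ℂ) * ArcMult.M ArcMult.h f n)
          (fun n => (-1 / 2 : ℂ) * ArcMult.M (fun j => ArcMult.h (j - (K : ZMod N))) f n)
    have a4 := ArcMult.n4_add
        (fun n => (1 / 2 : ℂ) * ArcMult.M (fun j => if j = 0 then 1 else 0) f n)
          (fun n => (-1 / 2 : ℂ) * ArcMult.M (fun j => if j = (K : ZMod N) then 1 else 0) f n)
    rw [ArcMult.n4_smul (1 / 2 : ℂ), ArcMult.n4_smul (-1 / 2 : ℂ)] at a3 a4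
    rw [ArcMult.n4_smul ((K : ℂ) / N)] at a2
    have b1 := ArcMult.n4_hilbert f
    have b2 := ArcMult.n4_shift f (K : ZMod N)
    have b3 := ArcMult.n4_delta f 0
    have b4 := ArcMult.n4_delta f (K : ZMod N)
    have b0 := ArcMult.n4_nonneg f
    have c1 : ‖(1 / 2 : ℂ)‖ = 1 / 2 := by norm_num
    have c2 : ‖(-1 / 2 : ℂ)‖ = 1 / 2 := by norm_num
    have c3 : ‖(K : ℂ) / N‖ ≤ 1 := by
      rw [norm_div, Complex.norm_natCast, Complex.norm_natCast]
      rw [div_le_one ArcMult.N_pos]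
      exact_mod_cast hKN.le
    rw [c1, c2] at a3 a4
    have c4 : ‖(K : ℂ) / N‖ * ArcMult.n4 f ≤ 1 * ArcMult.n4 f :=
      mul_le_mul_of_nonneg_right c3 b0
    linarith
  · have : ∀ n : ZMod N, ArcMult.M (fun j => if j.val < K then (1 : ℂ) else 0) f n = f n := by
      intro n
      have e1 : (fun j : ZMod N => if j.val < K then (1 : ℂ) else 0) = fun _ => 1 := by
        funext j
        rw [if_pos (lt_of_lt_of_le (ZMod.val_lt j) hKN)]
      rw [e1, ArcMult.M_one]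
    rw [Finset.sum_congr rfl fun n _ => by rw [this n]]
    nlinarith
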