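import Mathlib

set_option autoImplicit false
open Finset

/-- the finite Blaschke product with `2n` zeros at radius `r`, angles `2π(k-n+1/2)/L` (up to normalisation),
written for the parameter `η`, `r = (1-πη/L)/(1+πη/L)`. -/
noncomputable def vB (η : ℝ) (n : ℕ) (L : ℝ) (z : ℂ) : ℂ :=
  ∏ k ∈ range (2 * n),
    ((((1 - Real.pi * η / L) / (1 + Real.pi * η / L) : ℝ) : ℂ)
        - Complex.exp (-(2 * Real.pi * Complex.I * ((k : ℂ) - n + 1 / 2) / L)) * z)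
    / (1 - (((1 - Real.pi * η / L) / (1 + Real.pi * η / L) : ℝ) : ℂ)
        * Complex.exp (-(2 * Real.pi * Complex.I * ((k : ℂ) - n + 1 / 2) / L)) * z)

/-- `f` is on the closed disc the sum of a power series with ℓ¹ norm at most `c`. -/
def AN (c : ℝ) (f : ℂ → ℂ) : Prop :=
  ∃ k : ℕ → ℂ, Summable (fun m => ‖k m‖) ∧ ∑' m, ‖k m‖ ≤ c ∧ ∀ z : ℂ, ‖z‖ ≤ 1 → f z = ∑' m, k m * z ^ m
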