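import Mathlib

set_option autoImplicit false
open Finset Real

namespace PhaseVar

/-- The derivative of the Blaschke phase. -/
noncomputable def P (κ φ : ℝ) : ℝ := κ / (sin (φ / 2) ^ 2 + κ ^ 2 * cos (φ / 2) ^ 2)

/-- The derivative of the logarithmic correction. -/
noncomputable def Q (κ φ : ℝ) : ℝ :=
  (1 - κ ^ 2) * (sin (φ / 2) * cos (φ / 2)) / (sin (φ / 2) ^ 2 + κ ^ 2 * cos (φ / 2) ^ 2)

theorem sin_pos' {φ : ℝ} (h0 : 0 < φ) (h1 : φ < 2 * π) : 0 < sin (φ / 2) :=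
  sin_pos_of_pos_of_lt_pi (by linarith) (by linarith)

theorem A_pos {κ φ : ℝ} (h0 : 0 < φ) (h1 : φ < 2 * π) :
    0 < sin (φ / 2) ^ 2 + κ ^ 2 * cos (φ / 2) ^ 2 := by
  have := sin_pos' h0 h1
  positivity

theorem P_pos {κ φ : ℝ} (hκ : 0 < κ) (h0 : 0 < φ) (h1 : φ < 2 * π) : 0 < P κ φ :=
  div_pos hκ (A_pos h0 h1)

theorem hasDerivAt_gamma {κ φ : ℝ} (h0 : 0 < φ) (h1 : φ < 2 * π) :
    HasDerivAt (fun φ => -2 * arctan (κ * (cos (φ / 2) / sin (φ / 2)))) (P κ φ) φ := by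
  have hs := sin_pos' h0 h1
  have hA := A_pos (κ := κ) h0 h1
  have hid : HasDerivAt (fun φ : ℝ => φ / 2) (1 / 2) φ := (hasDerivAt_id φ).div_const 2
  have hc : HasDerivAt (fun φ : ℝ => cos (φ / 2)) (-sin (φ / 2) * (1 / 2)) φ :=
    hid.cos
  have hsn : HasDerivAt (fun φ : ℝ => sin (φ / 2)) (cos (φ / 2) * (1 / 2)) φ :=
    hid.sin
  have h2 := (((hc.fun_div hsn hs.ne').const_mul κ).arctan).const_mul (-2)
  refine h2.congr_deriv ?_
  unfold P
  have h3 : sin (φ / 2) ^ 2 + cos (φ / 2) ^ 2 = 1 := sin_sq_add_cos_sq (φ / 2)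
  have h4 : 0 < 1 + (κ * (cos (φ / 2) / sin (φ / 2))) ^ 2 := by positivity
  have h5 : 1 + (κ * (cos (φ / 2) / sin (φ / 2))) ^ 2 =
      (sin (φ / 2) ^ 2 + κ ^ 2 * cos (φ / 2) ^ 2) / sin (φ / 2) ^ 2 := by
    have := hs.ne'
    field_simp
  rw [h5]
  have hs' := hs.ne'
  have hA' := hA.ne'
  field_simp
  linear_combination κ * h3

theorem hasDerivAt_l {κ φ : ℝ} (h0 : 0 < φ) (h1 : φ < 2 * π) :
    HasDerivAt (fun φ => log (sin (φ / 2) ^ 2 + κ ^ 2 * cos (φ / 2) ^ 2)) (Q κ φ) φ := by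
  have hA := A_pos (κ := κ) h0 h1
  have hid : HasDerivAt (fun φ : ℝ => φ / 2) (1 / 2) φ := (hasDerivAt_id φ).div_const 2
  have hc : HasDerivAt (fun φ : ℝ => cos (φ / 2)) (-sin (φ / 2) * (1 / 2)) φ :=
    hid.cos
  have hsn : HasDerivAt (fun φ : ℝ => sin (φ / 2)) (cos (φ / 2) * (1 / 2)) φ :=
    hid.sin
  have h2 := ((hsn.pow 2).add ((hc.pow 2).const_mul (κ ^ 2))).log hA.ne'
  refine h2.congr_deriv ?_
  unfold Q
  congr 1
  simp
  ring

theorem P_anti {κ a b : ℝ} (hκ : 0 < κ) (hκ1 : κ < 1) (h0 : 0 < a) (hab : a ≤ b) (hb : b ≤ π) :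
    P κ b ≤ P κ a := by
  have hπ := pi_pos
  unfold P
  have h1 : sin (a / 2) ≤ sin (b / 2) :=
    sin_le_sin_of_le_of_le_pi_div_two (by linarith) (by linarith) (by linarith)
  have h2 := sin_pos' h0 (by linarith : a < 2 * π)
  have h3 := sin_sq_add_cos_sq (a / 2)
  have h4 := sin_sq_add_cos_sq (b / 2)
  have h5 : sin (a / 2) ^ 2 ≤ sin (b / 2) ^ 2 := by nlinarith
  have h6 : 0 ≤ 1 - κ ^ 2 := by nlinarith
  apply div_le_div_of_nonneg_left hκ.le (A_pos h0 (by linarith))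
  have h7 : cos (a / 2) ^ 2 = 1 - sin (a / 2) ^ 2 := by linarith
  have h8 : cos (b / 2) ^ 2 = 1 - sin (b / 2) ^ 2 := by linarith
  rw [h7, h8]
  nlinarith [mul_le_mul_of_nonneg_left h5 h6]

theorem P_mono {κ a b : ℝ} (hκ : 0 < κ) (hκ1 : κ < 1) (h0 : π ≤ a) (hab : a ≤ b)
    (hb : b < 2 * π) : P κ a ≤ P κ b := by
  have hπ := pi_pos
  unfold P
  have h1 : sin (b / 2) ≤ sin (a / 2) := by
    rw [← sin_pi_sub (b / 2), ← sin_pi_sub (a / 2)]
    exact sin_le_sin_of_le_of_le_pi_div_two (by linarith) (by linarith) (by linarith)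
  have h2 := sin_pos' (by linarith : 0 < b) hb
  have h3 := sin_sq_add_cos_sq (a / 2)
  have h4 := sin_sq_add_cos_sq (b / 2)
  have h5 : sin (b / 2) ^ 2 ≤ sin (a / 2) ^ 2 := by nlinarith
  have h6 : 0 ≤ 1 - κ ^ 2 := by nlinarith
  apply div_le_div_of_nonneg_left hκ.le (A_pos (by linarith) (by linarith))
  have h7 : cos (a / 2) ^ 2 = 1 - sin (a / 2) ^ 2 := by linarith
  have h8 : cos (b / 2) ^ 2 = 1 - sin (b / 2) ^ 2 := by linarith
  rw [h7, h8]
  nlinarith [mul_le_mul_of_nonneg_left h5 h6]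

/-- Right part of `P`. -/
noncomputable def H (κ φ : ℝ) : ℝ := if π ≤ φ then P κ φ else 0

/-- Left part of `P`. -/
noncomputable def G (κ φ : ℝ) : ℝ := if π ≤ φ then 0 else P κ φ

theorem HG (κ φ : ℝ) : P κ φ = H κ φ + G κ φ := by
  unfold H G; split_ifs <;> simp

theorem H_nonneg {κ φ : ℝ} (hκ : 0 < κ) (h0 : 0 < φ) (h1 : φ < 2 * π) : 0 ≤ H κ φ := by
  unfold H; split_ifs
  · exact (P_pos hκ h0 h1).le
  · exact le_rfl

theorem G_nonneg {κ φ : ℝ} (hκ : 0 < κ) (h0 : 0 < φ) (h1 : φ < 2 * π) : 0 ≤ G κ φ := by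
  unfold G; split_ifs
  · exact le_rfl
  · exact (P_pos hκ h0 h1).le

theorem avg {κ a b : ℝ} (hκ : 0 < κ) (hκ1 : κ < 1) (h0 : 0 < a) (hab : a < b) (hb : b < 2 * π)
    (γ : ℝ → ℝ) (hγ : ∀ φ, γ φ = -2 * arctan (κ * (cos (φ / 2) / sin (φ / 2)))) :
    H κ a + G κ b ≤ (γ b - γ a) / (b - a) ∧ (γ b - γ a) / (b - a) ≤ H κ b + G κ a := by
  have hγ' : γ = fun φ => -2 * arctan (κ * (cos (φ / 2) / sin (φ / 2))) := funext hγ
  obtain ⟨ξ, hξ, h⟩ := exists_hasDerivAt_eq_slope γ (P κ) hab (by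
      intro x hx
      rw [hγ']
      exact (hasDerivAt_gamma (by linarith [hx.1]) (by linarith [hx.2])).continuousAt.continuousWithinAt)
    (by
      intro x hx
      rw [hγ']
      exact hasDerivAt_gamma (by linarith [hx.1]) (by linarith [hx.2]))
  rw [← h]
  have hξ0 : 0 < ξ := by linarith [hξ.1]
  have hξ1 : ξ < 2 * π := by linarith [hξ.2]
  have hPξ := P_pos hκ hξ0 hξ1
  have hPa := P_pos hκ h0 (by linarith : a < 2 * π)
  have hPb := P_pos hκ (by linarith : 0 < b) hb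
  unfold H G
  rcases le_or_gt π a with ha | ha
  · have hb' : π ≤ b := by linarith
    rw [if_pos ha, if_pos hb', if_pos hb', if_pos ha]
    have h1 := P_mono hκ hκ1 ha hξ.1.le hξ1
    have h2 := P_mono hκ hκ1 (by linarith [hξ.1] : π ≤ ξ) hξ.2.le hb
    constructor <;> linarith
  · rw [if_neg (not_le.2 ha), if_neg (not_le.2 ha)]
    rcases le_or_gt π b with hb' | hb'
    · rw [if_pos hb', if_pos hb']
      refine ⟨by linarith, ?_⟩
      rcases le_or_gt π ξ with hc | hc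
      · have := P_mono hκ hκ1 hc hξ.2.le hb
        linarith
      · have := P_anti hκ hκ1 h0 hξ.1.le hc.le
        linarith
    · rw [if_neg (not_le.2 hb'), if_neg (not_le.2 hb')]
      have h1 := P_anti hκ hκ1 h0 hξ.1.le (by linarith [hξ.2])
      have h2 := P_anti hκ hκ1 hξ0 hξ.2.le hb'.le
      constructor <;> linarith

theorem sums {κ d t : ℝ} (hκ : 0 < κ) (hκ1 : κ < 1) (hd : 0 < d) (ht : t < 2 * π) (n : ℕ)
    (hn : 0 < t - n * d)
    (γ : ℝ → ℝ) (hγ : ∀ φ, γ φ = -2 * arctan (κ * (cos (φ / 2) / sin (φ / 2)))) :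
    H κ (t - n * d) + G κ t ≤
      ∑ k ∈ range (n + 1), P κ (t - k * d) - (γ t - γ (t - n * d)) / d ∧
    ∑ k ∈ range (n + 1), P κ (t - k * d) - (γ t - γ (t - n * d)) / d ≤
      H κ t + G κ (t - n * d) := by
  induction n with
  | zero => simp [HG]
  | succ n ih =>
    have h1 : t - ((n + 1 : ℕ) : ℝ) * d = t - n * d - d := by push_cast; ring
    rw [h1] at hn ⊢
    obtain ⟨h2, h3⟩ := ih (by linarith)
    have hnd : 0 ≤ (n : ℝ) * d := by positivity
    obtain ⟨h4, h5⟩ := avg hκ hκ1 hn (by linarith : t - n * d - d < t - n * d) (by linarith) γ hγ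
    have h6 : t - n * d - (t - n * d - d) = d := by ring
    rw [h6] at h4 h5
    rw [Finset.sum_range_succ, h1, HG κ (t - n * d - d)]
    have h7 : (γ t - γ (t - n * d - d)) / d =
        (γ t - γ (t - n * d)) / d + (γ (t - n * d) - γ (t - n * d - d)) / d := by ring
    rw [h7]
    constructor <;> linarith

theorem arctan_aux {κ y : ℝ} (hκ : 0 < κ) (hκ1 : κ < 1) (hy : 0 ≤ y) :
    |arctan y - (1 - κ ^ 2) * y / (1 + y ^ 2)| ≤ 4 * (κ ^ 2 + y ^ 2) / (1 + y ^ 2) := by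
  have h1 : (0 : ℝ) < 1 + y ^ 2 := by positivity
  have h0 : 0 ≤ arctan y := arctan_nonneg.2 hy
  have h2 : arctan y ≤ y := by
    have := Real.le_tan h0 (arctan_lt_pi_div_two y)
    rwa [tan_arctan] at this
  have h3 : arctan y < 1.6 := by
    have := arctan_lt_pi_div_two y
    have := pi_lt_d2
    linarith
  have h4 : y / (1 + y ^ 2) ≤ arctan y := by
    have e1 : y / (1 + y ^ 2) = sin (arctan y) * cos (arctan y) := by
      have e2 := cos_sq_arctan y
      have e3 := cos_arctan_pos y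
      have e4 : sin (arctan y) = y * cos (arctan y) := by
        have := tan_arctan y
        rw [tan_eq_sin_div_cos, div_eq_iff e3.ne'] at this
        exact this
      rw [e4, mul_assoc, ← sq, e2]; ring
    have e5 : sin (arctan y) ≤ arctan y := Real.sin_le h0
    have e6 : 0 ≤ sin (arctan y) := by
      apply sin_nonneg_of_nonneg_of_le_pi h0
      linarith [arctan_lt_pi_div_two y, pi_pos]
    rw [e1]
    nlinarith [cos_le_one (arctan y)]
  have h5 : (1 - κ ^ 2) * y / (1 + y ^ 2) = y / (1 + y ^ 2) - κ ^ 2 * y / (1 + y ^ 2) := by ring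
  rw [h5, abs_le]
  have h6 : κ ^ 2 * y / (1 + y ^ 2) ≤ (κ ^ 2 + y ^ 2) / (1 + y ^ 2) := by
    apply div_le_div_of_nonneg_right _ h1.le
    rcases le_total y 1 with h | h
    · nlinarith [sq_nonneg y, sq_nonneg κ, mul_nonneg (sq_nonneg κ) (sub_nonneg.2 h)]
    · have : κ ^ 2 ≤ 1 := by nlinarith
      nlinarith [sq_nonneg y, sq_nonneg κ]
  have h7 : 0 ≤ κ ^ 2 * y / (1 + y ^ 2) := by positivity
  have h8 : arctan y - y / (1 + y ^ 2) ≤ 3 * y ^ 2 / (1 + y ^ 2) := by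
    rw [sub_le_iff_le_add, ← add_div, le_div_iff₀ h1]
    rcases le_total y 3 with h | h
    · nlinarith [mul_le_mul_of_nonneg_right h2 h1.le, mul_nonneg (sq_nonneg y) (sub_nonneg.2 h)]
    · nlinarith [mul_le_mul_of_nonneg_right h3.le h1.le]
  have h9 : 4 * (κ ^ 2 + y ^ 2) / (1 + y ^ 2) =
      3 * y ^ 2 / (1 + y ^ 2) + 3 * κ ^ 2 / (1 + y ^ 2) + (κ ^ 2 + y ^ 2) / (1 + y ^ 2) := by ring
  have h10 : 0 ≤ 3 * κ ^ 2 / (1 + y ^ 2) := by positivity
  have h11 : 0 ≤ 3 * y ^ 2 / (1 + y ^ 2) := by positivity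
  have h12 : 0 ≤ (κ ^ 2 + y ^ 2) / (1 + y ^ 2) := by positivity
  rw [h9]
  constructor <;> linarith

theorem arctan_aux' {κ y : ℝ} (hκ : 0 < κ) (hκ1 : κ < 1) :
    |arctan y - (1 - κ ^ 2) * y / (1 + y ^ 2)| ≤ 4 * (κ ^ 2 + y ^ 2) / (1 + y ^ 2) := by
  rcases le_total 0 y with h | h
  · exact arctan_aux hκ hκ1 h
  · have := arctan_aux hκ hκ1 (y := -y) (by linarith)
    rw [arctan_neg, neg_sq] at this
    rw [← abs_neg]
    convert this using 2
    ring

/-- The comparison of the phase and the logarithmic correction at one point. -/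
theorem point {η κ φ : ℝ} (hη : 0 < η) (hκ : 0 < κ) (hκ1 : κ < 1) (h0 : 0 < φ)
    (h1 : φ < 2 * π) :
    |η / κ * arctan (κ * (cos (φ / 2) / sin (φ / 2))) - η * Q κ φ| ≤ 4 * η * P κ φ := by
  have hs := sin_pos' h0 h1
  have hA := A_pos (κ := κ) h0 h1
  have h := arctan_aux' (y := κ * (cos (φ / 2) / sin (φ / 2))) hκ hκ1
  have h3 : sin (φ / 2) ^ 2 + cos (φ / 2) ^ 2 = 1 := sin_sq_add_cos_sq (φ / 2)
  have h5 : 1 + (κ * (cos (φ / 2) / sin (φ / 2))) ^ 2 =
      (sin (φ / 2) ^ 2 + κ ^ 2 * cos (φ / 2) ^ 2) / sin (φ / 2) ^ 2 := by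
    have := hs.ne'
    field_simp
  have h6 : κ ^ 2 + (κ * (cos (φ / 2) / sin (φ / 2))) ^ 2 =
      κ ^ 2 / sin (φ / 2) ^ 2 := by
    have := hs.ne'
    field_simp
    linear_combination h3
  rw [h5, h6] at h
  have h7 : (1 - κ ^ 2) * (κ * (cos (φ / 2) / sin (φ / 2))) /
      ((sin (φ / 2) ^ 2 + κ ^ 2 * cos (φ / 2) ^ 2) / sin (φ / 2) ^ 2) = κ * Q κ φ := by
    unfold Q
    have := hs.ne'
    have := hA.ne'
    field_simp
  have h8 : 4 * (κ ^ 2 / sin (φ / 2) ^ 2) /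
      ((sin (φ / 2) ^ 2 + κ ^ 2 * cos (φ / 2) ^ 2) / sin (φ / 2) ^ 2) = 4 * κ * P κ φ := by
    unfold P
    have := hs.ne'
    have := hA.ne'
    field_simp
  rw [h7, h8] at h
  have h9 : η / κ * arctan (κ * (cos (φ / 2) / sin (φ / 2))) - η * Q κ φ =
      η / κ * (arctan (κ * (cos (φ / 2) / sin (φ / 2))) - κ * Q κ φ) := by
    have := hκ.ne'
    field_simp
  rw [h9, abs_mul, abs_of_pos (by positivity : 0 < η / κ)]
  calc η / κ * |arctan (κ * (cos (φ / 2) / sin (φ / 2))) - κ * Q κ φ|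
      ≤ η / κ * (4 * κ * P κ φ) := by gcongr
    _ = 4 * η * P κ φ := by
      have := hκ.ne'
      field_simp

/-- The bound for the derivative. -/
theorem deriv_bound {η κ d t : ℝ} (hη : 0 < η) (hd : 0 < d) (hκ : κ = η * d / 2) (hκ1 : κ < 1)
    (n : ℕ) (ht : t < 2 * π) (hn : 0 < t - n * d) :
    |∑ k ∈ range (n + 1), P κ (t - k * d) - η * (Q κ (t - n * d) - Q κ t)| ≤
      (1 + 4 * η) * (P κ t + P κ (t - n * d)) := by
  have hκ0 : 0 < κ := by rw [hκ]; positivity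
  have hnd : 0 ≤ (n : ℝ) * d := by positivity
  have ht0 : 0 < t := by linarith
  have hn1 : t - n * d < 2 * π := by linarith
  obtain ⟨h1, h2⟩ := sums hκ0 hκ1 hd ht n hn
    (fun φ => -2 * arctan (κ * (cos (φ / 2) / sin (φ / 2)))) (fun φ => rfl)
  have h3 := point hη hκ0 hκ1 ht0 ht
  have h4 := point hη hκ0 hκ1 hn hn1
  have h5 := H_nonneg hκ0 ht0 ht
  have h6 := H_nonneg hκ0 hn hn1
  have h7 := G_nonneg hκ0 ht0 ht
  have h8 := G_nonneg hκ0 hn hn1
  have h9 := HG κ t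
  have h10 := HG κ (t - n * d)
  have h11 : (2 : ℝ) / d = η / κ := by
    rw [hκ]; have := hη.ne'; have := hd.ne'; field_simp
  have h12 : ((-2 * arctan (κ * (cos (t / 2) / sin (t / 2)))) -
      (-2 * arctan (κ * (cos ((t - n * d) / 2) / sin ((t - n * d) / 2))))) / d =
      η / κ * arctan (κ * (cos ((t - n * d) / 2) / sin ((t - n * d) / 2))) -
      η / κ * arctan (κ * (cos (t / 2) / sin (t / 2))) := by
    rw [← h11]; ring
  simp only [h12] at h1 h2
  rw [abs_le] at h3 h4 ⊢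
  constructor <;> nlinarith [h3.1, h3.2, h4.1, h4.2]

end PhaseVar

/-- Comparison of the phase of an arc of `K` equally spaced Blaschke factors with an explicit reference phase,
on the complementary arc. -/
theorem phase_variation (η κ d : ℝ) (K : ℕ) (hη : 0 < η) (hd : 0 < d) (hκ : κ = η * d / 2) (hκ1 : κ < 1)
    (hK : 1 ≤ K) (hKd : K * d < 2 * π) (γ l : ℝ → ℝ)
    (hγ : ∀ φ, γ φ = -2 * arctan (κ * (cos (φ / 2) / sin (φ / 2))))
    (hl : ∀ φ, l φ = log (sin (φ / 2) ^ 2 + κ ^ 2 * cos (φ / 2) ^ 2))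
    (x y : ℝ) (hx : (K - 1) * d + d / 2 ≤ x) (hxy : x ≤ y) (hy : y ≤ 2 * π - d / 2) :
    |(∑ k ∈ range K, γ (y - k * d) - η * (l (y - (K - 1) * d) - l y))
      - (∑ k ∈ range K, γ (x - k * d) - η * (l (x - (K - 1) * d) - l x))|
    ≤ (1 + 4 * η) * ((γ y + γ (y - (K - 1) * d)) - (γ x + γ (x - (K - 1) * d))) := by
  obtain ⟨n, rfl⟩ : ∃ n, K = n + 1 := ⟨K - 1, by omega⟩
  have hn1 : (((n + 1 : ℕ) : ℝ) - 1) = n := by push_cast; ring
  rw [hn1] at hx ⊢
  have hκ0 : 0 < κ := by rw [hκ]; positivity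
  have hdγ : ∀ φ, 0 < φ → φ < 2 * π → HasDerivAt γ (PhaseVar.P κ φ) φ := by
    intro φ h0 h1
    rw [funext hγ]
    exact PhaseVar.hasDerivAt_gamma h0 h1
  have hdl : ∀ φ, 0 < φ → φ < 2 * π → HasDerivAt l (PhaseVar.Q κ φ) φ := by
    intro φ h0 h1
    rw [funext hl]
    exact PhaseVar.hasDerivAt_l h0 h1
  have hsh : ∀ (f : ℝ → ℝ) (f' c t : ℝ), HasDerivAt f f' (t - c) →
      HasDerivAt (fun t => f (t - c)) f' t := by
    intro f f' c t h
    have := h.comp_sub_const t c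
    exact this
  set F : ℝ → ℝ := fun t => ∑ k ∈ range (n + 1), γ (t - k * d) - η * (l (t - n * d) - l t)
    with hF
  set M : ℝ → ℝ := fun t => (1 + 4 * η) * (γ t + γ (t - n * d)) with hM
  have hrange : ∀ t ∈ Set.Icc x y, ∀ k ∈ range (n + 1), 0 < t - k * d ∧ t - k * d < 2 * π := by
    intro t ht k hk
    have h1 : (k : ℝ) ≤ n := by exact_mod_cast Nat.lt_succ_iff.1 (Finset.mem_range.1 hk)
    have h2 : (k : ℝ) * d ≤ n * d := by gcongr
    have h3 : 0 ≤ (k : ℝ) * d := by positivity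
    constructor
    · linarith [ht.1]
    · linarith [ht.2]
  have hFd : ∀ t ∈ Set.Icc x y, HasDerivAt F
      (∑ k ∈ range (n + 1), PhaseVar.P κ (t - k * d) -
        η * (PhaseVar.Q κ (t - n * d) - PhaseVar.Q κ t)) t := by
    intro t ht
    have h0 := hrange t ht 0 (by simp)
    have hn := hrange t ht n (by simp)
    simp only [Nat.cast_zero, zero_mul, sub_zero] at h0
    refine HasDerivAt.sub ?_ (HasDerivAt.const_mul η (HasDerivAt.sub ?_ (hdl t h0.1 h0.2)))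
    · exact HasDerivAt.fun_sum fun k hk => hsh γ _ _ _
        (hdγ _ (hrange t ht k hk).1 (hrange t ht k hk).2)
    · exact hsh l _ _ _ (hdl _ hn.1 hn.2)
  have hMd : ∀ t ∈ Set.Icc x y, HasDerivAt M
      ((1 + 4 * η) * (PhaseVar.P κ t + PhaseVar.P κ (t - n * d))) t := by
    intro t ht
    have h0 := hrange t ht 0 (by simp)
    have hn := hrange t ht n (by simp)
    simp only [Nat.cast_zero, zero_mul, sub_zero] at h0
    exact HasDerivAt.const_mul _ ((hdγ t h0.1 h0.2).add (hsh γ _ _ _ (hdγ _ hn.1 hn.2)))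
  have hb : ∀ t ∈ Set.Icc x y, |∑ k ∈ range (n + 1), PhaseVar.P κ (t - k * d) -
        η * (PhaseVar.Q κ (t - n * d) - PhaseVar.Q κ t)| ≤
        (1 + 4 * η) * (PhaseVar.P κ t + PhaseVar.P κ (t - n * d)) := by
    intro t ht
    have h0 := hrange t ht 0 (by simp)
    have hn := hrange t ht n (by simp)
    simp only [Nat.cast_zero, zero_mul, sub_zero] at h0
    exact PhaseVar.deriv_bound hη hd hκ hκ1 n h0.2 hn.1
  have hmono : ∀ s : ℝ, |s| ≤ 1 → MonotoneOn (fun t => M t + s * F t) (Set.Icc x y) := by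
    intro s hs
    apply monotoneOn_of_hasDerivWithinAt_nonneg (convex_Icc x y)
      (f' := fun t => (1 + 4 * η) * (PhaseVar.P κ t + PhaseVar.P κ (t - n * d)) +
        s * (∑ k ∈ range (n + 1), PhaseVar.P κ (t - k * d) -
        η * (PhaseVar.Q κ (t - n * d) - PhaseVar.Q κ t)))
    · intro t ht
      exact ((hMd t ht).add ((hFd t ht).const_mul s)).continuousAt.continuousWithinAt
    · intro t ht
      have ht' := interior_subset ht
      exact ((hMd t ht').add ((hFd t ht').const_mul s)).hasDerivWithinAt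
    · intro t ht
      have ht' := interior_subset ht
      have h1 := hb t ht'
      set D := ∑ k ∈ range (n + 1), PhaseVar.P κ (t - k * d) -
        η * (PhaseVar.Q κ (t - n * d) - PhaseVar.Q κ t)
      have h2 : |s * D| ≤ |D| := by
        rw [abs_mul]; nlinarith [abs_nonneg D]
      have h3 := neg_abs_le (s * D)
      linarith
  have hxm : x ∈ Set.Icc x y := ⟨le_rfl, hxy⟩
  have hym : y ∈ Set.Icc x y := ⟨hxy, le_rfl⟩
  have h1 := hmono 1 (by simp) hxm hym hxy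
  have h2 := hmono (-1) (by simp) hxm hym hxy
  simp only at h1 h2
  change |F y - F x| ≤ _
  have h3 : (1 + 4 * η) * ((γ y + γ (y - n * d)) - (γ x + γ (x - n * d))) = M y - M x := by
    simp only [hM]; ring
  rw [h3, abs_le]
  constructor <;> linarith
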