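import Pool.Agent.MP58366f.MT

set_option autoImplicit false
open Finset

namespace R701

theorem bk_succ (a : ℂ) (k : ℕ) : ((k : ℂ) + 1) * Ring.choose a (k + 1) = (a - k) * Ring.choose a k := by
  have h1 := Ring.descPochhammer_eq_factorial_smul_choose a (k + 1)
  have h2 := Ring.descPochhammer_eq_factorial_smul_choose a k
  rw [descPochhammer_succ_right, Polynomial.smeval_mul, h2] at h1
  rw [Nat.factorial_succ] at h1
  have hk : ((k.factorial : ℕ) : ℂ) ≠ 0 := by exact_mod_cast Nat.factorial_ne_zero k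
  simp only [Polynomial.smeval_sub, Polynomial.smeval_X, pow_one, Polynomial.smeval_natCast, pow_zero,
    nsmul_eq_mul, mul_one] at h1
  push_cast at h1
  apply mul_left_cancel₀ hk
  linear_combination -h1

theorem sum_choose (a : ℂ) (k : ℕ) : ∑ j ∈ range (k + 1), (-1 : ℂ) ^ j * Ring.choose a j =
    (-1) ^ k * Ring.choose (a - 1) k := by
  induction k with
  | zero => simp
  | succ k ih =>
    rw [sum_range_succ, ih]
    have h := Ring.choose_succ_succ (a - 1) k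
    rw [sub_add_cancel] at h
    rw [h]
    ring

theorem norm_bk (τ : ℝ) (k : ℕ) : ‖Ring.choose (Complex.I * τ - 1) k‖ ^ 2 =
    ∏ j ∈ range k, (1 + τ ^ 2 / ((j : ℝ) + 1) ^ 2) := by
  induction k with
  | zero => simp
  | succ k ih =>
    rw [prod_range_succ, ← ih]
    have h := bk_succ (Complex.I * τ - 1) k
    have h2 := congrArg (fun z : ℂ => ‖z‖ ^ 2) h
    simp only [norm_mul, mul_pow] at h2
    have h3 : ‖((k : ℂ) + 1)‖ ^ 2 = ((k : ℝ) + 1) ^ 2 := by
      have : ((k : ℂ) + 1) = (((k : ℝ) + 1 : ℝ) : ℂ) := by push_cast; ring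
      rw [this, Complex.norm_real, Real.norm_eq_abs, sq_abs]
    have h4 : ‖Complex.I * τ - 1 - k‖ ^ 2 = τ ^ 2 + ((k : ℝ) + 1) ^ 2 := by
      rw [← Complex.normSq_eq_norm_sq, Complex.normSq_apply]
      simp
      ring
    rw [h3, h4] at h2
    have hk : ((k : ℝ) + 1) ^ 2 ≠ 0 := by positivity
    field_simp
    linear_combination h2

theorem prod_le (τ : ℝ) (hτ : τ ≠ 0) (k : ℕ) : ∏ j ∈ range k, (1 + τ ^ 2 / ((j : ℝ) + 1) ^ 2) ≤
    Real.sinh (Real.pi * τ) / (Real.pi * τ) := by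
  have h := Complex.tendsto_euler_sin_prod (Complex.I * τ)
  have hlim : Filter.Tendsto (fun k : ℕ => ∏ j ∈ range k, (1 + τ ^ 2 / ((j : ℝ) + 1) ^ 2))
      Filter.atTop (nhds (Real.sinh (Real.pi * τ) / (Real.pi * τ))) := by
    have e1 : Complex.sin (Real.pi * (Complex.I * τ)) = Complex.I * (Real.sinh (Real.pi * τ) : ℝ) := by
      rw [show (Real.pi : ℂ) * (Complex.I * τ) = ((Real.pi * τ : ℝ) : ℂ) * Complex.I by push_cast; ring,
        Complex.sin_mul_I, ← Complex.ofReal_sinh]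
      ring
    rw [e1] at h
    have e2 : ∀ n : ℕ, (Real.pi : ℂ) * (Complex.I * τ) * ∏ j ∈ range n, ((1 : ℂ) - (Complex.I * τ) ^ 2 / ((j : ℂ) + 1) ^ 2)
        = Complex.I * (((Real.pi * τ) * ∏ j ∈ range n, (1 + τ ^ 2 / ((j : ℝ) + 1) ^ 2) : ℝ) : ℂ) := by
      intro n
      have : ∀ j ∈ range n, ((1 : ℂ) - (Complex.I * τ) ^ 2 / ((j : ℂ) + 1) ^ 2) =
          ((1 + τ ^ 2 / ((j : ℝ) + 1) ^ 2 : ℝ) : ℂ) := by
        intro j _
        push_cast
        rw [mul_pow, Complex.I_sq]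
        ring
      rw [prod_congr rfl this]
      push_cast
      ring
    simp_rw [e2] at h
    have h2 := (h.const_mul (-Complex.I))
    have e3 : ∀ z : ℂ, -Complex.I * (Complex.I * z) = z := by
      intro z
      rw [← mul_assoc, neg_mul, Complex.I_mul_I]; ring
    simp_rw [e3] at h2
    have h3 := (Complex.continuous_re.tendsto _).comp h2
    simp only [Function.comp_def, Complex.ofReal_re] at h3
    have hpt : Real.pi * τ ≠ 0 := mul_ne_zero Real.pi_ne_zero hτ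
    have h4 := h3.const_mul ((Real.pi * τ)⁻¹)
    refine (h4.congr fun n => ?_).trans ?_
    · field_simp
    · rw [div_eq_inv_mul]
  refine Monotone.ge_of_tendsto ?_ hlim k
  refine monotone_nat_of_le_succ fun n => ?_
  rw [prod_range_succ]
  have : 0 ≤ ∏ j ∈ range n, (1 + τ ^ 2 / ((j : ℝ) + 1) ^ 2) := prod_nonneg fun j _ => by positivity
  nlinarith [show 0 ≤ τ ^ 2 / ((n : ℝ) + 1) ^ 2 by positivity]

theorem norm_sum (τ : ℝ) (hτ : τ ≠ 0) (k : ℕ) :
    ‖∑ j ∈ range (k + 1), (-1 : ℂ) ^ j * Ring.choose (Complex.I * τ) j‖ ≤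
      Real.sqrt (Real.sinh (Real.pi * τ) / (Real.pi * τ)) := by
  rw [sum_choose, norm_mul, norm_pow, norm_neg, norm_one, one_pow, one_mul]
  apply Real.le_sqrt_of_sq_le
  rw [norm_bk]
  exact prod_le τ hτ k

/-- Abel summation with powers of `r`. -/
theorem abel (m : ℕ → ℂ) (r B : ℝ) (hr0 : 0 ≤ r) (hr1 : r ≤ 1) 
    (h : ∀ k, ‖∑ j ∈ range (k + 1), m j‖ ≤ B) (k : ℕ) :
    ‖∑ j ∈ range (k + 1), m j * (r : ℂ) ^ j‖ ≤ B := by
  have key : ∀ k, ∑ j ∈ range (k + 1), m j * (r : ℂ) ^ j =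
      (∑ j ∈ range (k + 1), m j) * (r : ℂ) ^ k +
        (1 - r) * ∑ j ∈ range k, (∑ i ∈ range (j + 1), m i) * (r : ℂ) ^ j := by
    intro k
    induction k with
    | zero => simp
    | succ k ih =>
      rw [sum_range_succ, ih, sum_range_succ (fun j => (∑ i ∈ range (j + 1), m i) * (r : ℂ) ^ j),
        sum_range_succ m (k + 1)]
      ring
  have hB : 0 ≤ B := (norm_nonneg _).trans (h 0)
  rw [key]
  calc _ ≤ ‖(∑ j ∈ range (k + 1), m j) * (r : ℂ) ^ k‖ +
        ‖(1 - (r : ℂ)) * ∑ j ∈ range k, (∑ i ∈ range (j + 1), m i) * (r : ℂ) ^ j‖ := norm_add_le _ _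
    _ ≤ B * r ^ k + (1 - r) * ∑ j ∈ range k, B * r ^ j := by
        have hr : ‖(r : ℂ)‖ = r := by rw [Complex.norm_real, Real.norm_of_nonneg hr0]
        have h1r : ‖(1 - (r : ℂ))‖ = 1 - r := by
          rw [show (1 - (r : ℂ)) = ((1 - r : ℝ) : ℂ) by push_cast; ring, Complex.norm_real,
            Real.norm_of_nonneg (by linarith)]
        gcongr
        · rw [norm_mul, norm_pow, hr]
          gcongr
          exact h k
        · rw [norm_mul, h1r]
          refine mul_le_mul_of_nonneg_left ?_ (by linarith)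
          refine (norm_sum_le _ _).trans (sum_le_sum fun j _ => ?_)
          rw [norm_mul, norm_pow, hr]
          gcongr
          exact h j
    _ = B := by
        rw [← mul_sum]
        have := mul_neg_geom_sum r k
        linear_combination B * this


theorem exp_hasSum (r s τ : ℝ) (hr0 : 0 ≤ r) (hr1 : r < 1) (hs0 : 0 ≤ s) (hs1 : s ≤ 1) :
    HasSum (fun j : ℕ => ((-1 : ℂ) ^ j * Ring.choose (Complex.I * τ) j * (r : ℂ) ^ j) * (s : ℂ) ^ j)
      (Complex.exp (Complex.I * τ * (Real.log (1 - r * s) : ℝ))) := by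
  have hrs : r * s < 1 := by nlinarith
  have hrs0 : 0 ≤ r * s := mul_nonneg hr0 hs0
  have h := (Complex.one_add_cpow_hasFPowerSeriesOnBall_zero (a := Complex.I * τ)).hasSum
    (y := ((-(r * s) : ℝ) : ℂ)) (by
      rw [← ENNReal.ofReal_one, Metric.eball_ofReal]
      simp only [Metric.mem_ball, dist_zero_right, Complex.norm_real, norm_neg]
      rw [Real.norm_of_nonneg hrs0]
      exact hrs)
  have e1 : (1 + (0 + ((-(r * s) : ℝ) : ℂ))) ^ (Complex.I * τ : ℂ) =
      Complex.exp (Complex.I * τ * (Real.log (1 - r * s) : ℝ)) := by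
    have : (1 + (0 + ((-(r * s) : ℝ) : ℂ))) = ((1 - r * s : ℝ) : ℂ) := by push_cast; ring
    rw [this, Complex.cpow_def_of_ne_zero (by
      exact_mod_cast (by linarith : (1 - r * s : ℝ) ≠ 0)), ← Complex.ofReal_log (by linarith)]
    ring_nf
  rw [e1] at h
  refine h.congr_fun ?_
  intro j
  simp only [binomialSeries_apply, List.ofFn_const, List.prod_replicate, smul_eq_mul]
  push_cast
  rw [show (-((r : ℂ) * s)) = (-1) * (r * s) by ring, mul_pow, mul_pow]
  ring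

/-- TARGET: imaginary powers of `sin² + κ² cos²` are ℓ⁴ multipliers, uniformly in `κ`, `α`, `N`. -/
theorem ref_multiplier (N : ℕ) [NeZero N] (α κ τ : ℝ) (hκ0 : 0 < κ) (hκ1 : κ < 1) (hτ : τ ≠ 0)
    (f : ZMod N → ℂ) :
    ∑ n : ZMod N, ‖(1 / (N : ℂ)) * ∑ j : ZMod N, ∑ l : ZMod N,
        Complex.exp (Complex.I * τ * (Real.log (Real.sin ((2 * Real.pi * (j.val : ℝ) / N - α) / 2) ^ 2
          + κ ^ 2 * Real.cos ((2 * Real.pi * (j.val : ℝ) / N - α) / 2) ^ 2) : ℝ))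
        * f l * ZMod.stdAddChar (j * (l - n))‖ ^ 4
      ≤ (4 * Real.sqrt (Real.sinh (Real.pi * τ) / (Real.pi * τ))) ^ 4 * ∑ n : ZMod N, ‖f n‖ ^ 4 := by
  have hs0 : ∀ j : ZMod N, 0 ≤ Real.cos ((2 * Real.pi * (j.val : ℝ) / N - α) / 2) ^ 2 :=
    fun j => sq_nonneg _
  have hs1 : ∀ j : ZMod N, Real.cos ((2 * Real.pi * (j.val : ℝ) / N - α) / 2) ^ 2 ≤ 1 :=
    fun j => Real.cos_sq_le_one _
  set r : ℝ := 1 - κ ^ 2 with hr
  have hr0 : 0 ≤ r := by rw [hr]; nlinarith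
  have hr1 : r < 1 := by rw [hr]; nlinarith
  have hexp : ∀ j : ZMod N, Real.sin ((2 * Real.pi * (j.val : ℝ) / N - α) / 2) ^ 2
          + κ ^ 2 * Real.cos ((2 * Real.pi * (j.val : ℝ) / N - α) / 2) ^ 2 =
        1 - r * Real.cos ((2 * Real.pi * (j.val : ℝ) / N - α) / 2) ^ 2 := by
    intro j
    have := Real.sin_sq_add_cos_sq ((2 * Real.pi * (j.val : ℝ) / N - α) / 2)
    rw [hr]
    linear_combination this
  simp_rw [hexp]
  have hlim : ∀ j : ZMod N, Filter.Tendsto (fun K : ℕ => ∑ i ∈ range (K + 1),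
      ((-1 : ℂ) ^ i * Ring.choose (Complex.I * τ) i * (r : ℂ) ^ i) *
        (((Real.cos ((2 * Real.pi * (j.val : ℝ) / N - α) / 2)) ^ 2 : ℝ) : ℂ) ^ i) Filter.atTop
      (nhds (Complex.exp (Complex.I * τ *
        (Real.log (1 - r * Real.cos ((2 * Real.pi * (j.val : ℝ) / N - α) / 2) ^ 2) : ℝ)))) := by
    intro j
    exact ((exp_hasSum r _ τ hr0 hr1 (hs0 j) (hs1 j)).tendsto_sum_nat).comp
      (Filter.tendsto_add_atTop_nat 1)
  refine le_of_tendsto' (f := fun K : ℕ => ∑ n : ZMod N, ‖(1 / (N : ℂ)) * ∑ j : ZMod N, ∑ l : ZMod N,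
        (∑ i ∈ range (K + 1), ((-1 : ℂ) ^ i * Ring.choose (Complex.I * τ) i * (r : ℂ) ^ i) *
          (((Real.cos ((2 * Real.pi * (j.val : ℝ) / N - α) / 2)) ^ 2 : ℝ) : ℂ) ^ i)
        * f l * ZMod.stdAddChar (j * (l - n))‖ ^ 4) (x := Filter.atTop) ?_ ?_
  · refine tendsto_finsetSum _ fun n _ => ?_
    refine Filter.Tendsto.pow (Filter.Tendsto.norm ?_) 4
    refine Filter.Tendsto.const_mul _ ?_
    refine tendsto_finsetSum _ fun j _ => ?_
    refine tendsto_finsetSum _ fun l _ => ?_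
    exact ((hlim j).mul_const _).mul_const _
  · intro K
    exact mt_multiplier N α _ K _ (fun k _ => abel _ r _ hr0 hr1.le (norm_sum τ hτ) k) f


end R701
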