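import Pool.Agent.MP58366f.Base
import Pool.Agent.MP58366f.Defs
import Pool.Agent.MP58366f.Arc
import Pool.Agent.MP58366f.Ref
import Pool.Agent.MP58366f.Phase

set_option autoImplicit false
open Finset

namespace IM

variable {N : ℕ} [NeZero N]

theorem arc_mb (N : ℕ) [NeZero N] (K : ℕ) : MB 6 (fun j : ZMod N => if j.val < K then (1 : ℂ) else 0) := by
  intro f
  apply N4_le_of_pow (by have := N4_nonneg f; positivity)
  rw [mul_pow, N4_pow]
  exact arc_multiplier N K f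

theorem ref_mb (N : ℕ) [NeZero N] (α κ τ : ℝ) (hκ0 : 0 < κ) (hκ1 : κ < 1) (hτ : τ ≠ 0) :
    MB (4 * Real.sqrt (Real.sinh (Real.pi * τ) / (Real.pi * τ)))
      (fun j : ZMod N => Complex.exp (Complex.I * τ * (Real.log (Real.sin ((2 * Real.pi * (j.val : ℝ) / N - α) / 2) ^ 2
          + κ ^ 2 * Real.cos ((2 * Real.pi * (j.val : ℝ) / N - α) / 2) ^ 2) : ℝ))) := by
  intro f
  apply N4_le_of_pow (by have := N4_nonneg f; positivity)
  rw [mul_pow, N4_pow]
  exact R701.ref_multiplier N α κ τ hκ0 hκ1 hτ f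

lemma MB.zero {C : ℝ} (hC : 0 ≤ C) : MB C (fun _ : ZMod N => (0:ℂ)) := by
  intro f
  have h := T_smul_symb 0 (fun _ => (1:ℂ)) f
  have h2 : T (fun _ : ZMod N => (0:ℂ)) f = 0 := by simpa using h
  rw [h2, N4_zero]
  exact mul_nonneg hC (N4_nonneg f)

lemma interval_mb (N : ℕ) [NeZero N] (a c : ℕ) (hac : a ≤ c) :
    MB 12 (fun j : ZMod N => if a ≤ j.val ∧ j.val < c then (1 : ℂ) else 0) := by
  have h1 := arc_mb N c
  have h2 := (arc_mb N a).smul (-1)
  have h3 : MB 6 (fun j : ZMod N => (-1 : ℂ) * (if j.val < a then (1 : ℂ) else 0)) :=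
    h2.mono (by simp)
  refine ((h1.add h3).mono (by norm_num)).congr fun j => ?_
  by_cases h : j.val < a
  · have : j.val < c := lt_of_lt_of_le h hac
    simp [h, this]
  · push Not at h
    have h' : ¬ j.val < a := by omega
    by_cases h4 : j.val < c
    · simp [h, h', h4]
    · simp [h', h4]

theorem bv_mb (N : ℕ) [NeZero N] (a b : ℕ) (g : ℕ → ℂ) (V : ℝ) (hg : ∀ k, a ≤ k → k < b → ‖g k‖ ≤ 1)
    (hV : ∑ k ∈ Ico a (b - 1), ‖g (k + 1) - g k‖ ≤ V) (hV0 : 0 ≤ V) :
    MB (12 * (1 + V)) (fun j : ZMod N => if a ≤ j.val ∧ j.val < b then g j.val else 0) := by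
  by_cases hab : a < b
  · obtain ⟨b', rfl⟩ : ∃ b', b = b' + 1 := ⟨b - 1, by omega⟩
    rw [Nat.add_sub_cancel] at hV
    have hab' : a ≤ b' := by omega
    have h1 := (interval_mb N a (b' + 1) (by omega)).smul (g b')
    have h2 := MB.sum (N := N) (Ico a b') (fun k => ‖g k - g (k + 1)‖ * 12)
      (fun k j => (g k - g (k + 1)) * (if a ≤ j.val ∧ j.val < k + 1 then (1 : ℂ) else 0))
      (fun k hk => (interval_mb N a (k + 1) (by have := (mem_Ico.1 hk).1; omega)).smul _)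
    refine ((h1.add h2).mono ?_).congr fun j => ?_
    · have h3 : ‖g b'‖ ≤ 1 := hg b' hab' (by omega)
      have h4 : ∑ k ∈ Ico a b', ‖g k - g (k + 1)‖ * 12 ≤ V * 12 := by
        rw [← Finset.sum_mul]
        refine mul_le_mul_of_nonneg_right (le_trans (le_of_eq ?_) hV) (by norm_num)
        exact Finset.sum_congr rfl fun k _ => norm_sub_rev _ _
      linarith
    · by_cases hj : a ≤ j.val ∧ j.val < b' + 1
      · rw [if_pos hj, if_pos hj, mul_one]
        have h5 : ∑ k ∈ Ico a b', (g k - g (k + 1)) * (if a ≤ j.val ∧ j.val < k + 1 then (1 : ℂ) else 0)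
            = ∑ k ∈ Ico j.val b', (g k - g (k + 1)) := by
          symm
          rw [← Finset.sum_filter_add_sum_filter_not (Ico a b') (fun k => j.val ≤ k)]
          have h6 : ∑ k ∈ (Ico a b').filter (fun k => ¬ j.val ≤ k),
              (g k - g (k + 1)) * (if a ≤ j.val ∧ j.val < k + 1 then (1 : ℂ) else 0) = 0 := by
            refine Finset.sum_eq_zero fun k hk => ?_
            have := (Finset.mem_filter.1 hk).2
            rw [if_neg (by omega), mul_zero]
          rw [h6, add_zero]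
          have h7 : (Ico a b').filter (fun k => j.val ≤ k) = Ico j.val b' := by
            ext k; simp only [Finset.mem_filter, mem_Ico]; omega
          rw [h7]
          refine Finset.sum_congr rfl fun k hk => ?_
          have := (mem_Ico.1 hk).1
          rw [if_pos ⟨hj.1, by omega⟩, mul_one]
        rw [h5]
        have h8 := Finset.sum_Ico_sub (fun k => - g k) (show j.val ≤ b' by omega)
        have h9 : ∑ k ∈ Ico j.val b', (g k - g (k + 1)) = ∑ k ∈ Ico j.val b', (-g (k + 1) - -g k) :=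
          Finset.sum_congr rfl fun k _ => by ring
        rw [h9, h8]; ring
      · rw [if_neg hj, if_neg hj, mul_zero, zero_add]
        refine Finset.sum_eq_zero fun k hk => ?_
        have := (mem_Ico.1 hk).2
        rw [if_neg (by omega), mul_zero]
  · refine (MB.zero (by positivity)).congr fun j => ?_
    rw [if_neg (by omega)]

/-- the phase of one factor -/
noncomputable def ga (κ φ : ℝ) : ℝ := -2 * Real.arctan (κ * (Real.cos (φ / 2) / Real.sin (φ / 2)))

noncomputable def lg (κ φ : ℝ) : ℝ := Real.log (Real.sin (φ / 2) ^ 2 + κ ^ 2 * Real.cos (φ / 2) ^ 2)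

/-- one factor -/
noncomputable def FF (r : ℝ) (φ : ℝ) : ℂ :=
  ((r : ℂ) - Complex.exp (Complex.I * φ)) / (1 - (r : ℂ) * Complex.exp (Complex.I * φ))

lemma abs_ga_lt (κ φ : ℝ) : |ga κ φ| < Real.pi := by
  unfold ga
  rw [abs_lt]
  have h1 := Real.arctan_lt_pi_div_two (κ * (Real.cos (φ / 2) / Real.sin (φ / 2)))
  have h2 := Real.neg_pi_div_two_lt_arctan (κ * (Real.cos (φ / 2) / Real.sin (φ / 2)))
  constructor <;> linarith

lemma ga_periodic (κ φ : ℝ) : ga κ (φ + 2 * Real.pi) = ga κ φ := by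
  unfold ga
  rw [show (φ + 2 * Real.pi) / 2 = φ / 2 + Real.pi by ring, Real.cos_add_pi, Real.sin_add_pi,
    neg_div_neg_eq]

lemma lg_periodic (κ φ : ℝ) : lg κ (φ + 2 * Real.pi) = lg κ φ := by
  unfold lg
  rw [show (φ + 2 * Real.pi) / 2 = φ / 2 + Real.pi by ring, Real.cos_add_pi, Real.sin_add_pi]
  congr 1; ring

lemma exp_arctan (x : ℝ) :
    Complex.exp (Complex.I * ((-2 * Real.arctan x : ℝ) : ℂ)) * (1 + Complex.I * x) = 1 - Complex.I * x := by
  set θ := Real.arctan x with hθ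
  have hx : x = Real.sin θ / Real.cos θ := by
    rw [← Real.tan_eq_sin_div_cos, hθ, Real.tan_arctan]
  have hc : Real.cos θ ≠ 0 := (Real.cos_arctan_pos x).ne'
  have hcC : (Real.cos θ : ℂ) ≠ 0 := by exact_mod_cast hc
  have h1 : (1 + Complex.I * x) * Real.cos θ = Complex.exp (Complex.I * θ) := by
    rw [mul_comm Complex.I (θ : ℂ), Complex.exp_mul_I, hx]
    push_cast
    rw [← Complex.ofReal_cos, ← Complex.ofReal_sin]
    field_simp
  have h2 : (1 - Complex.I * x) * Real.cos θ = Complex.exp (-(Complex.I * θ)) := by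
    rw [show -(Complex.I * (θ : ℂ)) = ((-θ : ℝ) : ℂ) * Complex.I by push_cast; ring,
      Complex.exp_mul_I, hx]
    push_cast
    rw [Complex.cos_neg, Complex.sin_neg, ← Complex.ofReal_cos, ← Complex.ofReal_sin]
    field_simp
    ring
  have h3 : Complex.exp (Complex.I * ((-2 * θ : ℝ) : ℂ)) * Complex.exp (Complex.I * θ) =
      Complex.exp (-(Complex.I * θ)) := by
    rw [← Complex.exp_add]
    congr 1
    push_cast; ring
  have h4 : (Complex.exp (Complex.I * ((-2 * θ : ℝ) : ℂ)) * (1 + Complex.I * x)) * Real.cos θ =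
      (1 - Complex.I * x) * Real.cos θ := by
    rw [mul_assoc, h1, h2, h3]
  exact mul_right_cancel₀ hcC h4

lemma den_ne' {r : ℝ} (hr0 : 0 ≤ r) (hr1 : r < 1) (φ : ℝ) :
    (1 - (r : ℂ) * Complex.exp (Complex.I * φ)) ≠ 0 := by
  intro h
  have h1 : (r : ℂ) * Complex.exp (Complex.I * φ) = 1 := by linear_combination -h
  have h2 := congrArg norm h1
  rw [norm_mul, Complex.norm_exp_I_mul_ofReal, Complex.norm_real, Real.norm_of_nonneg hr0,
    norm_one] at h2
  linarith

lemma alg_factor (κ C S : ℂ) (hCS : C ^ 2 + S ^ 2 = 1) (hS : S ≠ 0) (hk : 1 + κ ≠ 0) :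
    ((1 - κ) / (1 + κ) - (C + Complex.I * S) ^ 2) * (1 + Complex.I * (κ * (C / S))) =
    (1 - Complex.I * (κ * (C / S))) * (1 - (1 - κ) / (1 + κ) * (C + Complex.I * S) ^ 2) := by
  have e1 : ((1 - κ) - (1 + κ) * (C + Complex.I * S) ^ 2) * (S + Complex.I * κ * C) =
      (S - Complex.I * κ * C) * ((1 + κ) - (1 - κ) * (C + Complex.I * S) ^ 2) := by
    linear_combination (-2 * κ * (Complex.I * C - S)) * hCS +
      (2 * κ * (-S ^ 3 - Complex.I * C * S ^ 2 - 2 * C ^ 2 * S)) * Complex.I_sq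
  have e2 : (1 - κ) / (1 + κ) - (C + Complex.I * S) ^ 2 =
      ((1 - κ) - (1 + κ) * (C + Complex.I * S) ^ 2) / (1 + κ) := by field_simp
  have e3 : 1 + Complex.I * (κ * (C / S)) = (S + Complex.I * κ * C) / S := by field_simp
  have e4 : 1 - Complex.I * (κ * (C / S)) = (S - Complex.I * κ * C) / S := by field_simp
  have e5 : 1 - (1 - κ) / (1 + κ) * (C + Complex.I * S) ^ 2 =
      ((1 + κ) - (1 - κ) * (C + Complex.I * S) ^ 2) / (1 + κ) := by field_simp
  rw [e2, e3, e4, e5, div_mul_div_comm, div_mul_div_comm, e1, mul_comm (1 + κ) S]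

lemma factor_eq {κ : ℝ} (hκ0 : 0 < κ) (hκ1 : κ < 1) {φ : ℝ} (hs : Real.sin (φ / 2) ≠ 0) :
    FF ((1 - κ) / (1 + κ)) φ = Complex.exp (Complex.I * (ga κ φ : ℝ)) := by
  have hr0 : 0 ≤ (1 - κ) / (1 + κ) := div_nonneg (by linarith) (by linarith)
  have hr1 : (1 - κ) / (1 + κ) < 1 := by rw [div_lt_one (by linarith)]; linarith
  have hden := den_ne' hr0 hr1 φ
  unfold FF
  rw [div_eq_iff hden]
  set x : ℝ := κ * (Real.cos (φ / 2) / Real.sin (φ / 2)) with hx
  have h1 := exp_arctan x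
  have hga : ga κ φ = -2 * Real.arctan x := rfl
  rw [hga]
  have hne : (1 + Complex.I * x : ℂ) ≠ 0 := by
    intro h
    have := congrArg Complex.re h
    simp at this
  have h2 : Complex.exp (Complex.I * ((-2 * Real.arctan x : ℝ) : ℂ)) =
      (1 - Complex.I * x) / (1 + Complex.I * x) := by
    rw [eq_div_iff hne, h1]
  rw [h2]
  have hw : Complex.exp (Complex.I * φ) =
      ((Real.cos (φ / 2) : ℂ) + Complex.I * Real.sin (φ / 2)) ^ 2 := by
    have : Complex.exp (Complex.I * ((φ / 2 : ℝ) : ℂ)) =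
        (Real.cos (φ / 2) : ℂ) + Complex.I * Real.sin (φ / 2) := by
      rw [mul_comm Complex.I, Complex.exp_mul_I, ← Complex.ofReal_cos, ← Complex.ofReal_sin]; ring
    rw [← this, sq, ← Complex.exp_add]
    congr 1; push_cast; ring
  have hcs : (Real.cos (φ / 2) : ℂ) ^ 2 + (Real.sin (φ / 2) : ℂ) ^ 2 = 1 := by
    exact_mod_cast Real.cos_sq_add_sin_sq (φ / 2)
  have hsC : (Real.sin (φ / 2) : ℂ) ≠ 0 := by exact_mod_cast hs
  have hxC : (x : ℂ) = κ * ((Real.cos (φ / 2) : ℂ) / Real.sin (φ / 2)) := by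
    rw [hx]; push_cast; ring
  have hk : (1 + (κ : ℂ)) ≠ 0 := by
    have : (1 + κ : ℝ) ≠ 0 := by linarith
    exact_mod_cast this
  rw [div_mul_eq_mul_div, eq_div_iff hne, hw, hxC]
  have hr : (((1 - κ) / (1 + κ) : ℝ) : ℂ) = (1 - (κ : ℂ)) / (1 + κ) := by push_cast; ring
  rw [hr]
  exact alg_factor _ _ _ hcs hsC hk

lemma FF_norm {κ : ℝ} (hκ0 : 0 < κ) (hκ1 : κ < 1) {φ : ℝ} (hs : Real.sin (φ / 2) ≠ 0) :
    FF ((1 - κ) / (1 + κ)) φ ≠ 0 := by
  rw [factor_eq hκ0 hκ1 hs]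
  exact Complex.exp_ne_zero _

/-- product over a full lattice -/
lemma prod_lattice (L : ℕ) (hL : 0 < L) (x y : ℂ) :
    ∏ k ∈ range L, (x - Complex.exp (-(2 * Real.pi * Complex.I / L)) ^ k * y) = x ^ L - y ^ L := by
  have hp : IsPrimitiveRoot (Complex.exp (-(2 * Real.pi * Complex.I / L))) L := by
    rw [Complex.exp_neg]
    exact (Complex.isPrimitiveRoot_exp L hL.ne').inv
  rw [hp.pow_sub_pow_eq_prod_sub_mul x y hL]
  have himg : Polynomial.nthRootsFinset L (1 : ℂ) =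
      (range L).image (fun k => Complex.exp (-(2 * Real.pi * Complex.I / L)) ^ k) := by
    symm
    apply Finset.eq_of_subset_of_card_le
    · intro w hw
      obtain ⟨k, -, rfl⟩ := Finset.mem_image.1 hw
      rw [Polynomial.mem_nthRootsFinset hL, pow_right_comm, hp.pow_eq_one, one_pow]
    · rw [hp.card_nthRootsFinset, Finset.card_image_of_injOn, card_range]
      intro i hi j hj hij
      exact hp.pow_inj (by simpa using hi) (by simpa using hj) hij
  rw [himg, Finset.prod_image]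
  intro i hi j hj hij
  exact hp.pow_inj (by simpa using hi) (by simpa using hj) hij

/-- product of the factors over a full (shifted) lattice -/
lemma prod_full {r : ℝ} (L n : ℕ) (hL : 0 < L) (θ : ℝ) :
    ∏ k ∈ range L, FF r (θ - ((k : ℝ) - n + 1 / 2) * (2 * Real.pi / L)) =
      ((r : ℂ) ^ L + Complex.exp (Complex.I * θ) ^ L) /
        (1 + (r : ℂ) ^ L * Complex.exp (Complex.I * θ) ^ L) := by
  have hL' : (L : ℂ) ≠ 0 := by exact_mod_cast hL.ne'
  set y : ℂ := Complex.exp (Complex.I * ((θ + ((n : ℝ) - 1 / 2) * (2 * Real.pi / L) : ℝ) : ℂ)) with hy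
  have h1 : ∀ k : ℕ, Complex.exp (Complex.I * ((θ - ((k : ℝ) - n + 1 / 2) * (2 * Real.pi / L) : ℝ) : ℂ)) =
      Complex.exp (-(2 * Real.pi * Complex.I / L)) ^ k * y := by
    intro k
    rw [hy, ← Complex.exp_nat_mul, ← Complex.exp_add]
    congr 1
    push_cast
    field_simp
    ring
  have hyL : y ^ L = - Complex.exp (Complex.I * θ) ^ L := by
    rw [hy, ← Complex.exp_nat_mul, ← Complex.exp_nat_mul]
    have h2 : (L : ℂ) * (Complex.I * ((θ + ((n : ℝ) - 1 / 2) * (2 * Real.pi / L) : ℝ) : ℂ)) =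
        (L : ℂ) * (Complex.I * θ) + ((n : ℂ) * (2 * Real.pi * Complex.I) + -(Real.pi * Complex.I)) := by
      push_cast
      field_simp
      ring
    rw [h2, Complex.exp_add, Complex.exp_add, Complex.exp_nat_mul_two_pi_mul_I, Complex.exp_neg,
      Complex.exp_pi_mul_I]
    norm_num
  unfold FF
  simp_rw [h1]
  rw [Finset.prod_div_distrib, prod_lattice L hL]
  have h3 : ∏ k ∈ range L, (1 - (r : ℂ) * (Complex.exp (-(2 * Real.pi * Complex.I / L)) ^ k * y)) =
      1 ^ L - ((r : ℂ) * y) ^ L := by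
    rw [← prod_lattice L hL]
    exact Finset.prod_congr rfl fun k _ => by ring
  rw [h3, mul_pow, hyL, one_pow]
  congr 1 <;> ring

lemma E_mul_nat (j : ZMod N) (n : ℕ) : E (j * (n : ZMod N)) = E j ^ n := by
  unfold E
  rw [mul_comm, ← nsmul_eq_mul, AddChar.map_nsmul_eq_pow]

lemma full_mb (N : ℕ) [NeZero N] (L : ℕ) {ρ : ℝ} (h0 : 0 ≤ ρ) (h1 : ρ < 1) :
    MB 3 (fun j : ZMod N => ((ρ : ℂ) + E j ^ L) / (1 + (ρ : ℂ) * E j ^ L)) := by
  have hw : ∀ j : ZMod N, ‖E j ^ L‖ = 1 := by intro j; rw [norm_pow, E_norm, one_pow]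
  have hne : ∀ j : ZMod N, 1 + (ρ : ℂ) * E j ^ L ≠ 0 := by
    intro j h
    have h2 : (ρ : ℂ) * E j ^ L = -1 := by linear_combination h
    have h3 := congrArg norm h2
    rw [norm_mul, hw, norm_neg, norm_one, Complex.norm_real, Real.norm_of_nonneg h0] at h3
    linarith
  refine MB.lim (m := fun K (j : ZMod N) => (ρ : ℂ) + ∑ k ∈ range K,
    (((1 - ρ ^ 2 : ℝ) : ℂ) * (-(ρ : ℂ)) ^ k) * E (j * ((L * (k + 1) : ℕ) : ZMod N))) ?_ ?_
  · intro K
    have hc := MB.const (N := N) (ρ : ℂ)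
    have hs := MB.sum (N := N) (range K) (fun k => ‖((1 - ρ ^ 2 : ℝ) : ℂ) * (-(ρ : ℂ)) ^ k‖ * 1)
      (fun k j => (((1 - ρ ^ 2 : ℝ) : ℂ) * (-(ρ : ℂ)) ^ k) * E (j * ((L * (k + 1) : ℕ) : ZMod N)))
      (fun k _ => (MB.trans (N := N) _).smul _)
    refine (hc.add hs).mono ?_
    have e1 : ∀ k : ℕ, ‖((1 - ρ ^ 2 : ℝ) : ℂ) * (-(ρ : ℂ)) ^ k‖ * 1 = (1 - ρ ^ 2) * ρ ^ k := by
      intro k
      rw [mul_one, norm_mul, norm_pow, norm_neg, Complex.norm_real, Complex.norm_real,
        Real.norm_of_nonneg h0, Real.norm_of_nonneg (by nlinarith)]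
    simp only [e1]
    rw [Complex.norm_real, Real.norm_of_nonneg h0, ← Finset.mul_sum]
    have e2 := geom_sum_mul ρ K
    have e3 : (1 - ρ ^ 2) * ∑ k ∈ range K, ρ ^ k = (1 + ρ) * (1 - ρ ^ K) := by
      linear_combination (-(1 + ρ)) * e2
    rw [e3]
    have e4 : 0 ≤ ρ ^ K := pow_nonneg h0 K
    nlinarith
  · intro j
    have hg : HasSum (fun k : ℕ => (-((ρ : ℂ) * E j ^ L)) ^ k) (1 - (-((ρ : ℂ) * E j ^ L)))⁻¹ := by
      apply hasSum_geometric_of_norm_lt_one
      rw [norm_neg, norm_mul, hw, mul_one, Complex.norm_real, Real.norm_of_nonneg h0]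
      exact h1
    have hg2 := ((hg.mul_left (((1 - ρ ^ 2 : ℝ) : ℂ) * E j ^ L)).tendsto_sum_nat).const_add (ρ : ℂ)
    have e1 : (ρ : ℂ) + ((1 - ρ ^ 2 : ℝ) : ℂ) * E j ^ L * (1 - (-((ρ : ℂ) * E j ^ L)))⁻¹ =
        ((ρ : ℂ) + E j ^ L) / (1 + (ρ : ℂ) * E j ^ L) := by
      have := hne j
      rw [sub_neg_eq_add]
      push_cast
      field_simp
      ring
    rw [e1] at hg2
    refine hg2.congr fun K => ?_
    congr 1
    refine Finset.sum_congr rfl fun k _ => ?_
    rw [E_mul_nat, pow_mul, pow_succ (E j ^ L), show -((ρ : ℂ) * E j ^ L) = (-(ρ : ℂ)) * E j ^ L by ring,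
      mul_pow]
    ring

/-- the phase minus its reference -/
noncomputable def HH (η κ d : ℝ) (K : ℕ) (x : ℝ) : ℝ :=
  ∑ k ∈ range K, ga κ (x - k * d) - η * (lg κ (x - (K - 1) * d) - lg κ x)

lemma norm_exp_diff (x y : ℝ) :
    ‖Complex.exp (Complex.I * x) - Complex.exp (Complex.I * y)‖ ≤ |x - y| := by
  have h : Complex.exp (Complex.I * x) - Complex.exp (Complex.I * y) =
      Complex.exp (Complex.I * y) * (Complex.exp (Complex.I * ((x - y : ℝ) : ℂ)) - 1) := by
    rw [mul_sub, ← Complex.exp_add, mul_one]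
    congr 2
    push_cast; ring
  rw [h, norm_mul, Complex.norm_exp_I_mul_ofReal, one_mul]
  exact Real.norm_exp_I_mul_ofReal_sub_one_le

lemma piece_mb (N : ℕ) [NeZero N] (η κ d : ℝ) (K : ℕ) (hη : 0 < η) (hd : 0 < d) (hκ : κ = η * d / 2)
    (hκ1 : κ < 1) (hK : 1 ≤ K) (hKd : K * d < 2 * Real.pi) (a b : ℕ) (t : ℕ → ℝ)
    (hmono : ∀ k, t k ≤ t (k + 1))
    (ht : ∀ k, a ≤ k → k < b → (K - 1) * d + d / 2 ≤ t k ∧ t k ≤ 2 * Real.pi - d / 2)
    (σ : ℝ) (hσ : |σ| = 1) :
    MB (12 * (1 + (1 + 4 * η) * (4 * Real.pi))) (fun j : ZMod N => if a ≤ j.val ∧ j.val < b then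
      Complex.exp (Complex.I * ((σ * HH η κ d K (t j.val) : ℝ) : ℂ)) else 0) := by
  have hpi := Real.pi_pos
  refine bv_mb N a b (fun k => Complex.exp (Complex.I * ((σ * HH η κ d K (t k) : ℝ) : ℂ))) _
    ?_ ?_ (by positivity)
  · intro k _ _
    rw [Complex.norm_exp_I_mul_ofReal]
  · let G : ℕ → ℝ := fun k => ga κ (t k) + ga κ (t k - (K - 1) * d)
    have hG : ∀ k, |G k| ≤ 2 * Real.pi := by
      intro k
      have h1 := (abs_lt.1 (abs_ga_lt κ (t k)))
      have h2 := (abs_lt.1 (abs_ga_lt κ (t k - (K - 1) * d)))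
      rw [abs_le]
      simp only [G]
      constructor <;> linarith [h1.1, h1.2, h2.1, h2.2]
    have hstep : ∀ k ∈ Ico a (b - 1),
        ‖Complex.exp (Complex.I * ((σ * HH η κ d K (t (k + 1)) : ℝ) : ℂ)) -
          Complex.exp (Complex.I * ((σ * HH η κ d K (t k) : ℝ) : ℂ))‖ ≤
        (1 + 4 * η) * (G (k + 1) - G k) := by
      intro k hk
      rw [mem_Ico] at hk
      refine (norm_exp_diff _ _).trans ?_
      rw [← mul_sub, abs_mul, hσ, one_mul]
      have h1 := ht k hk.1 (by omega)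
      have h2 := ht (k + 1) (by omega) (by omega)
      exact phase_variation η κ d K hη hd hκ hκ1 hK hKd (ga κ) (lg κ) (fun _ => rfl) (fun _ => rfl)
        (t k) (t (k + 1)) h1.1 (hmono k) h2.2
    refine (Finset.sum_le_sum hstep).trans ?_
    rw [← Finset.mul_sum]
    refine mul_le_mul_of_nonneg_left ?_ (by linarith)
    by_cases hab : a ≤ b - 1
    · rw [Finset.sum_Ico_sub G hab]
      have h1 := (abs_le.1 (hG (b - 1))).2
      have h2 := (abs_le.1 (hG a)).1
      linarith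
    · rw [Finset.Ico_eq_empty (by omega)]
      simp only [Finset.sum_empty]
      positivity

lemma ref2_mb (N : ℕ) [NeZero N] (α β κ η : ℝ) (hκ0 : 0 < κ) (hκ1 : κ < 1) (hη : 0 < η) :
    MB (16 * (Real.sinh (Real.pi * η) / (Real.pi * η)))
      (fun j : ZMod N => Complex.exp (Complex.I *
        ((η * (lg κ (2 * Real.pi * (j.val : ℝ) / N - α) - lg κ (2 * Real.pi * (j.val : ℝ) / N - β)) : ℝ) : ℂ))) := by
  have h1 := ref_mb N α κ η hκ0 hκ1 hη.ne'
  have h2 := ref_mb N β κ (-η) hκ0 hκ1 (neg_ne_zero.2 hη.ne')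
  have hq : 0 ≤ Real.sinh (Real.pi * η) / (Real.pi * η) := by
    have : 0 < Real.pi * η := mul_pos Real.pi_pos hη
    exact div_nonneg (Real.sinh_nonneg_iff.2 this.le) this.le
  have hq2 : Real.sinh (Real.pi * -η) / (Real.pi * -η) = Real.sinh (Real.pi * η) / (Real.pi * η) := by
    rw [mul_neg, Real.sinh_neg, neg_div_neg_eq]
  rw [hq2] at h2
  refine ((MB.mul (by positivity) h1 h2).mono (le_of_eq ?_)).congr fun j => ?_
  · have := Real.mul_self_sqrt hq
    linear_combination 16 * this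
  · rw [← Complex.exp_add]
    congr 1
    simp only [lg]
    push_cast
    ring

lemma comp_eq {κ d : ℝ} (hκ0 : 0 < κ) (hκ1 : κ < 1) (hd : 0 < d) (K : ℕ) (t : ℝ)
    (h1 : (K - 1) * d + d / 2 ≤ t) (h2 : t ≤ 2 * Real.pi - d / 2) :
    ∏ m ∈ range K, FF ((1 - κ) / (1 + κ)) (t - m * d) =
      Complex.exp (Complex.I * ((∑ m ∈ range K, ga κ (t - m * d) : ℝ) : ℂ)) := by
  have h3 : Complex.I * ((∑ m ∈ range K, ga κ (t - m * d) : ℝ) : ℂ) =
      ∑ m ∈ range K, Complex.I * ((ga κ (t - m * d) : ℝ) : ℂ) := by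
    push_cast
    rw [Finset.mul_sum]
  rw [h3, Complex.exp_sum]
  refine Finset.prod_congr rfl fun m hm => factor_eq hκ0 hκ1 ?_
  have hmK : (m : ℝ) ≤ K - 1 := by
    have : m + 1 ≤ K := by have := mem_range.1 hm; omega
    have : ((m + 1 : ℕ) : ℝ) ≤ K := by exact_mod_cast this
    push_cast at this
    linarith
  have hm0 : (0 : ℝ) ≤ m := Nat.cast_nonneg m
  have h4 : (m : ℝ) * d ≤ (K - 1) * d := mul_le_mul_of_nonneg_right hmK hd.le
  have h5 : 0 ≤ (m : ℝ) * d := by positivity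
  exact (Real.sin_pos_of_pos_of_lt_pi (by linarith) (by linarith)).ne'

lemma FF_periodic (r φ : ℝ) : FF r (φ + 2 * Real.pi) = FF r φ := by
  unfold FF
  have : Complex.exp (Complex.I * ((φ + 2 * Real.pi : ℝ) : ℂ)) = Complex.exp (Complex.I * φ) := by
    rw [show Complex.I * ((φ + 2 * Real.pi : ℝ) : ℂ) = Complex.I * φ + 2 * Real.pi * Complex.I by
      push_cast; ring, Complex.exp_add, Complex.exp_two_pi_mul_I, mul_one]
  rw [this]

lemma E_eq_exp (j : ZMod N) :
    E j = Complex.exp (Complex.I * ((2 * Real.pi * (j.val : ℝ) / N : ℝ) : ℂ)) := by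
  have h := E_natCast (N := N) j.val
  rw [ZMod.natCast_zmod_val] at h
  rw [h]
  congr 1
  push_cast
  ring

lemma vB_eq (η : ℝ) (n L : ℕ) (j : ZMod N) :
    vB η n L (E j) = ∏ k ∈ range (2 * n),
      FF ((1 - Real.pi * η / L) / (1 + Real.pi * η / L))
        (2 * Real.pi * (j.val : ℝ) / N - ((k : ℝ) - n + 1 / 2) * (2 * Real.pi / L)) := by
  unfold vB FF
  refine Finset.prod_congr rfl fun k _ => ?_
  have h1 : Complex.exp (-(2 * Real.pi * Complex.I * ((k : ℂ) - n + 1 / 2) / ((L : ℝ) : ℂ))) * E j =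
      Complex.exp (Complex.I * ((2 * Real.pi * (j.val : ℝ) / N -
        ((k : ℝ) - n + 1 / 2) * (2 * Real.pi / L) : ℝ) : ℂ)) := by
    rw [E_eq_exp, ← Complex.exp_add]
    congr 1
    push_cast
    ring
  rw [mul_assoc ((((1 - Real.pi * η / L) / (1 + Real.pi * η / L) : ℝ)) : ℂ) _ (E j), h1]

/-- the outer symbol identity -/
lemma out_id {η κ d θ : ℝ} (hκ0 : 0 < κ) (hκ1 : κ < 1) (hd : 0 < d) (n : ℕ)
    (h1 : n * d ≤ θ) (h2 : θ ≤ 2 * Real.pi - n * d) :
    ∏ k ∈ range (2 * n), FF ((1 - κ) / (1 + κ)) (θ - ((k : ℝ) - n + 1 / 2) * d) =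
      Complex.exp (Complex.I * ((η * (lg κ (θ - (n - 1 / 2) * d) - lg κ (θ - -((n - 1 / 2) * d))) : ℝ) : ℂ)) *
      Complex.exp (Complex.I * ((1 * HH η κ d (2 * n) (θ + (n - 1 / 2) * d) : ℝ) : ℂ)) := by
  have hc := comp_eq hκ0 hκ1 hd (2 * n) (θ + (n - 1 / 2) * d) (by push_cast; linarith) (by linarith)
  have h3 : ∏ k ∈ range (2 * n), FF ((1 - κ) / (1 + κ)) (θ - ((k : ℝ) - n + 1 / 2) * d) =
      ∏ m ∈ range (2 * n), FF ((1 - κ) / (1 + κ)) (θ + (n - 1 / 2) * d - m * d) :=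
    Finset.prod_congr rfl fun k _ => by congr 1; ring
  rw [h3, hc, ← Complex.exp_add]
  congr 1
  unfold HH
  have e1 : θ + (n - 1 / 2) * d - (((2 * n : ℕ) : ℝ) - 1) * d = θ - (n - 1 / 2) * d := by
    push_cast; ring
  have e2 : θ - -((n - 1 / 2) * d) = θ + (n - 1 / 2) * d := by ring
  rw [e1, e2]
  push_cast
  ring

/-- the inner symbol identity -/
lemma in_id {η κ d θ t : ℝ} (hκ0 : 0 < κ) (hκ1 : κ < 1) (hd : 0 < d) (n L K : ℕ) (hL : 0 < L)
    (hK : L = 2 * n + K) (hdL : d = 2 * Real.pi / L)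
    (ht : t = θ - (n + 1 / 2) * d ∨ t = θ - (n + 1 / 2) * d + 2 * Real.pi)
    (h1 : (K - 1) * d + d / 2 ≤ t) (h2 : t ≤ 2 * Real.pi - d / 2) :
    ∏ k ∈ range (2 * n), FF ((1 - κ) / (1 + κ)) (θ - ((k : ℝ) - n + 1 / 2) * d) =
      ((((((1 - κ) / (1 + κ)) ^ L : ℝ) : ℂ) + Complex.exp (Complex.I * θ) ^ L) /
        (1 + ((((1 - κ) / (1 + κ)) ^ L : ℝ) : ℂ) * Complex.exp (Complex.I * θ) ^ L)) *
      (Complex.exp (Complex.I * ((η * (lg κ (θ - (n + 1 / 2) * d) - lg κ (θ - ((n + 1 / 2) * d + (K - 1) * d))) : ℝ) : ℂ)) *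
      Complex.exp (Complex.I * (((-1) * HH η κ d K t : ℝ) : ℂ))) := by
  have hfull := prod_full (r := (1 - κ) / (1 + κ)) L n hL θ
  rw [← hdL] at hfull
  conv at hfull => lhs; rw [hK, Finset.prod_range_add]
  have hcomp : ∏ m ∈ range K, FF ((1 - κ) / (1 + κ)) (θ - (((2 * n + m : ℕ) : ℝ) - n + 1 / 2) * d) =
      Complex.exp (Complex.I * ((∑ m ∈ range K, ga κ (t - m * d) : ℝ) : ℂ)) := by
    rw [← comp_eq hκ0 hκ1 hd K t h1 h2]
    refine Finset.prod_congr rfl fun m _ => ?_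
    rcases ht with ht | ht
    · rw [ht]; congr 1; push_cast; ring
    · rw [ht, show θ - (n + 1 / 2) * d + 2 * Real.pi - m * d =
        (θ - (((2 * n + m : ℕ) : ℝ) - n + 1 / 2) * d) + 2 * Real.pi by push_cast; ring, FF_periodic]
  rw [hcomp] at hfull
  have hl1 : lg κ (θ - (n + 1 / 2) * d) = lg κ t := by
    rcases ht with ht | ht
    · rw [ht]
    · rw [ht, lg_periodic]
  have hl2 : lg κ (θ - ((n + 1 / 2) * d + (K - 1) * d)) = lg κ (t - (K - 1) * d) := by
    rcases ht with ht | ht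
    · rw [ht]; congr 1; ring
    · rw [ht, show θ - (n + 1 / 2) * d + 2 * Real.pi - (K - 1) * d =
        (θ - ((n + 1 / 2) * d + (K - 1) * d)) + 2 * Real.pi by ring, lg_periodic]
  rw [hl1, hl2, ← Complex.exp_add]
  have e3 : Complex.I * ((η * (lg κ t - lg κ (t - (K - 1) * d)) : ℝ) : ℂ) +
      Complex.I * (((-1) * HH η κ d K t : ℝ) : ℂ) =
      -(Complex.I * ((∑ m ∈ range K, ga κ (t - m * d) : ℝ) : ℂ)) := by
    unfold HH
    push_cast
    ring
  rw [e3, Complex.exp_neg]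
  have hne := Complex.exp_ne_zero (Complex.I * ((∑ m ∈ range K, ga κ (t - m * d) : ℝ) : ℂ))
  rw [eq_mul_inv_iff_mul_eq₀ hne, hfull]
  push_cast
  rfl

lemma const_bound : (84 * (1 + 164 * Real.pi) * (16 * (Real.sinh (Real.pi * 10) / (Real.pi * 10)))) *
    Real.exp (-(2 * Real.pi * 10)) ≤ 1 / 8 := by
  have hpi := Real.pi_gt_three
  have hsinh : Real.sinh (Real.pi * 10) ≤ Real.exp (Real.pi * 10) / 2 := by
    rw [Real.sinh_eq]
    have := Real.exp_pos (-(Real.pi * 10))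
    linarith
  have hq : Real.sinh (Real.pi * 10) / (Real.pi * 10) ≤ Real.exp (Real.pi * 10) / (20 * Real.pi) := by
    rw [div_le_div_iff₀ (by positivity) (by positivity)]
    nlinarith [Real.pi_pos]
  have he : Real.exp (Real.pi * 10) * Real.exp (-(2 * Real.pi * 10)) = (Real.exp (Real.pi * 10))⁻¹ := by
    rw [← Real.exp_add, ← Real.exp_neg]; congr 1; ring
  have hbig : (2 : ℝ) ^ 30 ≤ Real.exp (Real.pi * 10) := by
    have h1 : Real.exp 30 ≤ Real.exp (Real.pi * 10) := Real.exp_le_exp.2 (by linarith)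
    have h2 : (2 : ℝ) ≤ Real.exp 1 := by
      have := Real.add_one_le_exp (1 : ℝ)
      linarith
    have h3 : Real.exp 30 = Real.exp 1 ^ 30 := by rw [← Real.exp_nat_mul]; norm_num
    calc (2 : ℝ) ^ 30 ≤ Real.exp 1 ^ 30 := pow_le_pow_left₀ (by norm_num) h2 30
      _ = Real.exp 30 := h3.symm
      _ ≤ _ := h1
  have hE := Real.exp_pos (Real.pi * 10)
  have hE2 := Real.exp_pos (-(2 * Real.pi * 10))
  calc (84 * (1 + 164 * Real.pi) * (16 * (Real.sinh (Real.pi * 10) / (Real.pi * 10)))) *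
        Real.exp (-(2 * Real.pi * 10))
      ≤ (84 * (1 + 164 * Real.pi) * (16 * (Real.exp (Real.pi * 10) / (20 * Real.pi)))) *
        Real.exp (-(2 * Real.pi * 10)) := by
        gcongr
    _ = (84 * (1 + 164 * Real.pi) * 16 / (20 * Real.pi)) *
        (Real.exp (Real.pi * 10) * Real.exp (-(2 * Real.pi * 10))) := by ring
    _ = (84 * (1 + 164 * Real.pi) * 16 / (20 * Real.pi)) * (Real.exp (Real.pi * 10))⁻¹ := by rw [he]
    _ ≤ (84 * (1 + 164 * Real.pi) * 16 / (20 * Real.pi)) * ((2 : ℝ) ^ 30)⁻¹ := by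
        gcongr
    _ ≤ 1 / 8 := by
        rw [← div_eq_mul_inv, div_div, div_le_div_iff₀ (by positivity) (by norm_num)]
        nlinarith

/-- TARGET 2: uniform multiplier bound for the lattice Blaschke products with `η = 10`. -/
theorem v_bound : ∃ C : ℝ, 1 ≤ C ∧ C * Real.exp (-(2 * Real.pi * 10)) ≤ 1 / 8 ∧
    ∀ (N : ℕ) [NeZero N] (n L : ℕ), 1 ≤ n → 2 * n < L → Real.pi * 10 < L →
      MB C (fun j : ZMod N => vB 10 n L (E j)) := by
  have hpi := Real.pi_gt_three
  have hpos : 0 < Real.pi := Real.pi_pos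
  set q : ℝ := Real.sinh (Real.pi * 10) / (Real.pi * 10) with hq
  have hq1 : 1 ≤ q := by
    rw [hq, le_div_iff₀ (by positivity), one_mul]
    exact Real.self_le_sinh_iff.2 (by positivity)
  refine ⟨84 * (1 + 164 * Real.pi) * (16 * q), ?_, const_bound, ?_⟩
  · nlinarith
  intro N _ n L hn hL hLpi
  have hLpos : 0 < L := by omega
  have hLr : (0 : ℝ) < L := by exact_mod_cast hLpos
  have hNr : (0 : ℝ) < N := by exact_mod_cast Nat.pos_of_ne_zero (NeZero.ne N)
  have hnr : (1 : ℝ) ≤ n := by exact_mod_cast hn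
  have hnL : 2 * (n : ℝ) < L := by exact_mod_cast hL
  set d : ℝ := 2 * Real.pi / L with hd
  set κ : ℝ := Real.pi * 10 / L with hκ
  have hd0 : 0 < d := by positivity
  have hdL : L * d = 2 * Real.pi := by rw [hd]; field_simp
  have hκ0 : 0 < κ := by positivity
  have hκ1 : κ < 1 := by rw [hκ, div_lt_one hLr]; exact hLpi
  have hκd : κ = 10 * d / 2 := by rw [hκ, hd]; ring
  obtain ⟨K, hK⟩ : ∃ K, L = 2 * n + K := ⟨L - 2 * n, by omega⟩
  have hK1 : 1 ≤ K := by omega
  have hKr : (K : ℝ) = L - 2 * n := by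
    have : (L : ℝ) = 2 * n + K := by exact_mod_cast hK
    linarith
  have hKd : (K : ℝ) * d = 2 * Real.pi - 2 * (n * d) := by rw [hKr]; linarith
  have h8 : (n : ℝ) * d ≥ d := by nlinarith
  -- cut points
  set X : ℝ := n * N / L with hX
  have hX0 : 0 ≤ X := by positivity
  have hXN : 2 * X < N := by
    rw [hX, ← mul_div_assoc, div_lt_iff₀ hLr]
    nlinarith
  set a : ℕ := ⌈X⌉₊ with ha
  set b : ℕ := ⌊(N : ℝ) - X⌋₊ + 1 with hb
  have ha_iff : ∀ m : ℕ, m < a ↔ (m : ℝ) < X := fun m => Nat.lt_ceil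
  have hb_iff : ∀ m : ℕ, b ≤ m ↔ (N : ℝ) - X < m := by
    intro m
    rw [hb, Nat.succ_le_iff, Nat.floor_lt (by linarith)]
  have hXd : ∀ y : ℝ, 2 * Real.pi * y / N - n * d = (2 * Real.pi / N) * (y - X) := by
    intro y
    rw [hX, hd]; field_simp
  have hXd2 : ∀ y : ℝ, 2 * Real.pi * y / N - (2 * Real.pi - n * d) = (2 * Real.pi / N) * (y - (N - X)) := by
    intro y
    rw [hX, hd]; field_simp
  have hpn : 0 < 2 * Real.pi / N := by positivity
  -- angles
  have hθ0 : ∀ m : ℕ, 0 ≤ 2 * Real.pi * (m : ℝ) / N := fun m => by positivity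
  have hθN : ∀ m : ℕ, m < N → 2 * Real.pi * (m : ℝ) / N < 2 * Real.pi := by
    intro m hm
    rw [div_lt_iff₀ hNr]
    have : (m : ℝ) < N := by exact_mod_cast hm
    nlinarith
  have hmono : ∀ (c : ℝ) (k : ℕ), 2 * Real.pi * (k : ℝ) / N + c ≤ 2 * Real.pi * ((k + 1 : ℕ) : ℝ) / N + c := by
    intro c k
    have : 2 * Real.pi * ((k + 1 : ℕ) : ℝ) / N = 2 * Real.pi * (k : ℝ) / N + 2 * Real.pi / N := by
      push_cast; ring
    rw [this]; linarith
  -- pieces
  have hout := piece_mb N 10 κ d (2 * n) (by norm_num) hd0 hκd hκ1 (by omega)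
    (by push_cast; linarith [mul_lt_mul_of_pos_right hnL hd0]) a b (fun k => 2 * Real.pi * (k : ℝ) / N + (n - 1 / 2) * d) (hmono _)
    (by
      intro k hka hkb
      have h1 : X ≤ k := by
        by_contra hcon
        push Not at hcon
        have := (ha_iff k).2 hcon
        omega
      have h2 : (k : ℝ) ≤ N - X := by
        by_contra hcon
        push Not at hcon
        have := (hb_iff k).2 hcon
        omega
      have h3 := hXd k
      have h4 := hXd2 k
      have h5 : 0 ≤ (2 * Real.pi / N) * ((k : ℝ) - X) := mul_nonneg hpn.le (by linarith)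
      have h6 : (2 * Real.pi / N) * ((k : ℝ) - (N - X)) ≤ 0 :=
        mul_nonpos_of_nonneg_of_nonpos hpn.le (by linarith)
      push_cast
      constructor <;> linarith) 1 (by norm_num)
  have hin1 := piece_mb N 10 κ d K (by norm_num) hd0 hκd hκ1 hK1
    (by linarith) 0 a (fun k => 2 * Real.pi * (k : ℝ) / N + (-((n + 1 / 2) * d) + 2 * Real.pi)) (hmono _)
    (by
      intro k _ hka
      have h1 := (ha_iff k).1 hka
      have h3 := hXd k
      have h6 : (2 * Real.pi / N) * ((k : ℝ) - X) ≤ 0 :=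
        mul_nonpos_of_nonneg_of_nonpos hpn.le (by linarith)
      have h7 := hθ0 k
      constructor <;> linarith) (-1) (by norm_num)
  have hin2 := piece_mb N 10 κ d K (by norm_num) hd0 hκd hκ1 hK1
    (by linarith) b N (fun k => 2 * Real.pi * (k : ℝ) / N + (-((n + 1 / 2) * d))) (hmono _)
    (by
      intro k hkb hkN
      have h1 := (hb_iff k).1 hkb
      have h3 := hXd2 k
      have h6 : 0 ≤ (2 * Real.pi / N) * ((k : ℝ) - (N - X)) := mul_nonneg hpn.le (by linarith)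
      have h7 := hθN k hkN
      constructor <;> linarith) (-1) (by norm_num)
  have href1 := ref2_mb N ((n - 1 / 2) * d) (-((n - 1 / 2) * d)) κ 10 hκ0 hκ1 (by norm_num)
  have href2 := ref2_mb N ((n + 1 / 2) * d) ((n + 1 / 2) * d + (K - 1) * d) κ 10 hκ0 hκ1 (by norm_num)
  have hr0 : 0 ≤ (1 - κ) / (1 + κ) := div_nonneg (by linarith) (by linarith)
  have hr1 : (1 - κ) / (1 + κ) < 1 := by rw [div_lt_one (by linarith)]; linarith
  have hfull := full_mb N L (ρ := ((1 - κ) / (1 + κ)) ^ L) (pow_nonneg hr0 L)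
    (pow_lt_one₀ hr0 hr1 hLpos.ne')
  rw [← hq] at href1 href2
  have hA := MB.mul (by positivity) href1 hout
  have hB := MB.mul (by norm_num) hfull (MB.mul (by positivity) href2 (hin1.add hin2))
  refine ((hA.add hB).mono (le_of_eq ?_)).congr fun j => ?_
  · ring
  · have hv := vB_eq 10 n L j
    rw [← hκ, ← hd] at hv
    rw [hv]
    have hjN : j.val < N := ZMod.val_lt j
    by_cases h1 : j.val < a
    · have hX1 := (ha_iff j.val).1 h1
      have hnb : ¬ b ≤ j.val := by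
        intro h
        have := (hb_iff j.val).1 h
        linarith
      rw [if_neg (by omega), if_pos ⟨Nat.zero_le _, h1⟩, if_neg (by omega), mul_zero, zero_add, add_zero]
      have h3 := hXd j.val
      have h6 : (2 * Real.pi / N) * ((j.val : ℝ) - X) ≤ 0 :=
        mul_nonpos_of_nonneg_of_nonpos hpn.le (by linarith)
      have h7 := hθ0 j.val
      rw [in_id (η := 10) (t := 2 * Real.pi * (j.val : ℝ) / N + (-((n + 1 / 2) * d) + 2 * Real.pi))
        hκ0 hκ1 hd0 n L K hLpos hK hd (Or.inr (by ring)) (by linarith) (by linarith),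
        ← E_eq_exp]
    · by_cases h2 : b ≤ j.val
      · have hX2 := (hb_iff j.val).1 h2
        rw [if_neg (by omega), if_neg (by omega), if_pos ⟨h2, hjN⟩, mul_zero, zero_add, zero_add]
        have h3 := hXd2 j.val
        have h6 : 0 ≤ (2 * Real.pi / N) * ((j.val : ℝ) - (N - X)) := mul_nonneg hpn.le (by linarith)
        have h7 := hθN j.val hjN
        rw [in_id (η := 10) (t := 2 * Real.pi * (j.val : ℝ) / N + (-((n + 1 / 2) * d)))
          hκ0 hκ1 hd0 n L K hLpos hK hd (Or.inl (by ring)) (by linarith) (by linarith),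
          ← E_eq_exp]
      · have hX1 : X ≤ j.val := by
          by_contra hcon
          push Not at hcon
          exact h1 ((ha_iff j.val).2 hcon)
        have hX2 : (j.val : ℝ) ≤ N - X := by
          by_contra hcon
          push Not at hcon
          exact h2 ((hb_iff j.val).2 hcon)
        rw [if_pos (by omega), if_neg (by omega), if_neg (by omega), add_zero, mul_zero, mul_zero, add_zero]
        have h3 := hXd j.val
        have h4 := hXd2 j.val
        have h5 : 0 ≤ (2 * Real.pi / N) * ((j.val : ℝ) - X) := mul_nonneg hpn.le (by linarith)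
        have h6 : (2 * Real.pi / N) * ((j.val : ℝ) - (N - X)) ≤ 0 :=
          mul_nonpos_of_nonneg_of_nonpos hpn.le (by linarith)
        rw [out_id (η := 10) hκ0 hκ1 hd0 n (by linarith) (by linarith)]

end IM
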