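import Pool.Agent.MP58366f.Defs

set_option autoImplicit false
open Finset Filter Topology Metric

namespace ZC

lemma P_double (x : ℂ) (n : ℕ) :
    ∏ j ∈ range (2 * n), ((1 : ℂ) - (2 * x) ^ 2 / ((j : ℂ) + 1) ^ 2) =
      (∏ j ∈ range n, ((1 : ℂ) - x ^ 2 / ((j : ℂ) + 1 / 2) ^ 2)) *
      ∏ j ∈ range n, ((1 : ℂ) - x ^ 2 / ((j : ℂ) + 1) ^ 2) := by
  induction n with
  | zero => simp
  | succ n ih =>
    rw [show 2 * (n + 1) = 2 * n + 1 + 1 by ring, prod_range_succ, prod_range_succ, ih,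
      prod_range_succ, prod_range_succ]
    have h1 : ((1 : ℂ) - (2 * x) ^ 2 / (((2 * n : ℕ) : ℂ) + 1) ^ 2) =
        1 - x ^ 2 / ((n : ℂ) + 1 / 2) ^ 2 := by
      have h : (((2 * n : ℕ) : ℂ) + 1) = 2 * ((n : ℂ) + 1 / 2) := by push_cast; ring
      rw [h, mul_pow, mul_pow, mul_div_mul_left]
      norm_num
    have h2 : ((1 : ℂ) - (2 * x) ^ 2 / (((2 * n + 1 : ℕ) : ℂ) + 1) ^ 2) =
        1 - x ^ 2 / ((n : ℂ) + 1) ^ 2 := by
      have h : (((2 * n + 1 : ℕ) : ℂ) + 1) = 2 * ((n : ℂ) + 1) := by push_cast; ring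
      rw [h, mul_pow, mul_pow, mul_div_mul_left]
      norm_num
    rw [h1, h2]; ring

lemma cosprod (x : ℂ) (hx : Complex.sin (Real.pi * x) ≠ 0) :
    Tendsto (fun n : ℕ => ∏ j ∈ range n, ((1 : ℂ) - x ^ 2 / ((j : ℂ) + 1 / 2) ^ 2)) atTop
      (𝓝 (Complex.cos (Real.pi * x))) := by
  have hx0 : x ≠ 0 := by rintro rfl; simp at hx
  have hpi : (Real.pi : ℂ) ≠ 0 := by exact_mod_cast Real.pi_ne_zero
  have t1 := Complex.tendsto_euler_sin_prod x
  have t2 := (Complex.tendsto_euler_sin_prod (2 * x)).comp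
    (tendsto_id.const_mul_atTop' (show 0 < 2 by norm_num) : Tendsto (fun n : ℕ => 2 * n) atTop atTop)
  have t3 := t2.div (t1.const_mul 2) (mul_ne_zero two_ne_zero hx)
  have e : Complex.sin (Real.pi * (2 * x)) / (2 * Complex.sin (Real.pi * x)) =
      Complex.cos (Real.pi * x) := by
    rw [show (Real.pi : ℂ) * (2 * x) = 2 * (Real.pi * x) by ring, Complex.sin_two_mul]
    field_simp
  rw [e] at t3
  refine t3.congr' ?_
  have hne : ∀ᶠ n : ℕ in atTop, Real.pi * x *
      ∏ j ∈ range n, ((1 : ℂ) - x ^ 2 / ((j : ℂ) + 1) ^ 2) ≠ 0 := t1.eventually_ne hx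
  filter_upwards [hne] with n hn
  have hP : ∏ j ∈ range n, ((1 : ℂ) - x ^ 2 / ((j : ℂ) + 1) ^ 2) ≠ 0 := right_ne_zero_of_mul hn
  simp only [Pi.div_apply, Function.comp_apply]
  rw [P_double, div_eq_iff (mul_ne_zero two_ne_zero hn)]
  ring

/-- the limiting factor. -/
noncomputable def fac (η : ℝ) (w k0 : ℂ) : ℂ := (w - k0 - Complex.I * η) / (w - k0 + Complex.I * η)

noncomputable def Gn (η : ℝ) (n : ℕ) (w : ℂ) : ℂ :=
  ∏ k ∈ range (2 * n), fac η w ((k : ℂ) - n + 1 / 2)

noncomputable def fj (η : ℝ) (j : ℕ) (w : ℂ) : ℂ :=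
  -(4 * Complex.I * η * w) / ((w + Complex.I * η) ^ 2 - ((j : ℂ) + 1 / 2) ^ 2)

lemma ne_of_im {z : ℂ} (h : z.im ≠ 0) : z ≠ 0 := by rintro rfl; simp at h

lemma den_ne {η : ℝ} {w : ℂ} (hη : 0 < η) (hw : 0 < w.im) (j : ℕ) :
    (w + Complex.I * η) ^ 2 - ((j : ℂ) + 1 / 2) ^ 2 ≠ 0 := by
  rw [sq_sub_sq]
  apply mul_ne_zero <;> apply ne_of_im <;> simp <;> positivity

lemma fac_pair {η : ℝ} {w : ℂ} (hη : 0 < η) (hw : 0 < w.im) (j : ℕ) :
    fac η w ((j : ℂ) + 1 / 2) * fac η w (-((j : ℂ) + 1 / 2)) = 1 + fj η j w := by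
  have h := den_ne hη hw j
  have h1 : w - ((j : ℂ) + 1 / 2) + Complex.I * η ≠ 0 := by
    apply ne_of_im; simp; positivity
  have h2 : w - -((j : ℂ) + 1 / 2) + Complex.I * η ≠ 0 := by
    apply ne_of_im; simp; positivity
  unfold fac fj
  rw [div_mul_div_comm, div_eq_iff (mul_ne_zero h1 h2)]
  have h3 : (w - ((j : ℂ) + 1 / 2) + Complex.I * η) * (w - -((j : ℂ) + 1 / 2) + Complex.I * η) =
    (w + Complex.I * η) ^ 2 - ((j : ℂ) + 1 / 2) ^ 2 := by ring
  rw [h3, add_mul, div_mul_cancel₀ _ h]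
  ring

lemma Gn_eq {η : ℝ} {w : ℂ} (hη : 0 < η) (hw : 0 < w.im) (n : ℕ) :
    Gn η n w = ∏ j ∈ range n, (1 + fj η j w) := by
  unfold Gn
  rw [two_mul, prod_range_add, ← prod_range_reflect, ← prod_mul_distrib]
  refine prod_congr rfl fun j hj => ?_
  rw [mem_range] at hj
  rw [← fac_pair hη hw j, mul_comm]
  congr 2
  · push_cast; ring
  · have : ((n - 1 - j : ℕ) : ℂ) = (n : ℂ) - 1 - j := by
      rw [Nat.cast_sub (by omega), Nat.cast_sub (by omega)]; simp
    rw [this]; ring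

lemma sin_ne {z : ℂ} (h : z.im ≠ 0) : Complex.sin (Real.pi * z) ≠ 0 := by
  rw [Ne, Complex.sin_eq_zero_iff]
  rintro ⟨k, hk⟩
  have := congrArg Complex.im hk
  simp [Real.pi_ne_zero] at this
  exact h this

lemma cos_ne {z : ℂ} (h : z.im ≠ 0) : Complex.cos (Real.pi * z) ≠ 0 := by
  rw [Ne, Complex.cos_eq_zero_iff]
  rintro ⟨k, hk⟩
  have := congrArg Complex.im hk
  have e : ((2 * (k : ℂ) + 1) * Real.pi / 2).im = 0 := by
    have : ((2 * (k : ℂ) + 1) * Real.pi / 2) = (((2 * (k : ℝ) + 1) * Real.pi / 2 : ℝ) : ℂ) := by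
      push_cast; ring
    rw [this, Complex.ofReal_im]
  rw [e] at this
  simp [Real.pi_ne_zero] at this
  exact h this

noncomputable def G (η : ℝ) (w : ℂ) : ℂ :=
  Complex.cos (Real.pi * (w - Complex.I * η)) / Complex.cos (Real.pi * (w + Complex.I * η))

lemma Gn_tendsto {η : ℝ} {w : ℂ} (hη : 0 < η) (hw : η < w.im) :
    Tendsto (fun n => Gn η n w) atTop (𝓝 (G η w)) := by
  have hw0 : 0 < w.im := hη.trans hw
  have i1 : (w - Complex.I * η).im ≠ 0 := by simp; intro h; linarith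
  have i2 : (w + Complex.I * η).im ≠ 0 := by simp; intro h; linarith
  have t1 := cosprod _ (sin_ne i1)
  have t2 := cosprod _ (sin_ne i2)
  have t3 := t1.div t2 (cos_ne i2)
  refine t3.congr fun n => ?_
  rw [Gn_eq hη hw0]
  simp only [Pi.div_apply]
  rw [← prod_div_distrib]
  refine prod_congr rfl fun j _ => ?_
  have h := den_ne hη hw0 j
  have hj : ((j : ℂ) + 1 / 2) ≠ 0 := by
    have : ((j : ℂ) + 1 / 2) = (((j : ℝ) + 1 / 2 : ℝ) : ℂ) := by push_cast; ring
    rw [this]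
    norm_cast
    positivity
  have h2 : (1 : ℂ) - (w + Complex.I * η) ^ 2 / ((j : ℂ) + 1 / 2) ^ 2 ≠ 0 := by
    intro h0
    apply h
    have := congrArg (· * ((j : ℂ) + 1 / 2) ^ 2) h0
    simp only [sub_mul, one_mul, zero_mul, div_mul_cancel₀ _ (pow_ne_zero 2 hj)] at this
    linear_combination -this
  rw [div_eq_iff h2]
  unfold fj
  have h4 : (1 : ℂ) - (w + Complex.I * η) ^ 2 / ((j : ℂ) + 1 / 2) ^ 2 =
      -((w + Complex.I * η) ^ 2 - ((j : ℂ) + 1 / 2) ^ 2) / ((j : ℂ) + 1 / 2) ^ 2 := by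
    rw [eq_div_iff (pow_ne_zero 2 hj), sub_mul, div_mul_cancel₀ _ (pow_ne_zero 2 hj)]; ring
  rw [h4, add_mul, one_mul, div_mul_div_comm]
  rw [show -(4 * Complex.I * ↑η * w) * -((w + Complex.I * ↑η) ^ 2 - (↑j + 1 / 2) ^ 2) =
    ((w + Complex.I * ↑η) ^ 2 - (↑j + 1 / 2) ^ 2) * (4 * Complex.I * ↑η * w) by ring,
    mul_div_mul_left _ _ h, ← add_div, eq_div_iff (pow_ne_zero 2 hj), sub_mul,
    div_mul_cancel₀ _ (pow_ne_zero 2 hj)]
  ring


lemma fj_bound {η : ℝ} (hη : 0 < η) {K : Set ℂ} (hK : IsCompact K) :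
    ∃ C : ℝ, ∀ᶠ j : ℕ in atTop, ∀ w ∈ K, ‖fj η j w‖ ≤ C * (1 / ((j : ℝ) + 1) ^ 2) := by
  obtain ⟨B, hB⟩ := hK.isBounded.exists_norm_le
  have hB' : ∀ w ∈ K, ‖w‖ ≤ |B| := fun w hw => (hB w hw).trans (le_abs_self B)
  refine ⟨32 * η * |B|, ?_⟩
  have hev : ∀ᶠ j : ℕ in atTop, 2 * (|B| + η) ^ 2 ≤ (j : ℝ) := by
    exact (tendsto_natCast_atTop_atTop (R := ℝ)).eventually_ge_atTop _
  filter_upwards [hev, eventually_ge_atTop 1] with j hj hj1 w hw
  have hj1' : (1 : ℝ) ≤ j := by exact_mod_cast hj1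
  have hwB := hB' w hw
  unfold fj
  rw [norm_div, norm_neg]
  have hnum : ‖4 * Complex.I * (η : ℂ) * w‖ ≤ 4 * η * |B| := by
    rw [norm_mul, norm_mul, norm_mul, Complex.norm_I, Complex.norm_real, Real.norm_of_nonneg hη.le]
    norm_num
    nlinarith [norm_nonneg w]
  have hden : ((j : ℝ) + 1) ^ 2 / 8 ≤ ‖(w + Complex.I * η) ^ 2 - ((j : ℂ) + 1 / 2) ^ 2‖ := by
    have h1 : ‖((j : ℂ) + 1 / 2) ^ 2‖ = ((j : ℝ) + 1 / 2) ^ 2 := by
      have : ((j : ℂ) + 1 / 2) = (((j : ℝ) + 1 / 2 : ℝ) : ℂ) := by push_cast; ring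
      rw [this, norm_pow, Complex.norm_real, Real.norm_of_nonneg (by positivity)]
    have h2 : ‖(w + Complex.I * η) ^ 2‖ ≤ (|B| + η) ^ 2 := by
      rw [norm_pow]
      apply pow_le_pow_left₀ (norm_nonneg _)
      refine (norm_add_le _ _).trans ?_
      rw [norm_mul, Complex.norm_I, one_mul, Complex.norm_real, Real.norm_of_nonneg hη.le]
      linarith
    have h3 := norm_sub_norm_le (((j : ℂ) + 1 / 2) ^ 2) ((w + Complex.I * η) ^ 2)
    rw [norm_sub_rev] at h3
    nlinarith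
  have hpos : 0 < ((j : ℝ) + 1) ^ 2 / 8 := by positivity
  calc ‖4 * Complex.I * (η : ℂ) * w‖ / ‖(w + Complex.I * η) ^ 2 - ((j : ℂ) + 1 / 2) ^ 2‖
      ≤ (4 * η * |B|) / (((j : ℝ) + 1) ^ 2 / 8) := by
        apply div_le_div₀ (by positivity) hnum hpos hden
    _ = 32 * η * |B| * (1 / ((j : ℝ) + 1) ^ 2) := by
        field_simp; ring

lemma Gn_unif {η : ℝ} (hη : 0 < η) {K : Set ℂ} (hK : IsCompact K) (hKim : ∀ w ∈ K, η < w.im) :
    TendstoUniformlyOn (fun n w => Gn η n w) (G η) atTop K := by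
  obtain ⟨C, hC⟩ := fj_bound hη hK
  have hs : Summable (fun j : ℕ => C * (1 / ((j : ℝ) + 1) ^ 2)) := by
    apply Summable.mul_left
    have := (summable_nat_add_iff 1).mpr (Real.summable_one_div_nat_pow.mpr (one_lt_two))
    simpa using this
  have hcts : ∀ j, ContinuousOn (fj η j) K := by
    intro j
    unfold fj
    refine ContinuousOn.div (by fun_prop) (by fun_prop) ?_
    intro w hw
    exact den_ne hη (hη.trans (hKim w hw)) j
  have h1 := (Summable.hasProdUniformlyOn_nat_one_add hK hs hC hcts).tendstoUniformlyOn_finsetRange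
  have h2 : TendstoUniformlyOn (fun n w => Gn η n w) (fun w => ∏' i, (1 + fj η i w)) atTop K := by
    refine h1.congr (Eventually.of_forall fun n w hw => ?_)
    show (∏ i ∈ range n, (1 + fj η i w)) = Gn η n w
    rw [Gn_eq hη (hη.trans (hKim w hw))]
  refine h2.congr_right ?_
  intro w hw
  exact tendsto_nhds_unique (h2.tendsto_at hw) (Gn_tendsto hη (hKim w hw))

/-- difference quotient of exp at zero -/
noncomputable def ge (z : ℂ) : ℂ := dslope Complex.exp 0 z

lemma ge_cont : Continuous ge := by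
  have h : ContinuousOn (dslope Complex.exp 0) Set.univ := by
    rw [continuousOn_dslope (by simp)]
    exact ⟨Complex.continuous_exp.continuousOn, Complex.differentiableAt_exp⟩
  exact continuousOn_univ.mp h

lemma ge_zero : ge 0 = 1 := by
  unfold ge; rw [dslope_same]; simp

lemma ge_mul (z : ℂ) : Complex.exp z - 1 = z * ge z := by
  have := sub_smul_dslope Complex.exp 0 z
  simp at this
  unfold ge
  rw [this]

/-- normalised numerator and denominator -/
noncomputable def nu (η : ℝ) (k0 : ℂ) (p : ℝ × ℂ) : ℂ :=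
  -(2 * Real.pi * η / (1 + Real.pi * η * p.1) : ℝ) -
    2 * Real.pi * Complex.I * (p.2 - k0) * ge (2 * Real.pi * Complex.I * p.1 * (p.2 - k0))

noncomputable def de (η : ℝ) (k0 : ℂ) (p : ℝ × ℂ) : ℂ :=
  (2 * Real.pi * η / (1 + Real.pi * η * p.1) : ℝ) -
    ((1 - Real.pi * η * p.1) / (1 + Real.pi * η * p.1) : ℝ) *
    (2 * Real.pi * Complex.I * (p.2 - k0) * ge (2 * Real.pi * Complex.I * p.1 * (p.2 - k0)))

lemma cont_nu (η : ℝ) (k0 w : ℂ) : ContinuousAt (nu η k0) (0, w) := by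
  unfold nu
  have hg := ge_cont
  have h1 : ContinuousAt (fun p : ℝ × ℂ => (2 * Real.pi * η / (1 + Real.pi * η * p.1) : ℝ)) (0, w) := by
    refine ContinuousAt.div (by fun_prop) (by fun_prop) (by simp)
  have h2 : ContinuousAt (fun p : ℝ × ℂ =>
      (((2 * Real.pi * η / (1 + Real.pi * η * p.1) : ℝ)) : ℂ)) (0, w) :=
    Complex.continuous_ofReal.continuousAt.comp h1
  refine ContinuousAt.sub h2.neg ?_
  fun_prop

lemma cont_de (η : ℝ) (k0 w : ℂ) : ContinuousAt (de η k0) (0, w) := by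
  unfold de
  have hg := ge_cont
  have h1 : ContinuousAt (fun p : ℝ × ℂ => (2 * Real.pi * η / (1 + Real.pi * η * p.1) : ℝ)) (0, w) := by
    refine ContinuousAt.div (by fun_prop) (by fun_prop) (by simp)
  have h2 : ContinuousAt (fun p : ℝ × ℂ =>
      (((2 * Real.pi * η / (1 + Real.pi * η * p.1) : ℝ)) : ℂ)) (0, w) :=
    Complex.continuous_ofReal.continuousAt.comp h1
  have h3 : ContinuousAt (fun p : ℝ × ℂ =>
      ((1 - Real.pi * η * p.1) / (1 + Real.pi * η * p.1) : ℝ)) (0, w) := by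
    refine ContinuousAt.div (by fun_prop) (by fun_prop) (by simp)
  have h4 : ContinuousAt (fun p : ℝ × ℂ =>
      (((1 - Real.pi * η * p.1) / (1 + Real.pi * η * p.1) : ℝ) : ℂ)) (0, w) :=
    Complex.continuous_ofReal.continuousAt.comp h3
  refine ContinuousAt.sub h2 (h4.mul ?_)
  fun_prop

lemma nu_zero (η : ℝ) (k0 w : ℂ) :
    nu η k0 (0, w) = -(2 * Real.pi * Complex.I) * (w - k0 - Complex.I * η) := by
  unfold nu
  simp only [mul_zero, Complex.ofReal_zero, zero_mul, ge_zero, add_zero, div_one]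
  push_cast
  linear_combination (-(2 * (Real.pi : ℂ) * η)) * Complex.I_sq

lemma de_zero (η : ℝ) (k0 w : ℂ) :
    de η k0 (0, w) = -(2 * Real.pi * Complex.I) * (w - k0 + Complex.I * η) := by
  unfold de
  simp only [mul_zero, Complex.ofReal_zero, zero_mul, ge_zero, add_zero, div_one, sub_zero]
  push_cast
  linear_combination (2 * (Real.pi : ℂ) * η) * Complex.I_sq


lemma vB_hz {η L : ℝ} (hη : 0 < η) (hL : 0 < L) (n : ℕ) (w : ℂ) :
    vB η n L (Complex.exp (2 * Real.pi * Complex.I * w / L)) =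
      ∏ k ∈ range (2 * n), nu η ((k : ℂ) - n + 1 / 2) (L⁻¹, w) / de η ((k : ℂ) - n + 1 / 2) (L⁻¹, w) := by
  unfold vB
  refine prod_congr rfl fun k _ => ?_
  set k0 : ℂ := (k : ℂ) - n + 1 / 2 with hk0
  have hLc : (L : ℂ) ≠ 0 := by exact_mod_cast hL.ne'
  have hpos : 0 < 1 + Real.pi * η * L⁻¹ := by positivity
  have hE : Complex.exp (-(2 * Real.pi * Complex.I * k0 / L)) *
      Complex.exp (2 * Real.pi * Complex.I * w / L) =
      1 + 2 * Real.pi * Complex.I * (L⁻¹ : ℝ) * (w - k0) *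
        ge (2 * Real.pi * Complex.I * (L⁻¹ : ℝ) * (w - k0)) := by
    rw [← ge_mul, ← Complex.exp_add]
    have : -(2 * Real.pi * Complex.I * k0 / L) + 2 * Real.pi * Complex.I * w / L =
      2 * Real.pi * Complex.I * ((L⁻¹ : ℝ) : ℂ) * (w - k0) := by
      push_cast; field_simp; ring
    rw [this]; ring
  have hr : (1 - Real.pi * η / L) / (1 + Real.pi * η / L) =
      (1 - Real.pi * η * L⁻¹) / (1 + Real.pi * η * L⁻¹) := by
    simp [div_eq_mul_inv]
  rw [mul_assoc (((1 - Real.pi * η / L) / (1 + Real.pi * η / L) : ℝ) : ℂ), hE, hr]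
  set g : ℂ := ge (2 * Real.pi * Complex.I * ((L⁻¹ : ℝ) : ℂ) * (w - k0)) with hg
  set r : ℝ := (1 - Real.pi * η * L⁻¹) / (1 + Real.pi * η * L⁻¹) with hr'
  have h1r : (1 : ℂ) - (r : ℂ) = ((L⁻¹ : ℝ) : ℂ) *
      ((2 * Real.pi * η / (1 + Real.pi * η * L⁻¹) : ℝ) : ℂ) := by
    rw [hr']
    norm_cast
    field_simp
    ring
  have hnu : ((r : ℂ) - (1 + 2 * Real.pi * Complex.I * (L⁻¹ : ℝ) * (w - k0) * g)) =
      ((L⁻¹ : ℝ) : ℂ) * nu η k0 (L⁻¹, w) := by
    unfold nu
    simp only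
    rw [← hg]
    linear_combination (-1 : ℂ) * h1r
  have hde : ((1 : ℂ) - r * (1 + 2 * Real.pi * Complex.I * (L⁻¹ : ℝ) * (w - k0) * g)) =
      ((L⁻¹ : ℝ) : ℂ) * de η k0 (L⁻¹, w) := by
    unfold de
    simp only
    rw [← hg, ← hr']
    linear_combination h1r
  rw [hnu, hde, mul_div_mul_left]
  exact_mod_cast (inv_pos.mpr hL).ne'

lemma fac_cont {η : ℝ} {w : ℂ} (hη : 0 < η) (hw : 0 < w.im) (k0 : ℝ) :
    ContinuousAt (fun w => fac η w k0) w := by
  unfold fac
  refine ContinuousAt.div (by fun_prop) (by fun_prop) ?_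
  apply ne_of_im
  simp
  positivity

lemma k0_cast (n k : ℕ) : ((k : ℂ) - n + 1 / 2) = (((k : ℝ) - n + 1 / 2 : ℝ) : ℂ) := by
  push_cast; ring

lemma close_L {η : ℝ} (hη : 0 < η) (n : ℕ) {K : Set ℂ} (hK : IsCompact K)
    (him : ∀ w ∈ K, 0 < w.im) {δ : ℝ} (hδ : 0 < δ) :
    ∃ L0 : ℝ, ∀ L : ℝ, L0 ≤ L → 0 < L → ∀ w ∈ K,
      ‖vB η n L (Complex.exp (2 * Real.pi * Complex.I * w / L)) - Gn η n w‖ < δ := by
  have hP : ∀ y ∈ K, ∀ᶠ z : ℝ × ℂ in 𝓝 ((0 : ℝ), y),
      ‖(∏ k ∈ range (2 * n), nu η ((k : ℂ) - n + 1 / 2) (z.1, z.2) /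
        de η ((k : ℂ) - n + 1 / 2) (z.1, z.2)) - Gn η n z.2‖ < δ := by
    intro y hy
    have hy0 := him y hy
    have hpi : (2 * (Real.pi : ℂ) * Complex.I) ≠ 0 := by
      simp [Real.pi_ne_zero]
    have hfac : ∀ k : ℕ, nu η ((k : ℂ) - n + 1 / 2) (0, y) / de η ((k : ℂ) - n + 1 / 2) (0, y) =
        fac η y ((k : ℂ) - n + 1 / 2) := by
      intro k
      rw [nu_zero, de_zero]
      unfold fac
      rw [mul_div_mul_left]
      exact neg_ne_zero.mpr hpi
    have hden : ∀ k : ℕ, de η ((k : ℂ) - n + 1 / 2) (0, y) ≠ 0 := by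
      intro k
      rw [de_zero]
      refine mul_ne_zero (neg_ne_zero.mpr hpi) ?_
      apply ne_of_im
      rw [k0_cast]
      simp
      positivity
    have hc1 : ContinuousAt (fun z : ℝ × ℂ => ∏ k ∈ range (2 * n),
        nu η ((k : ℂ) - n + 1 / 2) (z.1, z.2) / de η ((k : ℂ) - n + 1 / 2) (z.1, z.2)) (0, y) := by
      refine tendsto_finsetProd _ fun k _ => ?_
      exact ContinuousAt.div (cont_nu η _ y) (cont_de η _ y) (hden k)
    have hc2 : ContinuousAt (fun z : ℝ × ℂ => Gn η n z.2) (0, y) := by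
      have : ContinuousAt (fun w => Gn η n w) y := by
        unfold Gn
        refine tendsto_finsetProd _ fun k _ => ?_
        rw [k0_cast]
        exact fac_cont hη hy0 _
      exact ContinuousAt.comp (f := fun z : ℝ × ℂ => z.2) (g := fun w => Gn η n w)
        (x := ((0 : ℝ), y)) this continuousAt_snd
    have hc := (hc1.sub hc2).norm
    have hv : ‖(∏ k ∈ range (2 * n), nu η ((k : ℂ) - n + 1 / 2) (0, y) /
        de η ((k : ℂ) - n + 1 / 2) (0, y)) - Gn η n y‖ < δ := by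
      have : (∏ k ∈ range (2 * n), nu η ((k : ℂ) - n + 1 / 2) (0, y) /
        de η ((k : ℂ) - n + 1 / 2) (0, y)) = Gn η n y := by
        unfold Gn
        exact prod_congr rfl fun k _ => hfac k
      rw [this]; simpa using hδ
    exact hc.eventually_lt_const hv
  have h1 := hK.eventually_forall_of_forall_eventually (x₀ := (0 : ℝ)) (P := fun (e : ℝ) (w : ℂ) =>
    ‖(∏ k ∈ range (2 * n), nu η ((k : ℂ) - n + 1 / 2) (e, w) /
        de η ((k : ℂ) - n + 1 / 2) (e, w)) - Gn η n w‖ < δ) hP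
  have h2 := tendsto_inv_atTop_zero.eventually h1
  obtain ⟨L0, hL0⟩ := eventually_atTop.mp h2
  refine ⟨L0, fun L hL hLpos w hw => ?_⟩
  have := hL0 L hL w hw
  rw [vB_hz hη hLpos]
  exact this


lemma hurwitz {f : ℂ → ℂ} {c : ℂ} {r ε : ℝ} (hr : 0 < r) (hε : 0 < ε)
    (hd : ∀ z ∈ closedBall c r, DifferentiableAt ℂ f z)
    (hf : ∀ z ∈ sphere c r, ε ≤ ‖f z - f c‖) {v : ℂ} (hv : ‖v - f c‖ < ε / 2) :
    ∃ z ∈ closedBall c r, f z = v := by
  have hcl : closure (ball c r) = closedBall c r := closure_ball c hr.ne'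
  have hdo : DifferentiableOn ℂ f (closure (ball c r)) := by
    rw [hcl]; exact fun z hz => (hd z hz).differentiableWithinAt
  have hD : DiffContOnCl ℂ f (ball c r) := hdo.diffContOnCl
  have hfreq : ∃ᶠ z in 𝓝 c, f z ≠ f c := by
    intro h
    have h' : ∀ᶠ z in 𝓝 c, f z = f c := by
      filter_upwards [h] with z hz
      exact not_not.mp hz
    have hA : AnalyticOnNhd ℂ f (ball c r) :=
      (hdo.mono subset_closure).analyticOnNhd isOpen_ball
    have hE : Set.EqOn f (fun _ => f c) (ball c r) :=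
      hA.eqOn_of_preconnected_of_eventuallyEq (g := fun _ => f c) analyticOnNhd_const
        (convex_ball c r).isPreconnected (mem_ball_self hr) h'
    have hE2 : Set.EqOn f (fun _ => f c) (closedBall c r) := by
      refine hE.of_subset_closure ?_ continuousOn_const ball_subset_closedBall hcl.ge
      exact fun z hz => (hd z hz).continuousAt.continuousWithinAt
    have hz : c + (r : ℂ) ∈ sphere c r := by
      simp [abs_of_pos hr]
    have h1 := hf _ hz
    rw [hE2 (sphere_subset_closedBall hz)] at h1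
    simp at h1
    linarith
  have := hD.ball_subset_image_closedBall hr hf hfreq
  obtain ⟨z, hz, hzv⟩ := this (show v ∈ ball (f c) (ε / 2) by rwa [mem_ball_iff_norm])
  exact ⟨z, hz, hzv⟩

lemma norm_hz (L : ℝ) (w : ℂ) :
    ‖Complex.exp (2 * Real.pi * Complex.I * w / L)‖ = Real.exp (-(2 * Real.pi * w.im / L)) := by
  rw [Complex.norm_exp]
  congr 1
  have : (2 * Real.pi * Complex.I * w / L) = ((2 * Real.pi / L : ℝ) : ℂ) * (Complex.I * w) := by
    push_cast; ring
  rw [this, Complex.re_ofReal_mul]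
  simp
  ring

lemma vB_diff {η L : ℝ} (hη : 0 < η) (hL : Real.pi * η < L) (n : ℕ) {w : ℂ} (hw : 0 < w.im) :
    DifferentiableAt ℂ (fun w => vB η n L (Complex.exp (2 * Real.pi * Complex.I * w / L))) w := by
  have hL0 : 0 < L := lt_trans (by positivity) hL
  unfold vB
  refine DifferentiableAt.fun_finsetProd fun k _ => ?_
  refine DifferentiableAt.div (by fun_prop) (by fun_prop) ?_
  intro h0
  have h1 := (sub_eq_zero.mp h0).symm
  have h2 := congrArg norm h1
  rw [norm_mul, norm_mul, norm_hz, norm_one, Complex.norm_real] at h2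
  have h3 : ‖Complex.exp (-(2 * Real.pi * Complex.I * ((k : ℂ) - n + 1 / 2) / L))‖ = 1 := by
    rw [Complex.norm_exp, k0_cast]
    have : -(2 * Real.pi * Complex.I * (((k : ℝ) - n + 1 / 2 : ℝ) : ℂ) / L) =
      ((-(2 * Real.pi * ((k : ℝ) - n + 1 / 2) / L) : ℝ) : ℂ) * Complex.I := by
      push_cast; ring
    rw [this, Complex.re_ofReal_mul]
    simp
  rw [h3, mul_one] at h2
  have hr : ‖(1 - Real.pi * η / L) / (1 + Real.pi * η / L)‖ ≤ 1 := by
    have hx : Real.pi * η / L < 1 := by rw [div_lt_one hL0]; exact hL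
    have hx0 : 0 < Real.pi * η / L := by positivity
    rw [Real.norm_of_nonneg (by apply div_nonneg <;> linarith), div_le_one (by linarith)]
    linarith
  have he : Real.exp (-(2 * Real.pi * w.im / L)) < 1 := by
    rw [Real.exp_lt_one_iff]
    have : 0 < 2 * Real.pi * w.im / L := by positivity
    linarith
  have hep := Real.exp_pos (-(2 * Real.pi * w.im / L))
  have : ‖(1 - Real.pi * η / L) / (1 + Real.pi * η / L)‖ * Real.exp (-(2 * Real.pi * w.im / L)) < 1 := by
    nlinarith [norm_nonneg ((1 - Real.pi * η / L) / (1 + Real.pi * η / L))]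
  linarith

lemma G_eq (η : ℝ) (w : ℂ) :
    G η w = ((Real.exp (-(2 * Real.pi * η)) : ℝ) + Complex.exp (2 * Real.pi * Complex.I * w)) /
      (1 + (Real.exp (-(2 * Real.pi * η)) : ℝ) * Complex.exp (2 * Real.pi * Complex.I * w)) := by
  unfold G
  rw [Complex.cos, Complex.cos, div_div_div_cancel_right₀ (by norm_num)]
  have h1 : Complex.exp (Real.pi * (w - Complex.I * η) * Complex.I) +
      Complex.exp (-(Real.pi * (w - Complex.I * η)) * Complex.I) =
      Complex.exp (Real.pi * η - Real.pi * w * Complex.I) *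
      ((Real.exp (-(2 * Real.pi * η)) : ℝ) + Complex.exp (2 * Real.pi * Complex.I * w)) := by
    push_cast
    rw [mul_add, ← Complex.exp_add, ← Complex.exp_add, add_comm]
    congr 2
    · linear_combination (Real.pi * η : ℂ) * Complex.I_sq
    · linear_combination (-Real.pi * η : ℂ) * Complex.I_sq
  have h2 : Complex.exp (Real.pi * (w + Complex.I * η) * Complex.I) +
      Complex.exp (-(Real.pi * (w + Complex.I * η)) * Complex.I) =
      Complex.exp (Real.pi * η - Real.pi * w * Complex.I) *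
      (1 + (Real.exp (-(2 * Real.pi * η)) : ℝ) * Complex.exp (2 * Real.pi * Complex.I * w)) := by
    push_cast
    rw [mul_add (Complex.exp (Real.pi * η - Real.pi * w * Complex.I)), mul_one, ← Complex.exp_add,
      ← Complex.exp_add, add_comm]
    congr 2
    · linear_combination (-Real.pi * η : ℂ) * Complex.I_sq
    · linear_combination (Real.pi * η : ℂ) * Complex.I_sq
  rw [h1, h2, mul_div_mul_left _ _ (Complex.exp_ne_zero _)]


lemma im_of_mem {H : ℝ} {k : ℕ} {w : ℂ}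
    (hw : w ∈ closedBall ((k : ℂ) + Complex.I * H) (1 / 4)) : H - 1 / 4 ≤ w.im ∧ w.im ≤ H + 1 / 4 := by
  rw [mem_closedBall_iff_norm] at hw
  have h1 := (Complex.abs_im_le_norm (w - ((k : ℂ) + Complex.I * H))).trans hw
  simp at h1
  rw [abs_le] at h1
  constructor <;> linarith

lemma G_ne {η H : ℝ} (hη : 0 < η) (hH : 0 < H) {w : ℂ} (hw : 0 < w.im)
    (h : G η w = G η (Complex.I * H)) : ∃ m : ℤ, w = m + Complex.I * H := by
  rw [G_eq, G_eq] at h
  set ρ : ℝ := Real.exp (-(2 * Real.pi * η)) with hρ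
  have hρ0 : 0 < ρ := Real.exp_pos _
  have hρ1 : ρ < 1 := by
    rw [hρ, Real.exp_lt_one_iff]
    have : 0 < 2 * Real.pi * η := by positivity
    linarith
  have key : ∀ z : ℂ, 0 < z.im → 1 + (ρ : ℂ) * Complex.exp (2 * Real.pi * Complex.I * z) ≠ 0 := by
    intro z hz h0
    have h1 : (ρ : ℂ) * Complex.exp (2 * Real.pi * Complex.I * z) = -1 := by linear_combination h0
    have h2 := congrArg norm h1
    have h3 : ‖Complex.exp (2 * Real.pi * Complex.I * z)‖ < 1 := by
      have := norm_hz 1 z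
      simp only [Complex.ofReal_one, div_one] at this
      rw [this, Real.exp_lt_one_iff]
      have : 0 < 2 * Real.pi * z.im := by positivity
      linarith
    rw [norm_mul, Complex.norm_real, Real.norm_of_nonneg hρ0.le, norm_neg, norm_one] at h2
    nlinarith [norm_nonneg (Complex.exp (2 * Real.pi * Complex.I * z))]
  have hH' : 0 < (Complex.I * (H : ℂ)).im := by simpa using hH
  rw [div_eq_div_iff (key w hw) (key _ hH')] at h
  have hρ2 : (1 - (ρ : ℂ) ^ 2) ≠ 0 := by
    norm_cast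
    have : 0 < 1 - ρ ^ 2 := by nlinarith
    exact this.ne'
  have h5 : Complex.exp (2 * Real.pi * Complex.I * w) =
      Complex.exp (2 * Real.pi * Complex.I * (Complex.I * H)) := by
    have : (1 - (ρ : ℂ) ^ 2) * (Complex.exp (2 * Real.pi * Complex.I * w) -
      Complex.exp (2 * Real.pi * Complex.I * (Complex.I * H))) = 0 := by linear_combination h
    rcases mul_eq_zero.mp this with h6 | h6
    · exact absurd h6 hρ2
    · exact sub_eq_zero.mp h6
  obtain ⟨m, hm⟩ := Complex.exp_eq_exp_iff_exists_int.mp h5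
  refine ⟨m, ?_⟩
  have h7 : (2 * (Real.pi : ℂ) * Complex.I) ≠ 0 := by simp [Real.pi_ne_zero]
  apply mul_left_cancel₀ h7
  linear_combination hm

lemma exists_a (η : ℝ) (A : ℝ) (hA : Real.exp (-(2 * Real.pi * η)) < A) (B : ℝ) :
    ∃ H : ℝ, B ≤ H ∧ (Real.exp (-(2 * Real.pi * η)) + Real.exp (-(2 * Real.pi * H))) /
      (1 + Real.exp (-(2 * Real.pi * η)) * Real.exp (-(2 * Real.pi * H))) < A := by
  set ρ : ℝ := Real.exp (-(2 * Real.pi * η)) with hρ
  have h1 : Tendsto (fun H : ℝ => Real.exp (-(2 * Real.pi * H))) atTop (𝓝 0) := by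
    apply Real.tendsto_exp_neg_atTop_nhds_zero.comp
    exact tendsto_id.const_mul_atTop (by positivity)
  have h2 : Tendsto (fun H : ℝ => (ρ + Real.exp (-(2 * Real.pi * H))) /
      (1 + ρ * Real.exp (-(2 * Real.pi * H)))) atTop (𝓝 ((ρ + 0) / (1 + ρ * 0))) := by
    apply Tendsto.div (h1.const_add _) ((h1.const_mul _).const_add _)
    simp
  simp only [add_zero, mul_zero, div_one] at h2
  obtain ⟨H, h3, h4⟩ := ((h2.eventually_lt_const hA).and (eventually_ge_atTop B)).exists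
  exact ⟨H, h4, h3⟩

end ZC

open ZC in
/-- Level sets `vB = a` with `a` slightly above `exp(-2πη)` contain arbitrarily many points at pairwise
pseudohyperbolic distance at most 1/2. -/
theorem zero_cluster (η : ℝ) (hη : 0 < η) (M : ℕ) (A : ℝ) (hA : Real.exp (-(2 * Real.pi * η)) < A) :
    ∃ a : ℝ, Real.exp (-(2 * Real.pi * η)) < a ∧ a < A ∧ ∃ n : ℕ, 1 ≤ n ∧ ∃ L0 : ℝ, ∀ L : ℝ, L0 ≤ L →
      ∃ z : Fin M → ℂ, Function.Injective z ∧ (∀ i, ‖z i‖ < 1) ∧ (∀ i, vB η n L (z i) = a) ∧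
        ∀ i l, 2 * ‖z i - z l‖ ≤ ‖1 - (starRingEnd ℂ) (z l) * z i‖ := by
  obtain ⟨H, hHB, haA⟩ := exists_a η A hA (4 * M + 4 + η)
  have hM0 : (0 : ℝ) ≤ M := Nat.cast_nonneg M
  have hH0 : 0 < H := by linarith
  set ρ : ℝ := Real.exp (-(2 * Real.pi * η)) with hρ
  set q : ℝ := Real.exp (-(2 * Real.pi * H)) with hq
  have hρ0 : 0 < ρ := Real.exp_pos _
  have hρ1 : ρ < 1 := by
    rw [hρ, Real.exp_lt_one_iff]
    have : 0 < 2 * Real.pi * η := by positivity
    linarith
  have hq0 : 0 < q := Real.exp_pos _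
  set a : ℝ := (ρ + q) / (1 + ρ * q) with ha
  have hρa : ρ < a := by
    rw [ha, lt_div_iff₀ (by positivity)]
    nlinarith [mul_pos hρ0 hq0, mul_pos hq0 (sub_pos.mpr hρ1)]
  refine ⟨a, hρa, haA, ?_⟩
  -- centres
  let c : Fin M → ℂ := fun k => ((k : ℕ) : ℂ) + Complex.I * H
  have hGa : ∀ k : Fin M, G η (c k) = a := by
    intro k
    rw [G_eq, ← hρ]
    have : Complex.exp (2 * Real.pi * Complex.I * c k) = (q : ℂ) := by
      rw [hq]
      push_cast
      rw [Complex.exp_eq_exp_iff_exists_int]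
      refine ⟨(k : ℕ), ?_⟩
      simp only [c]
      push_cast
      linear_combination (2 * Real.pi * H : ℂ) * Complex.I_sq
    rw [this, ha]
    push_cast
    rfl
  have hGI : G η (Complex.I * H) = a := by
    rw [G_eq, ← hρ]
    have : Complex.exp (2 * Real.pi * Complex.I * (Complex.I * H)) = (q : ℂ) := by
      rw [hq]
      push_cast
      congr 1
      linear_combination (2 * Real.pi * H : ℂ) * Complex.I_sq
    rw [this, ha]
    push_cast
    rfl
  have him : ∀ k : Fin M, ∀ w ∈ closedBall (c k) (1 / 4), H - 1 / 4 ≤ w.im ∧ w.im ≤ H + 1 / 4 :=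
    fun k w hw => im_of_mem (k := (k : ℕ)) hw
  let T : Set ℂ := ⋃ k : Fin M, sphere (c k) (1 / 4)
  let K : Set ℂ := ⋃ k : Fin M, closedBall (c k) (1 / 4)
  have hT : IsCompact T := isCompact_iUnion fun k => isCompact_sphere _ _
  have hK : IsCompact K := isCompact_iUnion fun k => isCompact_closedBall _ _
  have hTK : T ⊆ K := Set.iUnion_mono fun k => sphere_subset_closedBall
  have hKim : ∀ w ∈ K, η < w.im := by
    intro w hw
    obtain ⟨k, hk⟩ := Set.mem_iUnion.mp hw
    have := (him k w hk).1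
    linarith
  have hKim0 : ∀ w ∈ K, 0 < w.im := fun w hw => hη.trans (hKim w hw)
  have hGc : ContinuousOn (fun w => ‖G η w - a‖) T := by
    have : ContinuousOn (G η) T := by
      unfold G
      refine ContinuousOn.div (by fun_prop) (by fun_prop) ?_
      intro w hw
      apply cos_ne
      have := hKim0 w (hTK hw)
      simp
      intro h; linarith
    fun_prop
  have hpos : ∀ w ∈ T, 0 < ‖G η w - a‖ := by
    intro w hw
    rw [norm_pos_iff, sub_ne_zero]
    intro h
    obtain ⟨m, hm⟩ := G_ne hη hH0 (hKim0 w (hTK hw)) (h.trans hGI.symm)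
    obtain ⟨k, hk⟩ := Set.mem_iUnion.mp hw
    rw [mem_sphere_iff_norm, hm] at hk
    simp only [c] at hk
    have h8 : ((m : ℂ) + Complex.I * H - (((k : ℕ) : ℂ) + Complex.I * H)) = ((m - (k : ℕ) : ℤ) : ℂ) := by
      push_cast; ring
    rw [h8, Complex.norm_intCast] at hk
    have h9 : (4 : ℝ) * |((m - (k : ℕ) : ℤ) : ℝ)| = 1 := by rw [hk]; norm_num
    have h10 : (4 : ℤ) * |m - (k : ℕ)| = 1 := by exact_mod_cast h9
    omega
  obtain ⟨m, hm0, hm⟩ := hT.exists_forall_le' hGc hpos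
  -- choose n
  have hu := Gn_unif hη hK hKim
  rw [Metric.tendstoUniformlyOn_iff] at hu
  obtain ⟨n, hn, hn1⟩ := ((hu (m / 8) (by positivity)).and (eventually_ge_atTop 1)).exists
  refine ⟨n, hn1, ?_⟩
  obtain ⟨L0, hL0⟩ := close_L hη n hK hKim0 (show 0 < m / 8 by positivity)
  refine ⟨max L0 (100 * (M + H + 1 + η)), fun L hL => ?_⟩
  have hL1 : L0 ≤ L := (le_max_left _ _).trans hL
  have hL2 : 100 * (M + H + 1 + η) ≤ L := (le_max_right _ _).trans hL
  have hpi4 := Real.pi_lt_four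
  have hpi3 := Real.pi_gt_three
  have hLpos : 0 < L := by nlinarith
  have hLη : Real.pi * η < L := by nlinarith
  set f : ℂ → ℂ := fun w => vB η n L (Complex.exp (2 * Real.pi * Complex.I * w / L)) with hf
  have hclose : ∀ w ∈ K, ‖f w - G η w‖ < m / 4 := by
    intro w hw
    have h1 := hL0 L hL1 hLpos w hw
    have h2 := hn w hw
    rw [dist_eq_norm, norm_sub_rev] at h2
    calc ‖f w - G η w‖ = ‖(f w - Gn η n w) + (Gn η n w - G η w)‖ := by ring_nf
      _ ≤ ‖f w - Gn η n w‖ + ‖Gn η n w - G η w‖ := norm_add_le _ _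
      _ < m / 4 := by linarith
  have hex : ∀ k : Fin M, ∃ w ∈ closedBall (c k) (1 / 4), f w = a := by
    intro k
    have hcK : c k ∈ K := Set.mem_iUnion.mpr ⟨k, mem_closedBall_self (by norm_num)⟩
    have h0 := hclose (c k) hcK
    rw [hGa k] at h0
    refine hurwitz (ε := m / 2) (by norm_num) (by positivity) ?_ ?_ ?_
    · intro w hw
      exact vB_diff hη hLη n (hKim0 w (Set.mem_iUnion.mpr ⟨k, hw⟩))
    · intro w hw
      have hwT : w ∈ T := Set.mem_iUnion.mpr ⟨k, hw⟩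
      have h1 := hclose w (hTK hwT)
      have h2 := hm w hwT
      have h3 : ‖G η w - a‖ ≤ ‖f w - G η w‖ + ‖f w - f (c k)‖ + ‖f (c k) - a‖ := by
        calc ‖G η w - a‖ = ‖-(f w - G η w) + (f w - f (c k)) + (f (c k) - a)‖ := by ring_nf
          _ ≤ ‖-(f w - G η w)‖ + ‖f w - f (c k)‖ + ‖f (c k) - a‖ := norm_add₃_le
          _ = _ := by rw [norm_neg]
      linarith
    · rw [norm_sub_rev]; linarith
  choose w hwB hwa using hex
  have hcc : ∀ i l : Fin M, ‖c i - c l‖ = |((i : ℕ) : ℝ) - ((l : ℕ) : ℝ)| := by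
    intro i l
    have : c i - c l = (((((i : ℕ) : ℝ) - ((l : ℕ) : ℝ)) : ℝ) : ℂ) := by
      simp only [c]; push_cast; ring
    rw [this, Complex.norm_real, Real.norm_eq_abs]
  have hcw : ∀ i l : Fin M, |‖w i - w l‖ - ‖c i - c l‖| ≤ 1 / 2 := by
    intro i l
    have h1 := hwB i
    have h2 := hwB l
    rw [mem_closedBall_iff_norm] at h1 h2
    calc |‖w i - w l‖ - ‖c i - c l‖| ≤ ‖(w i - w l) - (c i - c l)‖ := abs_norm_sub_norm_le _ _
      _ = ‖(w i - c i) - (w l - c l)‖ := by ring_nf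
      _ ≤ ‖w i - c i‖ + ‖w l - c l‖ := norm_sub_le _ _
      _ ≤ 1 / 2 := by linarith
  have hwM : ∀ i l : Fin M, ‖w i - w l‖ ≤ M := by
    intro i l
    have h1 := (abs_le.mp (hcw i l)).2
    rw [hcc] at h1
    have hi : ((i : ℕ) : ℝ) + 1 ≤ M := by exact_mod_cast i.2
    have hl : ((l : ℕ) : ℝ) + 1 ≤ M := by exact_mod_cast l.2
    have h3 : |((i : ℕ) : ℝ) - ((l : ℕ) : ℝ)| ≤ M - 1 := by
      rw [abs_le]
      constructor <;> linarith [Nat.cast_nonneg (α := ℝ) (i : ℕ), Nat.cast_nonneg (α := ℝ) (l : ℕ)]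
    linarith
  refine ⟨fun i => Complex.exp (2 * Real.pi * Complex.I * w i / L), ?_, ?_, hwa, ?_⟩
  · -- injective
    intro i l hil
    obtain ⟨k, hk⟩ := Complex.exp_eq_exp_iff_exists_int.mp hil
    have hLc : (L : ℂ) ≠ 0 := by exact_mod_cast hLpos.ne'
    have h7 : (2 * (Real.pi : ℂ) * Complex.I) ≠ 0 := by simp [Real.pi_ne_zero]
    have h8 : w i = w l + k * L := by
      apply mul_left_cancel₀ h7
      field_simp at hk
      linear_combination (2 * (Real.pi : ℂ) * Complex.I) * hk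
    have h9 : ‖w i - w l‖ = |(k : ℝ)| * L := by
      have : w i - w l = (((k : ℝ) * L : ℝ) : ℂ) := by rw [h8]; push_cast; ring
      rw [this, Complex.norm_real, Real.norm_eq_abs, abs_mul, abs_of_pos hLpos]
    have h10 := hwM i l
    rw [h9] at h10
    have h11 : |(k : ℝ)| < 1 := by
      by_contra hcon
      push Not at hcon
      nlinarith
    have h12 : k = 0 := by
      have : |k| < 1 := by exact_mod_cast h11
      exact Int.abs_lt_one_iff.mp this
    rw [h12] at h9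
    simp only [Int.cast_zero, abs_zero, zero_mul] at h9
    have h13 := (abs_le.mp (hcw i l)).1
    rw [h9, hcc] at h13
    have h14 : |((i : ℕ) : ℝ) - ((l : ℕ) : ℝ)| ≤ 1 / 2 := by linarith
    have h15 : (2 : ℝ) * |((((i : ℕ) : ℤ) - ((l : ℕ) : ℤ) : ℤ) : ℝ)| ≤ 1 := by
      push_cast; linarith
    have h16 : (2 : ℤ) * |((i : ℕ) : ℤ) - ((l : ℕ) : ℤ)| ≤ 1 := by exact_mod_cast h15
    have h17 : |((i : ℕ) : ℤ) - ((l : ℕ) : ℤ)| < 1 := by omega
    have h18 := Int.abs_lt_one_iff.mp h17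
    apply Fin.ext
    omega
  · intro i
    rw [norm_hz, Real.exp_lt_one_iff]
    have h1 := hKim0 (w i) (Set.mem_iUnion.mpr ⟨i, hwB i⟩)
    have : 0 < 2 * Real.pi * (w i).im / L := by positivity
    linarith
  · intro i l
    have hxi : Complex.exp (2 * Real.pi * Complex.I * w i / L) =
        Complex.exp (2 * Real.pi * Complex.I * w l / L) *
        Complex.exp (2 * Real.pi * Complex.I * (w i - w l) / L) := by
      rw [← Complex.exp_add]
      congr 1
      ring
    have hyl := him l _ (hwB l)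
    have hyi := him i _ (hwB i)
    have hzl : ‖Complex.exp (2 * Real.pi * Complex.I * w l / L)‖ ≤ 1 := by
      rw [norm_hz, Real.exp_le_one_iff]
      have : 0 < 2 * Real.pi * (w l).im / L := by
        have : 0 < (w l).im := by linarith
        positivity
      linarith
    have hnx : ‖2 * Real.pi * Complex.I * (w i - w l) / L‖ = 2 * Real.pi * ‖w i - w l‖ / L := by
      rw [norm_div, norm_mul, norm_mul, norm_mul, Complex.norm_I, Complex.norm_real, Complex.norm_real,
        Real.norm_of_nonneg hLpos.le, Real.norm_of_nonneg Real.pi_pos.le]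
      norm_num
    have hwMil := hwM i l
    have hx1 : ‖2 * Real.pi * Complex.I * (w i - w l) / L‖ ≤ 1 := by
      rw [hnx, div_le_one hLpos]
      have h1 : 2 * Real.pi * ‖w i - w l‖ ≤ 8 * M := by
        have h2 := mul_le_mul_of_nonneg_left hwMil (show 0 ≤ 2 * Real.pi by positivity)
        have h3 := mul_le_mul_of_nonneg_right hpi4.le hM0
        linarith
      linarith
    have hlhs : ‖Complex.exp (2 * Real.pi * Complex.I * w i / L) -
        Complex.exp (2 * Real.pi * Complex.I * w l / L)‖ ≤ 4 * Real.pi * M / L := by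
      have h1 : Complex.exp (2 * Real.pi * Complex.I * w i / L) -
        Complex.exp (2 * Real.pi * Complex.I * w l / L) = Complex.exp (2 * Real.pi * Complex.I * w l / L) *
        (Complex.exp (2 * Real.pi * Complex.I * (w i - w l) / L) - 1) := by
        rw [mul_sub, mul_one, ← hxi]
      rw [h1, norm_mul]
      have h2 := Complex.norm_exp_sub_one_le hx1
      rw [hnx] at h2
      calc ‖Complex.exp (2 * Real.pi * Complex.I * w l / L)‖ *
          ‖Complex.exp (2 * Real.pi * Complex.I * (w i - w l) / L) - 1‖ ≤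
          1 * (2 * (2 * Real.pi * ‖w i - w l‖ / L)) := by
            apply mul_le_mul hzl h2 (norm_nonneg _) (by norm_num)
        _ ≤ 4 * Real.pi * M / L := by
            rw [one_mul, ← mul_div_assoc]
            apply div_le_div_of_nonneg_right _ hLpos.le
            have := mul_le_mul_of_nonneg_left hwMil (show 0 ≤ 4 * Real.pi by positivity)
            linarith
    set s : ℝ := 2 * Real.pi * ((w i).im + (w l).im) / L with hs
    have hs1 : s ≤ 1 := by
      rw [hs, div_le_one hLpos]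
      have h1 : (w i).im + (w l).im ≤ 2 * H + 1 := by linarith
      have h2 := mul_le_mul_of_nonneg_left h1 (show 0 ≤ 2 * Real.pi by positivity)
      have h3 := mul_le_mul_of_nonneg_right hpi4.le (show 0 ≤ 2 * H + 1 by linarith)
      linarith
    have hs0 : 2 * Real.pi * (2 * H - 1 / 2) / L ≤ s := by
      rw [hs]
      apply div_le_div_of_nonneg_right _ hLpos.le
      apply mul_le_mul_of_nonneg_left _ (show 0 ≤ 2 * Real.pi by positivity)
      linarith
    have hs00 : 0 < s := lt_of_lt_of_le (by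
      have : 0 < 2 * H - 1 / 2 := by linarith
      positivity) hs0
    have hprod : ‖(starRingEnd ℂ) (Complex.exp (2 * Real.pi * Complex.I * w l / L)) *
        Complex.exp (2 * Real.pi * Complex.I * w i / L)‖ = Real.exp (-s) := by
      rw [norm_mul, RCLike.norm_conj, norm_hz, norm_hz, ← Real.exp_add]
      congr 1
      rw [hs]; ring
    have hexp : Real.exp (-s) ≤ 1 - s / 2 := by
      rw [Real.exp_neg]
      have h1 := Real.add_one_le_exp s
      have h2 : 0 < s + 1 := by linarith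
      calc (Real.exp s)⁻¹ ≤ (s + 1)⁻¹ := inv_anti₀ h2 h1
        _ ≤ 1 - s / 2 := by
          rw [inv_le_iff_one_le_mul₀ h2]
          nlinarith
    have hrhs : s / 2 ≤ ‖1 - (starRingEnd ℂ) (Complex.exp (2 * Real.pi * Complex.I * w l / L)) *
        Complex.exp (2 * Real.pi * Complex.I * w i / L)‖ := by
      have h1 := norm_sub_norm_le (1 : ℂ) ((starRingEnd ℂ) (Complex.exp (2 * Real.pi * Complex.I * w l / L)) *
        Complex.exp (2 * Real.pi * Complex.I * w i / L))
      rw [hprod, norm_one] at h1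
      linarith
    refine le_trans ?_ hrhs
    refine le_trans (mul_le_mul_of_nonneg_left hlhs (by norm_num)) ?_
    have h3 : 2 * (4 * Real.pi * M / L) = (8 * Real.pi * M) / L := by ring
    have h4 : 2 * Real.pi * (2 * H - 1 / 2) / L / 2 = (Real.pi * (2 * H - 1 / 2)) / L := by ring
    have h6 : Real.pi * (8 * M) ≤ Real.pi * (2 * H - 1 / 2) :=
      mul_le_mul_of_nonneg_left (by linarith) Real.pi_pos.le
    have h5 : (8 * Real.pi * M) / L ≤ (Real.pi * (2 * H - 1 / 2)) / L := by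
      apply div_le_div_of_nonneg_right _ hLpos.le
      linarith
    rw [h3]
    refine h5.trans ?_
    rw [← h4]
    exact div_le_div_of_nonneg_right hs0 (by norm_num)
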