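import Pool.Agent.MP58366f.GL5
import Pool.Agent.MP58366f.Zero
import Pool.Agent.MP58366f.Wiener
import Pool.Agent.MP58366f.VBound
set_option autoImplicit false
set_option maxHeartbeats 4000000
set_option linter.unusedSectionVars false
open Finset
namespace IM

/-- a building block: `1 + ∑ κ m z^m` is an inner function close to `1` away from `z = 1`, with a big
cluster of zeros, and with a multiplier bound `C` -/
structure Block (C μ : ℝ) (M : ℕ) (κ : ℕ → ℂ) : Prop where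
  summ : Summable fun m => ‖κ m‖
  le_one : ∀ z : ℂ, ‖z‖ ≤ 1 → ‖1 + ∑' m, κ m * z ^ m‖ ≤ 1
  unim : ∀ z : ℂ, ‖z‖ = 1 → ‖1 + ∑' m, κ m * z ^ m‖ = 1
  sum0 : ∑' m, κ m = 0
  near : ∀ z : ℂ, ‖z‖ ≤ 1 → ‖1 - z‖ * ‖∑' m, κ m * z ^ m‖ ≤ μ
  mb : ∀ (N : ℕ) [NeZero N], MB C (fun j : ZMod N => 1 + psym N κ j)
  small : ∀ (N : ℕ) [NeZero N], MB μ (fun j : ZMod N => (1 - E j) * psym N κ j)
  zeros : ∃ z : Fin M → ℂ, Function.Injective z ∧ (∀ i, ‖z i‖ < 1) ∧ (∀ i, 1 + ∑' m, κ m * z i ^ m = 0) ∧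
    ∀ i l, 2 * ‖z i - z l‖ ≤ ‖1 - (starRingEnd ℂ) (z l) * z i‖

section
variable {N : ℕ} [NeZero N]

lemma E_pow (j : ZMod N) (m : ℕ) : E (j * (m : ZMod N)) = E j ^ m := by
  induction m with
  | zero => simp [E_zero]
  | succ m ih => rw [Nat.cast_add, mul_add, E_add, ih, pow_succ]; simp

lemma psym_eq (κ : ℕ → ℂ) (j : ZMod N) : psym N κ j = ∑' m, κ m * E j ^ m := by
  unfold psym; simp_rw [E_pow]

lemma Kact_le {κ : ℕ → ℂ} (hκ : Summable fun m => ‖κ m‖) (f : ZMod N → ℂ) :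
    N4 (Kact κ f) ≤ (∑' m, ‖κ m‖) * N4 f := by
  have h : ∀ m : ℕ, N4 (fun n : ZMod N => κ m * f (n - (m : ZMod N))) = ‖κ m‖ * N4 f := by
    intro m
    have : (fun n : ZMod N => κ m * f (n - (m : ZMod N))) = κ m • (fun n : ZMod N => f (n - (m : ZMod N))) := by
      funext n; simp
    rw [this, N4_smul, N4_translate]
  have hs : Summable fun m : ℕ => N4 (fun n : ZMod N => κ m * f (n - (m : ZMod N))) := by
    simp_rw [h]; exact hκ.mul_right _
  calc _ ≤ ∑' m : ℕ, N4 (fun n : ZMod N => κ m * f (n - (m : ZMod N))) := N4_tsum_le hs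
    _ = _ := by simp_rw [h]; rw [tsum_mul_right]

lemma AN_mb {c : ℝ} {f : ℂ → ℂ} (h : AN c f) : MB c (fun j : ZMod N => f (E j)) := by
  obtain ⟨k, hk, hkc, hf⟩ := h
  have : (fun j : ZMod N => f (E j)) = psym N k := by
    funext j
    rw [psym_eq, hf _ (E_norm j).le]
  rw [this]
  intro g
  rw [T_psym hk]
  exact (Kact_le hk g).trans (by gcongr; exact N4_nonneg g)

/-- inverse of `1 - a v` -/
lemma MB_inv {C a : ℝ} (ha : 0 ≤ a) (haC : a * C ≤ 1 / 4) {v : ZMod N → ℂ} (hv : MB C v)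
    (hne : ∀ j, 1 - (a : ℂ) * v j ≠ 0) : MB (4 / 3) (fun j => 1 / (1 - (a : ℂ) * v j)) := by
  intro f
  set g := T (fun j => 1 / (1 - (a : ℂ) * v j)) f with hg
  have h1 : T (fun j => 1 - (a : ℂ) * v j) g = f := by
    rw [hg, ← T_mul]
    have : (fun j => (1 - (a : ℂ) * v j) * (1 / (1 - (a : ℂ) * v j))) = fun _ => 1 := by
      funext j; field_simp [hne j]
    rw [this, T_one]
  have h2 : g = f + (a : ℂ) • T v g := by
    have e : (fun j => 1 - (a : ℂ) * v j) = fun j => 1 + (-(a : ℂ)) * v j := by funext j; ring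
    rw [e, T_add_symb, T_one, T_smul_symb] at h1
    rw [← h1]; simp
  have h3 : N4 g ≤ N4 f + a * (C * N4 g) := by
    calc N4 g = N4 (f + (a : ℂ) • T v g) := by rw [← h2]
      _ ≤ N4 f + N4 ((a : ℂ) • T v g) := N4_add_le _ _
      _ = N4 f + a * N4 (T v g) := by rw [N4_smul, Complex.norm_real, Real.norm_of_nonneg ha]
      _ ≤ _ := by gcongr; exact hv g
  have h4 := N4_nonneg g
  nlinarith
end

lemma moeb_le {v : ℂ} {a : ℝ} (ha0 : 0 ≤ a) (ha : a < 1) (hv : ‖v‖ ≤ 1) : ‖v - a‖ ≤ ‖1 - (a : ℂ) * v‖ := by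
  have h : ‖v - a‖ ^ 2 ≤ ‖1 - (a : ℂ) * v‖ ^ 2 := by
    have hv2 : v.re ^ 2 + v.im ^ 2 ≤ 1 := by
      have := Complex.normSq_eq_norm_sq v
      rw [Complex.normSq_apply] at this
      nlinarith [norm_nonneg v]
    rw [← Complex.normSq_eq_norm_sq, ← Complex.normSq_eq_norm_sq, Complex.normSq_apply, Complex.normSq_apply]
    simp
    nlinarith [mul_nonneg (sub_nonneg.2 hv2) (by nlinarith : 0 ≤ 1 - a ^ 2)]
  exact le_of_pow_le_pow_left₀ two_ne_zero (norm_nonneg _) h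

lemma moeb_eq {v : ℂ} {a : ℝ} (hv : ‖v‖ = 1) : ‖v - a‖ = ‖1 - (a : ℂ) * v‖ := by
  have h : ‖v - a‖ ^ 2 = ‖1 - (a : ℂ) * v‖ ^ 2 := by
    have hv2 : v.re ^ 2 + v.im ^ 2 = 1 := by
      have := Complex.normSq_eq_norm_sq v
      rw [Complex.normSq_apply, hv] at this
      nlinarith
    rw [← Complex.normSq_eq_norm_sq, ← Complex.normSq_eq_norm_sq, Complex.normSq_apply, Complex.normSq_apply]
    simp
    linear_combination (1 - a ^ 2) * hv2
  exact (pow_left_inj₀ (norm_nonneg _) (norm_nonneg _) two_ne_zero).1 h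

theorem block_exists : ∃ C : ℝ, 1 ≤ C ∧ ∀ (M : ℕ) (μ : ℝ), 0 < μ → ∃ κ : ℕ → ℂ, Block C μ M κ := by
  obtain ⟨Cv, hCv1, hCvρ, hCv⟩ := v_bound
  set ρ := Real.exp (-(2 * Real.pi * 10)) with hρ
  have hρ0 : 0 < ρ := Real.exp_pos _
  refine ⟨2 * (Cv + 1), by linarith, ?_⟩
  intro M μ hμ
  obtain ⟨a, haρ, ha2, n, hn, L0, hL0⟩ := zero_cluster 10 (by norm_num) M (2 * ρ) (by linarith)
  have ha0 : 0 < a := hρ0.trans haρ
  have haC : a * Cv ≤ 1 / 4 := by nlinarith
  have ha4 : a ≤ 1 / 4 := by nlinarith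
  obtain ⟨L1, hL1⟩ := W702.vB_small 10 (by norm_num) n (μ / 4) (by linarith)
  obtain ⟨L, hL⟩ := exists_nat_gt (max (max L0 L1) (max (Real.pi * 10) (2 * n)))
  have hLL0 : L0 ≤ L := ((le_max_left _ _).trans (le_max_left _ _)).trans hL.le
  have hLL1 : L1 ≤ L := ((le_max_right _ _).trans (le_max_left _ _)).trans hL.le
  have hLπ : Real.pi * 10 < L := ((le_max_left _ _).trans (le_max_right _ _)).trans_lt hL
  have hLn : 2 * n < L := by
    have := ((le_max_right _ _).trans (le_max_right _ _)).trans_lt hL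
    exact_mod_cast this
  obtain ⟨z, hzinj, hz1, hza, hzz⟩ := hL0 L hLL0
  obtain ⟨⟨R, hR1, hRd⟩, hvle, hvun, hv1⟩ := W702.vB_basic 10 (by norm_num) n L hLπ
  have hsm := hL1 L hLL1
  set v : ℂ → ℂ := vB 10 n L with hv
  -- a slightly larger disc where `‖a v‖ < 1`
  have hnorm_av : ∀ z : ℂ, ‖v z‖ ≤ 1 → ‖(a : ℂ) * v z‖ < 1 := by
    intro z hz
    rw [norm_mul, Complex.norm_real, Real.norm_of_nonneg ha0.le]
    nlinarith [norm_nonneg (v z)]
  have hne_of : ∀ z : ℂ, ‖(a : ℂ) * v z‖ < 1 → 1 - (a : ℂ) * v z ≠ 0 := by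
    intro z hz h0
    have : (a : ℂ) * v z = 1 := (sub_eq_zero.1 h0).symm
    rw [this] at hz; simp at hz
  set U : Set ℂ := Metric.ball 0 R ∩ {z | ‖(a : ℂ) * v z‖ < 1} with hU
  have hUo : IsOpen U := by
    have hc : ContinuousOn (fun z => ‖(a : ℂ) * v z‖) (Metric.ball 0 R) :=
      (continuousOn_const.mul hRd.continuousOn).norm
    exact hc.isOpen_inter_preimage Metric.isOpen_ball isOpen_Iio
  have hKU : Metric.closedBall (0 : ℂ) 1 ⊆ U := by
    intro z hz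
    have hz' : ‖z‖ ≤ 1 := by simpa using hz
    refine ⟨by simpa using hz'.trans_lt hR1, hnorm_av z (hvle z hz')⟩
  obtain ⟨δ, hδ, hδU⟩ := (isCompact_closedBall (0 : ℂ) 1).exists_thickening_subset_open hUo hKU
  have hball : Metric.ball (0 : ℂ) (1 + δ) ⊆ U := by
    refine subset_trans ?_ hδU
    rw [thickening_closedBall hδ zero_le_one, add_comm]
  set u : ℂ → ℂ := fun z => (v z - a) / (1 - (a : ℂ) * v z) with hu
  have hud : DifferentiableOn ℂ u (Metric.ball 0 (1 + δ)) := by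
    have hvd : DifferentiableOn ℂ v (Metric.ball 0 (1 + δ)) := hRd.mono fun z hz => (hball hz).1
    apply DifferentiableOn.div (hvd.sub_const _) ((hvd.const_mul _).const_sub 1)
    intro z hz
    exact hne_of z (hball hz).2
  obtain ⟨c, k, hk, hkc, huk⟩ := W702.AN_of_analytic (by linarith : 1 < 1 + δ) hud
  -- the kernel
  set κ : ℕ → ℂ := fun m => k m - (if m = 0 then 1 else 0) with hκ
  have hs1 : Summable fun m : ℕ => ‖(if m = 0 then (1:ℂ) else 0)‖ := by
    apply summable_of_ne_finset_zero (s := {0})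
    intro b hb
    simp at hb; simp [hb]
  have hκs : Summable fun m => ‖κ m‖ :=
    Summable.of_nonneg_of_le (fun _ => norm_nonneg _) (fun m => norm_sub_le _ _) (hk.add hs1)
  have hκu : ∀ z : ℂ, ‖z‖ ≤ 1 → ∑' m, κ m * z ^ m = u z - 1 := by
    intro z hz
    rw [huk z hz]
    have h1 : Summable fun m => k m * z ^ m := (W702.AN_summable hk hz).of_norm
    have h2 : HasSum (fun m : ℕ => (if m = 0 then (1:ℂ) else 0) * z ^ m) 1 := by
      have := hasSum_single (f := fun m : ℕ => (if m = 0 then (1:ℂ) else 0) * z ^ m) 0 (by intro b hb; simp [hb])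
      simpa using this
    have h3 := (h1.hasSum.sub h2).tsum_eq
    rw [← h3]
    apply tsum_congr; intro m; simp only [hκ]; ring
  have hne1 : ∀ z : ℂ, ‖z‖ ≤ 1 → 1 - (a : ℂ) * v z ≠ 0 := fun z hz => hne_of z (hnorm_av z (hvle z hz))
  have hu1 : ∀ z : ℂ, ‖z‖ ≤ 1 → u z - 1 = (1 + a) * (v z - 1) * (1 / (1 - (a : ℂ) * v z)) := by
    intro z hz
    have := hne1 z hz
    simp only [hu]
    rw [div_sub_one this, mul_one_div]
    congr 1; ring
  have hpsym : ∀ (N : ℕ) [NeZero N] (j : ZMod N), psym N κ j = u (E j) - 1 := by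
    intro N _ j
    rw [psym_eq, hκu _ (E_norm j).le]
  refine ⟨κ, hκs, ?_, ?_, ?_, ?_, ?_, ?_, ?_⟩
  · intro z hz
    rw [hκu z hz, add_sub_cancel]
    simp only [hu]
    rw [norm_div]
    exact div_le_one_of_le₀ (moeb_le ha0.le (by linarith) (hvle z hz)) (norm_nonneg _)
  · intro z hz
    rw [hκu z hz.le, add_sub_cancel]
    simp only [hu]
    rw [norm_div, moeb_eq (hvun z hz)]
    exact div_self (norm_ne_zero_iff.2 (hne1 z hz.le))
  · have := hκu 1 (by simp)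
    simp only [one_pow, mul_one] at this
    rw [this, hu1 1 (by simp), hv1]; simp
  · intro z hz
    rw [hκu z hz, hu1 z hz]
    obtain ⟨kk, hkk, hkkc, hkkf⟩ := hsm
    have h1 : ‖(1 - z) * (v z - 1)‖ ≤ μ / 4 := by
      have e1 := hkkf z hz
      simp only at e1
      rw [e1]
      refine (tsum_of_norm_bounded hkk.hasSum ?_).trans hkkc
      intro m
      rw [norm_mul, norm_pow]
      calc ‖kk m‖ * ‖z‖ ^ m ≤ ‖kk m‖ * 1 := by gcongr; exact pow_le_one₀ (norm_nonneg _) hz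
        _ = _ := mul_one _
    have h2 : ‖(1 : ℂ) + a‖ ≤ 2 := by
      refine (norm_add_le _ _).trans ?_
      rw [norm_one, Complex.norm_real, Real.norm_of_nonneg ha0.le]; linarith
    have h3 : ‖1 / (1 - (a : ℂ) * v z)‖ ≤ 4 / 3 := by
      rw [norm_div, norm_one, div_le_iff₀ (norm_pos_iff.2 (hne1 z hz))]
      have : ‖(1 : ℂ)‖ - ‖(a : ℂ) * v z‖ ≤ ‖1 - (a : ℂ) * v z‖ := norm_sub_norm_le _ _
      rw [norm_one, norm_mul, Complex.norm_real, Real.norm_of_nonneg ha0.le] at this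
      nlinarith [hvle z hz, norm_nonneg (v z)]
    have e2 : ‖1 - z‖ * ‖(1 + a) * (v z - 1) * (1 / (1 - (a : ℂ) * v z))‖
        = ‖(1 : ℂ) + a‖ * ‖(1 - z) * (v z - 1)‖ * ‖1 / (1 - (a : ℂ) * v z)‖ := by
      rw [norm_mul, norm_mul, norm_mul]; ring
    rw [e2]
    calc _ ≤ 2 * (μ / 4) * (4 / 3) := by gcongr
      _ ≤ μ := by linarith
  · intro N _
    have hMBv : MB Cv (fun j : ZMod N => v (E j)) := hCv N n L hn hLn hLπ
    have h1 := MB_inv ha0.le haC hMBv (fun j => hne1 _ (E_norm j).le)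
    have h2 : MB (Cv + 1) (fun j : ZMod N => v (E j) - a) := by
      have h3 : MB ‖(-(a : ℂ))‖ (fun _ : ZMod N => (-(a : ℂ))) := MB.const _
      have h4 := hMBv.add h3
      refine (h4.mono ?_).congr fun j => by ring
      rw [norm_neg, Complex.norm_real, Real.norm_of_nonneg ha0.le]; linarith
    have h5 := MB.mul (by linarith) h2 h1
    refine (h5.mono ?_).congr fun j => ?_
    · linarith
    · rw [hpsym, add_sub_cancel]
      simp only [hu]; ring
  · intro N _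
    have hMBv : MB Cv (fun j : ZMod N => v (E j)) := hCv N n L hn hLn hLπ
    have h1 := MB_inv ha0.le haC hMBv (fun j => hne1 _ (E_norm j).le)
    have h2 : MB (μ / 4) (fun j : ZMod N => (1 - E j) * (v (E j) - 1)) :=
      AN_mb (f := fun z => (1 - z) * (v z - 1)) hsm
    have h3' : MB (μ / 4 * (4 / 3)) (fun j : ZMod N => ((1 - E j) * (v (E j) - 1)) *
        (1 / (1 - (a : ℂ) * v (E j)))) := MB.mul (by linarith) h2 h1
    have h3 := h3'.smul ((1 : ℂ) + (a : ℂ))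
    refine (h3.mono ?_).congr fun j => ?_
    · have h2 : ‖(1 : ℂ) + a‖ ≤ 2 := by
        refine (norm_add_le _ _).trans ?_
        rw [norm_one, Complex.norm_real, Real.norm_of_nonneg ha0.le]; linarith
      calc ‖(1 : ℂ) + a‖ * (μ / 4 * (4 / 3)) ≤ 2 * (μ / 4 * (4 / 3)) := by gcongr
        _ ≤ μ := by linarith
    · rw [hpsym, hu1 _ (E_norm j).le]; ring
  · refine ⟨z, hzinj, hz1, ?_, hzz⟩
    intro i
    rw [hκu _ (hz1 i).le, add_sub_cancel]
    simp only [hu]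
    rw [hza i]; simp

end IM
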