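import Pool.Agent.MP58366f.Block
set_option autoImplicit false
set_option linter.unusedSectionVars false
open Finset Filter Topology
namespace IM

lemma wt_tendsto (m : ℕ) : Tendsto (fun ℓ : ℕ => wt ℓ m) atTop (𝓝 0) := by
  unfold wt
  have h1 : Tendsto (fun ℓ : ℕ => (m : ℝ) / ℓ) atTop (𝓝 0) := tendsto_const_div_atTop_nhds_zero_nat (m : ℝ)
  have h2 : Tendsto (fun ℓ : ℕ => min 1 ((m : ℝ) / ℓ)) atTop (𝓝 (min 1 0)) := tendsto_const_nhds.min h1
  have h3 : (min (1:ℝ) 0) = 0 := by norm_num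
  rw [h3] at h2
  have h4 := (h2.rpow_const (p := 1 / 4) (Or.inr (by norm_num))).const_mul 2
  have h5 : (2:ℝ) * (0:ℝ) ^ (1 / 4 : ℝ) = 0 := by rw [Real.zero_rpow (by norm_num)]; ring
  rwa [h5] at h4

lemma eta_small {κ : ℕ → ℂ} (hκ : Summable fun m => ‖κ m‖) {ε : ℝ} (hε : 0 < ε) :
    ∃ ℓ0 : ℕ, ∀ ℓ ≥ ℓ0, eta ℓ κ ≤ ε := by
  have h : Tendsto (fun ℓ : ℕ => ∑' m, ‖κ m‖ * wt ℓ m) atTop (𝓝 (∑' m : ℕ, ‖κ m‖ * 0)) := by
    apply tendsto_tsum_of_dominated_convergence (bound := fun m => ‖κ m‖ * 2) (hκ.mul_right 2)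
    · intro m; exact (wt_tendsto m).const_mul _
    · apply Filter.Eventually.of_forall
      intro ℓ m
      rw [Real.norm_of_nonneg (mul_nonneg (norm_nonneg _) (wt_nonneg _ _))]
      exact mul_le_mul_of_nonneg_left (wt_le ℓ m) (norm_nonneg _)
  simp only [mul_zero, tsum_zero] at h
  have h2 := h.eventually (eventually_le_nhds hε)
  obtain ⟨ℓ0, hℓ0⟩ := eventually_atTop.1 h2
  exact ⟨ℓ0, hℓ0⟩

lemma MB_geom {N : ℕ} [NeZero N] (m : ℕ) : MB (m : ℝ) (fun i : ZMod N => ∑ s ∈ range m, E i ^ s) := by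
  have h := MB.sum (range m) (fun _ => (1:ℝ)) (fun s (i : ZMod N) => E i ^ s) (fun s _ => by
    refine (MB.trans (N := N) (s : ZMod N)).congr fun j => ?_
    rw [E_pow])
  simpa using h

lemma MB_pow_sub {N : ℕ} [NeZero N] {μ : ℝ} {s : ZMod N → ℂ} (h : MB μ (fun i => (1 - E i) * s i)) (m : ℕ) :
    MB (m * μ) (fun i : ZMod N => (E i ^ m - 1) * s i) := by
  have h1 := ((MB_geom (N := N) m).mul (by positivity) h).smul (-1)
  refine (h1.mono (by simp)).congr fun j => ?_
  have := geom_sum_mul (E j) m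
  rw [← this]; ring

lemma lemS {C : ℝ} (hC : 1 ≤ C) {B : ℂ → ℂ} {c : ℝ} (hB : AN c B) (hB1 : B 1 = 1) {ε : ℝ} (hε : 0 < ε) :
    ∃ μ0 : ℝ, 0 < μ0 ∧ ∀ μ : ℝ, 0 < μ → μ ≤ μ0 → ∀ (M : ℕ) (κ : ℕ → ℂ), Block C μ M κ →
      ∀ (N : ℕ) [NeZero N], MB ε (fun i : ZMod N => (B (E i) - 1) * psym N κ i) := by
  obtain ⟨b, hb, -, hbB⟩ := hB
  have hbs : Summable b := hb.of_norm
  have hsum1 : ∑' m, b m = 1 := by
    have := hbB 1 (by simp)
    simp only [one_pow, mul_one] at this
    rw [← this, hB1]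
  -- tail
  have htail : Tendsto (fun M0 : ℕ => ∑' m, ‖b (m + M0)‖) atTop (𝓝 0) := tendsto_sum_nat_add fun m => ‖b m‖
  obtain ⟨M0, hM0⟩ := eventually_atTop.1 (htail.eventually (eventually_le_nhds (by positivity : 0 < ε / (4 * (C + 1)))))
  have hM0' := hM0 M0 le_rfl
  set D : ℝ := ∑ m ∈ range M0, ‖b m‖ * m with hD
  have hD0 : 0 ≤ D := by positivity
  refine ⟨ε / (2 * (D + 1)), by positivity, ?_⟩
  intro μ hμ hμ0 M κ hblk N _
  have hbtail : Summable fun m => ‖b (m + M0)‖ := (summable_nat_add_iff (f := fun m => ‖b m‖) M0).2 hb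
  set τ := ∑' m, ‖b (m + M0)‖ with hτ
  have hτ0 : 0 ≤ τ := tsum_nonneg fun _ => norm_nonneg _
  set R : ℂ → ℂ := fun z => ∑' m, b (m + M0) * z ^ (m + M0) with hR
  have hRAN : AN τ R := by
    refine ⟨fun m => if M0 ≤ m then b m else 0, ?_, ?_, ?_⟩
    · apply Summable.of_nonneg_of_le (fun _ => norm_nonneg _) (fun m => ?_) hb
      split_ifs
      · exact le_rfl
      · simp
    · have h1 : Summable fun m : ℕ => ‖(if M0 ≤ m then b m else 0 : ℂ)‖ := by
        apply Summable.of_nonneg_of_le (fun _ => norm_nonneg _) (fun m => ?_) hb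
        split_ifs
        · exact le_rfl
        · simp
      rw [← h1.sum_add_tsum_nat_add M0]
      have h2 : ∑ i ∈ range M0, ‖(if M0 ≤ i then b i else 0 : ℂ)‖ = 0 := by
        apply Finset.sum_eq_zero; intro i hi
        rw [if_neg (by simpa using hi)]; simp
      rw [h2, zero_add]
      apply le_of_eq; apply tsum_congr; intro m; simp
    · intro z hz
      have h1 : Summable fun m : ℕ => (if M0 ≤ m then b m else 0 : ℂ) * z ^ m := by
        apply Summable.of_norm
        apply Summable.of_nonneg_of_le (fun _ => norm_nonneg _) (fun m => ?_) hb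
        rw [norm_mul, norm_pow]
        calc _ ≤ ‖(if M0 ≤ m then b m else 0 : ℂ)‖ * 1 := by gcongr; exact pow_le_one₀ (norm_nonneg _) hz
          _ ≤ _ := by
            split_ifs
            · simp
            · simp
      rw [← h1.sum_add_tsum_nat_add M0]
      have h2 : ∑ i ∈ range M0, (if M0 ≤ i then b i else 0 : ℂ) * z ^ i = 0 := by
        apply Finset.sum_eq_zero; intro i hi
        rw [if_neg (by simpa using hi)]; simp
      rw [h2, zero_add]
      simp only [hR]
      apply tsum_congr; intro m; simp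
  have hdec : ∀ z : ℂ, ‖z‖ ≤ 1 → B z - 1 = ∑ m ∈ range M0, b m * (z ^ m - 1) + (R z - R 1) := by
    intro z hz
    have h1 : Summable fun m => b m * z ^ m := (W702.AN_summable hb hz).of_norm
    rw [hbB z hz, ← h1.sum_add_tsum_nat_add M0]
    conv_lhs => rw [← hsum1, ← hbs.sum_add_tsum_nat_add M0]
    simp only [hR, one_pow, mul_one, mul_sub, Finset.sum_sub_distrib]
    ring
  have hMBκ : MB (C + 1) (psym N κ) := by
    have h1 := (hblk.mb N).add (MB.const (N := N) (-1 : ℂ))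
    refine (h1.mono (by simp)).congr fun j => by ring
  have hMBs := hblk.small N
  have h1 : MB (D * μ) (fun i : ZMod N => ∑ m ∈ range M0, b m * ((E i ^ m - 1) * psym N κ i)) := by
    have := MB.sum (range M0) (fun m => ‖b m‖ * (m * μ)) (fun m (i : ZMod N) => b m * ((E i ^ m - 1) * psym N κ i))
      (fun m _ => (MB_pow_sub hMBs m).smul (b m))
    refine this.mono (le_of_eq ?_)
    rw [hD, Finset.sum_mul]
    apply Finset.sum_congr rfl; intro m _; ring
  have h2 : MB (2 * τ * (C + 1)) (fun i : ZMod N => (R (E i) - R 1) * psym N κ i) := by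
    have h3 : MB (2 * τ) (fun i : ZMod N => R (E i) - R 1) := by
      have e1 := AN_mb (N := N) (f := R) hRAN
      have e2 := MB.const (N := N) (-(R 1))
      refine ((e1.add e2).mono ?_).congr fun j => by ring
      have : ‖R 1‖ ≤ τ := by
        simp only [hR, one_pow, mul_one]
        exact norm_tsum_le_tsum_norm hbtail
      rw [norm_neg]; linarith
    exact h3.mul (by positivity) hMBκ
  refine ((h1.add h2).mono ?_).congr fun j => ?_
  · have e1 : D * μ ≤ ε / 2 := by
      calc D * μ ≤ (D + 1) * (ε / (2 * (D + 1))) := by gcongr; linarith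
        _ = ε / 2 := by field_simp
    have e2 : 2 * τ * (C + 1) ≤ ε / 2 := by
      have : τ * (4 * (C + 1)) ≤ ε := by
        rwa [← le_div_iff₀ (by positivity)]
      linarith
    linarith
  · rw [hdec _ (E_norm j).le, add_mul, Finset.sum_mul]
    congr 1
    apply Finset.sum_congr rfl; intro m _; ring

end IM
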