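import Pool.Agent.MP58366f.GL2

set_option autoImplicit false
open Finset

namespace IM

variable {N : ℕ} [NeZero N]

/-- Taylor coefficients of an absolutely summable power series. -/
theorem coef_of_series (κ : ℕ → ℂ) (hκ : Summable fun m => ‖κ m‖) (P : ℂ → ℂ)
    (hP : ∀ z : ℂ, ‖z‖ < 1 → P z = ∑' m, κ m * z ^ m) :
    DifferentiableOn ℂ P (Metric.ball 0 1) ∧
      ∀ n, iteratedDeriv n P 0 / (n.factorial : ℂ) = κ n := by
  have hrad : (1 : ENNReal) ≤ (FormalMultilinearSeries.ofScalars ℂ κ).radius := by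
    have h1 := (FormalMultilinearSeries.ofScalars ℂ κ).le_radius_of_summable (r := 1) (by
      simpa [FormalMultilinearSeries.ofScalars_norm] using hκ)
    simpa using h1
  have hser : HasFPowerSeriesOnBall P (FormalMultilinearSeries.ofScalars ℂ κ) 0 1 := by
    refine ⟨hrad, by norm_num, ?_⟩
    intro y hy
    have hy1 : ‖y‖ < 1 := by
      rw [Metric.mem_eball, edist_zero_right] at hy
      have : (‖y‖₊ : ENNReal) < 1 := hy
      exact_mod_cast this
    rw [zero_add, hP y hy1]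
    have hs : Summable fun m => κ m * y ^ m := by
      apply Summable.of_norm
      refine Summable.of_nonneg_of_le (fun _ => norm_nonneg _) (fun m => ?_) hκ
      rw [norm_mul, norm_pow]
      exact mul_le_of_le_one_right (norm_nonneg _) (pow_le_one₀ (norm_nonneg _) hy1.le)
    have h2 : (fun n => FormalMultilinearSeries.ofScalars ℂ κ n (fun _ => y)) =
        fun m => κ m * y ^ m := by
      funext n
      rw [FormalMultilinearSeries.ofScalars_apply_eq]
      rfl
    rw [h2]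
    exact hs.hasSum
  refine ⟨?_, ?_⟩
  · have := hser.differentiableOn
    intro z hz
    have hz' : z ∈ Metric.eball (0 : ℂ) 1 := by
      rw [Metric.mem_ball, dist_zero_right] at hz
      rw [Metric.mem_eball, edist_zero_right]
      show (‖z‖₊ : ENNReal) < 1
      exact_mod_cast hz
    exact ((this z hz').differentiableAt (Metric.isOpen_eball.mem_nhds hz')).differentiableWithinAt
  · intro n
    have h3 := hser.analyticAt.hasFPowerSeriesAt
    have h4 := h3.eq_formalMultilinearSeries hser.hasFPowerSeriesAt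
    have h5 := FormalMultilinearSeries.ofScalars_series_injective ℂ ℂ h4
    exact congrFun h5 n

/-- Truncated data on the cyclic group. -/
noncomputable def gg (N M : ℕ) (a : ℕ → ℂ) (x : ZMod N) : ℂ :=
  if x.val < M then a x.val else 0

theorem gg_tendsto (M : ℕ) (a : ℕ → ℂ) (n m : ℕ) :
    ∃ N0 : ℕ, ∀ N, N0 ≤ N → gg N M a ((n : ZMod N) - (m : ZMod N)) =
      if m ≤ n then (if n - m < M then a (n - m) else 0) else 0 := by
  refine ⟨n + 1 + M + m, fun N hN => ?_⟩
  haveI : NeZero N := ⟨by omega⟩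
  unfold gg
  by_cases h : m ≤ n
  · have : ((n : ZMod N) - (m : ZMod N)) = ((n - m : ℕ) : ZMod N) := by
      rw [Nat.cast_sub h]
    rw [this, ZMod.val_natCast_of_lt (by omega), if_pos h]
  · have h1 : ((n : ZMod N) - (m : ZMod N)) = ((N + n - m : ℕ) : ZMod N) := by
      rw [Nat.cast_sub (by omega), Nat.cast_add]
      simp
    rw [h1, ZMod.val_natCast_of_lt (by omega), if_neg (by omega), if_neg h]

theorem finite_ineq (K : ℝ) (hK : 0 ≤ K) (κ : ℕ → ℂ) (hκ : Summable fun m => ‖κ m‖)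
    (a : ℕ → ℂ) (M N : ℕ) [NeZero N] (hMN : M ≤ N) (hMB : MB K (psym N κ)) :
    ∑ n ∈ range M, ‖∑' m, κ m * gg N M a ((n : ZMod N) - (m : ZMod N))‖ ^ 4 ≤
      K ^ 4 * ∑ n ∈ range M, ‖a n‖ ^ 4 := by
  have h1 := hMB (gg N M a)
  rw [T_psym hκ] at h1
  have h2 : N4 (Kact κ (gg N M a)) ^ 4 ≤ (K * N4 (gg N M a)) ^ 4 :=
    pow_le_pow_left₀ (N4_nonneg _) h1 4
  rw [mul_pow, N4_pow, N4_pow] at h2
  have hinj : Set.InjOn (fun n : ℕ => (n : ZMod N)) (range M : Finset ℕ) := by
    intro x hx y hy hxy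
    rw [Finset.mem_coe, Finset.mem_range] at hx hy
    have := congrArg ZMod.val hxy
    simp only at this
    rwa [ZMod.val_natCast_of_lt (by omega), ZMod.val_natCast_of_lt (by omega)] at this
  have h3 : ∑ n ∈ range M, ‖∑' m, κ m * gg N M a ((n : ZMod N) - (m : ZMod N))‖ ^ 4 ≤
      ∑ x, ‖Kact κ (gg N M a) x‖ ^ 4 := by
    have : ∑ n ∈ range M, ‖∑' m, κ m * gg N M a ((n : ZMod N) - (m : ZMod N))‖ ^ 4 =
        ∑ x ∈ (range M).image (fun n : ℕ => (n : ZMod N)), ‖Kact κ (gg N M a) x‖ ^ 4 := by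
      rw [Finset.sum_image hinj]
      rfl
    rw [this]
    exact Finset.sum_le_sum_of_subset_of_nonneg (Finset.subset_univ _)
      (fun _ _ _ => by positivity)
  have h4 : ∑ x, ‖gg N M a x‖ ^ 4 = ∑ n ∈ range M, ‖a n‖ ^ 4 := by
    have h5 : ∑ n ∈ range M, ‖a n‖ ^ 4 =
        ∑ x ∈ (range M).image (fun n : ℕ => (n : ZMod N)), ‖gg N M a x‖ ^ 4 := by
      rw [Finset.sum_image hinj]
      apply Finset.sum_congr rfl
      intro n hn
      rw [Finset.mem_range] at hn
      unfold gg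
      rw [ZMod.val_natCast_of_lt (by omega), if_pos hn]
    rw [h5]
    symm
    apply Finset.sum_subset (Finset.subset_univ _)
    intro x _ hx
    have : ¬ (x.val < M) := by
      intro hlt
      apply hx
      rw [Finset.mem_image]
      exact ⟨x.val, Finset.mem_range.2 hlt, by simp⟩
    unfold gg
    rw [if_neg this]
    simp
  rw [h4] at h2
  exact h3.trans h2

theorem conv_ineq (K : ℝ) (hK : 0 ≤ K) (κ : ℕ → ℂ) (hκ : Summable fun m => ‖κ m‖)
    (hMB : ∃ ℓ : ℕ, 1 ≤ ℓ ∧ ∀ (N : ℕ) [NeZero N], ℓ ∣ N → MB K (psym N κ))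
    (a : ℕ → ℂ) (A : ℝ) (hA : ∀ n, ‖a n‖ ≤ A) (M : ℕ) :
    ∑ n ∈ range M, ‖∑ i ∈ range (n + 1), κ i * a (n - i)‖ ^ 4 ≤
      K ^ 4 * ∑ n ∈ range M, ‖a n‖ ^ 4 := by
  obtain ⟨ℓ, hℓ, hMB⟩ := hMB
  have hA0 : 0 ≤ A := (norm_nonneg _).trans (hA 0)
  have hlim : ∀ n ∈ range M, Filter.Tendsto
      (fun k : ℕ => ∑' m, κ m * gg (ℓ * (k + 1)) M a ((n : ZMod (ℓ * (k + 1))) -
        (m : ZMod (ℓ * (k + 1))))) Filter.atTop
      (nhds (∑ i ∈ range (n + 1), κ i * a (n - i))) := by
    intro n hn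
    rw [Finset.mem_range] at hn
    have h1 : ∑ i ∈ range (n + 1), κ i * a (n - i) =
        ∑' m, κ m * (if m ≤ n then (if n - m < M then a (n - m) else 0) else 0) := by
      rw [tsum_eq_sum (s := range (n + 1))]
      · apply Finset.sum_congr rfl
        intro i hi
        rw [Finset.mem_range] at hi
        rw [if_pos (by omega), if_pos (by omega)]
      · intro m hm
        rw [Finset.mem_range] at hm
        rw [if_neg (by omega), mul_zero]
    rw [h1]
    refine tendsto_tsum_of_dominated_convergence (bound := fun m => ‖κ m‖ * A) (hκ.mul_right A)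
      ?_ ?_
    · intro m
      obtain ⟨N0, hN0⟩ := gg_tendsto M a n m
      refine tendsto_const_nhds.congr' ?_
      filter_upwards [Filter.eventually_ge_atTop N0] with k hk
      rw [hN0 (ℓ * (k + 1)) (by nlinarith)]
    · refine Filter.Eventually.of_forall (fun k m => ?_)
      rw [norm_mul]
      apply mul_le_mul_of_nonneg_left _ (norm_nonneg _)
      unfold gg
      split_ifs
      · exact hA _
      · rw [norm_zero]; exact hA0
  have hlim2 : Filter.Tendsto (fun k : ℕ => ∑ n ∈ range M,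
      ‖∑' m, κ m * gg (ℓ * (k + 1)) M a ((n : ZMod (ℓ * (k + 1))) -
        (m : ZMod (ℓ * (k + 1))))‖ ^ 4) Filter.atTop
      (nhds (∑ n ∈ range M, ‖∑ i ∈ range (n + 1), κ i * a (n - i)‖ ^ 4)) :=
    tendsto_finsetSum _ (fun n hn => ((hlim n hn).norm).pow 4)
  refine le_of_tendsto hlim2 ?_
  filter_upwards [Filter.eventually_ge_atTop M] with k hk
  haveI : NeZero (ℓ * (k + 1)) := ⟨by positivity⟩
  exact finite_ineq K hK κ hκ a M (ℓ * (k + 1)) (by nlinarith) (hMB _ (dvd_mul_right _ _))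

theorem coef_transfer (K : ℝ) (hK : 0 ≤ K) (B : ℕ → ℂ → ℂ) (b : ℕ → ℕ → ℂ) (G : ℂ → ℂ)
    (hb : ∀ J, Summable fun m => ‖b J m‖) (hB : ∀ J, ∀ z : ℂ, ‖z‖ < 1 → B J z = ∑' m, b J m * z ^ m)
    (hMB : ∀ J, ∃ ℓ : ℕ, 1 ≤ ℓ ∧ ∀ (N : ℕ) [NeZero N], ℓ ∣ N → MB K (psym N (b J)))
    (hG : DifferentiableOn ℂ G (Metric.ball 0 1))
    (hconv : ∀ r : ℝ, r < 1 → TendstoUniformlyOn B G Filter.atTop (Metric.closedBall 0 r))
    (f : ℂ → ℂ) (hf : DifferentiableOn ℂ f (Metric.ball (0 : ℂ) 1))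
    (hs : Summable (fun n : ℕ => ‖iteratedDeriv n f 0 / (n.factorial : ℂ)‖ ^ (4 : ℝ))) :
    Summable (fun n : ℕ => ‖iteratedDeriv n (fun z => G z * f z) 0 / (n.factorial : ℂ)‖ ^ (4 : ℝ)) := by
  have hrp : ∀ x : ℝ, x ^ (4 : ℝ) = x ^ 4 := fun x => by
    have := Real.rpow_natCast x 4
    exact_mod_cast this
  simp only [hrp] at hs ⊢
  obtain ⟨a, ha⟩ : ∃ a : ℕ → ℂ, a = fun n => iteratedDeriv n f 0 / (n.factorial : ℂ) := ⟨_, rfl⟩
  have hs' : Summable (fun n => ‖a n‖ ^ 4) := by rw [ha]; exact hs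
  -- boundedness of the coefficients
  obtain ⟨A, hA⟩ : ∃ A : ℝ, ∀ n, ‖a n‖ ≤ A := by
    refine ⟨∑' n, ‖a n‖ ^ 4 + 1, fun n => ?_⟩
    have h1 : ‖a n‖ ^ 4 ≤ ∑' n, ‖a n‖ ^ 4 := hs'.le_tsum n (fun _ _ => by positivity)
    have h2 : ‖a n‖ ≤ ‖a n‖ ^ 4 + 1 := by
      nlinarith [sq_nonneg (‖a n‖ ^ 2 - 1), sq_nonneg (‖a n‖ - 1), norm_nonneg (a n)]
    linarith
  have h0mem : (0 : ℂ) ∈ Metric.ball (0 : ℂ) 1 := by simp
  have hnhds : Metric.ball (0 : ℂ) 1 ∈ nhds (0 : ℂ) := Metric.ball_mem_nhds _ one_pos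
  have hGa : AnalyticAt ℂ G 0 := hG.analyticAt hnhds
  have hfa : AnalyticAt ℂ f 0 := hf.analyticAt hnhds
  -- coefficients of the product
  have hprod : ∀ n, iteratedDeriv n (fun z => G z * f z) 0 / (n.factorial : ℂ) =
      ∑ i ∈ range (n + 1), (iteratedDeriv i G 0 / (i.factorial : ℂ)) * a (n - i) := by
    intro n
    rw [iteratedDeriv_fun_mul hGa.contDiffAt hfa.contDiffAt, Finset.sum_div]
    apply Finset.sum_congr rfl
    intro i hi
    rw [Finset.mem_range] at hi
    rw [ha]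
    simp only
    rw [Nat.cast_choose ℂ (by omega : i ≤ n)]
    have e1 : (n.factorial : ℂ) ≠ 0 := by exact_mod_cast n.factorial_ne_zero
    have e2 : (i.factorial : ℂ) ≠ 0 := by exact_mod_cast i.factorial_ne_zero
    have e3 : ((n - i).factorial : ℂ) ≠ 0 := by exact_mod_cast (n - i).factorial_ne_zero
    field_simp
  -- convergence of coefficients
  have hcoef : ∀ i, Filter.Tendsto (fun J => b J i) Filter.atTop
      (nhds (iteratedDeriv i G 0 / (i.factorial : ℂ))) := by
    intro i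
    rw [Metric.tendsto_atTop]
    intro ε hε
    have hun := hconv (1 / 2) (by norm_num)
    rw [Metric.tendstoUniformlyOn_iff] at hun
    have hε' : 0 < ε / 2 * (1 / 2) ^ i := by positivity
    obtain ⟨J0, hJ0⟩ := Filter.eventually_atTop.1 (hun _ hε')
    refine ⟨J0, fun J hJ => ?_⟩
    obtain ⟨hBd, hBc⟩ := coef_of_series (b J) (hb J) (B J) (hB J)
    have hBa : AnalyticAt ℂ (B J) 0 := hBd.analyticAt hnhds
    rw [← hBc i, dist_eq_norm, ← sub_div, ← iteratedDeriv_fun_sub hBa.contDiffAt hGa.contDiffAt]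
    have hsub : Metric.closedBall (0 : ℂ) (1 / 2) ⊆ Metric.ball 0 1 := by
      apply Metric.closedBall_subset_ball; norm_num
    have hd : DiffContOnCl ℂ (fun z => B J z - G z) (Metric.ball 0 (1 / 2)) := by
      apply DifferentiableOn.diffContOnCl
      rw [closure_ball (0 : ℂ) (by norm_num)]
      exact (hBd.sub hG).mono hsub
    have hest := Complex.norm_iteratedDeriv_le_of_forall_mem_sphere_norm_le i
      (by norm_num : (0 : ℝ) < 1 / 2) hd (C := ε / 2 * (1 / 2) ^ i) (by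
        intro z hz
        have := hJ0 J hJ z (Metric.sphere_subset_closedBall hz)
        rw [dist_comm, dist_eq_norm] at this
        exact this.le)
    have e2 : (0 : ℝ) < (i.factorial : ℝ) := by exact_mod_cast i.factorial_pos
    rw [norm_div, Complex.norm_natCast, div_lt_iff₀ e2]
    calc _ ≤ _ := hest
      _ = ε / 2 * i.factorial := by
          have : (0 : ℝ) < (1 / 2) ^ i := by positivity
          field_simp
      _ < ε * i.factorial := by
          apply mul_lt_mul_of_pos_right _ e2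
          linarith
  -- conclusion
  apply summable_of_sum_range_le (c := K ^ 4 * ∑' n, ‖a n‖ ^ 4) (fun _ => by positivity)
  intro M
  have hlim : Filter.Tendsto (fun J => ∑ n ∈ range M,
      ‖∑ i ∈ range (n + 1), b J i * a (n - i)‖ ^ 4) Filter.atTop
      (nhds (∑ n ∈ range M, ‖iteratedDeriv n (fun z => G z * f z) 0 / (n.factorial : ℂ)‖ ^ 4)) := by
    apply tendsto_finsetSum
    intro n _
    rw [hprod n]
    refine Filter.Tendsto.pow (Filter.Tendsto.norm ?_) 4
    apply tendsto_finsetSum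
    intro i _
    exact (hcoef i).mul_const _
  refine le_of_tendsto' hlim (fun J => ?_)
  refine (conv_ineq K hK (b J) (hb J) (hMB J) a A hA M).trans ?_
  apply mul_le_mul_of_nonneg_left _ (by positivity)
  exact hs'.sum_le_tsum _ (fun _ _ => by positivity)

end IM
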