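import Pool.Agent.MP58366f.GL4
set_option autoImplicit false
set_option linter.unusedSectionVars false
open Finset
namespace IM

lemma WL_le {A : ℝ} (X Y : ℂ) : WL A X Y ≤ (A + 72) * ‖X‖ ^ 4 - 1 / 2 * ‖Y‖ ^ 4 := by
  unfold WL
  nlinarith [sq_nonneg (12 * ‖X‖ ^ 2 - ‖Y‖ ^ 2)]

/-- Gluing theorem: super-lacunary products of uniformly bounded multipliers are bounded. -/
theorem gluing (C : ℝ) (hC : 1 ≤ C) : ∃ K ε₀ : ℝ, 0 < K ∧ 0 < ε₀ ∧
    ∀ (N : ℕ) [NeZero N] (J : ℕ) (κ : ℕ → ℕ → ℂ) (ℓ : ℕ → ℕ) (δ ε : ℕ → ℝ),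
      ℓ 0 = 1 → (∀ j < J, ℓ j ∣ ℓ (j + 1)) → ℓ J ∣ N →
      (∀ j < J, Summable fun m => ‖κ j m‖) → (∀ j < J, ∑' m, κ j m = 0) →
      (∀ j < J, ∀ i : ZMod N, ‖1 + psym N (κ j) i‖ ≤ 1) →
      (∀ j < J, MB C (fun i : ZMod N => 1 + psym N (κ j) i)) →
      (∀ j < J, MB (δ j) (fun i : ZMod N => (1 - E i) * psym N (κ j) i)) →
      (∀ j < J, MB (ε j) (fun i : ZMod N => (∏ i' ∈ range j, (1 + psym N (κ i') i) - 1) * psym N (κ j) i)) →
      (∑ j ∈ range J, (ε j + 4 * ℓ j * δ j + eta (ℓ (j + 1)) (κ j)) ≤ ε₀) →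
      (∀ j < J, 0 ≤ ε j) → (∀ j < J, 0 ≤ δ j) →
      MB K (fun i : ZMod N => ∏ j ∈ range J, (1 + psym N (κ j) i)) := by
  set A : ℝ := 288 + 18 * C ^ 4 with hA
  have hC0 : 0 ≤ C := by linarith
  have hApos : 288 ≤ A := by rw [hA]; nlinarith [pow_nonneg hC0 4]
  set K2 : ℝ := 4 * (A + 72) with hK2
  have hK2pos : 1 ≤ K2 := by rw [hK2]; linarith
  set ε₀ : ℝ := min 1 ((A + 72) / (117 * (3 + K2) ^ 4)) with hε₀
  have hε₀pos : 0 < ε₀ := by rw [hε₀]; positivity
  refine ⟨K2 + 1, ε₀, by linarith, hε₀pos, ?_⟩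
  intro N _ J κ ℓ δ ε hℓ0 hℓd hℓJ hκ hκ0 hM2 hMB hδ hε hsum hε0 hδ0
  intro f
  set φ := N4 f with hφ
  have hφ0 : 0 ≤ φ := N4_nonneg f
  -- notation
  set u : ℕ → ZMod N → ℂ := fun j i => 1 + psym N (κ j) i with hu
  set X : ℕ → ZMod N → ℂ := fun j => Av (ℓ j) f with hX
  set Y : ℕ → ZMod N → ℂ := fun j => X J + ∑ i ∈ Ico j J, Av (ℓ i) (T (u i) (X i - X (i + 1))) with hY
  set η : ℕ → ℝ := fun j => eta (ℓ (j + 1)) (κ j) with hη
  have hη0 : ∀ j, 0 ≤ η j := fun j => eta_nonneg _ _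
  have hdvd : ∀ j ≤ J, ∀ k ≤ J, j ≤ k → ℓ j ∣ ℓ k := by
    intro j _ k hk hjk
    induction k, hjk using Nat.le_induction with
    | base => exact dvd_rfl
    | succ k hjk ih => exact (ih (by omega)).trans (hℓd k (by omega))
  have hdN : ∀ j ≤ J, ℓ j ∣ N := fun j hj => (hdvd j hj J le_rfl hj).trans hℓJ
  have hXN : ∀ j ≤ J, N4 (X j) ≤ φ := fun j hj => N4_Av_le (hdN j hj) f
  have hXBC : ∀ j, BC (ℓ j) (X j) := fun j => Av_BC _ _
  have hxN : ∀ j < J, N4 (X j - X (j + 1)) ≤ 2 * φ := by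
    intro j hj
    have := N4_sub_le (X j) (X (j + 1))
    linarith [hXN j hj.le, hXN (j + 1) hj]
  have hAvAv : ∀ j < J, Av (ℓ (j + 1)) (X j) = X (j + 1) := by
    intro j hj
    -- averaging twice
    funext n
    have hN : 0 < N := Nat.pos_of_ne_zero (NeZero.ne N)
    have hdj : ℓ (j + 1) ∣ N := hdN (j + 1) hj
    -- test against block-constant functions: use indicator of the block
    classical
    set G : ZMod N → ℂ := fun m => if m.val / ℓ (j + 1) = n.val / ℓ (j + 1) then 1 else 0 with hG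
    have hGBC : BC (ℓ (j + 1)) G := by
      intro a b hab; simp only [hG, hab]
    have e1 : ∑ m, G m * Av (ℓ (j + 1)) (X j) m = ∑ m, G m * X j m := sum_Av hdj hGBC (X j)
    have e2 : ∑ m, G m * X j m = ∑ m, G m * f m :=
      sum_Av (hdN j hj.le) (hGBC.mono (hℓd j hj)) f
    have e3 : ∑ m, G m * X (j + 1) m = ∑ m, G m * f m := sum_Av hdj hGBC f
    have e4 : ∀ Z : ZMod N → ℂ, BC (ℓ (j + 1)) Z → ∑ m, G m * Z m = (∑ m, G m) * Z n := by
      intro Z hZ
      rw [Finset.sum_mul]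
      apply Finset.sum_congr rfl; intro m _
      by_cases hm : m.val / ℓ (j + 1) = n.val / ℓ (j + 1)
      · rw [hZ m n hm]
      · simp [hG, hm]
    have e5 : (∑ m, G m) ≠ 0 := by
      have : (∑ m, G m) = ((Finset.univ.filter fun m : ZMod N => m.val / ℓ (j + 1) = n.val / ℓ (j + 1)).card : ℂ) := by
        simp [hG]
      rw [this]
      have : n ∈ (Finset.univ.filter fun m : ZMod N => m.val / ℓ (j + 1) = n.val / ℓ (j + 1)) := by simp
      exact_mod_cast (Finset.card_pos.2 ⟨n, this⟩).ne'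
    have e6 := e4 (Av (ℓ (j + 1)) (X j)) (Av_BC _ _)
    have e7 := e4 (X (j + 1)) (hXBC _)
    have : (∑ m, G m) * Av (ℓ (j + 1)) (X j) n = (∑ m, G m) * X (j + 1) n := by
      rw [← e6, ← e7, e1, e2, e3]
    exact mul_left_cancel₀ e5 this
  have hAvx : ∀ j < J, Av (ℓ (j + 1)) (X j - X (j + 1)) = 0 := by
    intro j hj
    rw [Av_sub, hAvAv j hj, Av_fix (hdN (j + 1) hj) (hXBC (j + 1)), sub_self]
  have hYBC : ∀ j ≤ J, BC (ℓ j) (Y j) := by
    intro j hj
    have : ∀ s : Finset ℕ, (∀ i ∈ s, j ≤ i ∧ i < J) → BC (ℓ j) (∑ i ∈ s, Av (ℓ i) (T (u i) (X i - X (i + 1)))) := by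
      intro s
      induction s using Finset.induction_on with
      | empty => intro _ a b _; simp
      | insert a s ha ih =>
        intro hs
        rw [Finset.sum_insert ha]
        have h1 := hs a (Finset.mem_insert_self _ _)
        exact ((Av_BC _ _).mono (hdvd j hj a h1.2.le h1.1)).add (ih fun i hi => hs i (Finset.mem_insert_of_mem hi))
    exact ((hXBC J).mono (hdvd j hj J le_rfl hj)).add (this _ fun i hi => by simpa using hi)
  have hYrec : ∀ j < J, Y j = Y (j + 1) + Av (ℓ j) (T (u j) (X j - X (j + 1))) := by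
    intro j hj
    simp only [hY]
    rw [Finset.sum_eq_sum_Ico_succ_bot hj]
    abel
  have hsumη : ∀ j ≤ J, ∑ i ∈ Ico j J, η i ≤ ε₀ := by
    intro j hj
    calc ∑ i ∈ Ico j J, η i ≤ ∑ i ∈ range J, η i := by
          apply Finset.sum_le_sum_of_subset_of_nonneg
          · intro i hi; simp at hi ⊢; omega
          · intro i _ _; exact hη0 i
      _ ≤ ∑ j ∈ range J, (ε j + 4 * ℓ j * δ j + eta (ℓ (j + 1)) (κ j)) := by
          apply Finset.sum_le_sum; intro i hi
          have hi' : i < J := by simpa using hi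
          have := hε0 i hi'
          have h2 := hδ0 i hi'
          have : 0 ≤ 4 * (ℓ i : ℝ) * δ i := by positivity
          simp only [hη]; linarith
      _ ≤ ε₀ := hsum
  have hη1 : ∀ j < J, η j ≤ 1 := by
    intro j hj
    have h1 := hsumη j hj.le
    have h2 : η j ≤ ∑ i ∈ Ico j J, η i :=
      Finset.single_le_sum (f := η) (fun i _ => hη0 i) (by simp [hj])
    have h3 : ε₀ ≤ 1 := min_le_left _ _
    linarith
  -- from the Lyapunov bound to the norm bound
  have hnorm : ∀ j ≤ J, -(117 * (∑ i ∈ Ico j J, η i) * ((3 + K2) * φ) ^ 4) ≤ ∑ n, WL A (X j n) (Y j n) →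
      N4 (Y j) ≤ K2 * φ := by
    intro j hj hW
    have h1 : ∑ n, WL A (X j n) (Y j n) ≤ (A + 72) * N4 (X j) ^ 4 - 1 / 2 * N4 (Y j) ^ 4 := by
      rw [N4_pow, N4_pow, Finset.mul_sum, Finset.mul_sum, ← Finset.sum_sub_distrib]
      exact Finset.sum_le_sum fun n _ => WL_le _ _
    have h2 : N4 (X j) ^ 4 ≤ φ ^ 4 := pow_le_pow_left₀ (N4_nonneg _) (hXN j hj) 4
    have h3 : 117 * (∑ i ∈ Ico j J, η i) * ((3 + K2) * φ) ^ 4 ≤ (A + 72) * φ ^ 4 := by
      have h4 : ∑ i ∈ Ico j J, η i ≤ (A + 72) / (117 * (3 + K2) ^ 4) :=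
        (hsumη j hj).trans (min_le_right _ _)
      have h5 : 0 < 117 * (3 + K2) ^ 4 := by positivity
      rw [le_div_iff₀ h5] at h4
      calc 117 * (∑ i ∈ Ico j J, η i) * ((3 + K2) * φ) ^ 4
          = ((∑ i ∈ Ico j J, η i) * (117 * (3 + K2) ^ 4)) * φ ^ 4 := by ring
        _ ≤ _ := by gcongr
    have h6 : N4 (Y j) ^ 4 ≤ K2 * φ ^ 4 := by rw [hK2]; nlinarith
    apply le_of_pow_le_pow_left₀ (n := 4) (by norm_num) (by positivity)
    calc _ ≤ _ := h6
      _ ≤ K2 ^ 4 * φ ^ 4 := by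
        gcongr
        calc K2 = K2 * 1 := by ring
          _ ≤ K2 * K2 ^ 3 := by gcongr; exact one_le_pow₀ hK2pos
          _ = _ := by ring
      _ = _ := by ring
  have main : ∀ k ≤ J, -(117 * (∑ i ∈ Ico (J - k) J, η i) * ((3 + K2) * φ) ^ 4)
      ≤ ∑ n, WL A (X (J - k) n) (Y (J - k) n) := by
    intro k
    induction k with
    | zero =>
      intro _
      simp only [Nat.sub_zero, Finset.Ico_self, Finset.sum_empty, mul_zero, zero_mul, neg_zero]
      have : Y J = X J := by simp [hY]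
      rw [this]
      apply Finset.sum_nonneg; intro n _
      unfold WL
      nlinarith [pow_nonneg (norm_nonneg (X J n)) 4]
    | succ k ih =>
      intro hk
      have ih' := ih (by omega)
      set j := J - (k + 1) with hj
      have hjk : J - k = j + 1 := by omega
      have hjJ : j < J := by omega
      rw [hjk] at ih'
      have hYn := hnorm (j + 1) (by omega) ih'
      have step := lyap_step (hℓd j hjJ) (hdN (j + 1) hjJ) (hκ j hjJ) hC0 (hMB j hjJ) (hM2 j hjJ) hA
        (hXBC (j + 1)) (hYBC (j + 1) hjJ) (hAvx j hjJ) (hη1 j hjJ)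
      have e1 : ∀ n, X (j + 1) n + (X j - X (j + 1)) n = X j n := by intro n; simp
      have e2 : ∀ n, Y (j + 1) n + Av (ℓ j) (T (fun i : ZMod N => 1 + psym N (κ j) i) (X j - X (j + 1))) n = Y j n := by
        intro n; rw [hYrec j hjJ]; rfl
      simp only [e1, e2] at step
      have hS : (N4 (X (j + 1)) + N4 (Y (j + 1)) + N4 (X j - X (j + 1))) ^ 4 ≤ ((3 + K2) * φ) ^ 4 := by
        apply pow_le_pow_left₀
        · have := N4_nonneg (X (j + 1)); have := N4_nonneg (Y (j + 1)); have := N4_nonneg (X j - X (j + 1))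
          positivity
        · linarith [hXN (j + 1) hjJ, hxN j hjJ]
      have hηj := hη0 j
      rw [Finset.sum_eq_sum_Ico_succ_bot hjJ]
      have h7 : 117 * η j * (N4 (X (j + 1)) + N4 (Y (j + 1)) + N4 (X j - X (j + 1))) ^ 4
          ≤ 117 * η j * ((3 + K2) * φ) ^ 4 := by gcongr
      have h8 : 117 * eta (ℓ (j + 1)) (κ j) * (N4 (X (j + 1)) + N4 (Y (j + 1)) + N4 (X j - X (j + 1))) ^ 4
          ≤ 117 * η j * ((3 + K2) * φ) ^ 4 := h7
      nlinarith
  have hY0 : N4 (Y 0) ≤ K2 * φ := by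
    apply hnorm 0 (Nat.zero_le _)
    have := main J le_rfl
    simpa using this
  -- comparison of the product with `Y 0`
  have hX0 : X 0 = f := by
    apply Av_fix (by rw [hℓ0]; exact one_dvd _) 
    intro a b hab
    rw [hℓ0, Nat.div_one, Nat.div_one] at hab
    rw [ZMod.val_injective N hab]
  have hprod : ∀ J', (fun i : ZMod N => ∏ j ∈ range J', u j i) =
      fun i => 1 + ∑ j ∈ range J', (psym N (κ j) i + (∏ i' ∈ range j, u i' i - 1) * psym N (κ j) i) := by
    intro J'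
    funext i
    induction J' with
    | zero => simp
    | succ J' ih =>
      rw [Finset.prod_range_succ, Finset.sum_range_succ]
      have : ∏ j ∈ range J', u j i = 1 + ∑ j ∈ range J', (psym N (κ j) i + (∏ i' ∈ range j, u i' i - 1) * psym N (κ j) i) := ih
      rw [← add_assoc, ← this]
      simp only [hu]; ring
  have hTsum : ∀ J' (g : ℕ → ZMod N → ℂ) (h : ZMod N → ℂ), T (fun i => ∑ j ∈ range J', g j i) h
      = ∑ j ∈ range J', T (g j) h := by
    intro J' g h
    induction J' with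
    | zero =>
      have := T_smul_symb (N := N) 0 (fun _ => (1:ℂ)) h
      simpa using this
    | succ J' ih =>
      rw [Finset.sum_range_succ, ← ih, ← T_add_symb]
      congr 1; funext i; rw [Finset.sum_range_succ]
  have hTprod : T (fun i : ZMod N => ∏ j ∈ range J, u j i) f
      = f + ∑ j ∈ range J, (T (psym N (κ j)) f + T (fun i => (∏ i' ∈ range j, u i' i - 1) * psym N (κ j) i) f) := by
    rw [hprod J, T_add_symb, T_one, hTsum]
    congr 1
    apply Finset.sum_congr rfl; intro j _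
    rw [T_add_symb]
  have hY0eq : Y 0 = f + ∑ j ∈ range J, Av (ℓ j) (T (psym N (κ j)) (X j - X (j + 1))) := by
    simp only [hY]
    rw [← Finset.range_eq_Ico]
    have h1 : ∀ j ∈ range J, Av (ℓ j) (T (u j) (X j - X (j + 1))) =
        (X j - X (j + 1)) + Av (ℓ j) (T (psym N (κ j)) (X j - X (j + 1))) := by
      intro j hj
      have hj' : j < J := by simpa using hj
      have : T (u j) (X j - X (j + 1)) = (X j - X (j + 1)) + T (psym N (κ j)) (X j - X (j + 1)) := by
        simp only [hu]; rw [T_add_symb, T_one]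
      rw [this, Av_add, Av_fix (hdN j hj'.le)]
      exact (hXBC j).sub ((hXBC (j + 1)).mono (hℓd j hj'))
    rw [Finset.sum_congr rfl h1, Finset.sum_add_distrib, Finset.sum_range_sub', hX0]
    abel
  have hdiff : T (fun i : ZMod N => ∏ j ∈ range J, u j i) f - Y 0 = ∑ j ∈ range J,
      (T (fun i => (∏ i' ∈ range j, u i' i - 1) * psym N (κ j) i) f
        + (T (psym N (κ j)) (f - X j) + T (psym N (κ j)) (X (j + 1))
          + (T (psym N (κ j)) (X j - X (j + 1)) - Av (ℓ j) (T (psym N (κ j)) (X j - X (j + 1)))))) := by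
    rw [hTprod, hY0eq, add_sub_add_left_eq_sub, ← Finset.sum_sub_distrib]
    apply Finset.sum_congr rfl; intro j _
    rw [T_sub, T_sub]; abel
  have hterm : ∀ j < J, N4 (T (fun i => (∏ i' ∈ range j, u i' i - 1) * psym N (κ j) i) f
        + (T (psym N (κ j)) (f - X j) + T (psym N (κ j)) (X (j + 1))
          + (T (psym N (κ j)) (X j - X (j + 1)) - Av (ℓ j) (T (psym N (κ j)) (X j - X (j + 1))))))
      ≤ (ε j + 4 * ℓ j * δ j + η j) * φ := by
    intro j hj
    have hδj := hδ0 j hj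
    have t1 : N4 (T (fun i => (∏ i' ∈ range j, u i' i - 1) * psym N (κ j) i) f) ≤ ε j * φ := hε j hj f
    have t2 : N4 (T (psym N (κ j)) (f - X j)) ≤ 2 * ℓ j * δ j * φ := by
      obtain ⟨G, hG1, hG2⟩ := exists_primitive (hdN j hj.le) f
      have : T (psym N (κ j)) (f - X j) = T (fun i : ZMod N => (1 - E i) * psym N (κ j) i) G := by
        have g1 : f - X j = T (fun i : ZMod N => 1 - E i) G := by
          have : (fun i : ZMod N => 1 - E i) = fun i => 1 + (-1) * E (i * 1) := by funext i; simp; ring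
          rw [this, T_add_symb, T_one, T_smul_symb, T_trans]
          funext n
          have := hG1 n
          simp only [Pi.add_apply, Pi.smul_apply, Pi.sub_apply, smul_eq_mul]
          rw [this]; ring
        rw [g1, ← T_mul]
        congr 1; funext i; ring
      rw [this]
      calc _ ≤ δ j * N4 G := hδ j hj G
        _ ≤ δ j * (2 * ℓ j * N4 f) := by gcongr
        _ = _ := by ring
    have t3 : N4 (T (psym N (κ j)) (X (j + 1))) ≤ η j * φ := by
      rw [T_psym (hκ j hj)]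
      calc _ ≤ eta (ℓ (j + 1)) (κ j) * N4 (X (j + 1)) := Kact_BC (hdN (j + 1) hj) (hκ j hj) (hκ0 j hj) (hXBC _)
        _ ≤ _ := by
          have := hη0 j
          exact mul_le_mul_of_nonneg_left (hXN (j + 1) hj) this
    have t4 : N4 (T (psym N (κ j)) (X j - X (j + 1)) - Av (ℓ j) (T (psym N (κ j)) (X j - X (j + 1))))
        ≤ 2 * ℓ j * δ j * φ := by
      refine (N4_sub_Av_le (hdN j hj.le) _).trans ?_
      have : (fun n => T (psym N (κ j)) (X j - X (j + 1)) n - T (psym N (κ j)) (X j - X (j + 1)) (n - 1))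
          = T (fun i : ZMod N => (1 - E i) * psym N (κ j) i) (X j - X (j + 1)) := by
        rw [T_mul]
        have : (fun i : ZMod N => 1 - E i) = fun i => 1 + (-1) * E (i * 1) := by funext i; simp; ring
        rw [this, T_add_symb, T_one, T_smul_symb, T_trans]
        funext n
        simp only [Pi.add_apply, Pi.smul_apply, smul_eq_mul]; ring
      rw [this]
      calc _ ≤ (ℓ j : ℝ) * (δ j * N4 (X j - X (j + 1))) := by gcongr; exact hδ j hj _
        _ ≤ (ℓ j : ℝ) * (δ j * (2 * φ)) := by gcongr; exact hxN j hj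
        _ = _ := by ring
    calc _ ≤ N4 (T (fun i => (∏ i' ∈ range j, u i' i - 1) * psym N (κ j) i) f)
        + (N4 (T (psym N (κ j)) (f - X j)) + N4 (T (psym N (κ j)) (X (j + 1)))
          + N4 (T (psym N (κ j)) (X j - X (j + 1)) - Av (ℓ j) (T (psym N (κ j)) (X j - X (j + 1))))) := by
          refine (N4_add_le _ _).trans ?_
          gcongr
          refine (N4_add_le _ _).trans ?_
          gcongr
          exact N4_add_le _ _
      _ ≤ ε j * φ + (2 * ℓ j * δ j * φ + η j * φ + 2 * ℓ j * δ j * φ) := by gcongr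
      _ = _ := by ring
  have hfin : N4 (T (fun i : ZMod N => ∏ j ∈ range J, u j i) f - Y 0) ≤ ε₀ * φ := by
    rw [hdiff]
    calc _ ≤ _ := N4_sum_le _ _
      _ ≤ ∑ j ∈ range J, (ε j + 4 * ℓ j * δ j + η j) * φ :=
          Finset.sum_le_sum fun j hj => hterm j (by simpa using hj)
      _ = (∑ j ∈ range J, (ε j + 4 * ℓ j * δ j + η j)) * φ := by rw [Finset.sum_mul]
      _ ≤ ε₀ * φ := by gcongr
  calc N4 (T (fun i : ZMod N => ∏ j ∈ range J, u j i) f)
      = N4 ((T (fun i : ZMod N => ∏ j ∈ range J, u j i) f - Y 0) + Y 0) := by congr 1; abel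
    _ ≤ _ := N4_add_le _ _
    _ ≤ ε₀ * φ + K2 * φ := add_le_add hfin hY0
    _ ≤ 1 * φ + K2 * φ := by gcongr; exact min_le_left _ _
    _ = _ := by ring

end IM
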