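import Mathlib

set_option autoImplicit false

namespace J594

open Metric Complex Filter Topology

lemma normSq_id (a w : ℂ) :
    ‖1 + (starRingEnd ℂ) a * w‖ ^ 2 - ‖w + a‖ ^ 2 = (1 - ‖a‖ ^ 2) * (1 - ‖w‖ ^ 2) := by
  rw [← Complex.normSq_eq_norm_sq, ← Complex.normSq_eq_norm_sq, ← Complex.normSq_eq_norm_sq,
    ← Complex.normSq_eq_norm_sq]
  simp only [Complex.normSq_apply, Complex.add_re, Complex.add_im, Complex.mul_re, Complex.mul_im,
    Complex.conj_re, Complex.conj_im, Complex.one_re, Complex.one_im]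
  ring

lemma one_add_ne {a w : ℂ} (ha : ‖a‖ < 1) (hw : ‖w‖ < 1) : 1 + (starRingEnd ℂ) a * w ≠ 0 := by
  intro h
  have h1 := normSq_id a w
  rw [h] at h1
  simp only [norm_zero] at h1
  have h2 : 0 < (1 - ‖a‖ ^ 2) * (1 - ‖w‖ ^ 2) := by
    apply mul_pos
    · nlinarith [norm_nonneg a]
    · nlinarith [norm_nonneg w]
  nlinarith [sq_nonneg ‖w + a‖]

lemma moeb_lt {a w : ℂ} (ha : ‖a‖ < 1) (hw : ‖w‖ < 1) :
    ‖(w + a) / (1 + (starRingEnd ℂ) a * w)‖ < 1 := by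
  have h0 : 0 < ‖1 + (starRingEnd ℂ) a * w‖ := norm_pos_iff.2 (one_add_ne ha hw)
  rw [norm_div, div_lt_one h0]
  have h1 := normSq_id a w
  have h2 : 0 < (1 - ‖a‖ ^ 2) * (1 - ‖w‖ ^ 2) := by
    apply mul_pos
    · nlinarith [norm_nonneg a]
    · nlinarith [norm_nonneg w]
  nlinarith [norm_nonneg (w + a)]

lemma schwarz {f : ℂ → ℂ} (hf : DifferentiableOn ℂ f (ball 0 1)) (hb : ∀ z ∈ ball (0:ℂ) 1, ‖f z‖ ≤ 1)
    {a : ℂ} (ha : ‖a‖ < 1) (hfa : f a = 0) {z : ℂ} (hz : ‖z‖ < 1) :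
    ‖f z‖ * ‖1 - (starRingEnd ℂ) a * z‖ ≤ ‖z - a‖ := by
  have hna : ‖-a‖ < 1 := by rwa [norm_neg]
  have hne : 1 - (starRingEnd ℂ) a * z ≠ 0 := by
    have := one_add_ne hna hz
    rw [map_neg] at this
    convert this using 1
    ring
  set w : ℂ := (z - a) / (1 - (starRingEnd ℂ) a * z) with hw
  have hw1 : ‖w‖ < 1 := by
    have := moeb_lt hna hz
    rw [map_neg] at this
    convert this using 2
    rw [hw]; congr 1; ring
  have hF := Complex.norm_le_norm_of_mapsTo_ball (R := 1)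
    (f := fun w => f ((w + a) / (1 + (starRingEnd ℂ) a * w))) (z := w) ?_ ?_ ?_ hw1
  · have hwm : w * (1 - (starRingEnd ℂ) a * z) = z - a := by rw [hw, div_mul_cancel₀ _ hne]
    have e : (w + a) / (1 + (starRingEnd ℂ) a * w) = z := by
      have h1 : 1 + (starRingEnd ℂ) a * w ≠ 0 := one_add_ne ha hw1
      rw [div_eq_iff h1]
      linear_combination hwm
    simp only [e] at hF
    have h2 : 0 < ‖1 - (starRingEnd ℂ) a * z‖ := norm_pos_iff.2 hne
    calc ‖f z‖ * ‖1 - (starRingEnd ℂ) a * z‖ ≤ ‖w‖ * ‖1 - (starRingEnd ℂ) a * z‖ := by gcongr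
      _ = ‖z - a‖ := by rw [← norm_mul, hwm]
  · apply hf.comp
    · intro x hx
      have hx' : ‖x‖ < 1 := by simpa using hx
      apply DifferentiableWithinAt.div
      · fun_prop
      · fun_prop
      · exact one_add_ne ha hx'
    · intro x hx
      have hx' : ‖x‖ < 1 := by simpa using hx
      simpa using moeb_lt ha hx'
  · intro x hx
    have hx' : ‖x‖ < 1 := by simpa using hx
    simpa using hb _ (by simpa using moeb_lt ha hx')
  · simp [hfa]

lemma factor {f : ℂ → ℂ} (hf : DifferentiableOn ℂ f (ball 0 1)) (hb : ∀ z ∈ ball (0:ℂ) 1, ‖f z‖ ≤ 1)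
    {a : ℂ} (ha : ‖a‖ < 1) (hfa : f a = 0) :
    ∃ g : ℂ → ℂ, DifferentiableOn ℂ g (ball 0 1) ∧ (∀ z ∈ ball (0:ℂ) 1, ‖g z‖ ≤ 1) ∧
      ∀ z ∈ ball (0:ℂ) 1, f z * (1 - (starRingEnd ℂ) a * z) = (z - a) * g z := by
  have haD : a ∈ ball (0:ℂ) 1 := by simpa using ha
  have hnh : ball (0:ℂ) 1 ∈ 𝓝 a := isOpen_ball.mem_nhds haD
  have hds : DifferentiableOn ℂ (dslope f a) (ball 0 1) := (Complex.differentiableOn_dslope hnh).2 hf
  have hgd : DifferentiableOn ℂ (fun z => dslope f a z * (1 - (starRingEnd ℂ) a * z)) (ball 0 1) :=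
    hds.mul (by fun_prop)
  have heq : ∀ z, f z * (1 - (starRingEnd ℂ) a * z) =
      (z - a) * (dslope f a z * (1 - (starRingEnd ℂ) a * z)) := by
    intro z
    have := sub_smul_dslope f a z
    rw [smul_eq_mul, hfa, sub_zero] at this
    rw [← this]; ring
  have hne : ∀ z ∈ ball (0:ℂ) 1, z ≠ a → ‖dslope f a z * (1 - (starRingEnd ℂ) a * z)‖ ≤ 1 := by
    intro z hz hza
    have hz' : ‖z‖ < 1 := by simpa using hz
    have h1 := schwarz hf hb ha hfa hz'
    rw [← norm_mul, heq, norm_mul] at h1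
    have h2 : 0 < ‖z - a‖ := norm_pos_iff.2 (sub_ne_zero.2 hza)
    by_contra hcon
    push Not at hcon
    nlinarith
  refine ⟨_, hgd, ?_, fun z _ => heq z⟩
  intro z hz
  by_cases hza : z = a
  · subst hza
    have hc : ContinuousAt (fun w => dslope f z w * (1 - (starRingEnd ℂ) z * w)) z :=
      (hgd.differentiableAt hnh).continuousAt
    have ht : Tendsto (fun w => ‖dslope f z w * (1 - (starRingEnd ℂ) z * w)‖) (𝓝[≠] z)
        (𝓝 ‖dslope f z z * (1 - (starRingEnd ℂ) z * z)‖) := hc.norm.tendsto.mono_left nhdsWithin_le_nhds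
    refine le_of_tendsto ht ?_
    have h1 : ∀ᶠ w in 𝓝[≠] z, w ∈ ball (0:ℂ) 1 := nhdsWithin_le_nhds hnh
    filter_upwards [h1, self_mem_nhdsWithin] with w hw hwz
    exact hne w hw hwz
  · exact hne z hz hza

lemma iter {ι : Type*} [DecidableEq ι] (z : ι → ℂ) (hz : ∀ i, ‖z i‖ < 1)
    (hinj : Function.Injective z) {f : ℂ → ℂ} (hf : DifferentiableOn ℂ f (ball 0 1))
    (hb : ∀ z ∈ ball (0:ℂ) 1, ‖f z‖ ≤ 1) (s : Finset ι) (hs : ∀ i ∈ s, f (z i) = 0) :
    ∃ g : ℂ → ℂ, DifferentiableOn ℂ g (ball 0 1) ∧ (∀ z ∈ ball (0:ℂ) 1, ‖g z‖ ≤ 1) ∧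
      ∀ w ∈ ball (0:ℂ) 1, f w * ∏ i ∈ s, (1 - (starRingEnd ℂ) (z i) * w) =
        (∏ i ∈ s, (w - z i)) * g w := by
  induction s using Finset.induction_on with
  | empty => exact ⟨f, hf, hb, fun w _ => by simp⟩
  | insert k s hk ih =>
    obtain ⟨g, hg, hgb, heq⟩ := ih (fun i hi => hs i (Finset.mem_insert_of_mem hi))
    have hkD : z k ∈ ball (0:ℂ) 1 := by simpa using hz k
    have hgk : g (z k) = 0 := by
      have h1 := heq (z k) hkD
      rw [hs k (Finset.mem_insert_self _ _), zero_mul] at h1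
      rcases mul_eq_zero.1 h1.symm with h | h
      · exfalso
        rw [Finset.prod_eq_zero_iff] at h
        obtain ⟨i, hi, h⟩ := h
        have : k = i := hinj (sub_eq_zero.1 h)
        exact hk (this ▸ hi)
      · exact h
    obtain ⟨g', hg', hgb', heq'⟩ := factor hg hgb (hz k) hgk
    refine ⟨g', hg', hgb', ?_⟩
    intro w hw
    rw [Finset.prod_insert hk, Finset.prod_insert hk]
    have h1 := heq w hw
    have h2 := heq' w hw
    calc f w * ((1 - (starRingEnd ℂ) (z k) * w) * ∏ i ∈ s, (1 - (starRingEnd ℂ) (z i) * w))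
        = (f w * ∏ i ∈ s, (1 - (starRingEnd ℂ) (z i) * w)) * (1 - (starRingEnd ℂ) (z k) * w) := by ring
      _ = (∏ i ∈ s, (w - z i)) * (g w * (1 - (starRingEnd ℂ) (z k) * w)) := by rw [h1]; ring
      _ = _ := by rw [h2]; ring

lemma deriv_bound {ι : Type*} [DecidableEq ι] (z : ι → ℂ) (hz : ∀ i, ‖z i‖ < 1)
    (hinj : Function.Injective z)
    (hd : ∀ i l, 2 * ‖z i - z l‖ ≤ ‖1 - (starRingEnd ℂ) (z l) * z i‖)
    {f : ℂ → ℂ} (hf : DifferentiableOn ℂ f (ball 0 1))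
    (hb : ∀ z ∈ ball (0:ℂ) 1, ‖f z‖ ≤ 1) (s : Finset ι) (k : ι) (hk : k ∉ s)
    (hs : ∀ i ∈ insert k s, f (z i) = 0) :
    (1 - ‖z k‖ ^ 2) * ‖deriv f (z k)‖ ≤ (1/2) ^ s.card := by
  obtain ⟨g, hg, hgb, heq⟩ := iter z hz hinj hf hb (insert k s) hs
  have hkD : z k ∈ ball (0:ℂ) 1 := by simpa using hz k
  have hnh : ball (0:ℂ) 1 ∈ 𝓝 (z k) := isOpen_ball.mem_nhds hkD
  have hfk : f (z k) = 0 := hs k (Finset.mem_insert_self _ _)
  -- derivatives at z k
  have hfd : HasDerivAt f (deriv f (z k)) (z k) := (hf.differentiableAt hnh).hasDerivAt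
  have hPd : DifferentiableAt ℂ (fun w => ∏ i ∈ insert k s, (1 - (starRingEnd ℂ) (z i) * w)) (z k) := by
    fun_prop
  have hHd : DifferentiableAt ℂ (fun w => (∏ i ∈ s, (w - z i)) * g w) (z k) := by
    apply DifferentiableAt.mul
    · fun_prop
    · exact hg.differentiableAt hnh
  have h1 := hfd.mul hPd.hasDerivAt
  have h2 := ((hasDerivAt_id (z k)).sub_const (z k)).mul hHd.hasDerivAt
  have h3 : (fun w => f w * ∏ i ∈ insert k s, (1 - (starRingEnd ℂ) (z i) * w)) =ᶠ[𝓝 (z k)]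
      (fun w => (w - z k) * ((∏ i ∈ s, (w - z i)) * g w)) := by
    filter_upwards [hnh] with w hw
    rw [heq w hw, Finset.prod_insert hk]; ring
  have h4 := h3.deriv_eq
  have e1 : deriv (fun w => f w * ∏ i ∈ insert k s, (1 - (starRingEnd ℂ) (z i) * w)) (z k) =
      deriv f (z k) * ∏ i ∈ insert k s, (1 - (starRingEnd ℂ) (z i) * z k) := by
    have := h1.deriv
    rw [hfk, zero_mul, add_zero] at this
    exact this
  have e2 : deriv (fun w => (w - z k) * ((∏ i ∈ s, (w - z i)) * g w)) (z k) =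
      (∏ i ∈ s, (z k - z i)) * g (z k) := by
    have := h2.deriv
    simp only [id, sub_self, zero_mul, add_zero, one_mul] at this
    exact this
  rw [e1, e2] at h4
  have h5 := congrArg norm h4
  rw [norm_mul, norm_mul, Finset.prod_insert hk, norm_mul, norm_prod, norm_prod] at h5
  have e3 : ‖1 - (starRingEnd ℂ) (z k) * z k‖ = 1 - ‖z k‖ ^ 2 := by
    rw [← Complex.normSq_eq_conj_mul_self, Complex.normSq_eq_norm_sq]
    have : (1 : ℂ) - ((‖z k‖ ^ 2 : ℝ) : ℂ) = ((1 - ‖z k‖ ^ 2 : ℝ) : ℂ) := by push_cast; ring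
    rw [this, Complex.norm_real, Real.norm_of_nonneg]
    nlinarith [hz k, norm_nonneg (z k)]
  rw [e3] at h5
  have hpos : 0 < ∏ i ∈ s, ‖1 - (starRingEnd ℂ) (z i) * z k‖ := by
    apply Finset.prod_pos
    intro i hi
    have hne : z k - z i ≠ 0 := sub_ne_zero.2 (fun h => hk (hinj h ▸ hi))
    have := hd k i
    have h0 := norm_pos_iff.2 hne
    linarith
  have hle : (∏ i ∈ s, ‖z k - z i‖) * ‖g (z k)‖ ≤
      (1/2) ^ s.card * ∏ i ∈ s, ‖1 - (starRingEnd ℂ) (z i) * z k‖ := by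
    calc (∏ i ∈ s, ‖z k - z i‖) * ‖g (z k)‖ ≤ (∏ i ∈ s, ‖z k - z i‖) * 1 := by
          apply mul_le_mul_of_nonneg_left (hgb _ hkD)
          exact Finset.prod_nonneg (fun _ _ => norm_nonneg _)
      _ ≤ ∏ i ∈ s, ((1/2) * ‖1 - (starRingEnd ℂ) (z i) * z k‖) := by
          rw [mul_one]
          apply Finset.prod_le_prod (fun _ _ => norm_nonneg _)
          intro i _
          have := hd k i
          linarith
      _ = _ := by rw [Finset.prod_mul_distrib, Finset.prod_const]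
  rw [← h5] at hle
  have : ((1 - ‖z k‖ ^ 2) * ‖deriv f (z k)‖) * ∏ i ∈ s, ‖1 - (starRingEnd ℂ) (z i) * z k‖ ≤
      (1/2) ^ s.card * ∏ i ∈ s, ‖1 - (starRingEnd ℂ) (z i) * z k‖ := by
    calc _ = ‖deriv f (z k)‖ * ((1 - ‖z k‖ ^ 2) * ∏ i ∈ s, ‖1 - (starRingEnd ℂ) (z i) * z k‖) := by ring
      _ ≤ _ := hle
  exact le_of_mul_le_mul_right this hpos

end J594

/-- Finite products of interpolating Blaschke-type functions cannot have arbitrarily many distinct zeros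
that are pairwise at pseudohyperbolic distance at most 1/2. -/
theorem cluster_contra (N : ℕ) (B : Fin N → ℂ → ℂ)
    (h1 : ∀ j, DifferentiableOn ℂ (B j) (Metric.ball (0 : ℂ) 1))
    (h2 : ∀ j, ∀ z ∈ Metric.ball (0 : ℂ) 1, ‖B j z‖ ≤ 1)
    (h3 : ∀ j, ∃ δ : ℝ, 0 < δ ∧ ∀ z ∈ Metric.ball (0 : ℂ) 1, B j z = 0 →
      δ ≤ (1 - ‖z‖ ^ 2) * ‖deriv (B j) z‖) :
    ∃ M : ℕ, ∀ z : Fin M → ℂ, Function.Injective z → (∀ i, ‖z i‖ < 1) →
      (∀ i l, 2 * ‖z i - z l‖ ≤ ‖1 - (starRingEnd ℂ) (z l) * z i‖) →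
      ¬ (∀ i, ∏ j, B j (z i) = 0) := by
  classical
  choose δ hδ hδ' using h3
  have hK : ∀ j, ∃ K : ℕ, (1/2 : ℝ) ^ K < δ j := fun j =>
    exists_pow_lt_of_lt_one (hδ j) (by norm_num)
  choose K hK using hK
  refine ⟨∑ j, K j + 1, ?_⟩
  intro z hinj hz hd hzero
  have hex : ∀ i, ∃ j, B j (z i) = 0 := by
    intro i
    obtain ⟨j, -, hj⟩ := Finset.prod_eq_zero_iff.1 (hzero i)
    exact ⟨j, hj⟩
  choose φ hφ using hex
  -- pigeonhole
  obtain ⟨j, hj⟩ : ∃ j, K j + 1 ≤ (Finset.univ.filter (fun i => φ i = j)).card := by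
    by_contra hcon
    push Not at hcon
    have h1 : (Finset.univ : Finset (Fin (∑ j, K j + 1))).card =
        ∑ j, (Finset.univ.filter (fun i => φ i = j)).card :=
      Finset.card_eq_sum_card_fiberwise (fun i _ => Finset.mem_univ (φ i))
    rw [Finset.card_univ, Fintype.card_fin] at h1
    have h2 : ∑ j, (Finset.univ.filter (fun i => φ i = j)).card ≤ ∑ j, K j :=
      Finset.sum_le_sum (fun j _ => by have := hcon j; omega)
    omega
  set s := Finset.univ.filter (fun i => φ i = j) with hs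
  have hne : s.Nonempty := by
    rw [← Finset.card_pos]; omega
  obtain ⟨k, hk⟩ := hne
  have hB : ∀ i ∈ s, B j (z i) = 0 := by
    intro i hi
    have : φ i = j := (Finset.mem_filter.1 hi).2
    rw [← this]; exact hφ i
  have h4 := J594.deriv_bound z hz hinj hd (h1 j) (h2 j) (s.erase k) k (Finset.notMem_erase _ _)
    (by rw [Finset.insert_erase hk]; exact hB)
  have h5 := hδ' j (z k) (by simpa using hz k) (hB k hk)
  have h6 : (1/2 : ℝ) ^ (s.erase k).card ≤ (1/2) ^ (K j) := by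
    apply pow_le_pow_of_le_one (by norm_num) (by norm_num)
    rw [Finset.card_erase_of_mem hk]; omega
  have := hK j
  linarith
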