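import Mathlib

set_option autoImplicit false
open Finset Filter Topology

/-- TARGET: infinite products of functions converging to 1 away from the point 1. -/
theorem inf_prod (u : ℕ → ℂ → ℂ) (hu : ∀ j, ContinuousOn (u j) (Metric.closedBall 0 1))
    (hd : ∀ j, DifferentiableOn ℂ (u j) (Metric.ball 0 1))
    (h1 : ∀ j z, ‖z‖ ≤ 1 → ‖u j z‖ ≤ 1) (h2 : ∀ j z, ‖z‖ = 1 → ‖u j z‖ = 1)
    (h3 : ∀ j z, ‖z‖ ≤ 1 → ‖1 - z‖ * ‖u j z - 1‖ ≤ (1 / 2) ^ j) :
    ∃ F : ℂ → ℂ, DifferentiableOn ℂ F (Metric.ball 0 1) ∧ (∀ z ∈ Metric.ball (0 : ℂ) 1, ‖F z‖ ≤ 1) ∧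
      (∀ j, ∀ z ∈ Metric.ball (0 : ℂ) 1, u j z = 0 → F z = 0) ∧
      (∀ r : ℝ, r < 1 → TendstoUniformlyOn (fun J z => ∏ j ∈ range J, u j z) F atTop (Metric.closedBall 0 r)) ∧
      (∀ᵐ θ : ℝ ∂MeasureTheory.volume, ∃ w : ℂ, ‖w‖ = 1 ∧
        Filter.Tendsto (fun r : ℝ => F ((r : ℂ) * Complex.exp ((θ : ℂ) * Complex.I)))
          (nhdsWithin (1 : ℝ) (Set.Iio 1)) (nhds w)) := by
  classical
  obtain ⟨P, hP⟩ : ∃ P : ℕ → ℂ → ℂ, P = fun J z => ∏ j ∈ range J, u j z := ⟨_, rfl⟩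
  have hPle : ∀ J z, ‖z‖ ≤ 1 → ‖P J z‖ ≤ 1 := by
    intro J z hz
    rw [hP]
    simp only [norm_prod]
    exact Finset.prod_le_one (fun i _ => norm_nonneg _) (fun i _ => h1 i z hz)
  have hPone : ∀ J z, ‖z‖ = 1 → ‖P J z‖ = 1 := by
    intro J z hz
    rw [hP]
    simp only [norm_prod]
    exact Finset.prod_eq_one (fun i _ => h2 i z hz)
  have hPsucc : ∀ J z, P (J + 1) z - P J z = P J z * (u J z - 1) := by
    intro J z
    rw [hP]
    simp only [Finset.prod_range_succ]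
    ring
  obtain ⟨F, hF⟩ : ∃ F : ℂ → ℂ, F = fun z => 1 + ∑' J, (P (J + 1) z - P J z) := ⟨_, rfl⟩
  obtain ⟨U, hU⟩ : ∃ U : ℝ → Set ℂ, U = fun s => {z : ℂ | ‖z‖ ≤ 1 ∧ s ≤ ‖1 - z‖} := ⟨_, rfl⟩
  have hunif : ∀ s : ℝ, 0 < s → TendstoUniformlyOn P F atTop (U s) := by
    intro s hs
    have hb : ∀ (J : ℕ) (z : ℂ), z ∈ U s → ‖P (J + 1) z - P J z‖ ≤ (1 / 2) ^ J / s := by
      intro J z hz
      rw [hU] at hz
      obtain ⟨hz1, hz2⟩ := hz
      rw [hPsucc, norm_mul]
      have h4 := h3 J z hz1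
      have h5 := hPle J z hz1
      have h6 : ‖u J z - 1‖ ≤ (1 / 2) ^ J / s := by
        rw [le_div_iff₀ hs]
        calc ‖u J z - 1‖ * s ≤ ‖u J z - 1‖ * ‖1 - z‖ := by gcongr
          _ = ‖1 - z‖ * ‖u J z - 1‖ := by ring
          _ ≤ (1 / 2) ^ J := h4
      calc ‖P J z‖ * ‖u J z - 1‖ ≤ 1 * ‖u J z - 1‖ := by gcongr
        _ = ‖u J z - 1‖ := one_mul _
        _ ≤ _ := h6
    have hsum : Summable (fun J : ℕ => ((1 : ℝ) / 2) ^ J / s) :=
      (summable_geometric_two).div_const s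
    have h7 := tendstoUniformlyOn_tsum_nat hsum hb
    have h8 : ∀ (N : ℕ) (z : ℂ), P N z = 1 + ∑ J ∈ range N, (P (J + 1) z - P J z) := by
      intro N z
      rw [Finset.sum_range_sub (fun J => P J z)]
      have : P 0 z = 1 := by rw [hP]; simp
      rw [this]; ring
    rw [Metric.tendstoUniformlyOn_iff] at h7 ⊢
    intro ε hε
    filter_upwards [h7 ε hε] with N hN z hz
    have := hN z hz
    rw [hF]
    simp only
    rw [h8 N z, dist_add_left]
    exact this
  have hball : ∀ r : ℝ, r < 1 → Metric.closedBall (0 : ℂ) r ⊆ U (1 - r) := by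
    intro r hr z hz
    rw [hU]
    rw [mem_closedBall_zero_iff] at hz
    refine ⟨by linarith, ?_⟩
    have : ‖(1 : ℂ)‖ - ‖z‖ ≤ ‖1 - z‖ := norm_sub_norm_le _ _
    rw [norm_one] at this
    linarith
  have hunif2 : ∀ r : ℝ, r < 1 → TendstoUniformlyOn P F atTop (Metric.closedBall 0 r) := by
    intro r hr
    exact (hunif (1 - r) (by linarith)).mono (hball r hr)
  have hpt : ∀ z : ℂ, ‖z‖ ≤ 1 → z ≠ 1 → Tendsto (fun J => P J z) atTop (𝓝 (F z)) := by
    intro z hz hz1
    have hpos : 0 < ‖1 - z‖ := by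
      rw [norm_pos_iff]
      exact sub_ne_zero.mpr (Ne.symm hz1)
    refine (hunif ‖1 - z‖ hpos).tendsto_at ?_
    rw [hU]
    exact ⟨hz, le_refl _⟩
  have hne : ∀ z ∈ Metric.ball (0 : ℂ) 1, ‖z‖ ≤ 1 ∧ z ≠ 1 := by
    intro z hz
    rw [mem_ball_zero_iff] at hz
    refine ⟨hz.le, ?_⟩
    rintro rfl
    rw [norm_one] at hz
    exact lt_irrefl _ hz
  refine ⟨F, ?_, ?_, ?_, ?_, ?_⟩
  · have hloc : TendstoLocallyUniformlyOn P F atTop (Metric.ball 0 1) := by
      intro v hv x hx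
      rw [mem_ball_zero_iff] at hx
      refine ⟨Metric.closedBall 0 ((1 + ‖x‖) / 2), ?_, ?_⟩
      · refine mem_nhdsWithin_of_mem_nhds ?_
        refine Metric.closedBall_mem_nhds_of_mem ?_
        rw [mem_ball_zero_iff]
        linarith
      · exact hunif2 ((1 + ‖x‖) / 2) (by linarith) v hv
    refine hloc.differentiableOn ?_ Metric.isOpen_ball
    refine Eventually.of_forall (fun J => ?_)
    rw [hP]
    exact DifferentiableOn.fun_finsetProd (fun i _ => hd i)
  · intro z hz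
    obtain ⟨ha, hb⟩ := hne z hz
    exact le_of_tendsto (hpt z ha hb).norm (Eventually.of_forall (fun J => hPle J z ha))
  · intro j z hz hj
    obtain ⟨ha, hb⟩ := hne z hz
    refine tendsto_nhds_unique (hpt z ha hb) ?_
    refine tendsto_const_nhds.congr' ?_
    filter_upwards [eventually_gt_atTop j] with J hJ
    rw [hP]
    exact (Finset.prod_eq_zero (mem_range.mpr hJ) hj).symm
  · intro r hr
    have := hunif2 r hr
    rw [hP] at this
    exact this
  · have hcount : {θ : ℝ | Complex.exp ((θ : ℂ) * Complex.I) = 1}.Countable := by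
      refine (Set.countable_range (fun n : ℤ => (n : ℝ) * (2 * Real.pi))).mono ?_
      intro θ hθ
      rw [Set.mem_ofPred_eq, Complex.exp_eq_one_iff] at hθ
      obtain ⟨n, hn⟩ := hθ
      refine ⟨n, ?_⟩
      have h9 : (θ : ℂ) = ((n : ℝ) * (2 * Real.pi) : ℝ) := by
        have h10 : (θ : ℂ) * Complex.I = ((n : ℂ) * (2 * Real.pi)) * Complex.I := by
          rw [hn]; ring
        have h11 := mul_right_cancel₀ Complex.I_ne_zero h10
        rw [h11]; push_cast; ring
      exact (Complex.ofReal_injective h9).symm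
    have hae := hcount.ae_notMem MeasureTheory.volume
    filter_upwards [hae] with θ hθ'
    have hθ : ¬ (Complex.exp ((θ : ℂ) * Complex.I) = 1) := hθ'
    obtain ⟨e, he⟩ : ∃ e : ℂ, e = Complex.exp ((θ : ℂ) * Complex.I) := ⟨_, rfl⟩
    rw [← he] at hθ ⊢
    have hen : ‖e‖ = 1 := by rw [he]; exact Complex.norm_exp_ofReal_mul_I θ
    refine ⟨F e, ?_, ?_⟩
    · have := (hpt e hen.le hθ).norm
      refine tendsto_nhds_unique this ?_
      refine tendsto_const_nhds.congr' ?_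
      exact Eventually.of_forall (fun J => (hPone J e hen).symm)
    · have hpos : 0 < ‖1 - e‖ := by
        rw [norm_pos_iff]
        exact sub_ne_zero.mpr (Ne.symm hθ)
      have hcont : ContinuousOn F (U (‖1 - e‖ / 2)) := by
        refine (hunif (‖1 - e‖ / 2) (by linarith)).continuousOn ?_
        refine (Eventually.of_forall (fun J => ?_)).frequently
        rw [hP]
        refine continuousOn_finsetProd _ (fun i _ => ?_)
        refine (hu i).mono ?_
        intro z hz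
        rw [hU] at hz
        rw [mem_closedBall_zero_iff]
        exact hz.1
      have hmem : e ∈ U (‖1 - e‖ / 2) := by
        rw [hU]
        exact ⟨hen.le, by linarith⟩
      have hcw := hcont e hmem
      have hpath : Tendsto (fun r : ℝ => (r : ℂ) * e) (nhdsWithin (1 : ℝ) (Set.Iio 1)) (𝓝 e) := by
        have : Continuous (fun r : ℝ => (r : ℂ) * e) := by fun_prop
        have h12 := this.tendsto (1 : ℝ)
        simp only [Complex.ofReal_one, one_mul] at h12
        exact h12.mono_left nhdsWithin_le_nhds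
      refine hcw.tendsto.comp ?_
      rw [tendsto_nhdsWithin_iff]
      refine ⟨hpath, ?_⟩
      have h13 : ∀ᶠ r : ℝ in nhdsWithin (1 : ℝ) (Set.Iio 1), ‖1 - e‖ / 2 < ‖1 - (r : ℂ) * e‖ := by
        have h14 : Tendsto (fun r : ℝ => ‖1 - (r : ℂ) * e‖) (nhdsWithin (1 : ℝ) (Set.Iio 1))
            (𝓝 ‖1 - e‖) := (tendsto_const_nhds.sub hpath).norm
        exact h14.eventually_const_lt (by linarith)
      have h15 : ∀ᶠ r : ℝ in nhdsWithin (1 : ℝ) (Set.Iio 1), (0 : ℝ) < r := by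
        refine mem_nhdsWithin_of_mem_nhds ?_
        exact lt_mem_nhds one_pos
      filter_upwards [h13, h15, self_mem_nhdsWithin] with r hr1 hr2 hr3
      rw [hU]
      refine ⟨?_, hr1.le⟩
      rw [norm_mul, hen, mul_one, Complex.norm_real, Real.norm_eq_abs, abs_of_pos hr2]
      exact (Set.mem_Iio.mp hr3).le
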