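import Pool.Agent.MP58366f.Fin1
import Pool.Agent.MP58366f.Coef
import Pool.Agent.MP58366f.InfProd
import Pool.Agent.MP58366f.Cluster
set_option autoImplicit false
set_option linter.unusedSectionVars false
open Finset Filter Topology
namespace IM

lemma AN_cont {c : ℝ} {f : ℂ → ℂ} (h : AN c f) : ContinuousOn f (Metric.closedBall 0 1) := by
  obtain ⟨k, hk, -, hf⟩ := h
  have h1 : ContinuousOn (fun z : ℂ => ∑' m, k m * z ^ m) (Metric.closedBall 0 1) := by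
    apply continuousOn_tsum (u := fun m => ‖k m‖) (fun m => by fun_prop) hk
    intro m z hz
    have hz' : ‖z‖ ≤ 1 := by simpa using hz
    rw [norm_mul, norm_pow]
    calc _ ≤ ‖k m‖ * 1 := by gcongr; exact pow_le_one₀ (norm_nonneg _) hz'
      _ = _ := mul_one _
  exact h1.congr fun z hz => hf z (by simpa using hz)

lemma AN_diff {c : ℝ} {f : ℂ → ℂ} (h : AN c f) : DifferentiableOn ℂ f (Metric.ball 0 1) := by
  obtain ⟨k, hk, -, hf⟩ := h
  have h1 : DifferentiableOn ℂ (fun z : ℂ => ∑' m, k m * z ^ m) (Metric.ball 0 1) := by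
    apply Complex.differentiableOn_tsum_of_summable_norm (u := fun m => ‖k m‖) hk
      (fun m => ((differentiable_const _).mul (differentiable_pow m)).differentiableOn) Metric.isOpen_ball
    intro m z hz
    have hz' : ‖z‖ ≤ 1 := by have : ‖z‖ < 1 := by simpa using hz
                             exact this.le
    rw [norm_mul, norm_pow]
    calc _ ≤ ‖k m‖ * 1 := by gcongr; exact pow_le_one₀ (norm_nonneg _) hz'
      _ = _ := mul_one _
  exact h1.congr fun z hz => hf z (by have : ‖z‖ < 1 := by simpa using hz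
                                      exact this.le)

/-- state of the recursion -/
structure St where
  l : ℕ
  B : ℂ → ℂ

def Inv (s : St) : Prop := 0 < s.l ∧ (∃ c, AN c s.B) ∧ s.B 1 = 1

noncomputable def uf (κ : ℕ → ℂ) (z : ℂ) : ℂ := 1 + ∑' m, κ m * z ^ m

lemma uf_AN {κ : ℕ → ℂ} (hκ : Summable fun m => ‖κ m‖) : ∃ c, AN c (uf κ) := by
  have h1 : AN (∑' m, ‖κ m‖) (fun z => ∑' m, κ m * z ^ m) := ⟨κ, hκ, le_rfl, fun z _ => rfl⟩
  exact ⟨_, W702.AN_add (W702.AN_const 1) h1⟩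

theorem main_exists : ∃ (K : ℝ) (κ : ℕ → ℕ → ℂ) (l : ℕ → ℕ) (C : ℝ) (μ : ℕ → ℝ), 0 ≤ K ∧
    (∀ j, Block C (μ j) j (κ j)) ∧ (∀ j, μ j ≤ (1 / 2) ^ j) ∧ (∀ j, 0 < l j) ∧
    ∀ (J N : ℕ) [NeZero N], l J ∣ N → MB K (fun i : ZMod N => ∏ j ∈ range J, (1 + psym N (κ j) i)) := by
  obtain ⟨C, hC1, hblk⟩ := block_exists
  obtain ⟨K, ε₀, hK, hε₀, hglue⟩ := gluing C hC1
  set e : ℕ → ℝ := fun j => ε₀ / 6 * (1 / 2) ^ j with he
  have hepos : ∀ j, 0 < e j := fun j => by simp only [he]; positivity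
  -- one step
  have step : ∀ (j : ℕ) (s : {s : St // Inv s}), ∃ t : ((ℕ → ℂ) × ℝ) × {s : St // Inv s},
      Block C t.1.2 j t.1.1 ∧ 0 < t.1.2 ∧ t.1.2 ≤ (1 / 2) ^ j ∧ 4 * (s.1.l : ℝ) * t.1.2 ≤ e j ∧
      (∀ (N : ℕ) [NeZero N], MB (e j) (fun i : ZMod N => (s.1.B (E i) - 1) * psym N t.1.1 i)) ∧
      s.1.l ∣ t.2.1.l ∧ eta t.2.1.l t.1.1 ≤ e j ∧ ∀ z, t.2.1.B z = s.1.B z * uf t.1.1 z := by
    rintro j ⟨s, hs0, ⟨c, hc⟩, hs1⟩
    obtain ⟨μ0, hμ0, hμ0'⟩ := lemS hC1 hc hs1 (hepos j)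
    have hlpos : (0:ℝ) < s.l := by exact_mod_cast hs0
    set μ : ℝ := min μ0 (min ((1 / 2) ^ j) (e j / (4 * s.l))) with hμ
    have hej := hepos j
    have hμpos : 0 < μ := by rw [hμ]; positivity
    obtain ⟨κ, hκ⟩ := hblk j μ hμpos
    obtain ⟨ℓ0, hℓ0⟩ := eta_small hκ.summ (hepos j)
    obtain ⟨c', hc'⟩ := uf_AN hκ.summ
    have hInv : Inv ⟨s.l * (ℓ0 + 1), fun z => s.B z * uf κ z⟩ := by
      refine ⟨by positivity, ⟨_, W702.AN_mul hc hc'⟩, ?_⟩
      simp only [hs1, one_mul, uf, one_pow, mul_one, hκ.sum0, add_zero]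
    refine ⟨⟨⟨κ, μ⟩, ⟨⟨s.l * (ℓ0 + 1), fun z => s.B z * uf κ z⟩, hInv⟩⟩, hκ, hμpos,
      (min_le_right _ _).trans (min_le_left _ _), ?_, ?_, Dvd.intro _ rfl, ?_, fun z => rfl⟩
    · have : μ ≤ e j / (4 * s.l) := (min_le_right _ _).trans (min_le_right _ _)
      rw [le_div_iff₀ (by positivity)] at this
      linarith
    · exact hμ0' μ hμpos (min_le_left _ _) j κ hκ
    · apply hℓ0
      calc ℓ0 ≤ 1 * (ℓ0 + 1) := by omega
        _ ≤ s.l * (ℓ0 + 1) := Nat.mul_le_mul_right _ hs0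
  choose g hg using step
  have h0 : Inv ⟨1, fun _ => 1⟩ := ⟨one_pos, ⟨_, W702.AN_const 1⟩, rfl⟩
  let S : ℕ → {s : St // Inv s} := fun n => Nat.rec ⟨⟨1, fun _ => 1⟩, h0⟩ (fun j s => (g j s).2) n
  have hS0 : (S 0).1 = ⟨1, fun _ => 1⟩ := rfl
  have hSs : ∀ j, S (j + 1) = (g j (S j)).2 := fun j => rfl
  set κ : ℕ → ℕ → ℂ := fun j => (g j (S j)).1.1 with hκ
  set μ : ℕ → ℝ := fun j => (g j (S j)).1.2 with hμ
  have hG := fun j => hg j (S j)
  have hBprod : ∀ j z, (S j).1.B z = ∏ i ∈ range j, uf (κ i) z := by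
    intro j
    induction j with
    | zero => intro z; rw [hS0]; simp
    | succ j ih =>
      intro z
      rw [Finset.prod_range_succ, ← ih z, hSs]
      exact (hG j).2.2.2.2.2.2.2 z
  have hldvd : ∀ j, (S j).1.l ∣ (S (j + 1)).1.l := fun j => by rw [hSs]; exact (hG j).2.2.2.2.2.1
  refine ⟨K, κ, fun j => (S j).1.l, C, μ, hK.le, fun j => (hG j).1, fun j => (hG j).2.2.1,
    fun j => (S j).2.1, ?_⟩
  intro J N _ hJN
  have hpuf : ∀ j (i : ZMod N), 1 + psym N (κ j) i = uf (κ j) (E i) := by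
    intro j i; rw [psym_eq]; rfl
  refine hglue N J κ (fun j => (S j).1.l) μ e ?_ (fun j _ => hldvd j) hJN (fun j _ => (hG j).1.summ)
    (fun j _ => (hG j).1.sum0) ?_ (fun j _ => (hG j).1.mb N) (fun j _ => (hG j).1.small N) ?_ ?_
    (fun j _ => (hepos j).le) (fun j _ => (hG j).2.1.le)
  · rw [hS0]
  · intro j _ i
    rw [hpuf]
    exact (hG j).1.le_one _ (E_norm i).le
  · intro j _
    refine ((hG j).2.2.2.2.1 N).congr fun i => ?_
    rw [hBprod]
    simp_rw [hpuf]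
    rfl
  · have h1 : ∀ j ∈ range J, e j + 4 * ((S j).1.l : ℝ) * μ j + eta (S (j + 1)).1.l (κ j) ≤ 3 * e j := by
      intro j _
      have a1 := (hG j).2.2.2.1
      have a2 := (hG j).2.2.2.2.2.2.1
      rw [← hSs] at a2
      have a1' : 4 * ((S j).1.l : ℝ) * μ j ≤ e j := a1
      have a2' : eta (S (j + 1)).1.l (κ j) ≤ e j := a2
      linarith
    calc _ ≤ ∑ j ∈ range J, 3 * e j := Finset.sum_le_sum h1
      _ = ε₀ / 2 * ∑ j ∈ range J, (1 / 2 : ℝ) ^ j := by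
          rw [Finset.mul_sum]; apply Finset.sum_congr rfl; intro j _; simp only [he]; ring
      _ ≤ ε₀ / 2 * 2 := by
          gcongr
          calc _ ≤ ∑' j : ℕ, (1 / 2 : ℝ) ^ j := summable_geometric_two.sum_le_tsum _ (fun _ _ => by positivity)
            _ = 2 := tsum_geometric_two
      _ = ε₀ := by ring

/-- the final statement, with the data of the frozen statement -/
theorem final_exists : ∃ G : ℂ → ℂ, DifferentiableOn ℂ G (Metric.ball (0 : ℂ) 1) ∧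
    (∀ z ∈ Metric.ball (0 : ℂ) 1, ‖G z‖ ≤ 1) ∧
    (∀ᵐ θ : ℝ ∂MeasureTheory.volume, ∃ w : ℂ, ‖w‖ = 1 ∧
        Filter.Tendsto (fun r : ℝ => G ((r : ℂ) * Complex.exp ((θ : ℂ) * Complex.I)))
          (nhdsWithin (1 : ℝ) (Set.Iio 1)) (nhds w)) ∧
    (∀ f : ℂ → ℂ, DifferentiableOn ℂ f (Metric.ball (0 : ℂ) 1) →
        Summable (fun n : ℕ => ‖iteratedDeriv n f 0 / (n.factorial : ℂ)‖ ^ (4 : ℝ)) →
        Summable (fun n : ℕ =>
          ‖iteratedDeriv n (fun z => G z * f z) 0 / (n.factorial : ℂ)‖ ^ (4 : ℝ))) ∧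
    (∀ M : ℕ, ∃ z : Fin M → ℂ, Function.Injective z ∧ (∀ i, ‖z i‖ < 1) ∧ (∀ i, G (z i) = 0) ∧
      ∀ i l, 2 * ‖z i - z l‖ ≤ ‖1 - (starRingEnd ℂ) (z l) * z i‖) := by
  obtain ⟨K, κ, l, C, μ, hK, hblk, hμ, hl, hMB⟩ := main_exists
  have hAN : ∀ j, ∃ c, AN c (uf (κ j)) := fun j => uf_AN (hblk j).summ
  obtain ⟨G, hG1, hG2, hG3, hG4, hG5⟩ := inf_prod (fun j => uf (κ j))
    (fun j => by obtain ⟨c, hc⟩ := hAN j; exact AN_cont hc)
    (fun j => by obtain ⟨c, hc⟩ := hAN j; exact AN_diff hc)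
    (fun j z hz => (hblk j).le_one z hz) (fun j z hz => (hblk j).unim z hz)
    (fun j z hz => by
      have := (hblk j).near z hz
      simp only [uf, add_sub_cancel_left]
      exact this.trans (hμ j))
  have hprodAN : ∀ J, ∃ c, AN c (fun z => ∏ j ∈ range J, uf (κ j) z) := by
    intro J
    induction J with
    | zero => exact ⟨_, (by simpa using W702.AN_const 1)⟩
    | succ J ih =>
      obtain ⟨c, hc⟩ := ih
      obtain ⟨c', hc'⟩ := hAN J
      refine ⟨_, W702.AN_congr (W702.AN_mul hc hc') fun z _ => ?_⟩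
      rw [Finset.prod_range_succ]
  choose cJ hcJ using hprodAN
  choose b hb1 hb2 hb3 using hcJ
  refine ⟨G, hG1, hG2, hG5, ?_, ?_⟩
  · intro f hf hs
    refine coef_transfer K hK (fun J z => ∏ j ∈ range J, uf (κ j) z) b G hb1
      (fun J z hz => hb3 J z hz.le) ?_ hG1 hG4 f hf hs
    intro J
    refine ⟨l J, hl J, fun N _ hN => ?_⟩
    refine (hMB J N hN).congr fun i => ?_
    rw [psym_eq, ← hb3 J _ (E_norm i).le]
    apply Finset.prod_congr rfl; intro j _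
    rw [psym_eq]; rfl
  · intro M
    obtain ⟨z, hz1, hz2, hz3, hz4⟩ := (hblk M).zeros
    refine ⟨z, hz1, hz2, fun i => ?_, hz4⟩
    exact hG3 M (z i) (by simpa using hz2 i) (hz3 i)

end IM
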