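import Pool.Agent.MP58366f.Base
set_option autoImplicit false
set_option linter.unusedSectionVars false
open Finset
namespace IM
variable {N : ℕ} [NeZero N]

/-- block start -/
def bs (ℓ : ℕ) (n : ZMod N) : ℕ := (n.val / ℓ) * ℓ

/-- average over blocks of length `ℓ` -/
noncomputable def Av {R : Type*} [Field R] (ℓ : ℕ) (f : ZMod N → R) : ZMod N → R :=
  fun n => (1 / (ℓ : R)) * ∑ r ∈ range ℓ, f ((bs ℓ n + r : ℕ) : ZMod N)

/-- block-constant -/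
def BC {R : Type*} (ℓ : ℕ) (g : ZMod N → R) : Prop :=
  ∀ n n' : ZMod N, n.val / ℓ = n'.val / ℓ → g n = g n'

lemma sum_range_mul' {M : Type*} [AddCommMonoid M] (Q ℓ : ℕ) (φ : ℕ → M) :
    ∑ i ∈ range (Q * ℓ), φ i = ∑ q ∈ range Q, ∑ r ∈ range ℓ, φ (q * ℓ + r) := by
  induction Q with
  | zero => simp
  | succ Q ih =>
    rw [Nat.succ_mul, Finset.sum_range_add, ih, Finset.sum_range_succ]

lemma sum_zmod {M : Type*} [AddCommMonoid M] (φ : ZMod N → M) :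
    ∑ n, φ n = ∑ i ∈ range N, φ (i : ZMod N) := by
  refine Finset.sum_nbij' (fun n => n.val) (fun i => (i : ZMod N)) ?_ ?_ ?_ ?_ ?_
  · intro n _; simpa using ZMod.val_lt n
  · intro i _; simp
  · intro n _; simp
  · intro i hi; exact ZMod.val_natCast_of_lt (by simpa using hi)
  · intro n _; simp

lemma sum_blocks {M : Type*} [AddCommMonoid M] {ℓ : ℕ} (hℓ : ℓ ∣ N) (φ : ZMod N → M) :
    ∑ n, φ n = ∑ q ∈ range (N / ℓ), ∑ r ∈ range ℓ, φ ((q * ℓ + r : ℕ) : ZMod N) := by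
  rw [sum_zmod, ← sum_range_mul' (N / ℓ) ℓ (fun i => φ (i : ZMod N)), Nat.div_mul_cancel hℓ]

lemma val_block {ℓ q r : ℕ} (hℓ : ℓ ∣ N) (hq : q < N / ℓ) (hr : r < ℓ) :
    ((q * ℓ + r : ℕ) : ZMod N).val = q * ℓ + r := by
  apply ZMod.val_natCast_of_lt
  calc q * ℓ + r < q * ℓ + ℓ := by omega
    _ = (q + 1) * ℓ := by ring
    _ ≤ (N / ℓ) * ℓ := Nat.mul_le_mul_right _ hq
    _ = N := Nat.div_mul_cancel hℓ

lemma div_block {q r ℓ : ℕ} (hr : r < ℓ) : (q * ℓ + r) / ℓ = q := by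
  have : 0 < ℓ := by omega
  rw [mul_comm, Nat.mul_add_div this, Nat.div_eq_of_lt hr, add_zero]

lemma val_div_block {ℓ q r : ℕ} (hℓ : ℓ ∣ N) (hq : q < N / ℓ) (hr : r < ℓ) :
    ((q * ℓ + r : ℕ) : ZMod N).val / ℓ = q := by
  rw [val_block hℓ hq hr, div_block hr]

lemma bs_block {ℓ q r : ℕ} (hℓ : ℓ ∣ N) (hq : q < N / ℓ) (hr : r < ℓ) :
    bs ℓ ((q * ℓ + r : ℕ) : ZMod N) = q * ℓ := by
  rw [bs, val_div_block hℓ hq hr]

lemma Av_block {R : Type*} [Field R] {ℓ q r : ℕ} (hℓ : ℓ ∣ N) (hq : q < N / ℓ) (hr : r < ℓ)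
    (f : ZMod N → R) : Av ℓ f ((q * ℓ + r : ℕ) : ZMod N)
      = (1 / (ℓ : R)) * ∑ r ∈ range ℓ, f ((q * ℓ + r : ℕ) : ZMod N) := by
  rw [Av, bs_block hℓ hq hr]

lemma BC.block {R : Type*} {ℓ q r : ℕ} (hℓ : ℓ ∣ N) (hq : q < N / ℓ) (hr : r < ℓ)
    {g : ZMod N → R} (hg : BC ℓ g) :
    g ((q * ℓ + r : ℕ) : ZMod N) = g ((q * ℓ : ℕ) : ZMod N) := by
  apply hg
  have h0 : 0 < ℓ := by omega
  have := val_div_block (N := N) hℓ hq h0
  rw [add_zero] at this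
  rw [val_div_block hℓ hq hr, this]

lemma Av_BC {R : Type*} [Field R] (ℓ : ℕ) (f : ZMod N → R) : BC ℓ (Av ℓ f) := by
  intro n n' h
  simp only [Av, bs, h]

lemma BC.mono {R : Type*} {ℓ ℓ' : ℕ} {g : ZMod N → R} (hg : BC ℓ' g) (h : ℓ ∣ ℓ') : BC ℓ g := by
  intro n n' hn
  apply hg
  obtain ⟨c, rfl⟩ := h
  rw [← Nat.div_div_eq_div_mul, ← Nat.div_div_eq_div_mul, hn]

lemma BC.mul {ℓ : ℕ} {g h : ZMod N → ℂ} (hg : BC ℓ g) (hh : BC ℓ h) : BC ℓ (fun n => g n * h n) := by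
  intro n n' hn
  simp only [hg n n' hn, hh n n' hn]

lemma BC.comp {R S : Type*} {ℓ : ℕ} {g : ZMod N → R} (hg : BC ℓ g) (F : R → S) : BC ℓ (fun n => F (g n)) := by
  intro n n' hn
  simp only [hg n n' hn]

lemma BC.add {ℓ : ℕ} {g h : ZMod N → ℂ} (hg : BC ℓ g) (hh : BC ℓ h) : BC ℓ (g + h) := by
  intro n n' hn
  simp only [Pi.add_apply, hg n n' hn, hh n n' hn]

lemma BC.sub {ℓ : ℕ} {g h : ZMod N → ℂ} (hg : BC ℓ g) (hh : BC ℓ h) : BC ℓ (g - h) := by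
  intro n n' hn
  simp only [Pi.sub_apply, hg n n' hn, hh n n' hn]

lemma Av_add (ℓ : ℕ) (f g : ZMod N → ℂ) : Av ℓ (f + g) = Av ℓ f + Av ℓ g := by
  funext n; simp [Av, Finset.sum_add_distrib, mul_add]

lemma Av_sub (ℓ : ℕ) (f g : ZMod N → ℂ) : Av ℓ (f - g) = Av ℓ f - Av ℓ g := by
  funext n; simp [Av, mul_sub]

/-- block-constant functions are fixed -/
lemma Av_fix {R : Type*} [Field R] [CharZero R] {ℓ : ℕ} (hℓ : ℓ ∣ N) {g : ZMod N → R}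
    (hg : BC ℓ g) : Av ℓ g = g := by
  have hN : 0 < N := Nat.pos_of_ne_zero (NeZero.ne N)
  have hpos : 0 < ℓ := Nat.pos_of_dvd_of_pos hℓ hN
  funext n
  have hq : n.val / ℓ < N / ℓ := by
    apply Nat.div_lt_div_of_lt_of_dvd hℓ (ZMod.val_lt n)
  have h1 : ∀ r ∈ range ℓ, g ((bs ℓ n + r : ℕ) : ZMod N) = g n := by
    intro r hr
    apply hg
    rw [bs, val_div_block hℓ hq (by simpa using hr)]
  rw [Av, Finset.sum_congr rfl h1]
  simp only [Finset.sum_const, Finset.card_range, nsmul_eq_mul]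
  have : (ℓ : R) ≠ 0 := by exact_mod_cast hpos.ne'
  field_simp

/-- weighted sums -/
lemma sum_Av {R : Type*} [Field R] [CharZero R] {ℓ : ℕ} (hℓ : ℓ ∣ N) {G : ZMod N → R}
    (hG : BC ℓ G) (g : ZMod N → R) : ∑ n, G n * Av ℓ g n = ∑ n, G n * g n := by
  have hN : 0 < N := Nat.pos_of_ne_zero (NeZero.ne N)
  have hpos : 0 < ℓ := Nat.pos_of_dvd_of_pos hℓ hN
  have hR : (ℓ : R) ≠ 0 := by exact_mod_cast hpos.ne'
  rw [sum_blocks hℓ, sum_blocks hℓ]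
  apply Finset.sum_congr rfl; intro q hq
  have hq' : q < N / ℓ := by simpa using hq
  have h1 : ∀ r ∈ range ℓ, G ((q * ℓ + r : ℕ) : ZMod N) * Av ℓ g ((q * ℓ + r : ℕ) : ZMod N)
      = G ((q * ℓ : ℕ) : ZMod N) * ((1 / (ℓ : R)) * ∑ r ∈ range ℓ, g ((q * ℓ + r : ℕ) : ZMod N)) := by
    intro r hr
    rw [Av_block hℓ hq' (by simpa using hr), hG.block hℓ hq' (by simpa using hr)]
  have h2 : ∀ r ∈ range ℓ, G ((q * ℓ + r : ℕ) : ZMod N) * g ((q * ℓ + r : ℕ) : ZMod N)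
      = G ((q * ℓ : ℕ) : ZMod N) * g ((q * ℓ + r : ℕ) : ZMod N) := by
    intro r hr
    rw [hG.block hℓ hq' (by simpa using hr)]
  rw [Finset.sum_congr rfl h1, Finset.sum_congr rfl h2, ← Finset.mul_sum]
  simp only [Finset.sum_const, Finset.card_range, nsmul_eq_mul]
  rw [← Finset.mul_sum]
  field_simp

lemma sum_Av_norm_pow {ℓ : ℕ} (hℓ : ℓ ∣ N) {W : ZMod N → ℝ} (hW : BC ℓ W) (hW0 : ∀ n, 0 ≤ W n)
    (f : ZMod N → ℂ) (p : ℕ) : ∑ n, W n * ‖Av ℓ f n‖ ^ p ≤ ∑ n, W n * ‖f n‖ ^ p := by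
  have hN : 0 < N := Nat.pos_of_ne_zero (NeZero.ne N)
  have hpos : 0 < ℓ := Nat.pos_of_dvd_of_pos hℓ hN
  rw [← sum_Av hℓ hW (fun n => ‖f n‖ ^ p)]
  apply Finset.sum_le_sum; intro n _
  apply mul_le_mul_of_nonneg_left _ (hW0 n)
  simp only [Av]
  have hc : (0:ℝ) < (card (range ℓ) : ℝ) := by simp [hpos]
  have h1 : ‖(1 / (ℓ : ℂ)) * ∑ r ∈ range ℓ, f ((bs ℓ n + r : ℕ) : ZMod N)‖
      ≤ (1 / (ℓ : ℝ)) * ∑ r ∈ range ℓ, ‖f ((bs ℓ n + r : ℕ) : ZMod N)‖ := by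
    rw [norm_mul]
    have : ‖(1 / (ℓ : ℂ))‖ = 1 / (ℓ : ℝ) := by simp
    rw [this]
    gcongr
    exact norm_sum_le _ _
  calc _ ≤ ((1 / (ℓ : ℝ)) * ∑ r ∈ range ℓ, ‖f ((bs ℓ n + r : ℕ) : ZMod N)‖) ^ p := by gcongr
    _ ≤ _ := by
      have h2 := Real.pow_arith_mean_le_arith_mean_pow (range ℓ) (fun _ => 1 / (ℓ:ℝ))
        (fun r => ‖f ((bs ℓ n + r : ℕ) : ZMod N)‖) (fun _ _ => by positivity)
        (by simp only [Finset.sum_const, Finset.card_range, nsmul_eq_mul]; field_simp)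
        (fun _ _ => norm_nonneg _) p
      simp only [← Finset.mul_sum] at h2
      exact h2

lemma N4_Av_le {ℓ : ℕ} (hℓ : ℓ ∣ N) (f : ZMod N → ℂ) : N4 (Av ℓ f) ≤ N4 f := by
  apply N4_le_of_pow (N4_nonneg _)
  rw [N4_pow]
  have := sum_Av_norm_pow (N := N) hℓ (W := fun _ => 1) (fun _ _ _ => rfl) (fun _ => zero_le_one) f 4
  simpa using this

/-- mean-zero times block-constant -/
lemma sum_mul_eq_zero {ℓ : ℕ} (hℓ : ℓ ∣ N) {G : ZMod N → ℂ} (hG : BC ℓ G) {x : ZMod N → ℂ}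
    (hx : Av ℓ x = 0) : ∑ n, G n * x n = 0 := by
  rw [← sum_Av hℓ hG, hx]; simp


/-! ### shifts of block-constant functions -/

/-- crossing count, first kind -/
lemma sum_small_rem {ℓ m : ℕ} (hℓ : ℓ ∣ N) (hm : m ≤ ℓ) {W : ZMod N → ℝ} (hW : BC ℓ W) :
    (ℓ : ℝ) * ∑ n : ZMod N, (if n.val % ℓ < m then W n else 0) = m * ∑ n, W n := by
  rw [sum_blocks hℓ, sum_blocks hℓ, Finset.mul_sum, Finset.mul_sum]
  apply Finset.sum_congr rfl; intro q hq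
  have hq' : q < N / ℓ := by simpa using hq
  have h2 : ∀ r ∈ range ℓ, W ((q * ℓ + r : ℕ) : ZMod N) = W ((q * ℓ : ℕ) : ZMod N) :=
    fun r hr => hW.block hℓ hq' (by simpa using hr)
  have h1 : ∀ r ∈ range ℓ, (if ((q * ℓ + r : ℕ) : ZMod N).val % ℓ < m then W ((q * ℓ + r : ℕ) : ZMod N) else 0)
      = if r < m then W ((q * ℓ : ℕ) : ZMod N) else 0 := by
    intro r hr
    have hr' : r < ℓ := by simpa using hr
    rw [val_block hℓ hq' hr', h2 r hr, Nat.mul_add_mod_of_lt hr']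
  rw [Finset.sum_congr rfl h1, Finset.sum_congr rfl h2, ← Finset.sum_filter]
  have h3 : (range ℓ).filter (fun r => r < m) = range m := by
    ext r; simp; omega
  rw [h3]
  simp only [Finset.sum_const, Finset.card_range, nsmul_eq_mul]
  ring

lemma blk_add {ℓ t : ℕ} (hℓ : ℓ ∣ N) (p : ZMod N) (h : p.val % ℓ + t < ℓ) :
    (p + (t : ZMod N)).val / ℓ = p.val / ℓ := by
  have hN : 0 < N := Nat.pos_of_ne_zero (NeZero.ne N)
  have hpos : 0 < ℓ := by omega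
  have hle : ℓ ≤ N := Nat.le_of_dvd hN hℓ
  have ht : (t : ZMod N).val = t := ZMod.val_natCast_of_lt (by omega)
  have hq : p.val / ℓ < N / ℓ := Nat.div_lt_div_of_lt_of_dvd hℓ (ZMod.val_lt p)
  have h1 : p.val + t < N := by
    have h2 := Nat.div_add_mod p.val ℓ
    calc p.val + t = ℓ * (p.val / ℓ) + (p.val % ℓ + t) := by omega
      _ < ℓ * (p.val / ℓ) + ℓ := by omega
      _ = (p.val / ℓ + 1) * ℓ := by ring
      _ ≤ (N / ℓ) * ℓ := Nat.mul_le_mul_right _ hq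
      _ = N := Nat.div_mul_cancel hℓ
  rw [ZMod.val_add_of_lt (by rw [ht]; exact h1), ht]
  conv_lhs => rw [← Nat.div_add_mod p.val ℓ, add_assoc, Nat.mul_add_div hpos, Nat.div_eq_of_lt h]
  simp

lemma rem_sub {ℓ : ℕ} (hℓ : ℓ ∣ N) (n : ZMod N) : (n - (ℓ : ZMod N)).val % ℓ = n.val % ℓ := by
  have h : n = (n - (ℓ : ZMod N)) + (ℓ : ZMod N) := by ring
  conv_rhs => rw [h, ZMod.val_add, Nat.mod_mod_of_dvd _ hℓ, Nat.add_mod]
  have h2 : (ℓ : ZMod N).val % ℓ = 0 := by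
    rw [ZMod.val_natCast, Nat.mod_mod_of_dvd _ hℓ, Nat.mod_self]
  rw [h2]; simp

lemma BC_shift_block {R : Type*} {ℓ : ℕ} (hℓ : ℓ ∣ N) {W : ZMod N → R} (hW : BC ℓ W) :
    BC ℓ (fun n => W (n - (ℓ : ZMod N))) := by
  have hN : 0 < N := Nat.pos_of_ne_zero (NeZero.ne N)
  have hpos : 0 < ℓ := Nat.pos_of_dvd_of_pos hℓ hN
  have key : ∀ n n' : ZMod N, n.val / ℓ = n'.val / ℓ → n.val % ℓ ≤ n'.val % ℓ →
      W (n - (ℓ : ZMod N)) = W (n' - (ℓ : ZMod N)) := by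
    intro n n' h hle
    have h1 : n' = n + ((n'.val % ℓ - n.val % ℓ : ℕ) : ZMod N) := by
      have a1 := Nat.div_add_mod n.val ℓ
      have a2 := Nat.div_add_mod n'.val ℓ
      have : n'.val = n.val + (n'.val % ℓ - n.val % ℓ) := by
        rw [← h] at a2; omega
      have h3 : ((n'.val : ℕ) : ZMod N) = ((n.val + (n'.val % ℓ - n.val % ℓ) : ℕ) : ZMod N) := by
        rw [← this]
      rw [Nat.cast_add, ZMod.natCast_zmod_val, ZMod.natCast_zmod_val] at h3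
      exact h3
    have h2 : n' - (ℓ : ZMod N) = (n - (ℓ : ZMod N)) + ((n'.val % ℓ - n.val % ℓ : ℕ) : ZMod N) := by
      conv_lhs => rw [h1]
      ring
    rw [h2]
    apply hW
    rw [blk_add hℓ]
    rw [rem_sub hℓ]
    have := Nat.mod_lt n'.val hpos
    omega
  intro n n' h
  rcases le_total (n.val % ℓ) (n'.val % ℓ) with h1 | h1
  · exact key n n' h h1
  · exact (key n' n h.symm h1).symm

lemma sub_of_rem_lt {R : Type*} {ℓ m : ℕ} (hℓ : ℓ ∣ N) (hm : m ≤ ℓ) {W : ZMod N → R} (hW : BC ℓ W)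
    (n : ZMod N) (h : n.val % ℓ < m) : W (n - (m : ZMod N)) = W (n - (ℓ : ZMod N)) := by
  have h2 : n - (m : ZMod N) = (n - (ℓ : ZMod N)) + ((ℓ - m : ℕ) : ZMod N) := by
    rw [Nat.cast_sub hm]; ring
  rw [h2]
  apply hW
  rw [blk_add hℓ]
  rw [rem_sub hℓ]; omega

lemma sub_of_rem_ge {R : Type*} {ℓ m : ℕ} (hℓ : ℓ ∣ N) {W : ZMod N → R} (hW : BC ℓ W)
    (n : ZMod N) (h : m ≤ n.val % ℓ) : W (n - (m : ZMod N)) = W n := by
  have hN : 0 < N := Nat.pos_of_ne_zero (NeZero.ne N)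
  have hpos : 0 < ℓ := Nat.pos_of_dvd_of_pos hℓ hN
  have h1 : m ≤ n.val := h.trans (Nat.mod_le _ _)
  have h2 : n - (m : ZMod N) = ((n.val - m : ℕ) : ZMod N) := by
    rw [Nat.cast_sub h1, ZMod.natCast_zmod_val]
  apply hW
  rw [h2, ZMod.val_natCast_of_lt (by have := ZMod.val_lt n; omega)]
  have a1 := Nat.div_add_mod n.val ℓ
  have a2 := Nat.mod_lt n.val hpos
  have : n.val - m = ℓ * (n.val / ℓ) + (n.val % ℓ - m) := by omega
  have h5 : (n.val % ℓ - m) / ℓ = 0 := Nat.div_eq_of_lt (by omega)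
  rw [this, Nat.mul_add_div hpos, h5]
  simp

lemma sum_sub {R : Type*} [AddCommMonoid R] (W : ZMod N → R) (a : ZMod N) :
    ∑ n, W (n - a) = ∑ n, W n :=
  Equiv.sum_comp (Equiv.subRight a) W

/-- (A4) -/
lemma shift_BC {ℓ m : ℕ} (hℓ : ℓ ∣ N) (hm : m ≤ ℓ) {g : ZMod N → ℂ} (hg : BC ℓ g) :
    (ℓ : ℝ) * N4 (fun n => g n - g (n - (m : ZMod N))) ^ 4 ≤ 16 * m * N4 g ^ 4 := by
  have hW : BC ℓ (fun n => ‖g n‖ ^ 4) := hg.comp (fun z => ‖z‖ ^ 4)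
  have hW2 := BC_shift_block hℓ hW
  rw [N4_pow, N4_pow]
  have h1 : ∀ n : ZMod N, ‖g n - g (n - (m : ZMod N))‖ ^ 4 ≤
      8 * (if n.val % ℓ < m then ‖g n‖ ^ 4 else 0)
      + 8 * (if n.val % ℓ < m then ‖g (n - (ℓ : ZMod N))‖ ^ 4 else 0) := by
    intro n
    split_ifs with h
    · rw [sub_of_rem_lt hℓ hm hg n h]
      have h2 : ‖g n - g (n - (ℓ : ZMod N))‖ ≤ ‖g n‖ + ‖g (n - (ℓ : ZMod N))‖ := norm_sub_le _ _
      set a := ‖g n‖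
      set b := ‖g (n - (ℓ : ZMod N))‖
      have ha : 0 ≤ a := norm_nonneg _
      have hb : 0 ≤ b := norm_nonneg _
      calc ‖g n - g (n - (ℓ : ZMod N))‖ ^ 4 ≤ (a + b) ^ 4 := by gcongr
        _ ≤ 8 * a ^ 4 + 8 * b ^ 4 := by nlinarith [sq_nonneg (a - b), sq_nonneg (a ^ 2 - b ^ 2), mul_nonneg ha hb, sq_nonneg (a * (a - b)), sq_nonneg (b * (a - b)), sq_nonneg (a + b)]
    · rw [sub_of_rem_ge hℓ hg n (by omega)]
      simp
  calc (ℓ : ℝ) * ∑ n : ZMod N, ‖g n - g (n - (m : ZMod N))‖ ^ 4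
      ≤ ℓ * ∑ n : ZMod N, (8 * (if n.val % ℓ < m then ‖g n‖ ^ 4 else 0)
      + 8 * (if n.val % ℓ < m then ‖g (n - (ℓ : ZMod N))‖ ^ 4 else 0)) := by
        gcongr with n _
        exact h1 n
    _ = 8 * (ℓ * ∑ n : ZMod N, (if n.val % ℓ < m then ‖g n‖ ^ 4 else 0))
      + 8 * (ℓ * ∑ n : ZMod N, (if n.val % ℓ < m then ‖g (n - (ℓ : ZMod N))‖ ^ 4 else 0)) := by
        rw [Finset.sum_add_distrib, ← Finset.mul_sum, ← Finset.mul_sum]; ring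
    _ = 8 * (m * ∑ n, ‖g n‖ ^ 4) + 8 * (m * ∑ n, ‖g (n - (ℓ : ZMod N))‖ ^ 4) := by
        rw [sum_small_rem hℓ hm hW, sum_small_rem hℓ hm hW2]
    _ = _ := by
        rw [sum_sub (fun n => ‖g n‖ ^ 4)]; ring

end IM
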