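import Pool.Agent.MP58366f.GL1
set_option autoImplicit false
set_option linter.unusedSectionVars false
open Finset
namespace IM
variable {N : ℕ} [NeZero N]

lemma pow4_sum_le (s : Finset ℕ) (a : ℕ → ℝ) (ha : ∀ i ∈ s, 0 ≤ a i) :
    (∑ i ∈ s, a i) ^ 4 ≤ (s.card : ℝ) ^ 3 * ∑ i ∈ s, a i ^ 4 := by
  have := pow_sum_le_card_mul_sum_pow (s := s) (f := a) ha 3
  simpa using this

/-- (A6) -/
lemma N4_sub_Av_le {ℓ : ℕ} (hℓ : ℓ ∣ N) (F : ZMod N → ℂ) :
    N4 (F - Av ℓ F) ≤ ℓ * N4 (fun n => F n - F (n - 1)) := by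
  have hN : 0 < N := Nat.pos_of_ne_zero (NeZero.ne N)
  have hpos : 0 < ℓ := Nat.pos_of_dvd_of_pos hℓ hN
  apply N4_le_of_pow (by have := N4_nonneg (fun n : ZMod N => F n - F (n - 1)); positivity)
  rw [mul_pow, N4_pow]
  set D : ZMod N → ℂ := fun n => F n - F (n - 1) with hD
  -- block sums of |D|
  have key : ∀ q < N / ℓ, ∀ r < ℓ, ‖(F - Av ℓ F) ((q * ℓ + r : ℕ) : ZMod N)‖ ≤
      ∑ i ∈ range ℓ, ‖D ((q * ℓ + i : ℕ) : ZMod N)‖ := by
    intro q hq r hr
    have step : ∀ a b : ℕ, a ≤ b → b < ℓ → ‖F ((q * ℓ + b : ℕ) : ZMod N) - F ((q * ℓ + a : ℕ) : ZMod N)‖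
        ≤ ∑ i ∈ range ℓ, ‖D ((q * ℓ + i : ℕ) : ZMod N)‖ := by
      intro a b hab hb
      have h1 : ‖F ((q * ℓ + b : ℕ) : ZMod N) - F ((q * ℓ + a : ℕ) : ZMod N)‖
        ≤ ∑ i ∈ Ico (a + 1) (b + 1), ‖D ((q * ℓ + i : ℕ) : ZMod N)‖ := by
        clear hb
        induction b, hab using Nat.le_induction with
        | base => simp
        | succ b hab ih =>
          rw [Finset.sum_Ico_succ_top (by omega)]
          have h3 : D ((q * ℓ + (b + 1) : ℕ) : ZMod N) = F ((q * ℓ + (b + 1) : ℕ) : ZMod N) - F ((q * ℓ + b : ℕ) : ZMod N) := by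
            simp only [hD]
            congr 2
            push_cast; ring
          calc _ = ‖(F ((q * ℓ + b : ℕ) : ZMod N) - F ((q * ℓ + a : ℕ) : ZMod N)) + D ((q * ℓ + (b + 1) : ℕ) : ZMod N)‖ := by
                rw [h3]; congr 1; ring
            _ ≤ _ := norm_add_le _ _
            _ ≤ _ := by gcongr
      refine h1.trans ?_
      apply Finset.sum_le_sum_of_subset_of_nonneg
      · intro i hi; simp at hi ⊢; omega
      · intro _ _ _; positivity
    have step2 : ∀ b < ℓ, ‖F ((q * ℓ + r : ℕ) : ZMod N) - F ((q * ℓ + b : ℕ) : ZMod N)‖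
        ≤ ∑ i ∈ range ℓ, ‖D ((q * ℓ + i : ℕ) : ZMod N)‖ := by
      intro b hb
      rcases le_total b r with h | h
      · exact step b r h hr
      · rw [norm_sub_rev]; exact step r b h hb
    have hℓC : (ℓ : ℂ) ≠ 0 := by exact_mod_cast hpos.ne'
    have h4 : (F - Av ℓ F) ((q * ℓ + r : ℕ) : ZMod N) = (1 / (ℓ : ℂ)) * ∑ b ∈ range ℓ,
        (F ((q * ℓ + r : ℕ) : ZMod N) - F ((q * ℓ + b : ℕ) : ZMod N)) := by
      rw [Pi.sub_apply, Av_block hℓ hq hr, Finset.sum_sub_distrib]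
      simp only [Finset.sum_const, Finset.card_range, nsmul_eq_mul]
      field_simp
    rw [h4, norm_mul]
    have h5 : ‖(1 / (ℓ : ℂ))‖ = 1 / (ℓ : ℝ) := by simp
    rw [h5]
    calc (1 / (ℓ : ℝ)) * ‖∑ b ∈ range ℓ, (F ((q * ℓ + r : ℕ) : ZMod N) - F ((q * ℓ + b : ℕ) : ZMod N))‖
        ≤ (1 / (ℓ : ℝ)) * ∑ b ∈ range ℓ, ∑ i ∈ range ℓ, ‖D ((q * ℓ + i : ℕ) : ZMod N)‖ := by
          gcongr
          refine (norm_sum_le _ _).trans ?_
          apply Finset.sum_le_sum; intro b hb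
          exact step2 b (by simpa using hb)
      _ = _ := by
          simp only [Finset.sum_const, Finset.card_range, nsmul_eq_mul]
          have : (ℓ : ℝ) ≠ 0 := by exact_mod_cast hpos.ne'
          field_simp
  rw [sum_blocks hℓ, sum_blocks hℓ, Finset.mul_sum]
  apply Finset.sum_le_sum; intro q hq
  have hq' : q < N / ℓ := by simpa using hq
  calc ∑ r ∈ range ℓ, ‖(F - Av ℓ F) ((q * ℓ + r : ℕ) : ZMod N)‖ ^ 4
      ≤ ∑ r ∈ range ℓ, (ℓ : ℝ) ^ 3 * ∑ i ∈ range ℓ, ‖D ((q * ℓ + i : ℕ) : ZMod N)‖ ^ 4 := by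
        apply Finset.sum_le_sum; intro r hr
        have hr' : r < ℓ := by simpa using hr
        calc _ ≤ (∑ i ∈ range ℓ, ‖D ((q * ℓ + i : ℕ) : ZMod N)‖) ^ 4 := by
              gcongr; exact key q hq' r hr'
          _ ≤ _ := by
              have := pow4_sum_le (range ℓ) (fun i => ‖D ((q * ℓ + i : ℕ) : ZMod N)‖) (fun _ _ => norm_nonneg _)
              simpa using this
    _ = _ := by
        simp only [Finset.sum_const, Finset.card_range, nsmul_eq_mul]; ring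

lemma one_val_mod (p : ZMod N) {ℓ : ℕ} (hℓ : ℓ ∣ N) : (p + 1).val % ℓ = (p.val + 1) % ℓ := by
  rw [ZMod.val_add, Nat.mod_mod_of_dvd _ hℓ]
  have h1 : (1 : ZMod N).val = 1 % N := by
    have := ZMod.val_natCast N 1
    simpa using this
  rw [h1, Nat.add_mod, Nat.mod_mod_of_dvd _ hℓ, ← Nat.add_mod]

/-- (A5) -/
lemma exists_primitive {ℓ : ℕ} (hℓ : ℓ ∣ N) (f : ZMod N → ℂ) :
    ∃ G : ZMod N → ℂ, (∀ n, f n - Av ℓ f n = G n - G (n - 1)) ∧ N4 G ≤ 2 * ℓ * N4 f := by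
  have hN : 0 < N := Nat.pos_of_ne_zero (NeZero.ne N)
  have hpos : 0 < ℓ := Nat.pos_of_dvd_of_pos hℓ hN
  have hℓC : (ℓ : ℂ) ≠ 0 := by exact_mod_cast hpos.ne'
  set h : ZMod N → ℂ := f - Av ℓ f with hh
  have hAv : Av ℓ h = 0 := by
    rw [hh, Av_sub, Av_fix hℓ (Av_BC ℓ f)]; simp
  have hsum : ∀ p : ZMod N, ∑ i ∈ range ℓ, h ((bs ℓ p + i : ℕ) : ZMod N) = 0 := by
    intro p
    have := congrFun hAv p
    simp only [Av, Pi.zero_apply] at this
    field_simp at this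
    simpa using this
  refine ⟨fun n : ZMod N => ∑ i ∈ range (n.val % ℓ + 1), h ((bs ℓ n + i : ℕ) : ZMod N), ?_, ?_⟩
  · intro n
    obtain ⟨p, rfl⟩ : ∃ p, n = p + 1 := ⟨n - 1, by ring⟩
    rw [add_sub_cancel_right]
    have hval : ∀ m : ZMod N, h ((bs ℓ m + m.val % ℓ : ℕ) : ZMod N) = h m := by
      intro m
      congr 1
      have : bs ℓ m + m.val % ℓ = m.val := by
        rw [bs, mul_comm]; exact Nat.div_add_mod m.val ℓ
      rw [this, ZMod.natCast_zmod_val]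
    have hpm := Nat.mod_lt p.val hpos
    have hpv : (p.val + 1) % ℓ = (p.val % ℓ + 1) % ℓ := by rw [Nat.mod_add_mod]
    change h (p + 1) = ∑ i ∈ range ((p + 1).val % ℓ + 1), h ((bs ℓ (p + 1) + i : ℕ) : ZMod N)
      - ∑ i ∈ range (p.val % ℓ + 1), h ((bs ℓ p + i : ℕ) : ZMod N)
    rcases Nat.lt_or_ge (p.val % ℓ + 1) ℓ with hlt | hge
    · have e1 : (p + 1).val % ℓ = p.val % ℓ + 1 := by
        rw [one_val_mod p hℓ, hpv, Nat.mod_eq_of_lt hlt]
      have e2 : bs ℓ (p + 1) = bs ℓ p := by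
        have := blk_add (t := 1) hℓ p hlt
        rw [Nat.cast_one] at this
        rw [bs, bs, this]
      rw [e1, e2, Finset.sum_range_succ _ (p.val % ℓ + 1)]
      have := hval (p + 1)
      rw [e1, e2] at this
      rw [this]; ring
    · have e0 : p.val % ℓ + 1 = ℓ := by omega
      have e1 : (p + 1).val % ℓ = 0 := by
        rw [one_val_mod p hℓ, hpv, e0, Nat.mod_self]
      rw [e1, e0, hsum p]
      have := hval (p + 1)
      rw [e1] at this
      simp only [zero_add, Finset.sum_range_one, sub_zero]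
      exact this.symm
  · have h2 : N4 h ≤ 2 * N4 f := by
      calc N4 h ≤ N4 f + N4 (Av ℓ f) := N4_sub_le _ _
        _ ≤ N4 f + N4 f := by gcongr; exact N4_Av_le hℓ f
        _ = _ := by ring
    have h3 : N4 (fun n : ZMod N => ∑ i ∈ range (n.val % ℓ + 1), h ((bs ℓ n + i : ℕ) : ZMod N)) ≤ ℓ * N4 h := by
      apply N4_le_of_pow (by have := N4_nonneg h; positivity)
      rw [mul_pow, N4_pow, sum_blocks hℓ, sum_blocks hℓ, Finset.mul_sum]
      apply Finset.sum_le_sum; intro q hq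
      have hq' : q < N / ℓ := by simpa using hq
      calc _ ≤ ∑ r ∈ range ℓ, (ℓ : ℝ) ^ 3 * ∑ i ∈ range ℓ, ‖h ((q * ℓ + i : ℕ) : ZMod N)‖ ^ 4 := by
            apply Finset.sum_le_sum; intro r hr
            have hr' : r < ℓ := by simpa using hr
            rw [bs_block hℓ hq' hr']
            have hle : ‖∑ i ∈ range ((((q * ℓ + r : ℕ) : ZMod N)).val % ℓ + 1), h ((q * ℓ + i : ℕ) : ZMod N)‖
                ≤ ∑ i ∈ range ℓ, ‖h ((q * ℓ + i : ℕ) : ZMod N)‖ := by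
              refine (norm_sum_le _ _).trans ?_
              apply Finset.sum_le_sum_of_subset_of_nonneg
              · intro i hi
                have := Nat.mod_lt (((q * ℓ + r : ℕ) : ZMod N)).val hpos
                simp only [Finset.mem_range] at hi ⊢
                omega
              · intro _ _ _; positivity
            calc _ ≤ (∑ i ∈ range ℓ, ‖h ((q * ℓ + i : ℕ) : ZMod N)‖) ^ 4 := by gcongr
              _ ≤ _ := by
                  have := pow4_sum_le (range ℓ) (fun i => ‖h ((q * ℓ + i : ℕ) : ZMod N)‖) (fun _ _ => norm_nonneg _)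
                  simpa using this
        _ = _ := by
            simp only [Finset.sum_const, Finset.card_range, nsmul_eq_mul]; ring
    calc _ ≤ ℓ * N4 h := h3
      _ ≤ ℓ * (2 * N4 f) := by gcongr
      _ = _ := by ring

/-! ### kernels -/

noncomputable def psym (N : ℕ) [NeZero N] (κ : ℕ → ℂ) : ZMod N → ℂ := fun j => ∑' m : ℕ, κ m * E (j * (m : ZMod N))

noncomputable def Kact (κ : ℕ → ℂ) (f : ZMod N → ℂ) : ZMod N → ℂ := fun n => ∑' m : ℕ, κ m * f (n - (m : ZMod N))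

lemma summable_bdd {κ : ℕ → ℂ} (hκ : Summable fun m => ‖κ m‖) {c : ℕ → ℂ} {B : ℝ} (hc : ∀ m, ‖c m‖ ≤ B) :
    Summable fun m => κ m * c m := by
  apply Summable.of_norm
  apply Summable.of_nonneg_of_le (fun _ => norm_nonneg _) (fun m => ?_) (hκ.mul_right B)
  rw [norm_mul]
  gcongr
  exact hc m

lemma exists_bound (f : ZMod N → ℂ) : ∃ B : ℝ, ∀ n, ‖f n‖ ≤ B := by
  refine ⟨∑ n, ‖f n‖, fun n => ?_⟩
  exact Finset.single_le_sum (f := fun n => ‖f n‖) (fun _ _ => norm_nonneg _) (Finset.mem_univ n)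

lemma Kact_summable {κ : ℕ → ℂ} (hκ : Summable fun m => ‖κ m‖) (f : ZMod N → ℂ) (n : ZMod N) :
    Summable fun m : ℕ => κ m * f (n - (m : ZMod N)) := by
  obtain ⟨B, hB⟩ := exists_bound f
  exact summable_bdd hκ (B := B) fun m => hB _

lemma T_psym {κ : ℕ → ℂ} (hκ : Summable fun m => ‖κ m‖) (f : ZMod N → ℂ) : T (psym N κ) f = Kact κ f := by
  apply F_inj; intro j
  rw [F_T]
  unfold F Kact psym
  have h1 : ∀ l : ZMod N, (∑' m : ℕ, κ m * f (l - (m : ZMod N))) * E (j * l)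
      = ∑' m : ℕ, κ m * (f (l - (m : ZMod N)) * E (j * l)) := by
    intro l
    rw [← tsum_mul_right]
    apply tsum_congr; intro m; ring
  simp_rw [h1]
  rw [← Summable.tsum_finsetSum]
  · rw [← tsum_mul_right]
    apply tsum_congr; intro m
    rw [← Finset.mul_sum, mul_assoc]
    congr 1
    rw [Finset.mul_sum, ← Equiv.sum_comp (Equiv.addRight (m : ZMod N)) (fun l => f (l - (m : ZMod N)) * E (j * l))]
    apply Finset.sum_congr rfl; intro l _
    simp only [Equiv.coe_addRight, add_sub_cancel_right]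
    rw [mul_add, E_add]; ring
  · intro l _
    obtain ⟨B, hB⟩ := exists_bound f
    apply summable_bdd hκ (B := B)
    intro m
    rw [norm_mul, E_norm, mul_one]
    exact hB _

lemma N4_tsum_le {a : ℕ → ZMod N → ℂ} (ha : Summable fun m => N4 (a m)) :
    N4 (fun n => ∑' m, a m n) ≤ ∑' m, N4 (a m) := by
  set b : ℕ → PiLp 4 (fun _ : ZMod N => ℂ) := fun m => WithLp.toLp 4 (a m) with hb
  have hbn : Summable fun m => ‖b m‖ := ha
  have hs : Summable b := Summable.of_norm hbn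
  have h1 : (WithLp.toLp 4 (fun n => ∑' m, a m n) : PiLp 4 (fun _ : ZMod N => ℂ)) = ∑' m, b m := by
    ext n
    have h2 := (PiLp.proj (𝕜 := ℂ) 4 (fun _ : ZMod N => ℂ) n).map_tsum hs
    simp only [PiLp.proj_apply] at h2
    rw [h2]
  unfold N4
  rw [h1]
  exact norm_tsum_le_tsum_norm hbn

lemma N2_tsum_le {a : ℕ → ZMod N → ℂ} (ha : Summable fun m => N2 (a m)) :
    N2 (fun n => ∑' m, a m n) ≤ ∑' m, N2 (a m) := by
  set b : ℕ → PiLp 2 (fun _ : ZMod N => ℂ) := fun m => WithLp.toLp 2 (a m) with hb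
  have hbn : Summable fun m => ‖b m‖ := ha
  have hs : Summable b := Summable.of_norm hbn
  have h1 : (WithLp.toLp 2 (fun n => ∑' m, a m n) : PiLp 2 (fun _ : ZMod N => ℂ)) = ∑' m, b m := by
    ext n
    have h2 := (PiLp.proj (𝕜 := ℂ) 2 (fun _ : ZMod N => ℂ) n).map_tsum hs
    simp only [PiLp.proj_apply] at h2
    rw [h2]
  unfold N2
  rw [h1]
  exact norm_tsum_le_tsum_norm hbn

/-- modulus of continuity weight -/
noncomputable def wt (ℓ m : ℕ) : ℝ := 2 * (min 1 ((m : ℝ) / ℓ)) ^ (1 / 4 : ℝ)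

lemma wt_nonneg (ℓ m : ℕ) : 0 ≤ wt ℓ m := by unfold wt; positivity
lemma wt_le (ℓ m : ℕ) : wt ℓ m ≤ 2 := by
  unfold wt
  have : (min 1 ((m : ℝ) / ℓ)) ^ (1 / 4 : ℝ) ≤ 1 :=
    Real.rpow_le_one (by positivity) (min_le_left _ _) (by norm_num)
  linarith

lemma shift_wt {ℓ : ℕ} (hℓ : ℓ ∣ N) (m : ℕ) {g : ZMod N → ℂ} (hg : BC ℓ g) :
    N4 (fun n => g n - g (n - (m : ZMod N))) ≤ wt ℓ m * N4 g := by
  have hN : 0 < N := Nat.pos_of_ne_zero (NeZero.ne N)
  have hpos : 0 < ℓ := Nat.pos_of_dvd_of_pos hℓ hN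
  have hℓR : (0:ℝ) < ℓ := by exact_mod_cast hpos
  rcases le_total m ℓ with h | h
  · apply le_of_pow_le_pow_left₀ (n := 4) (by norm_num) (mul_nonneg (wt_nonneg _ _) (N4_nonneg _))
    have h1 := shift_BC hℓ h hg
    have h2 : wt ℓ m ^ 4 = 16 * (m / ℓ) := by
      have hle : (m : ℝ) / ℓ ≤ 1 := by rw [div_le_one hℓR]; exact_mod_cast h
      rw [wt, min_eq_right hle, mul_pow, ← Real.rpow_natCast (((m : ℝ) / ℓ) ^ (1 / 4 : ℝ)) 4, ← Real.rpow_mul (by positivity)]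
      norm_num
    rw [mul_pow, h2]
    rw [← mul_le_mul_iff_right₀ hℓR]
    calc _ ≤ _ := h1
      _ = _ := by field_simp
  · have h1 : wt ℓ m = 2 := by
      have hle : 1 ≤ (m : ℝ) / ℓ := by rw [le_div_iff₀ hℓR]; simpa using (by exact_mod_cast h : (ℓ:ℝ) ≤ m)
      rw [wt, min_eq_left hle]; simp
    rw [h1]
    calc N4 (fun n => g n - g (n - (m : ZMod N))) ≤ N4 g + N4 (fun n => g (n - (m : ZMod N))) := by
          exact N4_sub_le g (fun n => g (n - (m : ZMod N)))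
      _ = _ := by rw [N4_translate]; ring

end IM
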