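import Pool.Agent.MP58366f.GL2
set_option autoImplicit false
set_option linter.unusedSectionVars false
open Finset
namespace IM
variable {N : ℕ} [NeZero N]

lemma sum_sq_mul_le (a b : ZMod N → ℂ) : (∑ n, ‖a n‖ ^ 2 * ‖b n‖ ^ 2) ≤ N4 a ^ 2 * N4 b ^ 2 := by
  have h := Finset.sum_mul_sq_le_sq_mul_sq (Finset.univ : Finset (ZMod N)) (fun n => ‖a n‖ ^ 2) (fun n => ‖b n‖ ^ 2)
  have h1 : ∑ n, (‖a n‖ ^ 2) ^ 2 = N4 a ^ 4 := by
    rw [N4_pow]; apply Finset.sum_congr rfl; intro n _; ring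
  have h2 : ∑ n, (‖b n‖ ^ 2) ^ 2 = N4 b ^ 4 := by
    rw [N4_pow]; apply Finset.sum_congr rfl; intro n _; ring
  rw [h1, h2] at h
  apply le_of_pow_le_pow_left₀ (two_ne_zero) (by positivity)
  calc _ ≤ _ := h
    _ = _ := by ring

lemma holder4 (a b c d : ZMod N → ℂ) :
    ∑ n, ‖a n‖ * ‖b n‖ * ‖c n‖ * ‖d n‖ ≤ N4 a * N4 b * N4 c * N4 d := by
  have ha := N4_nonneg a
  have hb := N4_nonneg b
  have hc := N4_nonneg c
  have hd := N4_nonneg d
  have h := Finset.sum_mul_sq_le_sq_mul_sq (Finset.univ : Finset (ZMod N)) (fun n => ‖a n‖ * ‖b n‖)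
    (fun n => ‖c n‖ * ‖d n‖)
  have h1 : ∑ n, (‖a n‖ * ‖b n‖) ^ 2 ≤ N4 a ^ 2 * N4 b ^ 2 := by
    refine le_trans (le_of_eq ?_) (sum_sq_mul_le a b)
    apply Finset.sum_congr rfl; intro n _; ring
  have h2 : ∑ n, (‖c n‖ * ‖d n‖) ^ 2 ≤ N4 c ^ 2 * N4 d ^ 2 := by
    refine le_trans (le_of_eq ?_) (sum_sq_mul_le c d)
    apply Finset.sum_congr rfl; intro n _; ring
  apply le_of_pow_le_pow_left₀ (two_ne_zero) (by positivity)
  calc (∑ n, ‖a n‖ * ‖b n‖ * ‖c n‖ * ‖d n‖) ^ 2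
      = (∑ n, (‖a n‖ * ‖b n‖) * (‖c n‖ * ‖d n‖)) ^ 2 := by
        congr 1; apply Finset.sum_congr rfl; intro n _; ring
    _ ≤ _ := h
    _ ≤ (N4 a ^ 2 * N4 b ^ 2) * (N4 c ^ 2 * N4 d ^ 2) := by gcongr
    _ = _ := by ring

lemma N2_mul_le (a b : ZMod N → ℂ) : N2 (fun n => a n * b n) ≤ N4 a * N4 b := by
  have ha := N4_nonneg a
  have hb := N4_nonneg b
  apply le_of_pow_le_pow_left₀ (two_ne_zero) (by positivity)
  rw [N2_sq, mul_pow]
  refine le_trans (le_of_eq ?_) (sum_sq_mul_le a b)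
  apply Finset.sum_congr rfl; intro n _; rw [norm_mul]; ring

lemma N2_add_le (f g : ZMod N → ℂ) : N2 (f + g) ≤ N2 f + N2 g := by
  unfold N2
  rw [WithLp.toLp_add]
  exact norm_add_le _ _

lemma N2_smul (c : ℂ) (f : ZMod N → ℂ) : N2 (c • f) = ‖c‖ * N2 f := by
  unfold N2
  rw [WithLp.toLp_smul]
  exact norm_smul _ _

noncomputable def eta (ℓ : ℕ) (κ : ℕ → ℂ) : ℝ := ∑' m, ‖κ m‖ * wt ℓ m

lemma eta_summable {κ : ℕ → ℂ} (hκ : Summable fun m => ‖κ m‖) (ℓ : ℕ) : Summable fun m => ‖κ m‖ * wt ℓ m :=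
  Summable.of_nonneg_of_le (fun m => mul_nonneg (norm_nonneg _) (wt_nonneg _ _))
    (fun m => mul_le_mul_of_nonneg_left (wt_le ℓ m) (norm_nonneg _)) (hκ.mul_right 2)

lemma eta_nonneg (ℓ : ℕ) (κ : ℕ → ℂ) : 0 ≤ eta ℓ κ :=
  tsum_nonneg fun m => mul_nonneg (norm_nonneg _) (wt_nonneg _ _)

/-- kernel with vanishing sum acting on block-constant functions -/
lemma Kact_BC {ℓ : ℕ} (hℓ : ℓ ∣ N) {κ : ℕ → ℂ} (hκ : Summable fun m => ‖κ m‖) (h0 : ∑' m, κ m = 0)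
    {X : ZMod N → ℂ} (hX : BC ℓ X) : N4 (Kact κ X) ≤ eta ℓ κ * N4 X := by
  have h1 : Kact κ X = fun n => ∑' m : ℕ, κ m * (-(X n - X (n - (m : ZMod N)))) := by
    funext n
    have : ∀ m : ℕ, κ m * (-(X n - X (n - (m : ZMod N)))) = κ m * X (n - (m : ZMod N)) - κ m * X n := by
      intro m; ring
    simp_rw [this]
    rw [Summable.tsum_sub (Kact_summable hκ X n) (hκ.of_norm.mul_right _), tsum_mul_right, h0]
    simp [Kact]
  rw [h1]
  have hb : ∀ m : ℕ, N4 (fun n : ZMod N => κ m * (-(X n - X (n - (m : ZMod N))))) ≤ (‖κ m‖ * wt ℓ m) * N4 X := by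
    intro m
    have h2 : N4 (fun n : ZMod N => κ m * (-(X n - X (n - (m : ZMod N)))))
        = ‖κ m‖ * N4 (fun n : ZMod N => X n - X (n - (m : ZMod N))) := by
      have e1 : (fun n : ZMod N => κ m * (-(X n - X (n - (m : ZMod N)))))
          = (-κ m) • (fun n : ZMod N => X n - X (n - (m : ZMod N))) := by
        funext n; simp; ring
      rw [e1, N4_smul, norm_neg]
    rw [h2, mul_assoc]
    gcongr
    exact shift_wt hℓ m hX
  have hs : Summable fun m : ℕ => N4 (fun n : ZMod N => κ m * (-(X n - X (n - (m : ZMod N))))) :=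
    Summable.of_nonneg_of_le (fun m => N4_nonneg _) hb ((eta_summable hκ ℓ).mul_right _)
  calc _ ≤ ∑' m : ℕ, N4 (fun n : ZMod N => κ m * (-(X n - X (n - (m : ZMod N))))) := N4_tsum_le hs
    _ ≤ ∑' m : ℕ, (‖κ m‖ * wt ℓ m) * N4 X := hs.tsum_le_tsum hb ((eta_summable hκ ℓ).mul_right _)
    _ = _ := by rw [tsum_mul_right]; rfl

/-- linear terms -/
lemma lin_term {ℓ : ℕ} (hℓ : ℓ ∣ N) {κ : ℕ → ℂ} (hκ : Summable fun m => ‖κ m‖)
    {g1 g2 g3 : ZMod N → ℂ} (h1 : BC ℓ g1) (h2 : BC ℓ g2) (h3 : BC ℓ g3) {x : ZMod N → ℂ}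
    (hx : Av ℓ x = 0) :
    ‖∑ n, g1 n * g2 n * g3 n * Kact κ x n‖ ≤ 3 * eta ℓ κ * (N4 g1 * N4 g2 * N4 g3 * N4 x) := by
  set G : ZMod N → ℂ := fun n => g1 n * g2 n * g3 n with hG
  have hGBC : BC ℓ G := (h1.mul h2).mul h3
  have e1 : ∑ n, G n * Kact κ x n = ∑' m : ℕ, κ m * ∑ n, G n * x (n - (m : ZMod N)) := by
    unfold Kact
    have : ∀ n, G n * ∑' m : ℕ, κ m * x (n - (m : ZMod N)) = ∑' m : ℕ, κ m * (G n * x (n - (m : ZMod N))) := by
      intro n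
      rw [← tsum_mul_left]; apply tsum_congr; intro m; ring
    simp_rw [this]
    rw [← Summable.tsum_finsetSum]
    · apply tsum_congr; intro m; rw [Finset.mul_sum]
    · intro n _
      obtain ⟨B, hB⟩ := exists_bound x
      apply summable_bdd hκ (B := ‖G n‖ * B)
      intro m; rw [norm_mul]; gcongr; exact hB _
  have e2 : ∀ m : ℕ, ∑ n, G n * x (n - (m : ZMod N)) = ∑ n, (G n - G (n - (m : ZMod N))) * x (n - (m : ZMod N)) := by
    intro m
    have : ∑ n : ZMod N, G (n - (m : ZMod N)) * x (n - (m : ZMod N)) = 0 := by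
      rw [sum_sub (fun n => G n * x n)]
      exact sum_mul_eq_zero hℓ hGBC hx
    simp_rw [sub_mul]
    rw [Finset.sum_sub_distrib, this, sub_zero]
  have e3 : ∀ m : ℕ, ‖∑ n, G n * x (n - (m : ZMod N))‖ ≤ wt ℓ m * (3 * (N4 g1 * N4 g2 * N4 g3 * N4 x)) := by
    intro m
    rw [e2]
    set τ : (ZMod N → ℂ) → (ZMod N → ℂ) := fun g n => g (n - (m : ZMod N)) with hτ
    set D : (ZMod N → ℂ) → (ZMod N → ℂ) := fun g n => g n - g (n - (m : ZMod N)) with hD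
    have hτN : ∀ g, N4 (τ g) = N4 g := fun g => N4_translate g _
    have hDN : ∀ g, BC ℓ g → N4 (D g) ≤ wt ℓ m * N4 g := fun g hg => shift_wt hℓ m hg
    calc _ ≤ ∑ n, ‖(G n - G (n - (m : ZMod N))) * x (n - (m : ZMod N))‖ := norm_sum_le _ _
      _ ≤ ∑ n, (‖D g1 n‖ * ‖g2 n‖ * ‖g3 n‖ * ‖τ x n‖ + ‖τ g1 n‖ * ‖D g2 n‖ * ‖g3 n‖ * ‖τ x n‖
            + ‖τ g1 n‖ * ‖τ g2 n‖ * ‖D g3 n‖ * ‖τ x n‖) := by
          apply Finset.sum_le_sum; intro n _
          have : (G n - G (n - (m : ZMod N))) * x (n - (m : ZMod N)) =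
              D g1 n * g2 n * g3 n * τ x n + τ g1 n * D g2 n * g3 n * τ x n + τ g1 n * τ g2 n * D g3 n * τ x n := by
            simp only [hG, hD, hτ]; ring
          rw [this]
          refine (norm_add₃_le).trans (le_of_eq ?_)
          simp only [norm_mul]
      _ = (∑ n, ‖D g1 n‖ * ‖g2 n‖ * ‖g3 n‖ * ‖τ x n‖) + (∑ n, ‖τ g1 n‖ * ‖D g2 n‖ * ‖g3 n‖ * ‖τ x n‖)
            + (∑ n, ‖τ g1 n‖ * ‖τ g2 n‖ * ‖D g3 n‖ * ‖τ x n‖) := by
          rw [Finset.sum_add_distrib, Finset.sum_add_distrib]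
      _ ≤ N4 (D g1) * N4 g2 * N4 g3 * N4 (τ x) + N4 (τ g1) * N4 (D g2) * N4 g3 * N4 (τ x)
            + N4 (τ g1) * N4 (τ g2) * N4 (D g3) * N4 (τ x) := by
          gcongr <;> exact holder4 _ _ _ _
      _ ≤ (wt ℓ m * N4 g1) * N4 g2 * N4 g3 * N4 x + N4 g1 * (wt ℓ m * N4 g2) * N4 g3 * N4 x
            + N4 g1 * N4 g2 * (wt ℓ m * N4 g3) * N4 x := by
          have a1 := N4_nonneg g1
          have a2 := N4_nonneg g2
          have a3 := N4_nonneg g3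
          have a4 := N4_nonneg x
          rw [hτN, hτN, hτN]
          have b1 := hDN g1 h1
          have b2 := hDN g2 h2
          have b3 := hDN g3 h3
          gcongr
      _ = _ := by ring
  have hs : Summable fun m : ℕ => ‖κ m‖ * (wt ℓ m * (3 * (N4 g1 * N4 g2 * N4 g3 * N4 x))) := by
    have := (eta_summable hκ ℓ).mul_right (3 * (N4 g1 * N4 g2 * N4 g3 * N4 x))
    refine this.congr fun m => by ring
  rw [e1]
  refine (tsum_of_norm_bounded (g := fun m => ‖κ m‖ * (wt ℓ m * (3 * (N4 g1 * N4 g2 * N4 g3 * N4 x)))) hs.hasSum ?_).trans (le_of_eq ?_)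
  · intro m
    rw [norm_mul]
    gcongr
    exact e3 m
  · have : (fun m => ‖κ m‖ * (wt ℓ m * (3 * (N4 g1 * N4 g2 * N4 g3 * N4 x))))
        = fun m => (‖κ m‖ * wt ℓ m) * (3 * (N4 g1 * N4 g2 * N4 g3 * N4 x)) := by funext m; ring
    rw [this, tsum_mul_right, eta]; ring

/-- commutator -/
lemma comm_N2 {ℓ : ℕ} (hℓ : ℓ ∣ N) {κ : ℕ → ℂ} (hκ : Summable fun m => ‖κ m‖)
    {Y : ZMod N → ℂ} (hY : BC ℓ Y) (x : ZMod N → ℂ) :
    N2 (fun n => Y n * Kact κ x n - Kact κ (fun n => Y n * x n) n) ≤ eta ℓ κ * (N4 Y * N4 x) := by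
  have h1 : (fun n => Y n * Kact κ x n - Kact κ (fun n => Y n * x n) n)
      = fun n => ∑' m : ℕ, κ m * ((Y n - Y (n - (m : ZMod N))) * x (n - (m : ZMod N))) := by
    funext n
    unfold Kact
    rw [← tsum_mul_left, ← Summable.tsum_sub]
    · apply tsum_congr; intro m; ring
    · exact (Kact_summable hκ x n).mul_left _
    · exact Kact_summable hκ (fun n => Y n * x n) n
  rw [h1]
  have hb : ∀ m : ℕ, N2 (fun n : ZMod N => κ m * ((Y n - Y (n - (m : ZMod N))) * x (n - (m : ZMod N))))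
      ≤ (‖κ m‖ * wt ℓ m) * (N4 Y * N4 x) := by
    intro m
    have e1 : (fun n : ZMod N => κ m * ((Y n - Y (n - (m : ZMod N))) * x (n - (m : ZMod N))))
        = (κ m) • (fun n : ZMod N => (Y n - Y (n - (m : ZMod N))) * x (n - (m : ZMod N))) := by
      funext n; simp
    rw [e1, N2_smul, mul_assoc]
    gcongr
    calc _ ≤ N4 (fun n : ZMod N => Y n - Y (n - (m : ZMod N))) * N4 (fun n : ZMod N => x (n - (m : ZMod N))) :=
          N2_mul_le _ _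
      _ ≤ (wt ℓ m * N4 Y) * N4 x := by
          rw [N4_translate]
          have := N4_nonneg x
          gcongr
          exact shift_wt hℓ m hY
      _ = _ := by ring
  have hs : Summable fun m : ℕ => N2 (fun n : ZMod N => κ m * ((Y n - Y (n - (m : ZMod N))) * x (n - (m : ZMod N)))) :=
    Summable.of_nonneg_of_le (fun m => N2_nonneg _) hb ((eta_summable hκ ℓ).mul_right _)
  calc _ ≤ ∑' m : ℕ, N2 (fun n : ZMod N => κ m * ((Y n - Y (n - (m : ZMod N))) * x (n - (m : ZMod N)))) := N2_tsum_le hs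
    _ ≤ ∑' m : ℕ, (‖κ m‖ * wt ℓ m) * (N4 Y * N4 x) := hs.tsum_le_tsum hb ((eta_summable hκ ℓ).mul_right _)
    _ = _ := by rw [tsum_mul_right]; rfl

end IM
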