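import Pool.Agent.MP58366f.GL3
set_option autoImplicit false
set_option linter.unusedSectionVars false
open Finset
namespace IM
variable {N : ℕ} [NeZero N]

/-- Lyapunov function -/
noncomputable def WL (A : ℝ) (X Y : ℂ) : ℝ := A * ‖X‖ ^ 4 + 12 * (‖X‖ ^ 2 * ‖Y‖ ^ 2) - ‖Y‖ ^ 4

lemma norm_add_sq' (X x : ℂ) : ‖X + x‖ ^ 2 = ‖X‖ ^ 2 + 2 * ((starRingEnd ℂ) X * x).re + ‖x‖ ^ 2 := by
  rw [← Complex.normSq_eq_norm_sq, ← Complex.normSq_eq_norm_sq, ← Complex.normSq_eq_norm_sq]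
  simp [Complex.normSq_apply]; ring

lemma re_sq_le (X x : ℂ) : (2 * ((starRingEnd ℂ) X * x).re) ^ 2 ≤ 4 * (‖X‖ ^ 2 * ‖x‖ ^ 2) := by
  have h := Complex.abs_re_le_norm ((starRingEnd ℂ) X * x)
  rw [norm_mul, Complex.norm_conj] at h
  have h2 : ((starRingEnd ℂ) X * x).re ^ 2 ≤ (‖X‖ * ‖x‖) ^ 2 := by
    rw [← sq_abs]
    exact pow_le_pow_left₀ (abs_nonneg _) h 2
  nlinarith

lemma real_lyap (A a e c h p q : ℝ) (hA : 288 ≤ A) (ha : 0 ≤ a) (he : 0 ≤ e) (hh : 0 ≤ h)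
    (hp : p ^ 2 ≤ 4 * (a * e)) (hq : q ^ 2 ≤ 4 * (c * h)) :
    (A - 288) / 8 * e ^ 2 + 12 * (c * e) - 11 * (c * h) - 9 / 4 * h ^ 2 ≤
      (A * (a + p + e) ^ 2 + 12 * ((a + p + e) * (c + q + h)) - (c + q + h) ^ 2)
      - (A * a ^ 2 + 12 * (a * c) - c ^ 2)
      - (2 * A * (a * p) + 12 * (a * q) + 12 * (c * p) - 2 * (c * q)) := by
  set b := p + e with hb
  set d := q + h with hd
  have e1 : (A * (a + p + e) ^ 2 + 12 * ((a + p + e) * (c + q + h)) - (c + q + h) ^ 2)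
      - (A * a ^ 2 + 12 * (a * c) - c ^ 2)
      - (2 * A * (a * p) + 12 * (a * q) + 12 * (c * p) - 2 * (c * q))
      = A * (2 * (a * e) + b ^ 2) + 12 * (a * h + c * e + b * d) - 2 * (c * h) - d ^ 2 := by
    rw [hb, hd]; ring
  rw [e1]
  have h1 : 0 ≤ 288 * b ^ 2 + 12 * (b * d) + d ^ 2 / 8 := by nlinarith [sq_nonneg (48 * b + d)]
  have h2 : d ^ 2 ≤ 8 * (c * h) + 2 * h ^ 2 := by rw [hd]; nlinarith [sq_nonneg (q - h)]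
  have h3 : e ^ 2 / 2 - 4 * (a * e) ≤ b ^ 2 := by rw [hb]; nlinarith [sq_nonneg (p + e), sq_nonneg (e + 2 * p)]
  have h4 : 0 ≤ b ^ 2 := sq_nonneg b
  have h5 : (A - 288) * (e ^ 2 / 8 - a * e) ≤ (A - 288) * b ^ 2 := by
    apply mul_le_mul_of_nonneg_left _ (by linarith)
    nlinarith
  have h6 : 0 ≤ a * e := mul_nonneg ha he
  have h7 : 0 ≤ a * h := mul_nonneg ha hh
  nlinarith [mul_nonneg (by linarith : (0:ℝ) ≤ A) h6]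

lemma point_lyap (A : ℝ) (hA : 288 ≤ A) (X Y x y : ℂ) :
    (A - 288) / 8 * ‖x‖ ^ 4 + 12 * (‖Y‖ ^ 2 * ‖x‖ ^ 2) - 11 * (‖Y‖ ^ 2 * ‖y‖ ^ 2) - 9 / 4 * ‖y‖ ^ 4
      + (4 * A * (‖X‖ ^ 2 * ((starRingEnd ℂ) X * x).re) + 24 * (‖X‖ ^ 2 * ((starRingEnd ℂ) Y * y).re)
        + 24 * (‖Y‖ ^ 2 * ((starRingEnd ℂ) X * x).re) - 4 * (‖Y‖ ^ 2 * ((starRingEnd ℂ) Y * y).re))
      ≤ WL A (X + x) (Y + y) - WL A X Y := by
  have h := real_lyap A (‖X‖ ^ 2) (‖x‖ ^ 2) (‖Y‖ ^ 2) (‖y‖ ^ 2) (2 * ((starRingEnd ℂ) X * x).re)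
    (2 * ((starRingEnd ℂ) Y * y).re) hA (by positivity) (by positivity) (by positivity)
    (re_sq_le X x) (re_sq_le Y y)
  have e1 : ‖X + x‖ ^ 4 = (‖X‖ ^ 2 + 2 * ((starRingEnd ℂ) X * x).re + ‖x‖ ^ 2) ^ 2 := by
    rw [← norm_add_sq']; ring
  have e2 : ‖Y + y‖ ^ 4 = (‖Y‖ ^ 2 + 2 * ((starRingEnd ℂ) Y * y).re + ‖y‖ ^ 2) ^ 2 := by
    rw [← norm_add_sq']; ring
  have e3 := norm_add_sq' X x
  have e4 := norm_add_sq' Y y
  unfold WL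
  rw [e1, e2, e3, e4]
  nlinarith [h]

/-- sum of a real part against a mean-zero function vanishes -/
lemma re_sum_zero {ℓ : ℕ} (hℓ : ℓ ∣ N) {X Z x : ZMod N → ℂ} (hX : BC ℓ X) (hZ : BC ℓ Z)
    (hx : Av ℓ x = 0) : ∑ n, ‖Z n‖ ^ 2 * ((starRingEnd ℂ) (X n) * x n).re = 0 := by
  have h := sum_mul_eq_zero hℓ (G := fun n => ((‖Z n‖ ^ 2 : ℝ) : ℂ) * (starRingEnd ℂ) (X n))
    ((hZ.comp fun z => ((‖z‖ ^ 2 : ℝ) : ℂ)).mul (hX.comp (starRingEnd ℂ))) hx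
  have h2 := congrArg Complex.re h
  rw [Complex.re_sum] at h2
  simp only [Complex.zero_re] at h2
  rw [← h2]
  apply Finset.sum_congr rfl; intro n _
  rw [mul_assoc, Complex.re_ofReal_mul]

/-- the Lyapunov step -/
lemma lyap_step {ℓ ℓ' : ℕ} (hℓ : ℓ ∣ ℓ') (hℓ' : ℓ' ∣ N) {κ : ℕ → ℂ} (hκ : Summable fun m => ‖κ m‖)
    {C : ℝ} (hC : 0 ≤ C) (hMB : MB C (fun j : ZMod N => 1 + psym N κ j))
    (hM2 : ∀ j : ZMod N, ‖1 + psym N κ j‖ ≤ 1) {A : ℝ} (hA : A = 288 + 18 * C ^ 4)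
    {X Y x : ZMod N → ℂ} (hX : BC ℓ' X) (hY : BC ℓ' Y) (hx : Av ℓ' x = 0)
    (hη : eta ℓ' κ ≤ 1) :
    ∑ n, WL A (X n) (Y n) - 117 * eta ℓ' κ * (N4 X + N4 Y + N4 x) ^ 4 ≤
      ∑ n, WL A (X n + x n) (Y n + Av ℓ (T (fun j : ZMod N => 1 + psym N κ j) x) n) := by
  have hA288 : 288 ≤ A := by rw [hA]; nlinarith [pow_nonneg hC 4]
  have hℓN : ℓ ∣ N := hℓ.trans hℓ'
  set η := eta ℓ' κ with hηdef
  have hη0 : 0 ≤ η := eta_nonneg _ _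
  set y := Av ℓ (T (fun j : ZMod N => 1 + psym N κ j) x) with hy
  have hTx : T (fun j : ZMod N => 1 + psym N κ j) x = x + Kact κ x := by
    rw [T_add_symb, T_one, T_psym hκ]
  have nX := N4_nonneg X
  have nY := N4_nonneg Y
  have nx := N4_nonneg x
  -- L1
  have L1 : ∑ n, ‖y n‖ ^ 4 ≤ C ^ 4 * ∑ n, ‖x n‖ ^ 4 := by
    rw [← N4_pow, ← N4_pow, ← mul_pow]
    apply pow_le_pow_left₀ (N4_nonneg _)
    exact (N4_Av_le hℓN _).trans (hMB x)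
  -- L2
  have L2 : ∑ n, ‖Y n‖ ^ 2 * ‖y n‖ ^ 2 ≤ ∑ n, ‖Y n‖ ^ 2 * ‖x n‖ ^ 2 + 3 * η * (N4 Y ^ 2 * N4 x ^ 2) := by
    have a1 : ∑ n, ‖Y n‖ ^ 2 * ‖y n‖ ^ 2 ≤ ∑ n, ‖Y n‖ ^ 2 * ‖(x + Kact κ x) n‖ ^ 2 := by
      rw [hy, hTx]
      exact sum_Av_norm_pow hℓN ((hY.mono hℓ).comp fun z => ‖z‖ ^ 2) (fun _ => by positivity) _ 2
    have a2 : ∑ n, ‖Y n‖ ^ 2 * ‖(x + Kact κ x) n‖ ^ 2 = N2 (fun n => Y n * (x + Kact κ x) n) ^ 2 := by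
      rw [N2_sq]; apply Finset.sum_congr rfl; intro n _; rw [norm_mul]; ring
    have a3 : ∑ n, ‖Y n‖ ^ 2 * ‖x n‖ ^ 2 = N2 (fun n => Y n * x n) ^ 2 := by
      rw [N2_sq]; apply Finset.sum_congr rfl; intro n _; rw [norm_mul]; ring
    have a4 : (fun n => Y n * (x + Kact κ x) n) = T (fun j : ZMod N => 1 + psym N κ j) (fun n => Y n * x n)
        + (fun n => Y n * Kact κ x n - Kact κ (fun n => Y n * x n) n) := by
      rw [T_add_symb, T_one, T_psym hκ]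
      funext n
      simp only [Pi.add_apply]; ring
    have a5 : N2 (fun n => Y n * (x + Kact κ x) n) ≤ N2 (fun n => Y n * x n) + η * (N4 Y * N4 x) := by
      rw [a4]
      refine (N2_add_le _ _).trans ?_
      have b1 := T_N2 (m := fun j : ZMod N => 1 + psym N κ j) zero_le_one hM2 (fun n => Y n * x n)
      have b2 := comm_N2 hℓ' hκ hY x
      rw [one_mul] at b1
      exact add_le_add b1 b2
    have a6 : N2 (fun n => Y n * x n) ≤ N4 Y * N4 x := N2_mul_le _ _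
    rw [a3]
    refine a1.trans ?_
    rw [a2]
    have n2 := N2_nonneg (fun n => Y n * x n)
    have n3 := N2_nonneg (fun n => Y n * (x + Kact κ x) n)
    have hP : 0 ≤ N4 Y * N4 x := by positivity
    calc N2 (fun n => Y n * (x + Kact κ x) n) ^ 2 ≤ (N2 (fun n => Y n * x n) + η * (N4 Y * N4 x)) ^ 2 := by gcongr
      _ = N2 (fun n => Y n * x n) ^ 2 + 2 * η * N2 (fun n => Y n * x n) * (N4 Y * N4 x)
          + η * η * (N4 Y * N4 x) ^ 2 := by ring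
      _ ≤ N2 (fun n => Y n * x n) ^ 2 + 2 * η * (N4 Y * N4 x) * (N4 Y * N4 x)
          + η * 1 * (N4 Y * N4 x) ^ 2 := by gcongr
      _ = _ := by ring
  -- L3
  have L3 : ∀ Z : ZMod N → ℂ, BC ℓ' Z → ∀ V : ZMod N → ℂ, BC ℓ' V →
      |∑ n, ‖Z n‖ ^ 2 * ((starRingEnd ℂ) (V n) * y n).re| ≤ 3 * η * (N4 Z * N4 Z * N4 V * N4 x) := by
    intro Z hZ V hV
    have c1 : ∑ n, (Z n * (starRingEnd ℂ) (Z n) * (starRingEnd ℂ) (V n)) * y n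
        = ∑ n, Z n * (starRingEnd ℂ) (Z n) * (starRingEnd ℂ) (V n) * Kact κ x n := by
      have hBC : BC ℓ' (fun n => Z n * (starRingEnd ℂ) (Z n) * (starRingEnd ℂ) (V n)) :=
        (hZ.mul (hZ.comp (starRingEnd ℂ))).mul (hV.comp (starRingEnd ℂ))
      rw [hy, sum_Av hℓN (hBC.mono hℓ) (T (fun j : ZMod N => 1 + psym N κ j) x), hTx]
      simp only [Pi.add_apply, mul_add]
      rw [Finset.sum_add_distrib, sum_mul_eq_zero hℓ' hBC hx, zero_add]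
    have c2 := lin_term hℓ' hκ hZ (hZ.comp (starRingEnd ℂ)) (hV.comp (starRingEnd ℂ)) hx
    rw [← c1] at c2
    have c3 : N4 (fun n => (starRingEnd ℂ) (Z n)) = N4 Z := N4_congr_norm fun n => Complex.norm_conj _
    have c4 : N4 (fun n => (starRingEnd ℂ) (V n)) = N4 V := N4_congr_norm fun n => Complex.norm_conj _
    rw [c3, c4] at c2
    refine le_trans ?_ c2
    refine le_trans (le_of_eq ?_) (Complex.abs_re_le_norm _)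
    congr 1
    rw [Complex.re_sum]
    apply Finset.sum_congr rfl; intro n _
    have : Z n * (starRingEnd ℂ) (Z n) * (starRingEnd ℂ) (V n) * y n
        = ((‖Z n‖ ^ 2 : ℝ) : ℂ) * ((starRingEnd ℂ) (V n) * y n) := by
      rw [Complex.mul_conj, Complex.normSq_eq_norm_sq]; ring
    rw [this, Complex.re_ofReal_mul]
  have Z1 := re_sum_zero hℓ' hX hX hx
  have Z2 := re_sum_zero hℓ' hX hY hx
  have L3a := L3 X hX Y hY
  have L3b := L3 Y hY Y hY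
  have key : ∑ n, ((A - 288) / 8 * ‖x n‖ ^ 4 + 12 * (‖Y n‖ ^ 2 * ‖x n‖ ^ 2) - 11 * (‖Y n‖ ^ 2 * ‖y n‖ ^ 2)
      - 9 / 4 * ‖y n‖ ^ 4
      + (4 * A * (‖X n‖ ^ 2 * ((starRingEnd ℂ) (X n) * x n).re) + 24 * (‖X n‖ ^ 2 * ((starRingEnd ℂ) (Y n) * y n).re)
        + 24 * (‖Y n‖ ^ 2 * ((starRingEnd ℂ) (X n) * x n).re) - 4 * (‖Y n‖ ^ 2 * ((starRingEnd ℂ) (Y n) * y n).re)))
      ≤ ∑ n, (WL A (X n + x n) (Y n + y n) - WL A (X n) (Y n)) :=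
    Finset.sum_le_sum fun n _ => point_lyap A hA288 _ _ _ _
  simp only [Finset.sum_add_distrib, Finset.sum_sub_distrib, ← Finset.mul_sum] at key
  rw [Z1, Z2] at key
  have hS : 117 * η * (N4 X + N4 Y + N4 x) ^ 4 ≥ 24 * (3 * η * (N4 X * N4 X * N4 Y * N4 x))
      + 4 * (3 * η * (N4 Y * N4 Y * N4 Y * N4 x)) + 11 * (3 * η * (N4 Y ^ 2 * N4 x ^ 2)) := by
    set S := N4 X + N4 Y + N4 x
    have s1 : N4 X ≤ S := by simp only [S]; linarith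
    have s2 : N4 Y ≤ S := by simp only [S]; linarith
    have s3 : N4 x ≤ S := by simp only [S]; linarith
    have s0 : 0 ≤ S := by positivity
    calc 24 * (3 * η * (N4 X * N4 X * N4 Y * N4 x))
      + 4 * (3 * η * (N4 Y * N4 Y * N4 Y * N4 x)) + 11 * (3 * η * (N4 Y ^ 2 * N4 x ^ 2))
        ≤ 24 * (3 * η * (S * S * S * S))
      + 4 * (3 * η * (S * S * S * S)) + 11 * (3 * η * (S ^ 2 * S ^ 2)) := by gcongr
      _ = 117 * η * S ^ 4 := by ring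
      _ ≤ _ := le_rfl
  have hC4 : (A - 288) / 8 * ∑ n, ‖x n‖ ^ 4 - 9 / 4 * ∑ n, ‖y n‖ ^ 4 ≥ 0 := by
    rw [hA]
    have : 0 ≤ ∑ n, ‖x n‖ ^ 4 := by positivity
    nlinarith
  have habs1 := (abs_le.1 L3a)
  have habs2 := (abs_le.1 L3b)
  have hpos : 0 ≤ ∑ n, ‖Y n‖ ^ 2 * ‖x n‖ ^ 2 := by positivity
  linarith [habs1.1, habs1.2, habs2.1, habs2.2]

end IM
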