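import Mathlib

set_option autoImplicit false
open Finset

namespace MTMult

/-- the Lyapunov function -/
noncomputable def W (X Y : ℂ) : ℝ := 25 * ‖X‖ ^ 4 + 10 * ‖X‖ ^ 2 * ‖Y‖ ^ 2 - ‖Y‖ ^ 4

theorem nsq_add (X x : ℂ) : ‖X + x‖ ^ 2 = ‖X‖ ^ 2 + ‖x‖ ^ 2 + 2 * (X.re * x.re + X.im * x.im) := by
  simp only [Complex.sq_norm, Complex.normSq_apply, Complex.add_re, Complex.add_im]
  ring

theorem nsq_sub (X x : ℂ) : ‖X - x‖ ^ 2 = ‖X‖ ^ 2 + ‖x‖ ^ 2 - 2 * (X.re * x.re + X.im * x.im) := by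
  simp only [Complex.sq_norm, Complex.normSq_apply, Complex.sub_re, Complex.sub_im]
  ring

theorem inner_sq (X x : ℂ) : (X.re * x.re + X.im * x.im) ^ 2 ≤ ‖X‖ ^ 2 * ‖x‖ ^ 2 := by
  simp only [Complex.sq_norm, Complex.normSq_apply]
  nlinarith [sq_nonneg (X.re * x.im - X.im * x.re)]

theorem W_avg (X Y x y : ℂ) (h : ‖y‖ ≤ ‖x‖) :
    2 * W X Y ≤ W (X + x) (Y + y) + W (X - x) (Y - y) := by
  unfold W
  have e4 : ∀ z : ℂ, ‖z‖ ^ 4 = (‖z‖ ^ 2) ^ 2 := fun z => by ring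
  simp only [e4, nsq_add, nsq_sub]
  set a := ‖X‖ ^ 2
  set e := ‖x‖ ^ 2
  set c := ‖Y‖ ^ 2
  set hh := ‖y‖ ^ 2
  set p := X.re * x.re + X.im * x.im
  set q := Y.re * y.re + Y.im * y.im
  have ha : 0 ≤ a := by positivity
  have he : 0 ≤ e := by positivity
  have hc : 0 ≤ c := by positivity
  have hh0 : 0 ≤ hh := by positivity
  have hhe : hh ≤ e := by
    have := norm_nonneg y
    exact pow_le_pow_left₀ this h 2
  have hq : q ^ 2 ≤ c * hh := inner_sq Y y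
  have h1 : 0 ≤ (5 * p + q) ^ 2 := sq_nonneg _
  have h2 : 0 ≤ a * e := mul_nonneg ha he
  have h3 : 0 ≤ a * hh := mul_nonneg ha hh0
  have h4 : 0 ≤ e * hh := mul_nonneg he hh0
  have h5 : c * hh ≤ c * e := mul_le_mul_of_nonneg_left hhe hc
  have h6 : hh ^ 2 ≤ e ^ 2 := pow_le_pow_left₀ hh0 hhe 2
  nlinarith

theorem W_le (X Y : ℂ) : ‖Y‖ ^ 4 ≤ 150 * ‖X‖ ^ 4 - 2 * W X Y := by
  unfold W
  have e4 : ∀ z : ℂ, ‖z‖ ^ 4 = (‖z‖ ^ 2) ^ 2 := fun z => by ring
  rw [e4, e4]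
  nlinarith [sq_nonneg (10 * ‖X‖ ^ 2 - ‖Y‖ ^ 2)]

theorem W_nonneg (X Y : ℂ) (h : ‖Y‖ ≤ ‖X‖) : 0 ≤ W X Y := by
  unfold W
  have h4 : ‖Y‖ ^ 4 ≤ ‖X‖ ^ 4 := pow_le_pow_left₀ (norm_nonneg _) h 4
  have : 0 ≤ ‖X‖ ^ 4 := by positivity
  have : 0 ≤ ‖X‖ ^ 2 * ‖Y‖ ^ 2 := by positivity
  nlinarith

variable {N : ℕ} [NeZero N]

/-- twisted shift -/
noncomputable def S (α : ℝ) (f : ZMod N → ℂ) : ZMod N → ℂ :=
  fun n => Complex.exp (α * Complex.I) * f (n + 1)

noncomputable def S' (α : ℝ) (f : ZMod N → ℂ) : ZMod N → ℂ :=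
  fun n => Complex.exp (-(α * Complex.I)) * f (n - 1)

noncomputable def P (α : ℝ) (f : ZMod N → ℂ) : ZMod N → ℂ :=
  fun n => (f n + S α f n) / 2

omit [NeZero N] in
theorem P_S (α : ℝ) (f : ZMod N → ℂ) : P α (S α f) = S α (P α f) := by
  funext n
  simp only [P, S]
  ring

theorem Pit_S (α : ℝ) (m : ℕ) (f : ZMod N → ℂ) : (P α)^[m] (S α f) = S α ((P α)^[m] f) := by
  induction m with
  | zero => rfl
  | succ m ih => rw [Function.iterate_succ_apply', Function.iterate_succ_apply', ih, P_S]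

omit [NeZero N] in
theorem norm_S (α : ℝ) (f : ZMod N → ℂ) (n : ZMod N) : ‖S α f n‖ = ‖f (n + 1)‖ := by
  simp only [S, norm_mul, Complex.norm_exp_ofReal_mul_I, one_mul]

omit [NeZero N] in
theorem norm_S' (α : ℝ) (f : ZMod N → ℂ) (n : ZMod N) : ‖S' α f n‖ = ‖f (n - 1)‖ := by
  simp only [S', norm_mul]
  have : -((α : ℂ) * Complex.I) = ((-α : ℝ) : ℂ) * Complex.I := by push_cast; ring
  rw [this, Complex.norm_exp_ofReal_mul_I, one_mul]

theorem sum_S (α : ℝ) (f : ZMod N → ℂ) (F : ℝ → ℝ) :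
    ∑ n, F ‖S α f n‖ = ∑ n, F ‖f n‖ := by
  simp only [norm_S]
  exact Equiv.sum_comp (Equiv.addRight (1 : ZMod N)) (fun n => F ‖f n‖)

theorem sum_S' (α : ℝ) (f : ZMod N → ℂ) (F : ℝ → ℝ) :
    ∑ n, F ‖S' α f n‖ = ∑ n, F ‖f n‖ := by
  simp only [norm_S']
  exact Equiv.sum_comp (Equiv.subRight (1 : ZMod N)) (fun n => F ‖f n‖)

/-- the recursively defined transform -/
noncomputable def R (α : ℝ) (φ : ℕ → ℂ) : ℕ → (ZMod N → ℂ) → (ZMod N → ℂ) → (ZMod N → ℂ)
  | 0, _, y => y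
  | m + 1, g, y => fun n =>
      (R α φ m g (fun z => y z + φ m * ((P α)^[m] g z - (P α)^[m + 1] g z)) n +
        S' α (R α φ m (S α g)
          (fun z => y z + φ m * ((P α)^[m] (S α g) z - (P α)^[m + 1] g z))) n) / 2

theorem pow4_avg (u v : ℂ) : ‖(u + v) / 2‖ ^ 4 ≤ (‖u‖ ^ 4 + ‖v‖ ^ 4) / 2 := by
  have h1 : ‖(u + v) / 2‖ ≤ (‖u‖ + ‖v‖) / 2 := by
    rw [norm_div, Complex.norm_ofNat]
    have := norm_add_le u v
    linarith
  have h2 : ‖(u + v) / 2‖ ^ 4 ≤ ((‖u‖ + ‖v‖) / 2) ^ 4 := pow_le_pow_left₀ (norm_nonneg _) h1 4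
  have h3 := norm_nonneg u
  have h4 := norm_nonneg v
  have h5 : ((‖u‖ + ‖v‖) / 2) ^ 2 ≤ (‖u‖ ^ 2 + ‖v‖ ^ 2) / 2 := by nlinarith [sq_nonneg (‖u‖ - ‖v‖)]
  have h6 : (((‖u‖ + ‖v‖) / 2) ^ 2) ^ 2 ≤ ((‖u‖ ^ 2 + ‖v‖ ^ 2) / 2) ^ 2 :=
    pow_le_pow_left₀ (by positivity) h5 2
  nlinarith [sq_nonneg (‖u‖ ^ 2 - ‖v‖ ^ 2)]

theorem R_bound (α : ℝ) (φ : ℕ → ℂ) (C : ℝ) (m : ℕ) (hφ : ∀ i < m, ‖φ i‖ ≤ C)
    (hC : 0 ≤ C) (g y : ZMod N → ℂ) :
    ∑ n, ‖R α φ m g y n‖ ^ 4 ≤ 150 * C ^ 4 * ∑ n, ‖g n‖ ^ 4 -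
      2 * ∑ n, W (C * (P α)^[m] g n) (y n) := by
  induction m generalizing g y with
  | zero =>
    simp only [R, Function.iterate_zero, id]
    rw [Finset.mul_sum, Finset.mul_sum, ← Finset.sum_sub_distrib]
    apply Finset.sum_le_sum
    intro n _
    have h := W_le (C * g n) (y n)
    rw [norm_mul, Complex.norm_real, Real.norm_eq_abs, abs_of_nonneg hC, mul_pow] at h
    linarith
  | succ m ih =>
    have hφ' : ∀ i < m, ‖φ i‖ ≤ C := fun i hi => hφ i (by omega)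
    set y1 : ZMod N → ℂ := fun z => y z + φ m * ((P α)^[m] g z - (P α)^[m + 1] g z) with hy1
    set y2 : ZMod N → ℂ := fun z => y z + φ m * ((P α)^[m] (S α g) z - (P α)^[m + 1] g z) with hy2
    have i1 := ih hφ' g y1
    have i2 := ih hφ' (S α g) y2
    have h1 : ∑ n, ‖R α φ (m + 1) g y n‖ ^ 4 ≤
        (∑ n, ‖R α φ m g y1 n‖ ^ 4 + ∑ n, ‖R α φ m (S α g) y2 n‖ ^ 4) / 2 := by
      rw [← sum_S' α (R α φ m (S α g) y2) (fun x => x ^ 4), ← Finset.sum_add_distrib,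
        Finset.sum_div]
      apply Finset.sum_le_sum
      intro n _
      simp only [R]
      exact pow4_avg _ _
    have h2 : ∑ n, ‖S α g n‖ ^ 4 = ∑ n, ‖g n‖ ^ 4 := sum_S α g (fun x => x ^ 4)
    rw [h2] at i2
    have h3 : 2 * ∑ n, W (C * (P α)^[m + 1] g n) (y n) ≤
        ∑ n, W (C * (P α)^[m] g n) (y1 n) + ∑ n, W (C * (P α)^[m] (S α g) n) (y2 n) := by
      rw [Finset.mul_sum, ← Finset.sum_add_distrib]
      apply Finset.sum_le_sum
      intro n _
      set X := (P α)^[m + 1] g n with hX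
      set x := (P α)^[m] (S α g) n - X with hx
      have e1 : (P α)^[m] g n = X - x := by
        rw [hx, hX, Function.iterate_succ_apply', Pit_S]
        simp only [P]
        ring
      have e2 : (P α)^[m] (S α g) n = X + x := by rw [hx]; ring
      have e3 : y1 n = y n - φ m * x := by
        simp only [hy1]
        rw [e1]
        ring
      have e4 : y2 n = y n + φ m * x := rfl
      rw [e1, e3, e2, e4, mul_sub, mul_add]
      have := W_avg (C * X) (y n) (C * x) (φ m * x) (by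
        rw [norm_mul, norm_mul, Complex.norm_real, Real.norm_eq_abs, abs_of_nonneg hC]
        exact mul_le_mul_of_nonneg_right (hφ m (by omega)) (norm_nonneg _))
      linarith
    linarith

/-! ### Fourier side -/

noncomputable def hat (f : ZMod N → ℂ) (j : ZMod N) : ℂ := ∑ l, f l * ZMod.stdAddChar (j * l)

theorem hat_inv (f : ZMod N → ℂ) (n : ZMod N) :
    f n = (1 / (N : ℂ)) * ∑ j, hat f j * ZMod.stdAddChar (-(j * n)) := by
  have hN : (N : ℂ) ≠ 0 := by exact_mod_cast (NeZero.ne N)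
  have h1 : ∑ j, hat f j * ZMod.stdAddChar (-(j * n)) =
      ∑ l, f l * ∑ j : ZMod N, ZMod.stdAddChar (j * (l - n)) := by
    simp only [hat, Finset.sum_mul, Finset.mul_sum]
    rw [Finset.sum_comm]
    apply Finset.sum_congr rfl; intro l _
    apply Finset.sum_congr rfl; intro j _
    rw [mul_assoc, ← AddChar.map_add_eq_mul]
    congr 2
    ring
  rw [h1]
  have h2 : ∀ l : ZMod N, ∑ j : ZMod N, (ZMod.stdAddChar (j * (l - n)) : ℂ) =
      if l = n then (N : ℂ) else 0 := by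
    intro l
    rw [AddChar.sum_mulShift (l - n) (ZMod.isPrimitive_stdAddChar N)]
    simp only [sub_eq_zero, ZMod.card]
    split_ifs <;> simp
  simp only [h2, mul_ite, mul_zero, Finset.sum_ite_eq', Finset.mem_univ, if_true]
  field_simp

noncomputable def sg (α : ℝ) (j : ZMod N) : ℂ :=
  Complex.exp (α * Complex.I) * ZMod.stdAddChar (-j)

noncomputable def sg' (α : ℝ) (j : ZMod N) : ℂ :=
  Complex.exp (-(α * Complex.I)) * ZMod.stdAddChar j

theorem sg_mul (α : ℝ) (j : ZMod N) : sg α j * sg' α j = 1 := by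
  simp only [sg, sg']
  rw [mul_mul_mul_comm, ← Complex.exp_add, ← AddChar.map_add_eq_mul]
  simp

theorem hat_S (α : ℝ) (f : ZMod N → ℂ) (j : ZMod N) : hat (S α f) j = sg α j * hat f j := by
  simp only [hat, S, sg]
  rw [← Equiv.sum_comp (Equiv.addRight (1 : ZMod N)) (fun l => f l * ZMod.stdAddChar (j * l)),
    Finset.mul_sum]
  apply Finset.sum_congr rfl
  intro l _
  simp only [Equiv.coe_addRight]
  have : (ZMod.stdAddChar (j * l) : ℂ) = ZMod.stdAddChar (-j) * ZMod.stdAddChar (j * (l + 1)) := by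
    rw [← AddChar.map_add_eq_mul]; congr 1; ring
  rw [this]; ring

theorem hat_S' (α : ℝ) (f : ZMod N → ℂ) (j : ZMod N) : hat (S' α f) j = sg' α j * hat f j := by
  simp only [hat, S', sg']
  rw [← Equiv.sum_comp (Equiv.subRight (1 : ZMod N)) (fun l => f l * ZMod.stdAddChar (j * l)),
    Finset.mul_sum]
  apply Finset.sum_congr rfl
  intro l _
  simp only [Equiv.subRight_apply]
  have : (ZMod.stdAddChar (j * l) : ℂ) = ZMod.stdAddChar j * ZMod.stdAddChar (j * (l - 1)) := by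
    rw [← AddChar.map_add_eq_mul]; congr 1; ring
  rw [this]; ring

theorem hat_P (α : ℝ) (f : ZMod N → ℂ) (j : ZMod N) :
    hat (P α f) j = (1 + sg α j) / 2 * hat f j := by
  have h : hat (P α f) j = (hat f j + hat (S α f) j) / 2 := by
    simp only [hat, P]
    rw [← Finset.sum_add_distrib, Finset.sum_div]
    apply Finset.sum_congr rfl
    intro l _
    ring
  rw [h, hat_S]; ring

theorem hat_Pit (α : ℝ) (m : ℕ) (f : ZMod N → ℂ) (j : ZMod N) :
    hat ((P α)^[m] f) j = ((1 + sg α j) / 2) ^ m * hat f j := by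
  induction m with
  | zero => simp
  | succ m ih => rw [Function.iterate_succ_apply', hat_P, ih]; ring

theorem hat_comb (y u v : ZMod N → ℂ) (a : ℂ) (j : ZMod N) :
    hat (fun z => y z + a * (u z - v z)) j = hat y j + a * (hat u j - hat v j) := by
  simp only [hat]
  rw [← Finset.sum_sub_distrib, Finset.mul_sum, ← Finset.sum_add_distrib]
  apply Finset.sum_congr rfl
  intro l _
  ring

theorem hat_R (α : ℝ) (φ : ℕ → ℂ) (m : ℕ) (g y : ZMod N → ℂ) (j : ZMod N) :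
    hat (R α φ m g y) j = ((1 + sg' α j) / 2) ^ m * hat y j +
      (∑ i ∈ range m, φ i * ((((1 + sg α j) / 2) * ((1 + sg' α j) / 2)) ^ i -
        (((1 + sg α j) / 2) * ((1 + sg' α j) / 2)) ^ (i + 1))) * hat g j := by
  induction m generalizing g y with
  | zero => simp [R]
  | succ m ih =>
    set y1 : ZMod N → ℂ := fun z => y z + φ m * ((P α)^[m] g z - (P α)^[m + 1] g z) with hy1
    set y2 : ZMod N → ℂ := fun z => y z + φ m * ((P α)^[m] (S α g) z - (P α)^[m + 1] g z) with hy2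
    have h1 : hat (R α φ (m + 1) g y) j =
        (hat (R α φ m g y1) j + hat (S' α (R α φ m (S α g) y2)) j) / 2 := by
      simp only [hat, R]
      rw [← Finset.sum_add_distrib, Finset.sum_div]
      apply Finset.sum_congr rfl
      intro l _
      ring
    rw [h1, hat_S', ih, ih, Finset.sum_range_succ, hy1, hy2, hat_comb, hat_comb, hat_Pit, hat_Pit,
      hat_Pit, hat_S]
    have hs := sg_mul α j
    set s := sg α j
    set s' := sg' α j
    set a := hat g j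
    set b := hat y j
    set U := ∑ i ∈ range m, φ i * ((((1 + s) / 2) * ((1 + s') / 2)) ^ i -
        (((1 + s) / 2) * ((1 + s') / 2)) ^ (i + 1))
    have e1 : s' * (U * (s * a)) = U * a * (s * s') := by ring
    have e2 : ((1 + s) / 2 * ((1 + s') / 2)) ^ m = ((1 + s) / 2) ^ m * ((1 + s') / 2) ^ m :=
      mul_pow _ _ _
    have e3 : ((1 + s) / 2 * ((1 + s') / 2)) ^ (m + 1) =
      ((1 + s) / 2) ^ m * ((1 + s') / 2) ^ m * ((1 + s) / 2 * ((1 + s') / 2)) := by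
      rw [pow_succ, mul_pow]
    rw [e2, e3, pow_succ ((1 + s') / 2), pow_succ ((1 + s) / 2)]
    set p := ((1 + s) / 2) ^ m
    set p' := ((1 + s') / 2) ^ m
    linear_combination (U * a / 2 + p' * φ m * p * a / 2) * hs


theorem abel (c : ℕ → ℂ) (q : ℂ) (K : ℕ) :
    ∑ i ∈ range K, (∑ r ∈ range (i + 1), c r) * (q ^ i - q ^ (i + 1)) +
      (∑ r ∈ range (K + 1), c r) * q ^ K = ∑ i ∈ range (K + 1), c i * q ^ i := by
  induction K with
  | zero => simp
  | succ K ih =>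
    rw [Finset.sum_range_succ, Finset.sum_range_succ c (K + 1),
      Finset.sum_range_succ _ (K + 1), ← ih]
    ring

theorem symbol (α : ℝ) (j : ZMod N) :
    ((1 + sg α j) / 2) * ((1 + sg' α j) / 2) =
      (((Real.cos ((2 * Real.pi * (j.val : ℝ) / N - α) / 2)) ^ 2 : ℝ) : ℂ) := by
  have h1 : (ZMod.stdAddChar j : ℂ) =
      Complex.exp ((2 * Real.pi * (j.val : ℝ) / N : ℝ) * Complex.I) := by
    rw [ZMod.stdAddChar_apply, ZMod.toCircle_apply]
    congr 1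
    push_cast
    ring
  have h2 : (ZMod.stdAddChar (-j) : ℂ) =
      Complex.exp (-((2 * Real.pi * (j.val : ℝ) / N : ℝ) * Complex.I)) := by
    rw [AddChar.map_neg_eq_inv, h1, Complex.exp_neg]
  have h3 : sg α j + sg' α j = 2 * Real.cos (2 * Real.pi * (j.val : ℝ) / N - α) := by
    simp only [sg, sg']
    rw [h1, h2, ← Complex.exp_add, ← Complex.exp_add, Complex.ofReal_cos, Complex.two_cos,
      add_comm]
    congr 1 <;> congr 1 <;> push_cast <;> ring
  have h4 := sg_mul α j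
  have h5 : Real.cos (2 * Real.pi * (j.val : ℝ) / N - α) =
      2 * Real.cos ((2 * Real.pi * (j.val : ℝ) / N - α) / 2) ^ 2 - 1 := by
    rw [← Real.cos_two_mul]; congr 1; ring
  rw [h5] at h3
  push_cast at h3 ⊢
  linear_combination h4 / 4 + h3 / 4

end MTMult

open MTMult in
/-- Martingale-transform multipliers on `ℓ⁴(ZMod N)`.
For a coefficient sequence `c` all of whose partial sums up to `K` are bounded by `C`, the Fourier multiplier on
`ZMod N` with symbol `∑_{i ≤ K} c i * cos²((2πj/N - α)/2)^i` has ℓ⁴ norm at most `4 C`. -/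
theorem mt_multiplier (N : ℕ) [NeZero N] (α : ℝ) (c : ℕ → ℂ) (K : ℕ) (C : ℝ)
    (hc : ∀ k ≤ K, ‖∑ i ∈ range (k + 1), c i‖ ≤ C) (f : ZMod N → ℂ) :
    ∑ n : ZMod N, ‖(1 / (N : ℂ)) * ∑ j : ZMod N, ∑ l : ZMod N,
        (∑ i ∈ range (K + 1), c i * (((Real.cos ((2 * Real.pi * (j.val : ℝ) / N - α) / 2)) ^ 2 : ℝ) : ℂ) ^ i)
        * f l * ZMod.stdAddChar (j * (l - n))‖ ^ 4
      ≤ (4 * C) ^ 4 * ∑ n : ZMod N, ‖f n‖ ^ 4 := by
  have hC : 0 ≤ C := (norm_nonneg _).trans (hc 0 (Nat.zero_le K))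
  set φ : ℕ → ℂ := fun k => ∑ i ∈ range (k + 1), c i with hφ
  set y : ZMod N → ℂ := fun z => φ K * (P α)^[K] f z with hy
  have h1 : ∀ j, hat (R α φ K f y) j = (∑ i ∈ range (K + 1), c i *
      (((Real.cos ((2 * Real.pi * (j.val : ℝ) / N - α) / 2)) ^ 2 : ℝ) : ℂ) ^ i) * hat f j := by
    intro j
    rw [hat_R, ← symbol, ← abel c _ K]
    have h2 : hat y j = φ K * (((1 + sg α j) / 2) ^ K * hat f j) := by
      rw [← hat_Pit]
      simp only [hat, hy, Finset.mul_sum]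
      apply Finset.sum_congr rfl
      intro l _
      ring
    rw [h2, mul_pow ((1 + sg α j) / 2) ((1 + sg' α j) / 2) K]
    simp only [hφ]
    ring
  have h2 : ∀ n : ZMod N, (1 / (N : ℂ)) * ∑ j : ZMod N, ∑ l : ZMod N,
        (∑ i ∈ range (K + 1), c i * (((Real.cos ((2 * Real.pi * (j.val : ℝ) / N - α) / 2)) ^ 2 : ℝ) : ℂ) ^ i)
        * f l * ZMod.stdAddChar (j * (l - n)) = R α φ K f y n := by
    intro n
    rw [hat_inv (R α φ K f y) n]
    congr 1
    apply Finset.sum_congr rfl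
    intro j _
    rw [h1]
    generalize (∑ i ∈ range (K + 1), c i *
      (((Real.cos ((2 * Real.pi * (j.val : ℝ) / N - α) / 2)) ^ 2 : ℝ) : ℂ) ^ i) = Sym
    simp only [hat]
    rw [Finset.mul_sum, Finset.sum_mul]
    apply Finset.sum_congr rfl
    intro l _
    have : (ZMod.stdAddChar (j * (l - n)) : ℂ) =
        ZMod.stdAddChar (j * l) * ZMod.stdAddChar (-(j * n)) := by
      rw [← AddChar.map_add_eq_mul]; congr 1; ring
    rw [this]; ring
  simp only [h2]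
  refine (R_bound α φ C K (fun i hi => hc i hi.le) hC f y).trans ?_
  have h3 : 0 ≤ ∑ n, W (C * (P α)^[K] f n) (y n) := by
    apply Finset.sum_nonneg
    intro n _
    apply W_nonneg
    simp only [hy]
    rw [norm_mul, norm_mul, Complex.norm_real, Real.norm_eq_abs, abs_of_nonneg hC]
    exact mul_le_mul_of_nonneg_right (hc K le_rfl) (norm_nonneg _)
  have h4 : 0 ≤ ∑ n : ZMod N, ‖f n‖ ^ 4 := Finset.sum_nonneg fun n _ => by positivity
  have h5 : 0 ≤ C ^ 4 * ∑ n : ZMod N, ‖f n‖ ^ 4 := by positivity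
  have h6 : (4 * C) ^ 4 * ∑ n : ZMod N, ‖f n‖ ^ 4 = 256 * (C ^ 4 * ∑ n : ZMod N, ‖f n‖ ^ 4) := by
    ring
  rw [h6]
  linarith
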